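import Pool.Agent.Lib.MP_edb0ca_an.Ker

set_option linter.unusedSectionVars false
set_option linter.unusedVariables false

open Polynomial OnePoint Topology Filter MeasureTheory

namespace BerkFix

variable {K : Type*} [NormedField K] [IsUltrametricDist K] [IsAlgClosed K]

/-! ### potential on the Berkovich line -/

lemma kap_center {c c' : K} {r : ℝ} (hr : 0 < r) (h : ‖c - c'‖ ≤ r) (x : P1 K) : kap c r x = kap c' r x := by
  induction x using OnePoint.rec with
  | infty => rfl
  | coe y =>
    rw [kap_coe, kap_coe]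
    have h1 : max (y (X - C c)) r = max (y (X - C c')) r := by
      apply le_antisymm
      · exact max_le ((y.lin_le c c').trans (max_le (le_max_left _ _) (h.trans (le_max_right _ _)))) (le_max_right _ _)
      · rw [norm_sub_rev] at h
        exact max_le ((y.lin_le c' c).trans (max_le (le_max_left _ _) (h.trans (le_max_right _ _)))) (le_max_right _ _)
    rw [h1]

lemma Mz_center {c c' : K} {r : ℝ} (hr : 0 < r) (h : ‖c - c'‖ ≤ r) : Mz c r = Mz c' r := by
  have h1 : (zt c r hr : A1 K) = zt c' r hr := zt_eq_iff.2 ⟨rfl, h⟩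
  rw [Mz_eq c hr, Mz_eq c' hr, h1]

lemma kz_center {c c' : K} {r : ℝ} (hr : 0 < r) (h : ‖c - c'‖ ≤ r) (x : P1 K) : kz c r x = kz c' r x := by
  unfold kz
  rw [kap_center hr h, Mz_center hr h]

/-- the potential as a function on the Berkovich line (at points `ζ(c,r)`) -/
noncomputable def gP (ρ : Measure (P1 K)) (x : P1 K) : ℝ := gU ρ (prm x).1 (prm x).2

lemma gP_zt (ρ : Measure (P1 K)) (c : K) {r : ℝ} (hr : 0 < r) : gP ρ (zt c r hr : P1 K) = gU ρ c r := by
  have h : IsZt (zt c r hr : P1 K) := ⟨(c, r), hr, rfl⟩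
  obtain ⟨hr', h1⟩ := prm_spec h
  rw [OnePoint.coe_eq_coe, zt_eq_iff] at h1
  unfold gP gU
  rw [← h1.1]
  congr 1
  funext x
  exact (kz_center hr h1.2 x).symm

lemma isZt_zt (c : K) {r : ℝ} (hr : 0 < r) : IsZt (zt c r hr : P1 K) := ⟨(c, r), hr, rfl⟩

lemma IsZt.map {R : RMap K} (hR : 1 ≤ R.deg) {x : P1 K} (hx : IsZt x) : IsZt (R.map x) := by
  obtain ⟨⟨c, r⟩, hr, rfl⟩ := hx
  obtain ⟨b, s, hI⟩ := exists_Im R hR c hr
  exact ⟨(b, s), hI.1, hI.map_zt hR⟩

lemma IsZt.iterate {R : RMap K} (hR : 1 ≤ R.deg) {x : P1 K} (hx : IsZt x) (n : ℕ) : IsZt (R.map^[n] x) := by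
  induction n with
  | zero => exact hx
  | succ n ih => rw [Function.iterate_succ_apply']; exact ih.map hR

lemma IsZt.hyp {x : P1 K} (hx : IsZt x) : Hyp x := by
  obtain ⟨⟨c, r⟩, hr, rfl⟩ := hx
  exact hyp_zt c hr

variable {R : RMap K} {ρ : Measure (P1 K)}

theorem gP_eq (hR : 1 ≤ R.deg) (h : IsEquilibrium R ρ) : ∃ k₀ : ℝ, ∀ x : P1 K, IsZt x →
    R.deg * gP ρ x = gP ρ (R.map x) + hh R x + k₀ := by
  obtain ⟨k₀, hk⟩ := gU_eq hR h
  refine ⟨k₀, fun x hx => ?_⟩
  obtain ⟨⟨c, r⟩, hr, rfl⟩ := hx
  obtain ⟨b, s, hI⟩ := exists_Im R hR c hr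
  have hs := hI.1
  rw [hI.map_zt hR, gP_zt, gP_zt]
  exact hk c r hr b s hI

/-- iterated functional equation, in difference form -/
theorem gP_iter (hR : 1 ≤ R.deg) (h : IsEquilibrium R ρ) (n : ℕ) {x y : P1 K} (hx : IsZt x) (hy : IsZt y) :
    (R.deg : ℝ) ^ n * (gP ρ x - gP ρ y) = (gP ρ (R.map^[n] x) - gP ρ (R.map^[n] y)) +
      (hh (iter R n) x - hh (iter R n) y) := by
  obtain ⟨k₀, hk⟩ := gP_eq hR h
  induction n with
  | zero =>
    have h0 : ∀ x : P1 K, Hyp x → hh (iter R 0) x = 0 := by
      intro x hx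
      obtain ⟨w, rfl⟩ := exists_coe_of_hyp hx
      have hd : (iter R 0).deg = 1 := by simp [iter, RMap.deg]
      have hP : (iter R 0).P = X := rfl
      have hQ : (iter R 0).Q = 1 := rfl
      rw [hh_coe, hd, hP, hQ, w.map_one, max_comm]
      simp
    rw [h0 x hx.hyp, h0 y hy.hyp]
    simp
  | succ n ih =>
    have h1 := hk _ (hx.iterate hR n)
    have h2 := hk _ (hy.iterate hR n)
    rw [hh_iter_succ R hR n hx.hyp, hh_iter_succ R hR n hy.hyp, Function.iterate_succ_apply',
      Function.iterate_succ_apply', pow_succ]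
    have h3 : (R.deg : ℝ) ^ n * R.deg * (gP ρ x - gP ρ y) = R.deg * ((R.deg : ℝ) ^ n * (gP ρ x - gP ρ y)) := by ring
    rw [h3, ih]
    linarith

/-! ### atoms -/

lemma chP_pos_of_ne {x : P1 K} {z : OnePoint K} (h : x ≠ cl z) : 0 < chP x z := by
  apply lt_of_le_of_ne (chP_nonneg x z)
  intro h0
  apply h
  induction x using OnePoint.rec with
  | infty =>
    rw [chP_infty] at h0
    by_contra hcon
    have hne : (∞ : OnePoint K) ≠ z := by rintro rfl; exact hcon rfl
    have := cc_pos hne
    linarith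
  | coe y =>
    have hM := Mx_pos y
    induction z using OnePoint.rec with
    | infty =>
      rw [chP_coe, ch_infty] at h0
      have : 0 < 1 / max 1 (y X) := by positivity
      linarith
    | coe a =>
      have hA := Ma_pos a
      rw [chP_coe, ch_coe] at h0
      have h1 : y (X - C a) = 0 := by
        rcases div_eq_zero_iff.1 h0.symm with h1 | h1
        · exact h1
        · have : 0 < max 1 (y X) * max 1 ‖a‖ := by positivity
          linarith
      rw [cl_coe, OnePoint.coe_eq_coe]
      apply A1.ext_lin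
      intro b
      rw [evalPt_apply]
      simp only [eval_sub, eval_X, eval_C]
      by_cases hb : b = a
      · rw [hb, h1]; simp
      · have h2 : y (X - C a) < ‖b - a‖ := by rw [h1]; exact norm_pos_iff.2 (sub_ne_zero.2 hb)
        rw [y.lin_eq_of_lt h2, norm_sub_rev]

lemma measurableSet_cl (z : OnePoint K) : MeasurableSet ({cl z} : Set (P1 K)) := isClosed_singleton.measurableSet

/-- mass of a classical point as a limit of potentials -/
theorem atom_limit [IsFiniteMeasure ρ] (z : OnePoint K) (c : ℕ → K) (r : ℕ → ℝ) (hr : ∀ k, 0 < r k) (T : ℕ → ℝ)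
    (hT : Tendsto T atTop atTop) {m : ℝ} (hm : 0 < m)
    (hlim : Tendsto (fun k => -Real.log (chP (zt (c k) (r k) (hr k) : P1 K) z) / T k) atTop (𝓝 m)) {C₁ : ℝ}
    (hdom : ∀ᶠ k in atTop, ∀ x, - kz (c k) (r k) x ≤ C₁ * T k) :
    Tendsto (fun k => (∫ x, - kz (c k) (r k) x ∂ρ) / T k) atTop (𝓝 (m * ρ.real {cl z})) := by
  have e1 : ∀ k, (∫ x, - kz (c k) (r k) x ∂ρ) / T k = ∫ x, (- kz (c k) (r k) x) / T k ∂ρ := by
    intro k; rw [integral_div]
  simp_rw [e1]
  have e2 : m * ρ.real {cl z} = ∫ x, ({cl z} : Set (P1 K)).indicator (fun _ => m) x ∂ρ := by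
    rw [integral_indicator_const m (measurableSet_cl z), smul_eq_mul, mul_comm]
  rw [e2]
  have hinf : Tendsto (fun k => -Real.log (chP (zt (c k) (r k) (hr k) : P1 K) z)) atTop atTop := by
    have h1 : Tendsto (fun k => T k * (-Real.log (chP (zt (c k) (r k) (hr k) : P1 K) z) / T k)) atTop atTop :=
      hT.atTop_mul_pos hm hlim
    apply h1.congr'
    filter_upwards [hT.eventually_gt_atTop 0] with k hk
    field_simp
  apply tendsto_integral_filter_of_dominated_convergence (fun _ => C₁)
  · apply Eventually.of_forall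
    intro k
    exact (((continuous_kz (c k) (hr k)).neg.div_const _).measurable).aestronglyMeasurable
  · filter_upwards [hdom, hT.eventually_gt_atTop 0] with k hk hk0
    apply ae_of_all
    intro x
    rw [Real.norm_eq_abs, abs_of_nonneg (div_nonneg (by have := kz_nonpos (c k) (hr k) x; linarith) hk0.le)]
    rw [div_le_iff₀ hk0]
    exact hk x
  · exact integrable_const _
  · apply ae_of_all
    intro x
    by_cases hx : x = cl z
    · rw [Set.indicator_of_mem (by rw [hx]; rfl)]
      apply hlim.congr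
      intro k
      rw [hx, kz_eq_log (c k) (hr k), kk_cl (c k) (hr k)]
    · rw [Set.indicator_of_notMem (by simpa using hx)]
      have hpos := chP_pos_of_ne hx
      have h1 : Tendsto (fun k => -Real.log (chP x z) / T k) atTop (𝓝 0) := hT.const_div_atTop _
      refine squeeze_zero' ?_ ?_ h1
      · filter_upwards [hT.eventually_gt_atTop 0] with k hk
        exact div_nonneg (by have := kz_nonpos (c k) (hr k) x; linarith) hk.le
      · filter_upwards [hT.eventually_gt_atTop 0, hinf.eventually_gt_atTop (-Real.log (chP x z))] with k hk hk2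
        have h2 : chP (zt (c k) (r k) (hr k) : P1 K) z < chP x z := by
          have hp : 0 < chP (zt (c k) (r k) (hr k) : P1 K) z := by
            obtain ⟨δ, hδ, h3⟩ := chP_zt_lower (c k) (hr k)
            exact lt_of_lt_of_le hδ (h3 z)
          rw [← Real.log_lt_log_iff hp hpos]
          linarith
        have h3 : chP x z ≤ kk (c k) (r k) x := by
          rcases le_max_iff.1 (chP_le_kk (c k) (hr k) x z) with h | h
          · exact h
          · exact absurd h (not_le.2 h2)
        have h4 := Real.log_le_log hpos h3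
        rw [kz_eq_log (c k) (hr k)]
        gcongr

/-- centre and radius of the `k`-th point on the segment going to `z` -/
noncomputable def sc : OnePoint K → K
  | ∞ => 0
  | (a : K) => a

noncomputable def sr : OnePoint K → ℕ → ℝ
  | ∞ => fun k => Real.exp k
  | (a : K) => fun k => Real.exp (-(k : ℝ))

@[simp] lemma sc_infty : sc (∞ : OnePoint K) = 0 := rfl
@[simp] lemma sc_coe (a : K) : sc (a : OnePoint K) = a := rfl
@[simp] lemma sr_infty (k : ℕ) : sr (∞ : OnePoint K) k = Real.exp k := rfl
@[simp] lemma sr_coe (a : K) (k : ℕ) : sr (a : OnePoint K) k = Real.exp (-(k : ℝ)) := rfl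

lemma sr_pos (z : OnePoint K) (k : ℕ) : 0 < sr z k := by
  induction z using OnePoint.rec with
  | infty => rw [sr_infty]; positivity
  | coe a => rw [sr_coe]; positivity

/-- the kernel at the points of the segment going to `z` -/
lemma kk_seg (z : OnePoint K) (k : ℕ) :
    chP (zt (sc z) (sr z k) (sr_pos z k) : P1 K) z = Real.exp (-(k : ℝ)) / Mc z ^ 2 ∧
    ∀ x : P1 K, Real.exp (-(k : ℝ)) / Mc z ^ 2 ≤ kk (sc z) (sr z k) x := by
  induction z using OnePoint.rec with
  | infty =>
    have he : (1 : ℝ) ≤ Real.exp k := by rw [← Real.exp_zero]; exact Real.exp_le_exp.2 (by positivity)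
    have hM : Mz (0 : K) (Real.exp k) = Real.exp k := by
      unfold Mz; rw [norm_zero, max_eq_right (Real.exp_pos _).le, max_eq_right he]
    constructor
    · rw [chP_coe, ch_infty, ← Mz_eq _ (sr_pos _ _)]
      simp only [sc_infty, sr_infty]
      rw [hM, Mc_infty, Real.exp_neg]; simp
    · intro x
      have := kk_lower (sc (∞ : OnePoint K)) (sr_pos (∞ : OnePoint K) k) x
      refine le_trans (le_of_eq ?_) this
      simp only [sc_infty, sr_infty]
      rw [hM, Mc_infty, Real.exp_neg]
      have := Real.exp_pos (k : ℝ)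
      field_simp
  | coe a =>
    have he : Real.exp (-(k : ℝ)) ≤ 1 := by rw [← Real.exp_zero]; exact Real.exp_le_exp.2 (by simp)
    have he0 := Real.exp_pos (-(k : ℝ))
    have hM : Mz a (Real.exp (-(k : ℝ))) = max 1 ‖a‖ := by
      unfold Mz
      apply le_antisymm
      · exact max_le (le_max_left _ _) (max_le (le_max_right _ _) (he.trans (le_max_left _ _)))
      · exact max_le_max le_rfl (le_max_left _ _)
    constructor
    · rw [chP_coe, ch_coe, ← Mz_eq _ (sr_pos _ _), zt_lin]
      simp only [sc_coe, sr_coe]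
      rw [hM, Mc_coe, sub_self, norm_zero, max_eq_right he0.le, pow_two]
    · intro x
      have := kk_lower (sc (a : OnePoint K)) (sr_pos (a : OnePoint K) k) x
      refine le_trans (le_of_eq ?_) this
      simp only [sc_coe, sr_coe]
      rw [hM, Mc_coe]

lemma kk_lower' (c : K) {r : ℝ} (hr : 0 < r) (x : P1 K) :
    chP (zt c r hr : P1 K) (c : OnePoint K) * chP (zt c r hr : P1 K) ∞ ≤ kk c r x := by
  refine le_trans ?_ (kk_lower c hr x)
  have h2 := Mz_pos c r
  have hA := Ma_pos c
  rw [chP_coe, ch_coe, chP_coe, ch_infty, ← Mz_eq c hr, zt_lin, sub_self, norm_zero, max_eq_right hr.le]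
  rw [div_mul_div_comm, mul_one, pow_two]
  apply div_le_div_of_nonneg_left hr.le (by positivity)
  have h3 : 1 ≤ max 1 ‖c‖ := le_max_left _ _
  nlinarith [mul_pos h2 h2]

lemma mem_fib_cmap (φ : RMap K) (hD : 1 ≤ φ.deg) (z : OnePoint K) : z ∈ φ.fib (cmap φ z) := by
  have hF := F_ne_zero φ hD (cmap φ z)
  unfold RMap.fib
  rw [Multiset.mem_add]
  induction z using OnePoint.rec with
  | infty =>
    right
    rw [Multiset.mem_replicate]
    refine ⟨?_, rfl⟩
    have hc : (φ.F (cmap φ ∞)).coeff φ.deg = 0 := by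
      by_cases h : hv φ ∞ = 0
      · rw [cmap_of_eq φ h, F_infty]; exact h
      · rw [cmap_of_ne φ h, F_coe, coeff_sub, coeff_C_mul]
        have e1 : hu φ ∞ = φ.P.coeff φ.deg := rfl
        have e2 : hv φ ∞ = φ.Q.coeff φ.deg := rfl
        rw [← e1, ← e2]
        field_simp
        ring
    have hle := natDegree_F_le φ (cmap φ ∞)
    have hne : (φ.F (cmap φ ∞)).natDegree ≠ φ.deg := by
      intro h
      rw [← h, coeff_natDegree, leadingCoeff_eq_zero] at hc
      exact hF hc
    omega
  | coe z =>
    left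
    rw [Multiset.mem_map]
    refine ⟨z, ?_, rfl⟩
    rw [mem_roots hF, IsRoot]
    by_cases h : hv φ (z : OnePoint K) = 0
    · rw [cmap_of_eq φ h, F_infty]; exact h
    · rw [cmap_of_ne φ h, F_coe]
      simp only [eval_sub, eval_mul, eval_C]
      have e1 : hu φ (z : OnePoint K) = φ.P.eval z := rfl
      have e2 : hv φ (z : OnePoint K) = φ.Q.eval z := rfl
      rw [← e1, ← e2]
      field_simp
      ring

/-- product formula along one step -/
lemma log_chP_map (φ : RMap K) (hD : 1 ≤ φ.deg) {x : P1 K} (hx : Hyp x) (a : OnePoint K) :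
    -Real.log (chP (φ.map x) a) = ((φ.fib a).map (fun w => -Real.log (chP x w))).sum + hh φ x + Real.log (Mc a) -
      Real.log (gn 0 1 (φ.F a)) := by
  obtain ⟨y, rfl⟩ := exists_coe_of_hyp hx
  have h1 := log_F φ hD y hx a
  have h2 := F_eq_prod_ch φ y a
  have hg : 0 < gn 0 1 (φ.F a) := gn_pos 0 one_pos (F_ne_zero φ hD a)
  have hM := Mx_pos y
  have hch : ∀ w : OnePoint K, 0 < ch y w := by
    intro w
    have : 0 < chP (y : P1 K) w := chP_pos_of_ne (by rintro h; exact hx ⟨w, h.symm⟩)
    exact this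
  have hprod : ∀ s : Multiset (OnePoint K), 0 < (s.map (ch y)).prod ∧
      Real.log (s.map (ch y)).prod = -(s.map (fun w => -Real.log (chP (y : P1 K) w))).sum := by
    intro s
    induction s using Multiset.induction_on with
    | empty => simp
    | cons w s ih =>
      rw [Multiset.map_cons, Multiset.prod_cons, Multiset.map_cons, Multiset.sum_cons]
      refine ⟨mul_pos (hch w) ih.1, ?_⟩
      rw [Real.log_mul (hch w).ne' ih.1.ne', ih.2, chP_coe]
      ring
  obtain ⟨hp1, hp2⟩ := hprod (φ.fib a)
  rw [h2, Real.log_mul (by positivity) hp1.ne', Real.log_mul hg.ne' (by positivity), Real.log_pow, hp2] at h1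
  linarith

open Classical in
/-- the atom formula -/
theorem atom_formula (hR : 1 ≤ R.deg) (h : IsEquilibrium R ρ) (a : OnePoint K) :
    R.deg * ρ.real {cl a} = ((R.fib (cmap R a)).count a : ℝ) * ρ.real {cl (cmap R a)} := by
  have := h.prob
  set a₁ := cmap R a with ha₁
  set m := (R.fib a₁).count a with hm
  have hm1 : 1 ≤ m := Multiset.one_le_count_iff_mem.2 (mem_fib_cmap R hR a)
  obtain ⟨k₀, hk₀⟩ := gU_eq hR h
  obtain ⟨Ch, hCh0, hCh⟩ := exists_hh_bound R
  -- the segment
  set c : ℕ → K := fun _ => sc a with hc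
  set r : ℕ → ℝ := fun k => sr a k with hr'
  have hr : ∀ k, 0 < r k := fun k => sr_pos a k
  set T : ℕ → ℝ := fun k => (k : ℝ) with hTdef
  have hT : Tendsto T atTop atTop := tendsto_natCast_atTop_atTop
  have hMa : 0 < Mc a := lt_of_lt_of_le one_pos (one_le_Mc a)
  have hval : ∀ k, -Real.log (chP (zt (c k) (r k) (hr k) : P1 K) a) = k + 2 * Real.log (Mc a) := by
    intro k
    rw [(kk_seg a k).1, Real.log_div (Real.exp_pos _).ne' (by positivity), Real.log_exp, Real.log_pow]
    push_cast; ring
  have hlim1 : Tendsto (fun k => -Real.log (chP (zt (c k) (r k) (hr k) : P1 K) a) / T k) atTop (𝓝 1) := by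
    have h1 : Tendsto (fun k : ℕ => 1 + 2 * Real.log (Mc a) / T k) atTop (𝓝 (1 + 0)) :=
      tendsto_const_nhds.add (hT.const_div_atTop _)
    rw [add_zero] at h1
    apply h1.congr'
    filter_upwards [eventually_gt_atTop 0] with k hk
    rw [hval]
    have hk' : (k : ℝ) ≠ 0 := by exact_mod_cast hk.ne'
    simp only [hTdef]
    field_simp
  have hdom1 : ∀ᶠ k in atTop, ∀ x, - kz (c k) (r k) x ≤ (1 + |2 * Real.log (Mc a)|) * T k := by
    filter_upwards [eventually_ge_atTop 1] with k hk x
    rw [kz_eq_log _ (hr k)]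
    have h1 := Real.log_le_log (by positivity) ((kk_seg a k).2 x)
    rw [Real.log_div (Real.exp_pos _).ne' (by positivity), Real.log_exp, Real.log_pow] at h1
    have hk' : (1 : ℝ) ≤ k := by exact_mod_cast hk
    have h2 := le_abs_self (2 * Real.log (Mc a))
    have h3 := abs_nonneg (2 * Real.log (Mc a))
    simp only [hTdef]
    push_cast at h1
    have h4 : -Real.log (kk (c k) (r k) x) ≤ k + 2 * Real.log (Mc a) := by
      simp only [hc, hr']
      linarith
    nlinarith
  have hA := atom_limit (ρ := ρ) a c r hr T hT one_pos hlim1 hdom1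
  -- the image
  have hIm : ∀ k, ∃ b s, Im R (c k) (r k) b s := fun k => exists_Im R hR (c k) (hr k)
  choose b s hI using hIm
  have hs : ∀ k, 0 < s k := fun k => (hI k).1
  have hmap : ∀ k, R.map (zt (c k) (r k) (hr k) : P1 K) = (zt (b k) (s k) (hs k) : P1 K) := fun k => (hI k).map_zt hR
  have hH : ∀ k, Hyp (zt (c k) (r k) (hr k) : P1 K) := fun k => hyp_zt _ _
  have hlim2 : Tendsto (fun k => -Real.log (chP (zt (b k) (s k) (hs k) : P1 K) a₁) / T k) atTop (𝓝 (m : ℝ)) := by
    have e1 : ∀ k, -Real.log (chP (zt (b k) (s k) (hs k) : P1 K) a₁) / T k =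
        ((R.fib a₁).map (fun w => -Real.log (chP (zt (c k) (r k) (hr k) : P1 K) w) / T k)).sum +
        (hh R (zt (c k) (r k) (hr k) : P1 K) / T k + (Real.log (Mc a₁) - Real.log (gn 0 1 (R.F a₁))) / T k) := by
      intro k
      rw [← hmap, log_chP_map R hR (hH k) a₁]
      have : ((R.fib a₁).map (fun w => -Real.log (chP (zt (c k) (r k) (hr k) : P1 K) w) / T k)).sum =
          ((R.fib a₁).map (fun w => -Real.log (chP (zt (c k) (r k) (hr k) : P1 K) w))).sum / T k := by
        rw [Multiset.sum_map_div]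
      rw [this]
      ring
    simp_rw [e1]
    have h1 : Tendsto (fun k => hh R (zt (c k) (r k) (hr k) : P1 K) / T k) atTop (𝓝 0) := by
      apply squeeze_zero_norm' _ (hT.const_div_atTop Ch)
      filter_upwards [hT.eventually_gt_atTop 0] with k hk
      rw [norm_div, Real.norm_eq_abs, Real.norm_eq_abs, abs_of_pos hk]
      gcongr
      exact hCh _
    have h2 : Tendsto (fun k => (Real.log (Mc a₁) - Real.log (gn 0 1 (R.F a₁))) / T k) atTop (𝓝 0) :=
      hT.const_div_atTop _
    have h3 : ∀ S : Multiset (OnePoint K), Tendsto (fun k => (S.map (fun w => -Real.log (chP (zt (c k) (r k) (hr k) : P1 K) w) / T k)).sum)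
        atTop (𝓝 ((S.count a : ℕ) : ℝ)) := by
      intro S
      induction S using Multiset.induction_on with
      | empty => simp
      | cons w S ih =>
        simp only [Multiset.map_cons, Multiset.sum_cons, Multiset.count_cons]
        by_cases hw : a = w
        · subst hw
          simp only [if_true]
          push_cast
          rw [add_comm ((Multiset.count a S : ℕ) : ℝ) 1]
          exact hlim1.add ih
        · rw [if_neg hw, add_zero]
          have h4 : Tendsto (fun k => -Real.log (chP (zt (c k) (r k) (hr k) : P1 K) w) / T k) atTop (𝓝 0) := by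
            have hpos := cc_pos hw
            have h5 : Tendsto (fun k => -Real.log (cc a w) / T k) atTop (𝓝 0) := hT.const_div_atTop _
            have hinf : Tendsto (fun k : ℕ => (k : ℝ) + 2 * Real.log (Mc a)) atTop atTop :=
              tendsto_atTop_add_const_right _ _ tendsto_natCast_atTop_atTop
            refine squeeze_zero' ?_ ?_ h5
            · filter_upwards [hT.eventually_gt_atTop 0] with k hk
              apply div_nonneg _ hk.le
              have := Real.log_nonpos (chP_nonneg (zt (c k) (r k) (hr k) : P1 K) w) (chP_le_one _ _)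
              linarith
            · filter_upwards [hT.eventually_gt_atTop 0, hinf.eventually_gt_atTop (-Real.log (cc a w))] with k hk hk2
              rw [← hval k] at hk2
              obtain ⟨δ, hδ, hδ2⟩ := chP_zt_lower (c k) (hr k)
              have hp : 0 < chP (zt (c k) (r k) (hr k) : P1 K) a := lt_of_lt_of_le hδ (hδ2 a)
              have hlt : chP (zt (c k) (r k) (hr k) : P1 K) a < cc a w := by
                rw [← Real.log_lt_log_iff hp hpos]; linarith
              have h6 : cc a w ≤ chP (zt (c k) (r k) (hr k) : P1 K) w := by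
                rcases le_max_iff.1 (cc_le_chP (zt (c k) (r k) (hr k) : P1 K) a w) with h | h
                · exact absurd h (not_le.2 hlt)
                · exact h
              have := Real.log_le_log hpos h6
              gcongr
          have := h4.add ih
          rwa [zero_add] at this
    have := (h3 (R.fib a₁)).add (h1.add h2)
    rw [add_zero, add_zero] at this
    exact this
  obtain ⟨c₀, hc₀, hc₀1, hlow⟩ := exists_ch_lower R hR
  have hdom2 : ∀ᶠ k in atTop, ∀ x, - kz (b k) (s k) x ≤
      (2 * (R.deg * (1 + |2 * Real.log (Mc a)|) + |Real.log c₀|)) * T k := by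
    filter_upwards [eventually_ge_atTop 1] with k hk x
    rw [kz_eq_log _ (hs k)]
    have hk' : (1 : ℝ) ≤ k := by exact_mod_cast hk
    set δ := Real.exp (-(k : ℝ)) / Mc a ^ 2 with hδdef
    have hδ : 0 < δ := by positivity
    have hQ := ((hH k).pos (Q_ne_zero R hR)).ne'
    have h1 : ∀ w, c₀ * δ ^ R.deg ≤ chP (zt (b k) (s k) (hs k) : P1 K) w := by
      intro w
      rw [← hmap, map_of_ne R _ hQ]
      apply hlow _ hQ δ hδ.le
      intro z
      have := (kk_seg a k).2 (cl z)
      rwa [kk_cl _ (sr_pos a k)] at this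
    have h2 := kk_lower' (b k) (hs k) x
    have h3 : (c₀ * δ ^ R.deg) * (c₀ * δ ^ R.deg) ≤ kk (b k) (s k) x := by
      refine le_trans ?_ h2
      exact mul_le_mul (h1 _) (h1 _) (by positivity) (chP_nonneg _ _)
    have h4 := Real.log_le_log (by positivity) h3
    rw [Real.log_mul (by positivity) (by positivity), Real.log_mul hc₀.ne' (by positivity), Real.log_pow, hδdef,
      Real.log_div (Real.exp_pos _).ne' (by positivity), Real.log_exp, Real.log_pow] at h4
    push_cast at h4
    have h5 := le_abs_self (2 * Real.log (Mc a))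
    have h6 := abs_nonneg (2 * Real.log (Mc a))
    have h7 := neg_abs_le (Real.log c₀)
    have h8 := abs_nonneg (Real.log c₀)
    have hd : (0 : ℝ) ≤ R.deg := by positivity
    simp only [hTdef]
    have h9 : (k : ℝ) + 2 * Real.log (Mc a) ≤ (1 + |2 * Real.log (Mc a)|) * k := by nlinarith
    have h10 : (R.deg : ℝ) * (k + 2 * Real.log (Mc a)) ≤ R.deg * ((1 + |2 * Real.log (Mc a)|) * k) := by gcongr
    have h11 : |Real.log c₀| ≤ |Real.log c₀| * k := le_mul_of_one_le_right h8 hk'
    nlinarith
  have hm0 : (0 : ℝ) < m := by exact_mod_cast hm1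
  have hB := atom_limit (ρ := ρ) a₁ b s hs T hT hm0 hlim2 hdom2
  -- functional equation
  have hfe : ∀ k, R.deg * ((∫ x, - kz (c k) (r k) x ∂ρ) / T k) = (∫ x, - kz (b k) (s k) x ∂ρ) / T k +
      (-(hh R (zt (c k) (r k) (hr k) : P1 K)) / T k + (-k₀) / T k) := by
    intro k
    have := hk₀ (c k) (r k) (hr k) (b k) (s k) (hI k)
    rw [integral_neg, integral_neg]
    have e1 : ∫ x, kz (c k) (r k) x ∂ρ = gU ρ (c k) (r k) := rfl
    have e2 : ∫ x, kz (b k) (s k) x ∂ρ = gU ρ (b k) (s k) := rfl
    rw [e1, e2]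
    have e3 : R.deg * (-gU ρ (c k) (r k) / T k) = -(R.deg * gU ρ (c k) (r k)) / T k := by ring
    rw [e3, this]
    ring
  have hL : Tendsto (fun k => R.deg * ((∫ x, - kz (c k) (r k) x ∂ρ) / T k)) atTop (𝓝 (R.deg * (1 * ρ.real {cl a}))) :=
    hA.const_mul _
  have h1 : Tendsto (fun k => -(hh R (zt (c k) (r k) (hr k) : P1 K)) / T k) atTop (𝓝 0) := by
    apply squeeze_zero_norm' _ (hT.const_div_atTop Ch)
    filter_upwards [hT.eventually_gt_atTop 0] with k hk
    rw [norm_div, norm_neg, Real.norm_eq_abs, Real.norm_eq_abs, abs_of_pos hk]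
    gcongr
    exact hCh _
  have h2 : Tendsto (fun k => (-k₀) / T k) atTop (𝓝 0) := hT.const_div_atTop _
  have hR' : Tendsto (fun k => R.deg * ((∫ x, - kz (c k) (r k) x ∂ρ) / T k)) atTop (𝓝 (m * ρ.real {cl a₁} + (0 + 0))) := by
    simp_rw [hfe]
    exact hB.add (h1.add h2)
  have := tendsto_nhds_unique hL hR'
  rw [one_mul, add_zero, add_zero] at this
  exact this

end BerkFix
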