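import Pool.Agent.Lib.MP_edb0ca_an.Weights

set_option linter.unusedSectionVars false
set_option linter.unusedVariables false

open Polynomial OnePoint Topology Filter

namespace BerkFix

section alg

variable {K : Type*} [Field K]

lemma hom_derivative (d : ℕ) (hd : 1 ≤ d) {f A B : K[X]} (hf : f.natDegree ≤ d) :
    B * derivative (hom d f A B) = hom (d - 1) (derivative f) A B * (derivative A * B - A * derivative B) +
      (d : K[X]) * hom d f A B * derivative B := by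
  obtain ⟨e, rfl⟩ : ∃ e, d = e + 1 := ⟨d - 1, by omega⟩
  have e1 : hom (e + 1 - 1) (derivative f) A B = ∑ i ∈ Finset.range (e + 1 + 1), 
      C (f.coeff i) * ((i : K[X]) * A ^ (i - 1)) * B ^ (e + 1 - i) := by
    unfold hom
    rw [Finset.sum_range_succ' _ (e + 1)]
    simp only [Nat.add_sub_cancel, Nat.cast_zero, zero_mul, mul_zero, add_zero]
    apply Finset.sum_congr rfl
    intro i _
    rw [coeff_derivative, Nat.add_sub_add_right]
    simp only [C_mul, C_add, C_1, map_natCast, Nat.cast_add, Nat.cast_one]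
    ring
  rw [e1]
  unfold hom
  rw [derivative_sum, Finset.mul_sum, Finset.sum_mul, Finset.mul_sum, Finset.sum_mul, ← Finset.sum_add_distrib]
  apply Finset.sum_congr rfl
  intro i hi
  have hi' : i ≤ e + 1 := Nat.lt_succ_iff.1 (Finset.mem_range.1 hi)
  rw [derivative_mul, derivative_mul, derivative_C, derivative_pow, derivative_pow]
  have h1 : ((e + 1 : ℕ) : K[X]) = (i : K[X]) + ((e + 1 - i : ℕ) : K[X]) := by
    rw [← Nat.cast_add]; congr 1; omega
  rw [h1]
  simp only [map_natCast]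
  -- cases on i and e + 1 - i
  rcases Nat.eq_zero_or_pos i with hi0 | hi0
  · subst hi0
    simp only [Nat.sub_zero, Nat.cast_zero, zero_mul, pow_zero, mul_one, mul_zero, add_zero, zero_add]
    have : B ^ (e + 1) = B * B ^ e := by rw [pow_succ]; ring
    simp only [Nat.add_sub_cancel]
    rw [this]; ring
  · obtain ⟨j, rfl⟩ : ∃ j, i = j + 1 := ⟨i - 1, by omega⟩
    simp only [Nat.add_sub_cancel]
    rcases Nat.eq_zero_or_pos (e + 1 - (j + 1)) with h0 | h0
    · rw [h0]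
      simp only [Nat.cast_zero, zero_mul, pow_zero, mul_one, mul_zero, add_zero, zero_add]
      rw [pow_succ]; ring
    · obtain ⟨k, hk⟩ : ∃ k, e + 1 - (j + 1) = k + 1 := ⟨e + 1 - (j + 1) - 1, by omega⟩
      rw [hk]
      simp only [Nat.add_sub_cancel]
      rw [pow_succ, pow_succ]; ring

end alg

section

variable {K : Type*} [NormedField K]

lemma coeff_wr (φ : RMap K) (hD : 1 ≤ φ.deg) : φ.wr.coeff (φ.deg - 1 + φ.deg) = 0 := by
  have hP : φ.P.natDegree ≤ φ.deg := le_max_left _ _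
  have hQ : φ.Q.natDegree ≤ φ.deg := le_max_right _ _
  have hP' : (derivative φ.P).natDegree ≤ φ.deg - 1 := (natDegree_derivative_le _).trans (Nat.sub_le_sub_right hP 1)
  have hQ' : (derivative φ.Q).natDegree ≤ φ.deg - 1 := (natDegree_derivative_le _).trans (Nat.sub_le_sub_right hQ 1)
  unfold RMap.wr
  rw [coeff_sub, coeff_mul_add_eq_of_natDegree_le hP' hQ]
  have h2 : (φ.P * derivative φ.Q).coeff (φ.deg - 1 + φ.deg) = φ.P.coeff φ.deg * (derivative φ.Q).coeff (φ.deg - 1) := by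
    rw [add_comm, coeff_mul_add_eq_of_natDegree_le hP hQ']
  rw [h2, coeff_derivative, coeff_derivative, Nat.sub_add_cancel hD]
  ring

lemma natDegree_wr_le (φ : RMap K) : φ.wr.natDegree ≤ 2 * φ.deg - 2 := by
  have hP : φ.P.natDegree ≤ φ.deg := le_max_left _ _
  have hQ : φ.Q.natDegree ≤ φ.deg := le_max_right _ _
  have hP' : (derivative φ.P).natDegree ≤ φ.deg - 1 := (natDegree_derivative_le _).trans (Nat.sub_le_sub_right hP 1)
  have hQ' : (derivative φ.Q).natDegree ≤ φ.deg - 1 := (natDegree_derivative_le _).trans (Nat.sub_le_sub_right hQ 1)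
  have hle : φ.wr.natDegree ≤ φ.deg - 1 + φ.deg := by
    unfold RMap.wr
    refine (natDegree_sub_le _ _).trans (max_le ?_ ?_)
    · exact natDegree_mul_le.trans (add_le_add hP' hQ)
    · rw [add_comm]; exact natDegree_mul_le.trans (add_le_add hP hQ')
  rcases Nat.eq_zero_or_pos φ.deg with h0 | h0
  · rw [h0] at hle ⊢; exact hle
  · rw [natDegree_le_iff_coeff_eq_zero]
    intro N hN
    rcases eq_or_ne N (φ.deg - 1 + φ.deg) with h | h
    · rw [h]; exact coeff_wr φ h0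
    · exact coeff_eq_zero_of_natDegree_lt (by omega)

variable [IsUltrametricDist K] [IsAlgClosed K]

/-- the Wronskian of a composition -/
theorem wr_comp (ψ φ : RMap K) (hψ : 1 ≤ ψ.deg) (hD : 1 ≤ φ.deg) :
    (ψ.comp φ).wr = hom (2 * ψ.deg - 2) ψ.wr φ.P φ.Q * φ.wr := by
  have hQ := Q_ne_zero φ hD
  apply mul_left_cancel₀ hQ
  have hP1 := natDegree_P_le ψ
  have hQ1 := natDegree_Q_le ψ
  have hP' : (derivative ψ.P).natDegree ≤ ψ.deg - 1 := (natDegree_derivative_le _).trans (Nat.sub_le_sub_right hP1 1)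
  have hQ' : (derivative ψ.Q).natDegree ≤ ψ.deg - 1 := (natDegree_derivative_le _).trans (Nat.sub_le_sub_right hQ1 1)
  have e1 : (ψ.comp φ).wr = derivative (hom ψ.deg ψ.P φ.P φ.Q) * hom ψ.deg ψ.Q φ.P φ.Q -
    hom ψ.deg ψ.P φ.P φ.Q * derivative (hom ψ.deg ψ.Q φ.P φ.Q) := rfl
  have h1 := hom_derivative ψ.deg hψ hP1 (A := φ.P) (B := φ.Q)
  have h2 := hom_derivative ψ.deg hψ hQ1 (A := φ.P) (B := φ.Q)
  have h3 : hom (ψ.deg - 1) (derivative ψ.P) φ.P φ.Q * hom ψ.deg ψ.Q φ.P φ.Q -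
      hom ψ.deg ψ.P φ.P φ.Q * hom (ψ.deg - 1) (derivative ψ.Q) φ.P φ.Q =
      hom (2 * ψ.deg - 2) ψ.wr φ.P φ.Q * φ.Q := by
    rw [← hom_mul hP' hQ1 hQ, ← hom_mul hP1 hQ' hQ, add_comm ψ.deg (ψ.deg - 1), ← hom_sub]
    have h4 : ψ.deg - 1 + ψ.deg = (2 * ψ.deg - 2) + 1 := by omega
    rw [h4]
    have h5 : derivative ψ.P * ψ.Q - ψ.P * derivative ψ.Q = ψ.wr := rfl
    rw [h5, hom_succ (natDegree_wr_le ψ) hQ, pow_one]
  have h6 : φ.wr = derivative φ.P * φ.Q - φ.P * derivative φ.Q := rfl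
  rw [e1]
  calc φ.Q * (derivative (hom ψ.deg ψ.P φ.P φ.Q) * hom ψ.deg ψ.Q φ.P φ.Q -
        hom ψ.deg ψ.P φ.P φ.Q * derivative (hom ψ.deg ψ.Q φ.P φ.Q))
      = (φ.Q * derivative (hom ψ.deg ψ.P φ.P φ.Q)) * hom ψ.deg ψ.Q φ.P φ.Q -
        hom ψ.deg ψ.P φ.P φ.Q * (φ.Q * derivative (hom ψ.deg ψ.Q φ.P φ.Q)) := by ring
    _ = (hom (ψ.deg - 1) (derivative ψ.P) φ.P φ.Q * hom ψ.deg ψ.Q φ.P φ.Q -
        hom ψ.deg ψ.P φ.P φ.Q * hom (ψ.deg - 1) (derivative ψ.Q) φ.P φ.Q) * φ.wr := by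
        rw [h1, h2, h6]; ring
    _ = φ.Q * (hom (2 * ψ.deg - 2) ψ.wr φ.P φ.Q * φ.wr) := by rw [h3]; ring

lemma sph_coe (φ : RMap K) (x : A1 K) :
    φ.sph (x : P1 K) = x φ.wr * max 1 (x X) ^ 2 / max (x φ.P) (x φ.Q) ^ 2 := rfl

lemma push_X (φ : RMap K) (x : A1 K) (h : x φ.Q ≠ 0) : push φ x h X = x φ.P / x φ.Q := by
  have := push_lin φ x h 0
  rw [A1.lin_zero] at this
  rw [this, F_coe]; simp

lemma max_push_X (φ : RMap K) (x : A1 K) (h : x φ.Q ≠ 0) :
    max 1 (push φ x h X) = max (x φ.P) (x φ.Q) / x φ.Q := by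
  have hpos : 0 < x φ.Q := lt_of_le_of_ne (x.nonneg _) (Ne.symm h)
  rw [push_X, ← max_div_div_right hpos.le, div_self h, max_comm]

/-- chain rule at hyperbolic points -/
theorem sph_comp (ψ φ : RMap K) (hψ : 1 ≤ ψ.deg) (hD : 1 ≤ φ.deg) {x : P1 K} (hx : Hyp x) :
    (ψ.comp φ).sph x = ψ.sph (φ.map x) * φ.sph x := by
  induction x using OnePoint.rec with
  | infty => exact absurd hx not_hyp_infty
  | coe x =>
    have hQ : 0 < x φ.Q := hx.pos (Q_ne_zero φ hD)
    rw [map_of_ne φ x hQ.ne', sph_coe, sph_coe, sph_coe, wr_comp ψ φ hψ hD, x.map_mul, max_push_X]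
    have e1 := push_mul_pow φ x hQ.ne' (natDegree_wr_le ψ)
    have e2 := push_mul_pow φ x hQ.ne' (natDegree_P_le ψ)
    have e3 := push_mul_pow φ x hQ.ne' (natDegree_Q_le ψ)
    have e4 : (ψ.comp φ).P = hom ψ.deg ψ.P φ.P φ.Q := rfl
    have e5 : (ψ.comp φ).Q = hom ψ.deg ψ.Q φ.P φ.Q := rfl
    rw [e4, e5, ← e1, ← e2, ← e3, ← max_mul_of_nonneg _ _ (pow_nonneg hQ.le _)]
    have hm1 : 0 < max (x φ.P) (x φ.Q) := lt_of_lt_of_le hQ (le_max_right _ _)
    have hm2 := max_PQ_pos ψ (push φ x hQ.ne')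
    set y := push φ x hQ.ne' with hy
    have h4 : x φ.Q ^ (2 * ψ.deg - 2) * x φ.Q ^ 2 = (x φ.Q ^ ψ.deg) ^ 2 := by
      rw [← pow_add, ← pow_mul]; congr 1; omega
    rw [mul_pow]
    rw [← h4]
    field_simp

lemma wr_iter_zero (R : RMap K) : (iter R 0).wr = 1 := by
  have h1 : (iter R 0).P = X := rfl
  have h2 : (iter R 0).Q = 1 := rfl
  unfold RMap.wr
  rw [h1, h2]; simp

lemma sph_iter_zero (R : RMap K) {x : P1 K} (hx : Hyp x) : (iter R 0).sph x = 1 := by
  induction x using OnePoint.rec with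
  | infty => exact absurd hx not_hyp_infty
  | coe x =>
    rw [sph_coe, wr_iter_zero]
    have h1 : (iter R 0).P = X := rfl
    have h2 : (iter R 0).Q = 1 := rfl
    rw [h1, h2, x.map_one, max_comm, one_mul, div_self]
    have : 0 < max (x X) 1 := lt_of_lt_of_le one_pos (le_max_right _ _)
    positivity

lemma hyp_iterate (R : RMap K) (hR : 1 ≤ R.deg) (n : ℕ) (x : P1 K) : Hyp (R.map^[n] x) ↔ Hyp x := by
  induction n with
  | zero => rfl
  | succ n ih => rw [Function.iterate_succ_apply', hyp_map_iff R hR, ih]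

theorem sph_iter (R : RMap K) (hR : 1 ≤ R.deg) (n : ℕ) {x : P1 K} (hx : Hyp x) :
    (iter R n).sph x = ∏ i ∈ Finset.range n, R.sph (R.map^[i] x) := by
  induction n with
  | zero => rw [sph_iter_zero R hx]; simp
  | succ n ih =>
    rw [iter, sph_comp R (iter R n) hR (deg_iter_pos R hR n) hx, ih, map_iter, Finset.prod_range_succ, mul_comm]

lemma sph_pos (φ : RMap K) (hw : φ.wr ≠ 0) {x : P1 K} (hx : Hyp x) : 0 < φ.sph x := by
  induction x using OnePoint.rec with
  | infty => exact absurd hx not_hyp_infty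
  | coe x =>
    rw [sph_coe]
    have h1 := hx.pos hw
    have h2 := max_PQ_pos φ x
    have h3 : 0 < max 1 (x X) := lt_of_lt_of_le one_pos (le_max_left _ _)
    positivity

/-- estimate for the derivative -/
lemma deriv_le (x : A1 K) {δ : ℝ} (hδ : 0 < δ) (h : ∀ a : K, δ ≤ x (X - C a)) (f : K[X]) :
    x (derivative f) ≤ x f / δ := by
  have key : ∀ s : Multiset K, x (derivative (s.map (fun z => X - C z)).prod) ≤
      x (s.map (fun z => X - C z)).prod / δ := by
    intro s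
    induction s using Multiset.induction_on with
    | empty => simp; positivity
    | cons a s ih =>
      rw [Multiset.map_cons, Multiset.prod_cons, derivative_mul, x.map_mul]
      refine (x.add_le _ _).trans (max_le ?_ ?_)
      · rw [x.map_mul]
        have : x (derivative (X - C a)) = 1 := by simp
        rw [this, one_mul, le_div_iff₀ hδ, mul_comm]
        exact mul_le_mul_of_nonneg_right (h a) (x.nonneg _)
      · rw [x.map_mul, mul_div_assoc]
        exact mul_le_mul_of_nonneg_left ih (x.nonneg _)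
  have h1 : f = C f.leadingCoeff * (f.roots.map (fun z => X - C z)).prod :=
    (C_leadingCoeff_mul_prod_multiset_X_sub_C (IsAlgClosed.card_roots_eq_natDegree)).symm
  conv_lhs => rw [h1, derivative_C_mul, x.map_C_mul]
  conv_rhs => rw [h1, x.map_C_mul]
  rw [mul_div_assoc]
  exact mul_le_mul_of_nonneg_left (key _) (norm_nonneg _)

lemma wr_le (φ : RMap K) (x : A1 K) {δ : ℝ} (hδ : 0 < δ) (h : ∀ a : K, δ ≤ x (X - C a)) (c : K) :
    x φ.wr ≤ x (φ.F c) * x φ.Q / δ := by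
  have e : φ.wr = derivative (φ.F c) * φ.Q - φ.F c * derivative φ.Q := by
    simp only [F_coe, derivative_sub, derivative_C_mul, RMap.wr]; ring
  rw [e]
  refine (x.sub_le _ _).trans (max_le ?_ ?_)
  · rw [x.map_mul]
    calc x (derivative (φ.F c)) * x φ.Q ≤ x (φ.F c) / δ * x φ.Q :=
          mul_le_mul_of_nonneg_right (deriv_le x hδ h _) (x.nonneg _)
      _ = x (φ.F c) * x φ.Q / δ := by ring
  · rw [x.map_mul]
    calc x (φ.F c) * x (derivative φ.Q) ≤ x (φ.F c) * (x φ.Q / δ) :=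
          mul_le_mul_of_nonneg_left (deriv_le x hδ h _) (x.nonneg _)
      _ = x (φ.F c) * x φ.Q / δ := by ring

/-- the spherical derivative is at most one at a fixed point `ζ(c,r)` -/
theorem sph_le_one (φ : RMap K) (hD : 1 ≤ φ.deg) (c : K) {r : ℝ} (hr : 0 < r) (h : Fx φ c r) :
    φ.sph (zt c r hr : P1 K) ≤ 1 := by
  have hg : 0 < gn c r φ.Q := gn_pos c hr (Q_ne_zero φ hD)
  have hne : zt c r hr φ.Q ≠ 0 := by rw [zt_apply]; exact hg.ne'
  have hfix := (Fx_iff_map φ hD c hr).1 h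
  rw [map_of_ne φ _ hne, OnePoint.coe_eq_coe] at hfix
  have h1 : (zt c r hr) φ.wr ≤ (zt c r hr) φ.Q ^ 2 := by
    have h2 := wr_le φ (zt c r hr) hr (fun a => by rw [zt_lin]; exact le_max_right _ _) c
    have h3 : (zt c r hr) (φ.F c) = r * (zt c r hr) φ.Q := by
      rw [zt_apply, h.gn_F, wt_coe, sub_self, norm_zero, max_eq_right hr.le, zt_apply]
    rw [h3] at h2
    calc (zt c r hr) φ.wr ≤ r * (zt c r hr) φ.Q * (zt c r hr) φ.Q / r := h2
      _ = (zt c r hr) φ.Q ^ 2 := by field_simp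
  have h4 := max_push_X φ _ hne
  rw [hfix] at h4
  rw [sph_coe, h4]
  have hm := max_PQ_pos φ (zt c r hr)
  have hQ : 0 < (zt c r hr) φ.Q := by rw [zt_apply]; exact hg
  rw [div_pow]
  rw [div_le_one (by positivity)]
  rw [← mul_div_assoc, div_le_iff₀ (by positivity), mul_comm]
  gcongr

/-- a bound for the spherical derivative at hyperbolic points, independent of the map -/
theorem sph_le_of_diam (φ : RMap K) (x : A1 K) {δ : ℝ} (hδ : 0 < δ) (h : ∀ a : K, δ ≤ x (X - C a)) :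
    φ.sph (x : P1 K) ≤ max 1 (x X) ^ 2 / δ := by
  have h1 := wr_le φ x hδ h 0
  have h2 : x (φ.F (0 : K)) = x φ.P := by rw [F_coe]; simp
  rw [h2] at h1
  have hm := max_PQ_pos φ x
  rw [sph_coe, div_le_iff₀ (by positivity)]
  have h3 : x φ.P * x φ.Q ≤ max (x φ.P) (x φ.Q) ^ 2 := by
    rw [pow_two]
    exact mul_le_mul (le_max_left _ _) (le_max_right _ _) (x.nonneg _) hm.le
  calc x φ.wr * max 1 (x X) ^ 2 ≤ (max (x φ.P) (x φ.Q) ^ 2 / δ) * max 1 (x X) ^ 2 := by
        gcongr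
        refine h1.trans ?_
        gcongr
    _ = max 1 (x X) ^ 2 / δ * max (x φ.P) (x φ.Q) ^ 2 := by ring

end

end BerkFix
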