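import Pool.Agent.Lib.MP_edb0ca_an.Chain

set_option linter.unusedSectionVars false
set_option linter.unusedVariables false

open Polynomial OnePoint Topology Filter

namespace BerkFix

variable {K : Type*} [NormedField K] [IsUltrametricDist K] [IsAlgClosed K]

/-- `log max(|P|,|Q|) - d log max(1,|T|)` -/
noncomputable def hh (φ : RMap K) : P1 K → ℝ
  | ∞ => Real.log (max ‖φ.P.coeff φ.deg‖ ‖φ.Q.coeff φ.deg‖)
  | (y : A1 K) => Real.log (max (y φ.P) (y φ.Q)) - φ.deg * Real.log (max 1 (y X))

@[simp] lemma hh_infty (φ : RMap K) : hh φ ∞ = Real.log (max ‖φ.P.coeff φ.deg‖ ‖φ.Q.coeff φ.deg‖) := rfl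
@[simp] lemma hh_coe (φ : RMap K) (y : A1 K) :
    hh φ (y : P1 K) = Real.log (max (y φ.P) (y φ.Q)) - φ.deg * Real.log (max 1 (y X)) := rfl

lemma max_coeff_pos (φ : RMap K) : 0 < max ‖φ.P.coeff φ.deg‖ ‖φ.Q.coeff φ.deg‖ := by
  rcases exists_coeff_ne φ with h | h
  · exact lt_of_lt_of_le (norm_pos_iff.2 h) (le_max_left _ _)
  · exact lt_of_lt_of_le (norm_pos_iff.2 h) (le_max_right _ _)

lemma continuous_hh (φ : RMap K) : Continuous (hh φ) := by
  apply continuous_P1
  · simp only [hh_coe]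
    apply Continuous.sub
    · apply Continuous.log
      · exact (continuous_eval_A1 _).max (continuous_eval_A1 _)
      · intro y; exact (max_PQ_pos φ y).ne'
    · apply Continuous.mul continuous_const
      apply Continuous.log
      · exact continuous_const.max (continuous_eval_A1 _)
      · intro y; exact (lt_of_lt_of_le one_pos (le_max_left _ _)).ne'
  · obtain ⟨L, hL⟩ := maxlead (natDegree_P_le φ) (natDegree_Q_le φ) (exists_coeff_ne φ) one_pos one_pos
    refine ⟨max L 1, fun y hy => ?_⟩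
    have h1 := hL y (lt_of_le_of_lt (le_max_left _ _) hy)
    simp only [one_mul] at h1
    have h2 : 1 < y X := lt_of_le_of_lt (le_max_right _ _) hy
    rw [hh_coe, hh_infty, h1, max_eq_right h2.le, Real.log_mul (max_coeff_pos φ).ne' (by positivity), Real.log_pow]
    ring

lemma exists_hh_bound (φ : RMap K) : ∃ C : ℝ, 0 ≤ C ∧ ∀ x, |hh φ x| ≤ C := by
  obtain ⟨C, hC⟩ := IsCompact.exists_bound_of_continuousOn (isCompact_univ (X := P1 K)) (continuous_hh φ).continuousOn
  refine ⟨max C 0, le_max_right _ _, fun x => ?_⟩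
  have := hC x (Set.mem_univ x)
  rw [Real.norm_eq_abs] at this
  exact this.trans (le_max_left _ _)

/-- cocycle relation -/
lemma hh_comp (ψ φ : RMap K) (hD : 1 ≤ φ.deg) {x : P1 K} (hx : Hyp x) :
    hh (ψ.comp φ) x = hh ψ (φ.map x) + ψ.deg * hh φ x := by
  induction x using OnePoint.rec with
  | infty => exact absurd hx not_hyp_infty
  | coe x =>
    have hQ : 0 < x φ.Q := hx.pos (Q_ne_zero φ hD)
    rw [map_of_ne φ x hQ.ne', hh_coe, hh_coe, hh_coe, max_push_X, deg_comp]
    have e2 := push_mul_pow φ x hQ.ne' (natDegree_P_le ψ)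
    have e3 := push_mul_pow φ x hQ.ne' (natDegree_Q_le ψ)
    have e4 : (ψ.comp φ).P = hom ψ.deg ψ.P φ.P φ.Q := rfl
    have e5 : (ψ.comp φ).Q = hom ψ.deg ψ.Q φ.P φ.Q := rfl
    rw [e4, e5, ← e2, ← e3, ← max_mul_of_nonneg _ _ (pow_nonneg hQ.le _)]
    have hm1 := max_PQ_pos φ x
    have hm2 := max_PQ_pos ψ (push φ x hQ.ne')
    rw [Real.log_mul hm2.ne' (pow_pos hQ _).ne', Real.log_pow, Real.log_div hm1.ne' hQ.ne']
    push_cast
    ring

lemma hh_iter_succ (R : RMap K) (hR : 1 ≤ R.deg) (n : ℕ) {x : P1 K} (hx : Hyp x) :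
    hh (iter R (n + 1)) x = hh R (R.map^[n] x) + R.deg * hh (iter R n) x := by
  rw [iter, hh_comp R (iter R n) (deg_iter_pos R hR n) hx, map_iter]

/-- the normalised iterates converge uniformly at hyperbolic points -/
lemma hh_cauchy (R : RMap K) (hR : 2 ≤ R.deg) : ∃ C : ℝ, 0 ≤ C ∧ ∀ (m n : ℕ), m ≤ n → ∀ x : P1 K, Hyp x →
    |hh (iter R n) x / (R.deg : ℝ) ^ n - hh (iter R m) x / (R.deg : ℝ) ^ m| ≤ C / (R.deg : ℝ) ^ m := by
  obtain ⟨C, hC0, hC⟩ := exists_hh_bound R
  have hd : (2 : ℝ) ≤ R.deg := by exact_mod_cast hR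
  have hdpos : (0 : ℝ) < R.deg := by linarith
  refine ⟨C, hC0, ?_⟩
  intro m n hmn x hx
  have hstep : ∀ k, |hh (iter R (k + 1)) x / (R.deg : ℝ) ^ (k + 1) - hh (iter R k) x / (R.deg : ℝ) ^ k| ≤
      C / (R.deg : ℝ) ^ (k + 1) := by
    intro k
    rw [hh_iter_succ R (by omega) k hx]
    have : (hh R (R.map^[k] x) + R.deg * hh (iter R k) x) / (R.deg : ℝ) ^ (k + 1) - hh (iter R k) x / (R.deg : ℝ) ^ k =
        hh R (R.map^[k] x) / (R.deg : ℝ) ^ (k + 1) := by
      rw [pow_succ]; field_simp; ring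
    rw [this, abs_div, abs_of_pos (pow_pos hdpos _)]
    gcongr
    exact hC _
  -- sum of the geometric series : claim  ≤ C (1/d^m - 1/d^n)
  have key : |hh (iter R n) x / (R.deg : ℝ) ^ n - hh (iter R m) x / (R.deg : ℝ) ^ m| ≤
      C / (R.deg : ℝ) ^ m - C / (R.deg : ℝ) ^ n := by
    induction n, hmn using Nat.le_induction with
    | base => simp
    | succ n hmn ih =>
      have h1 := hstep n
      have h2 : C / (R.deg : ℝ) ^ (n + 1) ≤ C / (R.deg : ℝ) ^ n - C / (R.deg : ℝ) ^ (n + 1) := by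
        have : C / (R.deg : ℝ) ^ n = R.deg * (C / (R.deg : ℝ) ^ (n + 1)) := by
          rw [pow_succ]; field_simp
        rw [this]
        have h3 : 0 ≤ C / (R.deg : ℝ) ^ (n + 1) := by positivity
        nlinarith
      calc |hh (iter R (n + 1)) x / (R.deg : ℝ) ^ (n + 1) - hh (iter R m) x / (R.deg : ℝ) ^ m|
          = |(hh (iter R (n + 1)) x / (R.deg : ℝ) ^ (n + 1) - hh (iter R n) x / (R.deg : ℝ) ^ n) +
            (hh (iter R n) x / (R.deg : ℝ) ^ n - hh (iter R m) x / (R.deg : ℝ) ^ m)| := by ring_nf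
        _ ≤ _ := abs_add_le _ _
        _ ≤ C / (R.deg : ℝ) ^ (n + 1) + (C / (R.deg : ℝ) ^ m - C / (R.deg : ℝ) ^ n) := add_le_add h1 ih
        _ ≤ _ := by linarith
  refine key.trans ?_
  have : 0 ≤ C / (R.deg : ℝ) ^ n := by positivity
  linarith

/-! ### the chordal kernel -/

/-- chordal kernel between a point of the affine Berkovich line and a classical point -/
noncomputable def ch (x : A1 K) : OnePoint K → ℝ
  | ∞ => 1 / max 1 (x X)
  | (a : K) => x (X - C a) / (max 1 (x X) * max 1 ‖a‖)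

@[simp] lemma ch_infty (x : A1 K) : ch x ∞ = 1 / max 1 (x X) := rfl
@[simp] lemma ch_coe (x : A1 K) (a : K) : ch x (a : OnePoint K) = x (X - C a) / (max 1 (x X) * max 1 ‖a‖) := rfl

lemma one_le_Mx (x : A1 K) : 1 ≤ max 1 (x X) := le_max_left _ _

lemma Mx_pos (x : A1 K) : 0 < max 1 (x X) := lt_of_lt_of_le one_pos (le_max_left _ _)

lemma Ma_pos (a : K) : 0 < max 1 ‖a‖ := lt_of_lt_of_le one_pos (le_max_left _ _)

lemma ch_nonneg (x : A1 K) (a : OnePoint K) : 0 ≤ ch x a := by
  induction a using OnePoint.rec with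
  | infty => rw [ch_infty]; have := Mx_pos x; positivity
  | coe a => rw [ch_coe]; have := Mx_pos x; have := Ma_pos a; have := x.nonneg (X - C a); positivity

lemma ch_le_one (x : A1 K) (a : OnePoint K) : ch x a ≤ 1 := by
  have hM := Mx_pos x
  induction a using OnePoint.rec with
  | infty => rw [ch_infty, div_le_one hM]; exact le_max_left _ _
  | coe a =>
    have hA := Ma_pos a
    rw [ch_coe, div_le_one (by positivity)]
    refine (x.lin_le' a).trans (max_le ?_ ?_)
    · calc x X ≤ max 1 (x X) * 1 := by rw [mul_one]; exact le_max_right _ _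
        _ ≤ _ := by gcongr; exact le_max_left _ _
    · calc ‖a‖ ≤ 1 * max 1 ‖a‖ := by rw [one_mul]; exact le_max_right _ _
        _ ≤ _ := by gcongr; exact le_max_left _ _

/-- value of the pencil in terms of the kernel -/
lemma F_eq_ch (φ : RMap K) (x : A1 K) (hQ : x φ.Q ≠ 0) (a : OnePoint K) :
    ch (push φ x hQ) a * (max (x φ.P) (x φ.Q) * (match a with | ∞ => 1 | (a : K) => max 1 ‖a‖)) = x (φ.F a) := by
  have hm := max_PQ_pos φ x
  have hpos : 0 < x φ.Q := lt_of_le_of_ne (x.nonneg _) (Ne.symm hQ)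
  induction a using OnePoint.rec with
  | infty =>
    rw [ch_infty, max_push_X]
    simp only [F_infty]
    field_simp
  | coe a =>
    have hA := Ma_pos a
    rw [ch_coe, max_push_X, push_lin]
    simp only []
    field_simp

/-- weight of a classical point -/
noncomputable def Mc : OnePoint K → ℝ
  | ∞ => 1
  | (a : K) => max 1 ‖a‖

@[simp] lemma Mc_infty : Mc (∞ : OnePoint K) = 1 := rfl
@[simp] lemma Mc_coe (a : K) : Mc (a : OnePoint K) = max 1 ‖a‖ := rfl

lemma one_le_Mc (a : OnePoint K) : 1 ≤ Mc a := by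
  induction a using OnePoint.rec with
  | infty => exact le_rfl
  | coe a => exact le_max_left _ _

lemma F_eq_ch' (φ : RMap K) (x : A1 K) (hQ : x φ.Q ≠ 0) (a : OnePoint K) :
    x (φ.F a) = ch (push φ x hQ) a * (max (x φ.P) (x φ.Q) * Mc a) := by
  rw [← F_eq_ch φ x hQ a]
  induction a using OnePoint.rec with
  | infty => rfl
  | coe a => rfl

/-- the product formula -/
lemma F_eq_prod_ch (φ : RMap K) (x : A1 K) (a : OnePoint K) :
    x (φ.F a) = gn 0 1 (φ.F a) * max 1 (x X) ^ φ.deg * ((φ.fib a).map (ch x)).prod := by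
  have hM := Mx_pos x
  have hle := natDegree_F_le φ a
  unfold RMap.fib
  rw [Multiset.map_add, Multiset.prod_add, Multiset.map_map, Multiset.map_replicate, Multiset.prod_replicate,
    ch_infty, x.eq_prod]
  have h1 : ∀ s : Multiset K, (s.map (fun z => x (X - C z))).prod =
      (s.map (fun z => max ‖z - 0‖ 1)).prod * max 1 (x X) ^ s.card * (s.map (ch x ∘ fun z => ((z : K) : OnePoint K))).prod := by
    intro s
    induction s using Multiset.induction_on with
    | empty => simp
    | cons a s ih =>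
      rw [Multiset.map_cons, Multiset.prod_cons, ih, Multiset.map_cons, Multiset.prod_cons, Multiset.card_cons,
        Multiset.map_cons, Multiset.prod_cons]
      simp only [Function.comp, ch_coe, sub_zero]
      have hA := Ma_pos a
      have e : max ‖a‖ 1 = max 1 ‖a‖ := max_comm _ _
      rw [e, pow_succ]
      field_simp
  rw [h1, IsAlgClosed.card_roots_eq_natDegree, gn]
  have h2 : max 1 (x X) ^ φ.deg = max 1 (x X) ^ (φ.F a).natDegree * max 1 (x X) ^ (φ.deg - (φ.F a).natDegree) := by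
    rw [← pow_add]; congr 1; omega
  rw [h2, one_div, inv_pow]
  field_simp

/-- lower bound for the pencil at the Gauss point -/
lemma exists_gauss_lower (φ : RMap K) (hD : 1 ≤ φ.deg) : ∃ c₁ : ℝ, 0 < c₁ ∧ ∀ a, c₁ * Mc a ≤ gn 0 1 (φ.F a) := by
  obtain ⟨b, ρ, hI⟩ := exists_Im φ hD (0 : K) one_pos
  have hρ := hI.1
  have hg : 0 < gn 0 1 φ.Q := gn_pos 0 one_pos (Q_ne_zero φ hD)
  set M := max 1 (max ‖b‖ ρ) with hM
  have hM1 : 1 ≤ M := le_max_left _ _
  have hM0 : 0 < M := by linarith
  have hMb : ‖b‖ ≤ M := (le_max_left _ _).trans (le_max_right _ _)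
  have hMρ : ρ ≤ M := (le_max_right _ _).trans (le_max_right _ _)
  refine ⟨ρ / M * gn 0 1 φ.Q / max 1 ρ, by positivity, fun a => ?_⟩
  rw [hI.gn_F]
  have hmax1 : 1 ≤ max 1 ρ := le_max_left _ _
  have hkey : ρ / M / max 1 ρ * Mc a ≤ wt b ρ a := by
    induction a using OnePoint.rec with
    | infty =>
      rw [Mc_infty, wt_infty, mul_one, div_div, div_le_one (by positivity)]
      calc ρ ≤ M * 1 := by rw [mul_one]; exact hMρ
        _ ≤ M * max 1 ρ := by gcongr
    | coe a =>
      rw [Mc_coe, wt_coe]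
      have h0 : ρ / M / max 1 ρ ≤ ρ / M := div_le_self (by positivity) hmax1
      have hA := Ma_pos a
      refine (mul_le_mul_of_nonneg_right h0 hA.le).trans ?_
      by_cases h : ‖a‖ ≤ M
      · refine le_trans ?_ (le_max_right _ _)
        rw [div_mul_eq_mul_div, div_le_iff₀ hM0]
        gcongr
        exact max_le hM1 h
      · push Not at h
        have h1 : ‖a - b‖ = ‖a‖ := norm_sub_eq_left (lt_of_le_of_lt hMb h)
        refine le_trans ?_ (le_max_left _ _)
        rw [h1, max_eq_right (hM1.trans h.le), div_mul_eq_mul_div, div_le_iff₀ hM0, mul_comm]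
        gcongr
  calc ρ / M * gn 0 1 φ.Q / max 1 ρ * Mc a = (ρ / M / max 1 ρ * Mc a) * gn 0 1 φ.Q := by ring
    _ ≤ wt b ρ a * gn 0 1 φ.Q := by gcongr

/-- one step lower bound for the kernel -/
lemma exists_ch_lower (φ : RMap K) (hD : 1 ≤ φ.deg) : ∃ c₀ : ℝ, 0 < c₀ ∧ c₀ ≤ 1 ∧ ∀ (x : A1 K) (hQ : x φ.Q ≠ 0) (δ : ℝ), 0 ≤ δ →
    (∀ z, δ ≤ ch x z) → ∀ a, c₀ * δ ^ φ.deg ≤ ch (push φ x hQ) a := by
  obtain ⟨c₁, hc₁, hc₁'⟩ := exists_gauss_lower φ hD
  obtain ⟨C, hC0, hC⟩ := exists_hh_bound φ
  refine ⟨min 1 (c₁ / Real.exp C), by positivity, min_le_left _ _, ?_⟩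
  intro x hQ δ hδ hz a
  have hM := Mx_pos x
  have hm := max_PQ_pos φ x
  have hup : max (x φ.P) (x φ.Q) ≤ Real.exp C * max 1 (x X) ^ φ.deg := by
    have h1 := (abs_le.1 (hC (x : P1 K))).2
    rw [hh_coe, sub_le_iff_le_add, ← Real.log_pow] at h1
    have h2 := Real.exp_le_exp.2 h1
    rwa [Real.exp_log hm, Real.exp_add, Real.exp_log (by positivity)] at h2
  have hprod : δ ^ φ.deg ≤ ((φ.fib a).map (ch x)).prod := by
    rw [← card_fib φ a]
    induction (φ.fib a) using Multiset.induction_on with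
    | empty => simp
    | cons b s ih =>
      rw [Multiset.card_cons, Multiset.map_cons, Multiset.prod_cons, pow_succ, mul_comm]
      exact mul_le_mul (hz b) ih (by positivity) (ch_nonneg _ _)
  have hMc : 0 < Mc a := lt_of_lt_of_le one_pos (one_le_Mc a)
  have h1 := F_eq_prod_ch φ x a
  rw [F_eq_ch' φ x hQ a] at h1
  have h2 : ch (push φ x hQ) a * (Real.exp C * max 1 (x X) ^ φ.deg * Mc a) ≥ c₁ * Mc a * max 1 (x X) ^ φ.deg * δ ^ φ.deg := by
    calc ch (push φ x hQ) a * (Real.exp C * max 1 (x X) ^ φ.deg * Mc a)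
        ≥ ch (push φ x hQ) a * (max (x φ.P) (x φ.Q) * Mc a) := by
          have := ch_nonneg (push φ x hQ) a
          gcongr
      _ = gn 0 1 (φ.F a) * max 1 (x X) ^ φ.deg * ((φ.fib a).map (ch x)).prod := h1
      _ ≥ c₁ * Mc a * max 1 (x X) ^ φ.deg * δ ^ φ.deg := by
          have := hc₁' a
          have h6 : 0 ≤ gn 0 1 (φ.F a) * max 1 (x X) ^ φ.deg :=
            mul_nonneg (gn_nonneg 0 zero_le_one _) (by positivity)
          gcongr
  have h3 : c₁ / Real.exp C * δ ^ φ.deg ≤ ch (push φ x hQ) a := by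
    have hpos : 0 < Real.exp C * max 1 (x X) ^ φ.deg * Mc a := by positivity
    refine le_of_mul_le_mul_right ?_ hpos
    calc c₁ / Real.exp C * δ ^ φ.deg * (Real.exp C * max 1 (x X) ^ φ.deg * Mc a)
        = c₁ * Mc a * max 1 (x X) ^ φ.deg * δ ^ φ.deg := by field_simp
      _ ≤ _ := h2
  refine le_trans ?_ h3
  gcongr
  exact min_le_right _ _

/-- `R ^ n` of a hyperbolic point, as a point of the affine line -/
lemma exists_coe_of_hyp {x : P1 K} (hx : Hyp x) : ∃ y : A1 K, x = (y : P1 K) := by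
  induction x using OnePoint.rec with
  | infty => exact absurd hx not_hyp_infty
  | coe y => exact ⟨y, rfl⟩

/-- lower bound for the kernel along an orbit -/
lemma exists_ch_iter_lower (R : RMap K) (hR : 2 ≤ R.deg) (x : A1 K) (hx : Hyp (x : P1 K)) {δ : ℝ} (hδ : 0 < δ) 
    (hz : ∀ z, δ ≤ ch x z) : ∃ C : ℝ, 0 ≤ C ∧ ∀ (n : ℕ) (y : A1 K), R.map^[n] (x : P1 K) = (y : P1 K) → 
    ∀ a, Real.exp (- C * (R.deg : ℝ) ^ n) ≤ ch y a := by
  obtain ⟨c₀, hc₀, hc₀1, hstep⟩ := exists_ch_lower R (by omega)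
  have hδ1 : δ ≤ 1 := (hz ∞).trans (ch_le_one _ _)
  have key : ∀ (n : ℕ) (y : A1 K), R.map^[n] (x : P1 K) = (y : P1 K) → ∀ a, c₀⁻¹ * (c₀ * δ) ^ (R.deg ^ n) ≤ ch y a := by
    intro n
    induction n with
    | zero =>
      intro y hy a
      simp only [Function.iterate_zero, id] at hy
      rw [OnePoint.coe_eq_coe] at hy
      subst hy
      rw [pow_zero, pow_one, ← mul_assoc, inv_mul_cancel₀ hc₀.ne', one_mul]
      exact hz a
    | succ n ih =>
      intro y hy a
      have hhyp : Hyp (R.map^[n] (x : P1 K)) := (hyp_iterate R (by omega) n _).2 hx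
      obtain ⟨w, hw⟩ := exists_coe_of_hyp hhyp
      rw [Function.iterate_succ_apply', hw] at hy
      rw [hw] at hhyp
      have hQ := (hhyp.pos (Q_ne_zero R (by omega))).ne'
      rw [map_of_ne R w hQ, OnePoint.coe_eq_coe] at hy
      rw [← hy]
      refine le_trans ?_ (hstep w hQ _ (by positivity) (ih w hw) a)
      rw [mul_pow (c₀⁻¹) _ R.deg, ← pow_mul, ← pow_succ, ← mul_assoc]
      have h1 : (c₀⁻¹) ≤ c₀ * (c₀⁻¹) ^ R.deg := by
        obtain ⟨k, hk⟩ := Nat.exists_eq_add_of_le hR
        rw [hk, pow_add, pow_two]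
        have h2 : 1 ≤ (c₀⁻¹) ^ k := one_le_pow₀ (one_le_inv₀ hc₀ |>.2 hc₀1)
        have h3 : c₀ * (c₀⁻¹ * c₀⁻¹ * c₀⁻¹ ^ k) = c₀⁻¹ * c₀⁻¹ ^ k := by
          field_simp
        rw [h3]
        exact le_mul_of_one_le_right (by positivity) h2
      gcongr
  refine ⟨- Real.log (c₀ * δ), ?_, ?_⟩
  · have := Real.log_nonpos (by positivity) (mul_le_one₀ hc₀1 hδ.le hδ1)
    linarith
  · intro n y hy a
    refine le_trans ?_ (key n y hy a)
    have h1 : (c₀ * δ) ^ (R.deg ^ n) = Real.exp (- - Real.log (c₀ * δ) * (R.deg : ℝ) ^ n) := by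
      rw [neg_neg, ← Real.rpow_natCast, Real.rpow_def_of_pos (by positivity)]
      push_cast; rfl
    rw [h1]
    exact le_mul_of_one_le_left (Real.exp_pos _).le (one_le_inv₀ hc₀ |>.2 hc₀1)

/-- the diameter controls the kernel from below -/
lemma ch_ge_of_diam (x : A1 K) {δ : ℝ} (hδ : 0 < δ) (h : ∀ a : K, δ ≤ x (X - C a)) (z : OnePoint K) :
    δ / max 1 (x X) ^ 2 ≤ ch x z := by
  have hM := Mx_pos x
  have hδX : δ ≤ x X := by have := h 0; rwa [A1.lin_zero] at this
  have hδM : δ ≤ max 1 (x X) := hδX.trans (le_max_right _ _)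
  induction z using OnePoint.rec with
  | infty =>
    rw [ch_infty, pow_two, ← div_div]
    gcongr
    rwa [div_le_one hM]
  | coe a =>
    have hA := Ma_pos a
    rw [ch_coe]
    by_cases ha : ‖a‖ ≤ max 1 (x X)
    · rw [pow_two]
      have h1 : max 1 ‖a‖ ≤ max 1 (x X) := max_le (le_max_left _ _) ha
      have := x.nonneg (X - C a)
      have := h a
      gcongr
    · push Not at ha
      have h1 : x (X - C a) = ‖a‖ := by
        have := x.lin_eq_of_lt (a := a) (b := 0) (by rw [A1.lin_zero, sub_zero]; exact lt_of_le_of_lt (le_max_right _ _) ha)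
        rwa [sub_zero] at this
      have h2 : max 1 ‖a‖ = ‖a‖ := max_eq_right ((le_max_left _ _).trans ha.le)
      have h3 : 0 < ‖a‖ := lt_of_lt_of_le hM ha.le
      rw [h1, h2, pow_two, ← div_div, mul_comm, ← div_div, div_self h3.ne']
      gcongr
      rwa [div_le_one hM]

lemma hyp_zt (c : K) {r : ℝ} (hr : 0 < r) : Hyp (zt c r hr : P1 K) := by
  rw [hyp_coe]
  intro a ha
  have h1 : zt c r hr (X - C a) = evalPt a (X - C a) := by rw [ha]
  rw [zt_lin, evalPt_apply] at h1
  simp only [eval_sub, eval_X, eval_C, sub_self, norm_zero] at h1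
  have := le_max_right ‖a - c‖ r
  linarith

/-- chordal kernel between classical points -/
noncomputable def cc : OnePoint K → OnePoint K → ℝ
  | ∞, ∞ => 0
  | ∞, (b : K) => 1 / max 1 ‖b‖
  | (a : K), ∞ => 1 / max 1 ‖a‖
  | (a : K), (b : K) => ‖a - b‖ / (max 1 ‖a‖ * max 1 ‖b‖)

@[simp] lemma cc_ii : cc (∞ : OnePoint K) ∞ = 0 := rfl
@[simp] lemma cc_ic (b : K) : cc (∞ : OnePoint K) (b : OnePoint K) = 1 / max 1 ‖b‖ := rfl
@[simp] lemma cc_ci (a : K) : cc (a : OnePoint K) ∞ = 1 / max 1 ‖a‖ := rfl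
@[simp] lemma cc_cc (a b : K) : cc (a : OnePoint K) (b : OnePoint K) = ‖a - b‖ / (max 1 ‖a‖ * max 1 ‖b‖) := rfl

lemma cc_nonneg (a b : OnePoint K) : 0 ≤ cc a b := by
  induction a using OnePoint.rec with
  | infty =>
    induction b using OnePoint.rec with
    | infty => simp
    | coe b => rw [cc_ic]; have := Ma_pos b; positivity
  | coe a =>
    induction b using OnePoint.rec with
    | infty => rw [cc_ci]; have := Ma_pos a; positivity
    | coe b => rw [cc_cc]; have := Ma_pos a; have := Ma_pos b; positivity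

lemma cc_pos {a b : OnePoint K} (h : a ≠ b) : 0 < cc a b := by
  induction a using OnePoint.rec with
  | infty =>
    induction b using OnePoint.rec with
    | infty => exact absurd rfl h
    | coe b => rw [cc_ic]; have := Ma_pos b; positivity
  | coe a =>
    induction b using OnePoint.rec with
    | infty => rw [cc_ci]; have := Ma_pos a; positivity
    | coe b =>
      rw [cc_cc]; have := Ma_pos a; have := Ma_pos b
      have h1 : 0 < ‖a - b‖ := norm_pos_iff.2 (sub_ne_zero.2 (fun h2 => h (by rw [h2])))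
      positivity

lemma cc_comm (a b : OnePoint K) : cc a b = cc b a := by
  induction a using OnePoint.rec with
  | infty =>
    induction b using OnePoint.rec with
    | infty => rfl
    | coe b => rfl
  | coe a =>
    induction b using OnePoint.rec with
    | infty => rfl
    | coe b => rw [cc_cc, cc_cc, norm_sub_rev, mul_comm]

/-- ultrametric inequality for the kernel -/
lemma cc_le_max (x : A1 K) (a b : OnePoint K) : cc a b ≤ max (ch x a) (ch x b) := by
  have hM := Mx_pos x
  have key1 : ∀ b : K, 1 / max 1 ‖b‖ ≤ max (ch x ∞) (ch x (b : OnePoint K)) := by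
    intro b
    have hB := Ma_pos b
    rw [ch_infty, ch_coe]
    have h1 : max 1 (x X) ≤ max (max 1 ‖b‖) (x (X - C b)) := by
      apply max_le ((le_max_left _ _).trans (le_max_left _ _))
      exact (x.X_le b).trans (max_le (le_max_right _ _) ((le_max_right _ _).trans (le_max_left _ _)))
    have h2 : max (1 / max 1 (x X)) (x (X - C b) / (max 1 (x X) * max 1 ‖b‖)) =
        max (max 1 ‖b‖) (x (X - C b)) / (max 1 (x X) * max 1 ‖b‖) := by
      rw [← max_div_div_right (by positivity)]
      congr 1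
      field_simp
    rw [h2, div_le_div_iff₀ hB (by positivity), one_mul]
    gcongr
  have key2 : ∀ a b : K, ‖a - b‖ / (max 1 ‖a‖ * max 1 ‖b‖) ≤ max (ch x (a : OnePoint K)) (ch x (b : OnePoint K)) := by
    intro a b
    have hA := Ma_pos a
    have hB := Ma_pos b
    rw [ch_coe, ch_coe]
    have h1 : ‖a - b‖ * max 1 (x X) ≤ max (x (X - C a) * max 1 ‖b‖) (x (X - C b) * max 1 ‖a‖) := by
      rw [mul_max_of_nonneg _ _ (norm_nonneg _), mul_one]
      apply max_le
      · refine (x.norm_sub_le a b).trans (max_le_max ?_ ?_)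
        · exact le_mul_of_one_le_right (x.nonneg _) (le_max_left _ _)
        · exact le_mul_of_one_le_right (x.nonneg _) (le_max_left _ _)
      · have e : C (a - b) * X = C a * (X - C b) - C b * (X - C a) := by rw [C_sub]; ring
        rw [← x.map_C_mul, e]
        refine (x.sub_le _ _).trans ?_
        rw [x.map_C_mul, x.map_C_mul, max_comm]
        apply max_le_max
        · rw [mul_comm]; exact mul_le_mul_of_nonneg_left (le_max_right _ _) (x.nonneg _)
        · rw [mul_comm]; exact mul_le_mul_of_nonneg_left (le_max_right _ _) (x.nonneg _)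
    have h2 : max (x (X - C a) / (max 1 (x X) * max 1 ‖a‖)) (x (X - C b) / (max 1 (x X) * max 1 ‖b‖)) =
        max (x (X - C a) * max 1 ‖b‖) (x (X - C b) * max 1 ‖a‖) / (max 1 (x X) * (max 1 ‖a‖ * max 1 ‖b‖)) := by
      rw [← max_div_div_right (by positivity)]
      congr 1
      · field_simp
      · field_simp
    rw [h2, div_le_div_iff₀ (by positivity) (by positivity)]
    calc ‖a - b‖ * (max 1 (x X) * (max 1 ‖a‖ * max 1 ‖b‖)) = (‖a - b‖ * max 1 (x X)) * (max 1 ‖a‖ * max 1 ‖b‖) := by ring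
      _ ≤ _ := by gcongr
  induction a using OnePoint.rec with
  | infty =>
    induction b using OnePoint.rec with
    | infty => rw [cc_ii]; exact (ch_nonneg x ∞).trans (le_max_left _ _)
    | coe b => exact key1 b
  | coe a =>
    induction b using OnePoint.rec with
    | infty => rw [max_comm]; exact key1 a
    | coe b => exact key2 a b

lemma ch_le_max (x : A1 K) (a b : OnePoint K) : ch x a ≤ max (ch x b) (cc b a) := by
  have hM := Mx_pos x
  induction a using OnePoint.rec with
  | infty =>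
    induction b using OnePoint.rec with
    | infty => exact le_max_left _ _
    | coe b =>
      have hB := Ma_pos b
      rw [ch_infty, ch_coe, cc_ci]
      have h1 : max 1 ‖b‖ ≤ max (x (X - C b)) (max 1 (x X)) := by
        apply max_le ((le_max_left _ _).trans (le_max_right _ _))
        have := x.norm_sub_le b 0
        rw [sub_zero, A1.lin_zero] at this
        exact this.trans (max_le_max le_rfl (le_max_right _ _))
      have h2 : max (x (X - C b) / (max 1 (x X) * max 1 ‖b‖)) (1 / max 1 ‖b‖) =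
          max (x (X - C b)) (max 1 (x X)) / (max 1 (x X) * max 1 ‖b‖) := by
        rw [← max_div_div_right (by positivity)]
        congr 1
        field_simp
      rw [h2, div_le_div_iff₀ hM (by positivity), one_mul, mul_comm]
      gcongr
  | coe a =>
    have hA := Ma_pos a
    induction b using OnePoint.rec with
    | infty =>
      rw [ch_coe, ch_infty, cc_ic]
      have h1 := x.lin_le' a
      have h2 : max (1 / max 1 (x X)) (1 / max 1 ‖a‖) = max (max 1 ‖a‖) (max 1 (x X)) / (max 1 (x X) * max 1 ‖a‖) := by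
        rw [← max_div_div_right (by positivity)]
        congr 1
        · field_simp
        · field_simp
      rw [h2]
      gcongr
      exact h1.trans (max_le ((le_max_right _ _).trans (le_max_right _ _)) ((le_max_right _ _).trans (le_max_left _ _)))
    | coe b =>
      have hB := Ma_pos b
      rw [ch_coe, ch_coe, cc_cc]
      have h1 : x (X - C a) * max 1 ‖b‖ ≤ max (x (X - C b) * max 1 ‖a‖) (‖b - a‖ * max 1 (x X)) := by
        rw [mul_max_of_nonneg _ _ (x.nonneg _), mul_one]
        apply max_le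
        · refine (x.lin_le a b).trans (max_le_max ?_ ?_)
          · exact le_mul_of_one_le_right (x.nonneg _) (le_max_left _ _)
          · rw [norm_sub_rev]; exact le_mul_of_one_le_right (norm_nonneg _) (le_max_left _ _)
        · have e : C b * (X - C a) = C a * (X - C b) - C (a - b) * X := by rw [C_sub]; ring
          rw [mul_comm, ← x.map_C_mul, e]
          refine (x.sub_le _ _).trans ?_
          rw [x.map_C_mul, x.map_C_mul]
          apply max_le_max
          · rw [mul_comm]; exact mul_le_mul_of_nonneg_left (le_max_right _ _) (x.nonneg _)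
          · rw [norm_sub_rev]; exact mul_le_mul_of_nonneg_left (le_max_right _ _) (norm_nonneg _)
      have h2 : max (x (X - C b) / (max 1 (x X) * max 1 ‖b‖)) (‖b - a‖ / (max 1 ‖b‖ * max 1 ‖a‖)) =
          max (x (X - C b) * max 1 ‖a‖) (‖b - a‖ * max 1 (x X)) / (max 1 (x X) * (max 1 ‖a‖ * max 1 ‖b‖)) := by
        rw [← max_div_div_right (by positivity)]
        congr 1
        · field_simp
        · field_simp
      rw [h2, div_le_div_iff₀ (by positivity) (by positivity)]
      calc x (X - C a) * (max 1 (x X) * (max 1 ‖a‖ * max 1 ‖b‖)) = (x (X - C a) * max 1 ‖b‖) * (max 1 (x X) * max 1 ‖a‖) := by ring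
        _ ≤ _ := by gcongr

end BerkFix
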