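import Pool.Agent.Lib.MP_edb0ca_an.Count

set_option linter.unusedSectionVars false
set_option linter.unusedVariables false

open Polynomial OnePoint

namespace BerkFix

section alg

variable {K : Type*} [Field K]

/-- homogeneous evaluation -/
def homv (d : ℕ) (f : K[X]) (u v : K) : K := ∑ i ∈ Finset.range (d + 1), f.coeff i * u ^ i * v ^ (d - i)

lemma natDegree_hom_le {d D : ℕ} {f A B : K[X]} (hA : A.natDegree ≤ D) (hB : B.natDegree ≤ D) :
    (hom d f A B).natDegree ≤ d * D := by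
  unfold hom
  apply natDegree_sum_le_of_forall_le
  intro i hi
  have hi' : i ≤ d := Nat.lt_succ_iff.1 (Finset.mem_range.1 hi)
  calc (C (f.coeff i) * A ^ i * B ^ (d - i)).natDegree ≤ (C (f.coeff i) * A ^ i).natDegree + (B ^ (d - i)).natDegree :=
        natDegree_mul_le
    _ ≤ i * D + (d - i) * D := by
        gcongr
        · exact (natDegree_C_mul_le _ _).trans (natDegree_pow_le.trans (Nat.mul_le_mul_left _ hA))
        · exact natDegree_pow_le.trans (Nat.mul_le_mul_left _ hB)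
    _ = d * D := by rw [← Nat.add_mul]; congr 1; omega

lemma coeff_hom {d D : ℕ} {f A B : K[X]} (hA : A.natDegree ≤ D) (hB : B.natDegree ≤ D) :
    (hom d f A B).coeff (d * D) = homv d f (A.coeff D) (B.coeff D) := by
  unfold hom homv
  rw [finsetSum_coeff]
  apply Finset.sum_congr rfl
  intro i hi
  have hi' : i ≤ d := Nat.lt_succ_iff.1 (Finset.mem_range.1 hi)
  have e : d * D = i * D + (d - i) * D := by rw [← Nat.add_mul]; congr 1; omega
  rw [e, coeff_mul_add_eq_of_natDegree_le, coeff_C_mul, coeff_pow_of_natDegree_le hA, coeff_pow_of_natDegree_le hB]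
  · exact (natDegree_C_mul_le _ _).trans (natDegree_pow_le.trans (Nat.mul_le_mul_left _ hA))
  · exact natDegree_pow_le.trans (Nat.mul_le_mul_left _ hB)

lemma homv_of_ne {d : ℕ} {f : K[X]} {u v : K} (hf : f.natDegree ≤ d) (hv : v ≠ 0) :
    homv d f u v = v ^ d * f.eval (u / v) := by
  have := eval_hom_of_ne d f (C u) (C v) 0 hf (by simpa using hv)
  rw [eval_hom] at this
  simpa [homv] using this

lemma homv_of_eq {d : ℕ} {f : K[X]} {u : K} : homv d f u 0 = f.coeff d * u ^ d := by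
  have := eval_hom_of_eq d f (C u) (C 0) 0 (by simp)
  rw [eval_hom] at this
  simpa [homv] using this

variable [IsAlgClosed K]

lemma RMap.no_common_root (ψ : RMap K) (z : K) : ψ.P.eval z ≠ 0 ∨ ψ.Q.eval z ≠ 0 := by
  have h1 := (Polynomial.isCoprime_iff_aeval_ne_zero_of_isAlgClosed K K ψ.P ψ.Q).1 ψ.cop z
  simpa only [coe_aeval_eq_eval] using h1

lemma homv_ne (ψ : RMap K) {u v : K} (huv : u ≠ 0 ∨ v ≠ 0) :
    homv ψ.deg ψ.P u v ≠ 0 ∨ homv ψ.deg ψ.Q u v ≠ 0 := by
  by_cases hv : v = 0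
  · subst hv
    rw [homv_of_eq, homv_of_eq]
    have hu : u ≠ 0 := by rcases huv with h | h; exact h; exact absurd rfl h
    rcases exists_coeff_ne ψ with h | h
    · left; exact mul_ne_zero h (pow_ne_zero _ hu)
    · right; exact mul_ne_zero h (pow_ne_zero _ hu)
  · have hP : ψ.P.natDegree ≤ ψ.deg := le_max_left _ _
    have hQ : ψ.Q.natDegree ≤ ψ.deg := le_max_right _ _
    rw [homv_of_ne hP hv, homv_of_ne hQ hv]
    rcases ψ.no_common_root (u / v) with h | h
    · left; exact mul_ne_zero (pow_ne_zero _ hv) h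
    · right; exact mul_ne_zero (pow_ne_zero _ hv) h

lemma deg_comp (ψ φ : RMap K) : (ψ.comp φ).deg = ψ.deg * φ.deg := by
  have hA : φ.P.natDegree ≤ φ.deg := le_max_left _ _
  have hB : φ.Q.natDegree ≤ φ.deg := le_max_right _ _
  apply le_antisymm
  · exact max_le (natDegree_hom_le hA hB) (natDegree_hom_le hA hB)
  · rcases homv_ne ψ (exists_coeff_ne φ) with h | h
    · rw [← coeff_hom hA hB] at h
      exact (le_natDegree_of_ne_zero h).trans (le_max_left _ _)
    · rw [← coeff_hom hA hB] at h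
      exact (le_natDegree_of_ne_zero h).trans (le_max_right _ _)

lemma deg_iter (R : RMap K) (n : ℕ) : (iter R n).deg = R.deg ^ n := by
  induction n with
  | zero => simp [iter, RMap.deg]
  | succ n ih => rw [iter, deg_comp, ih, pow_succ, mul_comm]

lemma deg_iter_pos (R : RMap K) (hR : 1 ≤ R.deg) (n : ℕ) : 1 ≤ (iter R n).deg := by
  rw [deg_iter]; exact Nat.one_le_pow _ _ hR

@[ext] lemma RMap.ext' {ψ φ : RMap K} (h1 : ψ.P = φ.P) (h2 : ψ.Q = φ.Q) : ψ = φ := by
  cases ψ; cases φ; simp only at h1 h2; subst h1; subst h2; rfl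

lemma hom_prod {s : Multiset K} {A B : K[X]} (hB : B ≠ 0) :
    hom s.card (s.map (fun z => X - C z)).prod A B = (s.map (fun z => A - C z * B)).prod := by
  induction s using Multiset.induction_on with
  | empty => simp [hom]
  | cons a s ih =>
    rw [Multiset.card_cons, Multiset.map_cons, Multiset.prod_cons, add_comm, hom_mul _ _ hB, ih,
      hom_one_X_sub_C, Multiset.map_cons, Multiset.prod_cons]
    · exact natDegree_X_sub_C_le _
    · rw [natDegree_multiset_prod_X_sub_C_eq_card]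

lemma hom_eq_prod {d : ℕ} {f A B : K[X]} (hf : f.natDegree ≤ d) (hB : B ≠ 0) :
    hom d f A B = C f.leadingCoeff * (f.roots.map (fun z => A - C z * B)).prod * B ^ (d - f.natDegree) := by
  obtain ⟨k, rfl⟩ := Nat.exists_eq_add_of_le hf
  rw [hom_succ le_rfl hB, Nat.add_sub_cancel_left]
  congr 1
  have h1 : f = C f.leadingCoeff * (f.roots.map (fun z => X - C z)).prod :=
    (C_leadingCoeff_mul_prod_multiset_X_sub_C (IsAlgClosed.card_roots_eq_natDegree)).symm
  conv_lhs => rw [h1, hom_C_mul, ← h1]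
  rw [← IsAlgClosed.card_roots_eq_natDegree, hom_prod hB]

lemma comp_F (ψ φ : RMap K) (a : OnePoint K) :
    (ψ.comp φ).F a = hom ψ.deg (ψ.F a) φ.P φ.Q := by
  induction a using OnePoint.rec with
  | infty => rfl
  | coe a =>
    change hom ψ.deg ψ.P φ.P φ.Q - C a * hom ψ.deg ψ.Q φ.P φ.Q = hom ψ.deg (ψ.P - C a * ψ.Q) φ.P φ.Q
    rw [hom_sub, hom_C_mul]

lemma comp_F_prod {K : Type*} [Field K] [IsAlgClosed K] (ψ φ : RMap K) (hQ : φ.Q ≠ 0) (a : OnePoint K)
    (hle : (ψ.F a).natDegree ≤ ψ.deg) :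
    (ψ.comp φ).F a = C (ψ.F a).leadingCoeff * ((ψ.fib a).map φ.F).prod := by
  rw [comp_F, hom_eq_prod hle hQ, RMap.fib, Multiset.map_add, Multiset.map_map, Multiset.prod_add,
    Multiset.map_replicate, Multiset.prod_replicate, mul_assoc]
  rfl

/-- associativity of the composition -/
lemma comp_assoc (ψ φ χ : RMap K) (hQ : χ.Q ≠ 0) (hψφ : (ψ.comp φ).deg = ψ.deg * φ.deg) :
    (ψ.comp φ).comp χ = ψ.comp (φ.comp χ) := by
  have key : ∀ f : K[X], hom (ψ.deg * φ.deg) (hom ψ.deg f φ.P φ.Q) χ.P χ.Q =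
      hom ψ.deg f (hom φ.deg φ.P χ.P χ.Q) (hom φ.deg φ.Q χ.P χ.Q) := by
    intro f
    have hA : φ.P.natDegree ≤ φ.deg := le_max_left _ _
    have hB : φ.Q.natDegree ≤ φ.deg := le_max_right _ _
    apply RatFunc.algebraMap_injective K
    rw [algebraMap_hom _ _ _ _ (natDegree_hom_le hA hB) hQ]
    have e1 : (hom ψ.deg f φ.P φ.Q) = ∑ i ∈ Finset.range (ψ.deg + 1), C (f.coeff i) * φ.P ^ i * φ.Q ^ (ψ.deg - i) := rfl
    have e2 : hom ψ.deg f (hom φ.deg φ.P χ.P χ.Q) (hom φ.deg φ.Q χ.P χ.Q) = 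
      ∑ i ∈ Finset.range (ψ.deg + 1), C (f.coeff i) * (hom φ.deg φ.P χ.P χ.Q) ^ i * (hom φ.deg φ.Q χ.P χ.Q) ^ (ψ.deg - i) := rfl
    rw [e1, e2, map_sum, map_sum, Finset.mul_sum]
    apply Finset.sum_congr rfl
    intro i hi
    have hi' : i ≤ ψ.deg := Nat.lt_succ_iff.1 (Finset.mem_range.1 hi)
    rw [map_mul, map_mul, map_pow, map_pow, map_mul, map_mul, map_pow, map_pow,
      algebraMap_hom _ _ _ _ hA hQ, algebraMap_hom _ _ _ _ hB hQ]
    have h2 : algebraMap K[X] (RatFunc K) (C (f.coeff i)) = algebraMap K (RatFunc K) (f.coeff i) := by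
      rw [← Polynomial.algebraMap_eq, ← IsScalarTower.algebraMap_apply]
    rw [aeval_C, h2, mul_pow, mul_pow]
    have h3 : (algebraMap K[X] (RatFunc K) χ.Q) ^ (ψ.deg * φ.deg) =
        ((algebraMap K[X] (RatFunc K) χ.Q) ^ φ.deg) ^ i * ((algebraMap K[X] (RatFunc K) χ.Q) ^ φ.deg) ^ (ψ.deg - i) := by
      rw [← pow_add, ← pow_mul]; congr 1
      have : i + (ψ.deg - i) = ψ.deg := by omega
      rw [this, mul_comm]
    rw [h3]; ring
  apply RMap.ext'
  · change hom (ψ.comp φ).deg (hom ψ.deg ψ.P φ.P φ.Q) χ.P χ.Q = hom ψ.deg ψ.P (hom φ.deg φ.P χ.P χ.Q) (hom φ.deg φ.Q χ.P χ.Q)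
    rw [hψφ, key]
  · change hom (ψ.comp φ).deg (hom ψ.deg ψ.Q φ.P φ.Q) χ.P χ.Q = hom ψ.deg ψ.Q (hom φ.deg φ.P χ.P χ.Q) (hom φ.deg φ.Q χ.P χ.Q)
    rw [hψφ, key]

lemma hom_X_one {d : ℕ} {f : K[X]} (hf : f.natDegree ≤ d) : hom d f X 1 = f := by
  unfold hom
  conv_rhs => rw [as_sum_range_C_mul_X_pow' f (Nat.lt_succ_of_le hf)]
  simp

lemma iter_one (R : RMap K) : iter R 1 = R := by
  apply RMap.ext'
  · exact hom_X_one (le_max_left _ _)
  · exact hom_X_one (le_max_right _ _)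

lemma iter_zero_comp (R : RMap K) : (iter R 0).comp R = R := by
  have hd : (iter R 0).deg = 1 := by simp [iter, RMap.deg]
  apply RMap.ext'
  · change hom (iter R 0).deg X R.P R.Q = R.P
    rw [hd]
    have := hom_one_X_sub_C (K := K) 0 R.P R.Q
    simpa using this
  · change hom (iter R 0).deg 1 R.P R.Q = R.Q
    rw [hd]
    simp [hom, coeff_one]

end alg

section

variable {K : Type*} [NormedField K] [IsUltrametricDist K] [IsAlgClosed K]

lemma iter_succ' (R : RMap K) (hR : 1 ≤ R.deg) (n : ℕ) : iter R (n + 1) = (iter R n).comp R := by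
  induction n with
  | zero => rw [iter_one, iter_zero_comp]
  | succ n ih =>
    conv_lhs => rw [iter, ih]
    rw [← comp_assoc R (iter R n) R (Q_ne_zero R hR) (deg_comp _ _)]
    rfl

lemma fib_bind_aux (φ : RMap K) (hD : 1 ≤ φ.deg) (s : Multiset (OnePoint K)) :
    (s.map φ.F).prod.roots.map (fun z => ((z : K) : OnePoint K)) +
      Multiset.replicate (s.card * φ.deg - (s.map φ.F).prod.natDegree) ∞ = s.bind φ.fib ∧
    (s.map φ.F).prod.natDegree ≤ s.card * φ.deg ∧ (s.map φ.F).prod ≠ 0 := by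
  induction s using Multiset.induction_on with
  | empty => simp
  | cons a s ih =>
    obtain ⟨ih1, ih2, ih3⟩ := ih
    have h1 := F_ne_zero φ hD a
    have h2 := natDegree_F_le φ a
    rw [Multiset.map_cons, Multiset.prod_cons, roots_mul (mul_ne_zero h1 ih3), natDegree_mul h1 ih3,
      Multiset.card_cons, Multiset.cons_bind, ← ih1, RMap.fib]
    refine ⟨?_, ?_, mul_ne_zero h1 ih3⟩
    · rw [Multiset.map_add]
      have : (s.card + 1) * φ.deg - ((φ.F a).natDegree + (s.map φ.F).prod.natDegree) =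
          (φ.deg - (φ.F a).natDegree) + (s.card * φ.deg - (s.map φ.F).prod.natDegree) := by
        rw [Nat.add_mul]; omega
      rw [this, Multiset.replicate_add]
      abel
    · rw [Nat.add_mul]; omega

/-- The fibres of a composition. -/
theorem fib_comp (ψ φ : RMap K) (hD : 1 ≤ φ.deg) (hψ : 1 ≤ ψ.deg) (a : OnePoint K) :
    (ψ.comp φ).fib a = (ψ.fib a).bind φ.fib := by
  have h := comp_F_prod ψ φ (Q_ne_zero φ hD) a (natDegree_F_le ψ a)
  obtain ⟨h1, h2, h3⟩ := fib_bind_aux φ hD (ψ.fib a)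
  have hlc : (ψ.F a).leadingCoeff ≠ 0 := leadingCoeff_ne_zero.2 (F_ne_zero ψ hψ a)
  rw [← h1, RMap.fib, h, roots_C_mul _ hlc, natDegree_C_mul hlc, deg_comp, card_fib]

/-- Gauss norms of a composition -/
lemma Im.gn_hom {φ : RMap K} (hD : 1 ≤ φ.deg) {c : K} {r : ℝ} {b : K} {ρ : ℝ} (h : Im φ c r b ρ)
    {d : ℕ} {f : K[X]} (hf : f.natDegree ≤ d) :
    gn c r (hom d f φ.P φ.Q) = gn b ρ f * gn c r φ.Q ^ d := by
  rw [hom_eq_prod hf (Q_ne_zero φ hD), gn_mul, gn_pow, gn_C_mul]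
  have : gn c r (f.roots.map (fun z => φ.P - C z * φ.Q)).prod =
      (f.roots.map (fun z => max ‖z - b‖ ρ)).prod * gn c r φ.Q ^ f.roots.card := by
    induction f.roots using Multiset.induction_on with
    | empty => simp
    | cons a s ih =>
      rw [Multiset.map_cons, Multiset.prod_cons, gn_mul, ih, h.2 a, Multiset.map_cons, Multiset.prod_cons,
        Multiset.card_cons, pow_succ]
      ring
  rw [this, IsAlgClosed.card_roots_eq_natDegree]
  unfold gn
  have e : (gn c r φ.Q) ^ d = (gn c r φ.Q) ^ f.natDegree * (gn c r φ.Q) ^ (d - f.natDegree) := by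
    rw [← pow_add]; congr 1; omega
  unfold gn at e
  rw [e]; ring

lemma Im.comp {ψ φ : RMap K} (hD : 1 ≤ φ.deg) {c : K} {r : ℝ} {b : K} {ρ : ℝ} {b' : K} {ρ' : ℝ}
    (h : Im φ c r b ρ) (h' : Im ψ b ρ b' ρ') : Im (ψ.comp φ) c r b' ρ' := by
  refine ⟨h'.1, fun a => ?_⟩
  have h1 := comp_F ψ φ (a : OnePoint K)
  have h2 := comp_F ψ φ ∞
  have h3 := h.gn_hom hD (natDegree_F_le ψ (a : OnePoint K))
  have h4 := h.gn_hom hD (natDegree_F_le ψ ∞)
  rw [← h1] at h3
  rw [← h2] at h4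
  simp only [F_coe, F_infty] at h3 h4
  rw [h3, h4, h'.2 a]
  ring

/-- uniqueness of the image -/
lemma Im.unique {φ : RMap K} (hD : 1 ≤ φ.deg) {c : K} {r : ℝ} (hr : 0 < r) {b : K} {ρ : ℝ} {b' : K} {ρ' : ℝ}
    (h : Im φ c r b ρ) (h' : Im φ c r b' ρ') : ρ = ρ' ∧ ‖b - b'‖ ≤ ρ := by
  have hg : 0 < gn c r φ.Q := gn_pos c hr (Q_ne_zero φ hD)
  have key : ∀ a : K, max ‖a - b‖ ρ = max ‖a - b'‖ ρ' := by
    intro a
    have := (h.2 a).symm.trans (h'.2 a)
    exact mul_right_cancel₀ hg.ne' this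
  have k1 := key b
  have k2 := key b'
  rw [sub_self, norm_zero, max_eq_right h.1.le] at k1
  rw [sub_self, norm_zero, max_eq_right h'.1.le] at k2
  have e1 : ρ' ≤ ρ := by rw [k1]; exact le_max_right _ _
  have e2 : ρ ≤ ρ' := by rw [← k2]; exact le_max_right _ _
  exact ⟨le_antisymm e2 e1, by rw [k1]; exact le_max_left _ _⟩

/-- multiplicativity of the multiplicity -/
theorem mu_comp {ψ φ : RMap K} (hD : 1 ≤ φ.deg) (hψ : 1 ≤ ψ.deg) {c : K} {r : ℝ} (hr : 0 < r) {b : K} {ρ : ℝ}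
    (h : Im φ c r b ρ) : mu (ψ.comp φ) c r = mu ψ b ρ * mu φ c r := by
  classical
  have hρ := h.1
  -- the moving part as a function of the direction
  have hsurj : ∀ W : Option (Set K), ∃ E : Multiset (Option (Set K)),
      ∀ b', lab b ρ b' = W → Ea φ c r b' = E := by
    intro W
    by_cases hW : ∃ b', lab b ρ b' = W
    · obtain ⟨b₁, hb₁⟩ := hW
      refine ⟨Ea φ c r b₁, fun b' hb' => ?_⟩
      ext V
      rw [count_Ea, count_Ea, h.cnt_congr hr hD (hb'.trans hb₁.symm)]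
    · exact ⟨0, fun b' hb' => absurd ⟨b', hb'⟩ hW⟩
  choose EW hEW using hsurj
  have hmap : ∀ a, ((ψ.comp φ).fib a).map (lab c r) =
      (ψ.deg • base φ c r + (base ψ b ρ).bind EW) + (Ea ψ b ρ a).bind EW := by
    intro a
    rw [fib_comp ψ φ hD hψ a, Multiset.map_bind]
    have h1 : (ψ.fib a).bind (fun b' => (φ.fib b').map (lab c r)) =
        (ψ.fib a).bind (fun b' => base φ c r + EW (lab b ρ b')) := by
      apply Multiset.bind_congr
      intro b' _
      rw [← base_add_Ea, hEW _ b' rfl]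
    rw [h1, Multiset.bind_add, add_assoc]
    congr 1
    · have : ∀ s : Multiset (OnePoint K), s.bind (fun _ => base φ c r) = s.card • base φ c r := by
        intro s
        induction s using Multiset.induction_on with
        | empty => simp
        | cons a s ih => rw [Multiset.cons_bind, ih, Multiset.card_cons, add_smul, one_smul, add_comm]
      rw [this, card_fib]
    · rw [← Multiset.add_bind, base_add_Ea, Multiset.bind_map]
  -- supports of the moving parts are disjoint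
  have hdisj : ∀ W W' V, V ∈ EW W → V ∈ EW W' → (∃ b', lab b ρ b' = W) → (∃ b', lab b ρ b' = W') → W = W' := by
    rintro W W' V hV hV' ⟨b₁, hb₁⟩ ⟨b₂, hb₂⟩
    by_contra hne
    rw [← hEW W b₁ hb₁] at hV
    rw [← hEW W' b₂ hb₂] at hV'
    have h1 := h.min_eq hr hD (a := b₁) (a' := b₂) (by rw [hb₁, hb₂]; exact hne) V
    have h2 := Multiset.count_pos.2 hV
    have h3 := Multiset.count_pos.2 hV'
    rw [count_Ea] at h2 h3
    omega
  obtain ⟨b₂, ρ₂, h₂⟩ := exists_Im ψ hψ b hρ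
  have hmemlab : ∀ a W, W ∈ Ea ψ b ρ a → ∃ b', lab b ρ b' = W := by
    intro a W hW
    have : W ∈ (ψ.fib a).map (lab b ρ) := by
      rw [← base_add_Ea]; exact Multiset.mem_add.2 (Or.inr hW)
    obtain ⟨b', _, hb'⟩ := Multiset.mem_map.1 this
    exact ⟨b', hb'⟩
  have hbase : base (ψ.comp φ) c r = ψ.deg • base φ c r + (base ψ b ρ).bind EW := by
    ext V
    rw [count_base]
    have hcnt : ∀ a, cnt (ψ.comp φ) c r a V = (ψ.deg • base φ c r + (base ψ b ρ).bind EW).count V +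
        ((Ea ψ b ρ a).bind EW).count V := by
      intro a
      rw [cnt, hmap a, Multiset.count_add]
    apply le_antisymm
    · -- there is a point with no moving part
      have : ∃ a, ((Ea ψ b ρ a).bind EW).count V = 0 := by
        by_contra hcon
        push Not at hcon
        have h1 := hcon (b₂ : OnePoint K)
        have h2 := hcon ∞
        rw [← Nat.pos_iff_ne_zero, Multiset.count_pos, Multiset.mem_bind] at h1 h2
        obtain ⟨W₁, hW₁, hV₁⟩ := h1
        obtain ⟨W₂, hW₂, hV₂⟩ := h2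
        have hWW : W₁ = W₂ := hdisj W₁ W₂ V hV₁ hV₂ (hmemlab _ _ hW₁) (hmemlab _ _ hW₂)
        subst hWW
        have h3 := h₂.min_eq hρ hψ (a := (b₂ : OnePoint K)) (a' := ∞) (by rw [mem_dir_self b₂ h₂.1]; simp) W₁
        have h4 := Multiset.count_pos.2 hW₁
        have h5 := Multiset.count_pos.2 hW₂
        rw [count_Ea] at h4 h5
        omega
      obtain ⟨a, ha⟩ := this
      have h1 := sV_le (ψ.comp φ) c r V a
      rw [hcnt a, ha] at h1
      omega
    · obtain ⟨a, ha⟩ := exists_cnt_eq_sV (ψ.comp φ) c r V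
      rw [← ha, hcnt a]
      omega
  have hcard : (Ea (ψ.comp φ) c r ∞) = (Ea ψ b ρ ∞).bind EW := by
    have h1 := base_add_Ea (ψ.comp φ) c r ∞
    rw [hmap ∞, hbase] at h1
    exact add_left_cancel h1
  rw [← card_Ea (ψ.comp φ) c r ∞, hcard, Multiset.card_bind, ← card_Ea ψ b ρ ∞]
  have : (Ea ψ b ρ ∞).map (Multiset.card ∘ EW) = (Ea ψ b ρ ∞).map (fun _ => mu φ c r) := by
    apply Multiset.map_congr rfl
    intro W hW
    obtain ⟨b', hb'⟩ := hmemlab _ _ hW
    simp only [Function.comp]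
    rw [← hEW W b' hb', card_Ea]
  rw [this]
  simp

end

end BerkFix
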