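import Pool.Agent.Lib.MP_edb0ca_an.Tree

set_option linter.unusedSectionVars false
set_option linter.unusedVariables false

open Polynomial OnePoint

namespace BerkFix

variable {K : Type*} [NormedField K] [IsUltrametricDist K] [IsAlgClosed K]

/-- A compatible family of points (`S`) and of open balls (`B`). -/
structure Fam (S B : Finset (K × ℝ)) : Prop where
  posS : ∀ p ∈ S, 0 < p.2
  posB : ∀ p ∈ B, 0 < p.2
  SS : ∀ p ∈ S, ∀ q ∈ S, p ≠ q → p.2 = q.2 → p.2 < ‖p.1 - q.1‖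
  BB : ∀ p ∈ B, ∀ q ∈ B, p ≠ q → p.2 ≤ ‖p.1 - q.1‖
  SB : ∀ p ∈ S, ∀ q ∈ B, ‖p.1 - q.1‖ < q.2 → q.2 ≤ p.2

/-- total weight of a family -/
noncomputable def wtF (φ : RMap K) (S B : Finset (K × ℝ)) : ℕ :=
  ∑ p ∈ S, om φ p.1 p.2 + ∑ p ∈ B, tauO φ p.1 p.2

/-- the family is inside `O(c,r)` -/
structure Ins (S B : Finset (K × ℝ)) (c : K) (r : ℝ) : Prop where
  S1 : ∀ p ∈ S, ‖p.1 - c‖ < r
  S2 : ∀ p ∈ S, p.2 < r
  B1 : ∀ p ∈ B, ‖p.1 - c‖ < r
  B2 : ∀ p ∈ B, p.2 ≤ r

lemma Fam.mono {S B S' B' : Finset (K × ℝ)} (h : Fam S B) (hS : S' ⊆ S) (hB : B' ⊆ B) : Fam S' B' :=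
  ⟨fun p hp => h.posS p (hS hp), fun p hp => h.posB p (hB hp),
   fun p hp q hq => h.SS p (hS hp) q (hS hq), fun p hp q hq => h.BB p (hB hp) q (hB hq),
   fun p hp q hq => h.SB p (hS hp) q (hB hq)⟩

/-- if one of the balls is everything -/
lemma single (φ : RMap K) (hD : 1 ≤ φ.deg) {S B : Finset (K × ℝ)} (hF : Fam S B) {c : K} {r : ℝ} (hr : 0 < r)
    (hI : Ins S B c r) {p : K × ℝ} (hp : p ∈ B) (hpr : p.2 = r) : wtF φ S B ≤ tauO φ c r := by
  have hS : S = ∅ := by
    rw [Finset.eq_empty_iff_forall_notMem]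
    intro q hq
    have h1 : ‖q.1 - p.1‖ < p.2 := by
      have e : q.1 - p.1 = (q.1 - c) - (p.1 - c) := by ring
      rw [e, hpr]
      exact lt_of_le_of_lt (norm_sub_le_max' _ _) (max_lt (hI.S1 q hq) (hI.B1 p hp))
    have h2 := hF.SB q hq p hp h1
    have h3 := hI.S2 q hq
    rw [hpr] at h2
    exact absurd h3 (not_lt.2 h2)
  have hB : B = {p} := by
    rw [Finset.eq_singleton_iff_unique_mem]
    refine ⟨hp, ?_⟩
    intro q hq
    by_contra hne
    have h1 := hF.BB p hp q hq (Ne.symm hne)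
    have e : p.1 - q.1 = (p.1 - c) - (q.1 - c) := by ring
    rw [e, hpr] at h1
    exact absurd h1 (not_le.2 (lt_of_le_of_lt (norm_sub_le_max' _ _) (max_lt (hI.B1 p hp) (hI.B1 q hq))))
  rw [wtF, hS, hB, Finset.sum_empty, Finset.sum_singleton, zero_add, hpr,
    tauO_center φ hD hr (hI.B1 p hp)]

open Classical in
/-- canonical representative of the class of `x` -/
noncomputable def rep (r : ℝ) (x : K) : K :=
  if h : (Metric.ball x r).Nonempty then h.some else x

lemma rep_close {r : ℝ} (hr : 0 < r) (x : K) : ‖rep r x - x‖ < r := by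
  have h : (Metric.ball x r).Nonempty := ⟨x, Metric.mem_ball_self hr⟩
  unfold rep
  rw [dif_pos h]
  have := h.some_mem
  rwa [Metric.mem_ball, dist_eq_norm] at this

lemma rep_eq {r : ℝ} (hr : 0 < r) {x y : K} (h : ‖x - y‖ < r) : rep r x = rep r y := by
  have hx : (Metric.ball x r).Nonempty := ⟨x, Metric.mem_ball_self hr⟩
  have hy : (Metric.ball y r).Nonempty := ⟨y, Metric.mem_ball_self hr⟩
  have hb : Metric.ball x r = Metric.ball y r := (ball_eq_iff hr).2 h
  unfold rep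
  rw [dif_pos hx, dif_pos hy]
  congr 1

/-- (CT) -/
theorem count_inside (φ : RMap K) (hD : 1 ≤ φ.deg) (n : ℕ) : ∀ (S B : Finset (K × ℝ)) (c : K) (r : ℝ),
    S.card + B.card = n → 0 < r → Fam S B → Ins S B c r → wtF φ S B ≤ tauO φ c r := by
  classical
  induction n using Nat.strong_induction_on with
  | _ n ih =>
  intro S B c r hn hr hF hI
  by_cases hsing : ∃ p ∈ B, p.2 = r
  · obtain ⟨p, hp, hpr⟩ := hsing
    exact single φ hD hF hr hI hp hpr
  push Not at hsing
  by_cases hne : (S ∪ B).Nonempty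
  swap
  · rw [Finset.not_nonempty_iff_eq_empty, Finset.union_eq_empty] at hne
    rw [hne.1, hne.2]; simp [wtF]
  obtain ⟨p₀, hp₀⟩ := hne
  set U := S ∪ B with hU
  set c₁ := p₀.1 with hc₁
  have hUin : ∀ p ∈ U, ‖p.1 - c‖ < r ∧ p.2 < r ∧ 0 < p.2 := by
    intro p hp
    rcases Finset.mem_union.1 hp with h | h
    · exact ⟨hI.S1 p h, hI.S2 p h, hF.posS p h⟩
    · exact ⟨hI.B1 p h, lt_of_le_of_ne (hI.B2 p h) (hsing p h), hF.posB p h⟩
  -- the joining radius
  set f : K × ℝ → ℝ := fun p => max ‖p.1 - c₁‖ p.2 with hf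
  obtain ⟨p₁, hp₁, hmax⟩ := Finset.exists_max_image U f ⟨p₀, hp₀⟩
  set r₁ := f p₁ with hr₁
  have hr₁r : r₁ < r := by
    rw [hr₁, hf]
    apply max_lt _ (hUin p₁ hp₁).2.1
    have e : p₁.1 - c₁ = (p₁.1 - c) - (c₁ - c) := by ring
    rw [e]
    exact lt_of_le_of_lt (norm_sub_le_max' _ _) (max_lt (hUin p₁ hp₁).1 (hUin p₀ hp₀).1)
  have hr₁0 : 0 < r₁ := lt_of_lt_of_le (hUin p₁ hp₁).2.2 (le_max_right _ _)
  have hUr₁ : ∀ p ∈ U, ‖p.1 - c₁‖ ≤ r₁ ∧ p.2 ≤ r₁ := fun p hp =>
    ⟨(le_max_left _ _).trans (hmax p hp), (le_max_right _ _).trans (hmax p hp)⟩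
  -- split S
  set S₁ := S.filter (fun p => p.2 = r₁) with hS₁
  set S' := S.filter (fun p => p.2 ≠ r₁) with hS'
  have hS'lt : ∀ p ∈ S', p.2 < r₁ := fun p hp =>
    lt_of_le_of_ne (hUr₁ p (Finset.mem_union_left _ (Finset.mem_filter.1 hp).1)).2 (Finset.mem_filter.1 hp).2
  have hS₁sum : ∑ p ∈ S₁, om φ p.1 p.2 ≤ om φ c₁ r₁ := by
    by_cases h0 : S₁.Nonempty
    · obtain ⟨p, hp⟩ := h0
      have hp' := Finset.mem_filter.1 hp
      have : S₁ = {p} := by
        rw [Finset.eq_singleton_iff_unique_mem]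
        refine ⟨hp, ?_⟩
        intro q hq
        have hq' := Finset.mem_filter.1 hq
        by_contra hne
        have h1 := hF.SS q hq'.1 p hp'.1 hne (by rw [hq'.2, hp'.2])
        rw [hq'.2] at h1
        have e : q.1 - p.1 = (q.1 - c₁) - (p.1 - c₁) := by ring
        rw [e] at h1
        exact absurd h1 (not_lt.2 ((norm_sub_le_max' _ _).trans
          (max_le (hUr₁ q (Finset.mem_union_left _ hq'.1)).1 (hUr₁ p (Finset.mem_union_left _ hp'.1)).1)))
      rw [this, Finset.sum_singleton, hp'.2]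
      exact le_of_eq (om_center φ (hUr₁ p (Finset.mem_union_left _ hp'.1)).1)
    · rw [Finset.not_nonempty_iff_eq_empty] at h0
      rw [h0]; simp
  -- representatives
  set T : Finset K := U.image (fun p => rep r₁ p.1) with hT
  have hTin : ∀ z ∈ T, ‖z - c₁‖ ≤ r₁ := by
    intro z hz
    obtain ⟨p, hp, rfl⟩ := Finset.mem_image.1 hz
    have e : rep r₁ p.1 - c₁ = (rep r₁ p.1 - p.1) + (p.1 - c₁) := by ring
    rw [e]
    exact (IsUltrametricDist.norm_add_le_max _ _).trans (max_le (rep_close hr₁0 _).le (hUr₁ p hp).1)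
  have hTsep : ∀ z ∈ T, ∀ w ∈ T, z ≠ w → r₁ ≤ ‖z - w‖ := by
    intro z hz w hw hne
    obtain ⟨p, hp, rfl⟩ := Finset.mem_image.1 hz
    obtain ⟨q, hq, rfl⟩ := Finset.mem_image.1 hw
    by_contra hcon
    push Not at hcon
    apply hne
    apply rep_eq hr₁0
    have e : p.1 - q.1 = (rep r₁ p.1 - rep r₁ q.1) - ((rep r₁ p.1 - p.1) - (rep r₁ q.1 - q.1)) := by ring
    rw [e]
    refine lt_of_le_of_lt (norm_sub_le_max' _ _) (max_lt hcon ?_)
    exact lt_of_le_of_lt (norm_sub_le_max' _ _) (max_lt (rep_close hr₁0 _) (rep_close hr₁0 _))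
  have hV := vertex_ineq φ hD c₁ hr₁0 T hTin hTsep
  have hE := edge_ineq φ hD c₁ hr₁0 hr₁r
  have hcc : tauO φ c₁ r = tauO φ c r := tauO_center φ hD hr (hUin p₀ hp₀).1
  -- fibrewise
  have hfib : ∑ p ∈ S', om φ p.1 p.2 + ∑ p ∈ B, tauO φ p.1 p.2 =
      ∑ z ∈ T, wtF φ (S'.filter (fun p => rep r₁ p.1 = z)) (B.filter (fun p => rep r₁ p.1 = z)) := by
    unfold wtF
    rw [Finset.sum_add_distrib]
    congr 1
    · symm
      apply Finset.sum_fiberwise_of_maps_to
      intro p hp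
      exact Finset.mem_image_of_mem _ (Finset.mem_union_left _ (Finset.mem_filter.1 hp).1)
    · symm
      apply Finset.sum_fiberwise_of_maps_to
      intro p hp
      exact Finset.mem_image_of_mem _ (Finset.mem_union_right _ hp)
  have hclass : ∀ z ∈ T, wtF φ (S'.filter (fun p => rep r₁ p.1 = z)) (B.filter (fun p => rep r₁ p.1 = z)) ≤
      tauO φ z r₁ := by
    intro z hz
    set Sz := S'.filter (fun p => rep r₁ p.1 = z) with hSz
    set Bz := B.filter (fun p => rep r₁ p.1 = z) with hBz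
    have hSzS : Sz ⊆ S := (Finset.filter_subset _ _).trans (Finset.filter_subset _ _)
    have hBzB : Bz ⊆ B := Finset.filter_subset _ _
    have hFz : Fam Sz Bz := hF.mono hSzS hBzB
    have hIz : Ins Sz Bz z r₁ := by
      refine ⟨?_, ?_, ?_, ?_⟩
      · intro p hp
        have := rep_close hr₁0 p.1
        rw [(Finset.mem_filter.1 hp).2, norm_sub_rev] at this
        exact this
      · intro p hp
        exact hS'lt p (Finset.mem_filter.1 hp).1
      · intro p hp
        have := rep_close hr₁0 p.1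
        rw [(Finset.mem_filter.1 hp).2, norm_sub_rev] at this
        exact this
      · intro p hp
        exact (hUr₁ p (Finset.mem_union_right _ (hBzB hp))).2
    by_cases hs : ∃ p ∈ Bz, p.2 = r₁
    · obtain ⟨p, hp, hpr⟩ := hs
      exact single φ hD hFz hr₁0 hIz hp hpr
    · push Not at hs
      apply ih (Sz.card + Bz.card) _ Sz Bz z r₁ rfl hr₁0 hFz hIz
      by_contra hcon
      push Not at hcon
      have h1 : Sz.card ≤ S.card := Finset.card_le_card hSzS
      have h2 : Bz.card ≤ B.card := Finset.card_le_card hBzB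
      have h3 : Sz = S := Finset.eq_of_subset_of_card_le hSzS (by omega)
      have h4 : Bz = B := Finset.eq_of_subset_of_card_le hBzB (by omega)
      -- then the radius r₁ is not attained
      have hlt : ∀ p ∈ U, ‖p.1 - z‖ < r₁ ∧ p.2 < r₁ := by
        intro p hp
        rcases Finset.mem_union.1 hp with h | h
        · rw [← h3] at h; exact ⟨hIz.S1 p h, hIz.S2 p h⟩
        · rw [← h4] at h; exact ⟨hIz.B1 p h, lt_of_le_of_ne (hIz.B2 p h) (hs p h)⟩
      have : r₁ < r₁ := by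
        conv_lhs => rw [hr₁, hf]
        apply max_lt _ (hlt p₁ hp₁).2
        have e : p₁.1 - c₁ = (p₁.1 - z) - (c₁ - z) := by ring
        rw [e]
        exact lt_of_le_of_lt (norm_sub_le_max' _ _) (max_lt (hlt p₁ hp₁).1 (hlt p₀ hp₀).1)
      exact lt_irrefl _ this
  have hsumclass := Finset.sum_le_sum hclass
  rw [← hfib] at hsumclass
  have hsplit : ∑ p ∈ S, om φ p.1 p.2 = ∑ p ∈ S₁, om φ p.1 p.2 + ∑ p ∈ S', om φ p.1 p.2 := by
    rw [hS₁, hS']
    exact (Finset.sum_filter_add_sum_filter_not S _ _).symm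
  rw [wtF, hsplit, ← hcc]
  omega

/-- (CT), global version -/
theorem count_total (φ : RMap K) (hD : 1 ≤ φ.deg) (S B : Finset (K × ℝ)) (hF : Fam S B) :
    wtF φ S B ≤ φ.deg - 1 := by
  classical
  obtain ⟨M, hM⟩ : ∃ M : ℝ, ∀ p ∈ S ∪ B, max ‖p.1‖ p.2 < M := by
    obtain ⟨M, hM⟩ := (Finset.bddAbove ((S ∪ B).image (fun p => max ‖p.1‖ p.2)))
    refine ⟨M + 1, fun p hp => ?_⟩
    have := hM (Finset.mem_coe.2 (Finset.mem_image_of_mem (fun p : K × ℝ => max ‖p.1‖ p.2) hp))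
    linarith
  set r := max M 1 with hr
  have hr0 : 0 < r := lt_of_lt_of_le one_pos (le_max_right _ _)
  have hI : Ins S B 0 r := by
    refine ⟨?_, ?_, ?_, ?_⟩
    · intro p hp
      rw [sub_zero]
      exact lt_of_lt_of_le (lt_of_le_of_lt (le_max_left _ _) (hM p (Finset.mem_union_left _ hp))) (le_max_left _ _)
    · intro p hp
      exact lt_of_lt_of_le (lt_of_le_of_lt (le_max_right _ _) (hM p (Finset.mem_union_left _ hp))) (le_max_left _ _)
    · intro p hp
      rw [sub_zero]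
      exact lt_of_lt_of_le (lt_of_le_of_lt (le_max_left _ _) (hM p (Finset.mem_union_right _ hp))) (le_max_left _ _)
    · intro p hp
      exact (lt_of_lt_of_le (lt_of_le_of_lt (le_max_right _ _) (hM p (Finset.mem_union_right _ hp))) (le_max_left _ _)).le
  have h1 := count_inside φ hD _ S B 0 r rfl hr0 hF hI
  have h2 := vertex_ineq φ hD (0 : K) hr0 {0} (by simpa using hr0.le) (by simp)
  rw [Finset.sum_singleton] at h2
  omega

end BerkFix
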