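import Mathlib

set_option linter.unusedSectionVars false

open Polynomial OnePoint MeasureTheory

namespace BerkFix

section Algebra

variable {K : Type*} [Field K]

/-- `B ^ d * f (A / B)` as a polynomial, for `f` of degree at most `d`. -/
noncomputable def hom (d : ℕ) (f A B : K[X]) : K[X] :=
  ∑ i ∈ Finset.range (d + 1), C (f.coeff i) * A ^ i * B ^ (d - i)

/-- A rational map over `K`, as a coprime pair of polynomials (numerator and denominator). -/
structure RMap (K : Type*) [Field K] where
  P : K[X]
  Q : K[X]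
  cop : IsCoprime P Q

/-- The degree of a rational map. -/
def RMap.deg (φ : RMap K) : ℕ := max φ.P.natDegree φ.Q.natDegree

lemma eval_hom (d : ℕ) (f A B : K[X]) (z : K) :
    (hom d f A B).eval z = ∑ i ∈ Finset.range (d + 1), f.coeff i * A.eval z ^ i * B.eval z ^ (d - i) := by
  simp [hom, eval_finsetSum]

lemma eval_hom_of_ne (d : ℕ) (f A B : K[X]) (z : K) (hf : f.natDegree ≤ d) (hB : B.eval z ≠ 0) :
    (hom d f A B).eval z = B.eval z ^ d * f.eval (A.eval z / B.eval z) := by
  rw [eval_hom, eval_eq_sum_range' (Nat.lt_succ_of_le hf), Finset.mul_sum]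
  apply Finset.sum_congr rfl
  intro i hi
  have hi' : i ≤ d := Nat.lt_succ_iff.1 (Finset.mem_range.1 hi)
  rw [div_pow]
  have : B.eval z ^ d = B.eval z ^ (d - i) * B.eval z ^ i := by rw [← pow_add]; congr 1; omega
  rw [this]
  field_simp

lemma eval_hom_of_eq (d : ℕ) (f A B : K[X]) (z : K) (hB : B.eval z = 0) :
    (hom d f A B).eval z = f.coeff d * A.eval z ^ d := by
  rw [eval_hom, Finset.sum_eq_single_of_mem d (by simp)]
  · simp
  · intro i hi hne
    have hi' : i < d := lt_of_le_of_ne (Nat.lt_succ_iff.1 (Finset.mem_range.1 hi)) hne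
    rw [hB, zero_pow (by omega)]; simp

lemma exists_coeff_ne (φ : RMap K) : φ.P.coeff φ.deg ≠ 0 ∨ φ.Q.coeff φ.deg ≠ 0 := by
  by_cases h0 : φ.deg = 0
  · rw [h0]
    by_contra hcon
    push Not at hcon
    have hP : φ.P = 0 := by
      have : φ.P.natDegree = 0 := by
        have := le_max_left φ.P.natDegree φ.Q.natDegree
        unfold RMap.deg at h0; omega
      rw [eq_C_of_natDegree_eq_zero this, hcon.1, C_0]
    have hQ : φ.Q = 0 := by
      have : φ.Q.natDegree = 0 := by
        have := le_max_right φ.P.natDegree φ.Q.natDegree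
        unfold RMap.deg at h0; omega
      rw [eq_C_of_natDegree_eq_zero this, hcon.2, C_0]
    have := φ.cop
    rw [hP, hQ] at this
    exact not_isCoprime_zero_zero this
  · rcases max_choice φ.P.natDegree φ.Q.natDegree with h | h
    · left
      have h1 : φ.deg = φ.P.natDegree := h
      rw [h1]
      intro h2
      rw [coeff_natDegree, leadingCoeff_eq_zero] at h2
      rw [h1, h2] at h0
      simp at h0
    · right
      have h1 : φ.deg = φ.Q.natDegree := h
      rw [h1]
      intro h2
      rw [coeff_natDegree, leadingCoeff_eq_zero] at h2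
      rw [h1, h2] at h0
      simp at h0

variable [IsAlgClosed K]

lemma isCoprime_hom (ψ φ : RMap K) :
    IsCoprime (hom ψ.deg ψ.P φ.P φ.Q) (hom ψ.deg ψ.Q φ.P φ.Q) := by
  rw [Polynomial.isCoprime_iff_aeval_ne_zero_of_isAlgClosed K K]
  intro z
  simp only [coe_aeval_eq_eval]
  by_cases hB : φ.Q.eval z = 0
  · rw [eval_hom_of_eq _ _ _ _ _ hB, eval_hom_of_eq _ _ _ _ _ hB]
    have hA : φ.P.eval z ≠ 0 := by
      intro hA
      have h1 := (Polynomial.isCoprime_iff_aeval_ne_zero_of_isAlgClosed K K φ.P φ.Q).1 φ.cop z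
      simp only [coe_aeval_eq_eval] at h1
      rcases h1 with h1 | h1
      · exact h1 hA
      · exact h1 hB
    rcases exists_coeff_ne ψ with h | h
    · left; exact mul_ne_zero h (pow_ne_zero _ hA)
    · right; exact mul_ne_zero h (pow_ne_zero _ hA)
  · rw [eval_hom_of_ne ψ.deg ψ.P _ _ _ (le_max_left _ _) hB,
      eval_hom_of_ne ψ.deg ψ.Q _ _ _ (le_max_right _ _) hB]
    have h1 := (Polynomial.isCoprime_iff_aeval_ne_zero_of_isAlgClosed K K ψ.P ψ.Q).1 ψ.cop
      (φ.P.eval z / φ.Q.eval z)
    simp only [coe_aeval_eq_eval] at h1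
    rcases h1 with h1 | h1
    · left; exact mul_ne_zero (pow_ne_zero _ hB) h1
    · right; exact mul_ne_zero (pow_ne_zero _ hB) h1

/-- Composition `ψ ∘ φ` of rational maps. -/
noncomputable def RMap.comp (ψ φ : RMap K) : RMap K :=
  ⟨hom ψ.deg ψ.P φ.P φ.Q, hom ψ.deg ψ.Q φ.P φ.Q, isCoprime_hom ψ φ⟩

/-- The iterates `R ^ n` of a rational map. -/
noncomputable def iter (R : RMap K) : ℕ → RMap K
  | 0 => ⟨X, 1, isCoprime_one_right⟩
  | n + 1 => R.comp (iter R n)

/-- The polynomial whose roots in `K` are the solutions of `φ(z) = a`. -/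
noncomputable def RMap.F (φ : RMap K) : OnePoint K → K[X]
  | ∞ => φ.Q
  | (a : K) => φ.P - C a * φ.Q

/-- The fibre of `φ` over the classical point `a ∈ P¹(K) = K ∪ {∞}`, as a multiset in `P¹(K)`:
the solutions of `φ(z) = a` counted with multiplicity. -/
noncomputable def RMap.fib (φ : RMap K) (a : OnePoint K) : Multiset (OnePoint K) :=
  (φ.F a).roots.map (fun z => ((z : K) : OnePoint K)) +
    Multiset.replicate (φ.deg - (φ.F a).natDegree) ∞

/-! ### properties of `hom` -/

omit [IsAlgClosed K] in
lemma algebraMap_hom (d : ℕ) (f A B : K[X]) (hf : f.natDegree ≤ d) (hB : B ≠ 0) :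
    algebraMap K[X] (RatFunc K) (hom d f A B) = (algebraMap K[X] (RatFunc K) B) ^ d *
      aeval (algebraMap K[X] (RatFunc K) A / algebraMap K[X] (RatFunc K) B) f := by
  have hB' : algebraMap K[X] (RatFunc K) B ≠ 0 := RatFunc.algebraMap_ne_zero hB
  rw [aeval_eq_sum_range' (Nat.lt_succ_of_le hf), Finset.mul_sum, hom, map_sum]
  apply Finset.sum_congr rfl
  intro i hi
  have hi' : i ≤ d := Nat.lt_succ_iff.1 (Finset.mem_range.1 hi)
  rw [map_mul, map_mul, map_pow, map_pow, div_pow, Algebra.smul_def]
  have h1 : (algebraMap K[X] (RatFunc K) B) ^ d = (algebraMap K[X] (RatFunc K) B) ^ (d - i) *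
      (algebraMap K[X] (RatFunc K) B) ^ i := by rw [← pow_add]; congr 1; omega
  have h2 : algebraMap K[X] (RatFunc K) (C (f.coeff i)) = algebraMap K (RatFunc K) (f.coeff i) := by
    rw [← Polynomial.algebraMap_eq, ← IsScalarTower.algebraMap_apply]
  rw [h1, h2]
  field_simp

omit [IsAlgClosed K] in
lemma hom_mul {d e : ℕ} {f g A B : K[X]} (hf : f.natDegree ≤ d) (hg : g.natDegree ≤ e) (hB : B ≠ 0) :
    hom (d + e) (f * g) A B = hom d f A B * hom e g A B := by
  apply RatFunc.algebraMap_injective K
  rw [map_mul, algebraMap_hom _ _ _ _ hf hB, algebraMap_hom _ _ _ _ hg hB,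
    algebraMap_hom _ _ _ _ (natDegree_mul_le.trans (add_le_add hf hg)) hB, map_mul, pow_add]
  ring

omit [IsAlgClosed K] in
lemma hom_add (d : ℕ) (f g A B : K[X]) : hom d (f + g) A B = hom d f A B + hom d g A B := by
  simp [hom, add_mul, Finset.sum_add_distrib]

omit [IsAlgClosed K] in
lemma hom_C_mul (d : ℕ) (a : K) (g A B : K[X]) : hom d (C a * g) A B = C a * hom d g A B := by
  simp only [hom, Finset.mul_sum]
  apply Finset.sum_congr rfl
  intro i _
  rw [coeff_C_mul, C_mul]; ring

omit [IsAlgClosed K] in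
lemma hom_sub (d : ℕ) (f g A B : K[X]) : hom d (f - g) A B = hom d f A B - hom d g A B := by
  simp [hom, sub_mul, Finset.sum_sub_distrib]

omit [IsAlgClosed K] in
lemma hom_zero_C (a : K) (A B : K[X]) : hom 0 (C a) A B = C a := by
  simp [hom]

omit [IsAlgClosed K] in
lemma hom_one_X_sub_C (a : K) (A B : K[X]) : hom 1 (X - C a) A B = A - C a * B := by
  simp [hom, Finset.sum_range_succ, coeff_X, coeff_C]; ring

omit [IsAlgClosed K] in
lemma hom_succ {d : ℕ} {f A B : K[X]} (hf : f.natDegree ≤ d) (hB : B ≠ 0) (k : ℕ) :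
    hom (d + k) f A B = hom d f A B * B ^ k := by
  induction k with
  | zero => simp
  | succ k ih =>
    have h1 : hom 1 (1 : K[X]) A B = B := by
      simp [hom, coeff_one]
    have := hom_mul (d := d + k) (e := 1) (f := f) (g := 1) (A := A) (B := B) (by omega) (by simp) hB
    rw [mul_one] at this
    rw [← add_assoc, this, ih, h1, pow_succ]; ring

end Algebra

/-! ### The Berkovich line -/

section Berk

/-- The Berkovich affine line over `K`: multiplicative seminorms on `K[X]` which extend the
absolute value of `K` (and satisfy the ultrametric inequality). -/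
structure A1 (K : Type*) [NormedField K] where
  toFun : K[X] → ℝ
  nonneg' : ∀ f, 0 ≤ toFun f
  map_C' : ∀ a, toFun (C a) = ‖a‖
  map_mul' : ∀ f g, toFun (f * g) = toFun f * toFun g
  map_add_le' : ∀ f g, toFun (f + g) ≤ max (toFun f) (toFun g)

variable {K : Type*} [NormedField K]

instance : CoeFun (A1 K) (fun _ => K[X] → ℝ) := ⟨A1.toFun⟩

@[ext] lemma A1.ext {x y : A1 K} (h : ∀ f, x f = y f) : x = y := by
  cases x; cases y; congr; exact funext h

/-- The topology of pointwise convergence. -/
instance : TopologicalSpace (A1 K) := TopologicalSpace.induced (fun x : A1 K => (x : K[X] → ℝ)) inferInstance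

/-- The Berkovich projective line: the one-point compactification of the Berkovich affine line. -/
abbrev P1 (K : Type*) [NormedField K] := OnePoint (A1 K)

instance : MeasurableSpace (P1 K) := borel (P1 K)

instance : BorelSpace (P1 K) := ⟨rfl⟩

namespace A1

variable (x : A1 K)

lemma nonneg (f : K[X]) : 0 ≤ x f := x.nonneg' f

@[simp] lemma map_C (a : K) : x (C a) = ‖a‖ := x.map_C' a

@[simp] lemma map_one : x 1 = 1 := by rw [← C_1, x.map_C]; simp

@[simp] lemma map_zero : x 0 = 0 := by rw [← C_0, x.map_C]; simp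

lemma map_mul (f g : K[X]) : x (f * g) = x f * x g := x.map_mul' f g

lemma map_pow (f : K[X]) (n : ℕ) : x (f ^ n) = x f ^ n := by
  induction n with
  | zero => simp
  | succ n ih => rw [pow_succ, x.map_mul, ih, pow_succ]

lemma map_neg (f : K[X]) : x (-f) = x f := by
  have : -f = C (-1) * f := by simp
  rw [this, x.map_mul, x.map_C]; simp

lemma map_C_mul (a : K) (f : K[X]) : x (C a * f) = ‖a‖ * x f := by rw [x.map_mul, x.map_C]

lemma add_le (f g : K[X]) : x (f + g) ≤ max (x f) (x g) := x.map_add_le' f g

lemma sub_le (f g : K[X]) : x (f - g) ≤ max (x f) (x g) := by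
  rw [sub_eq_add_neg, ← x.map_neg g]; exact x.add_le f (-g)

lemma add_eq_left {f g : K[X]} (h : x g < x f) : x (f + g) = x f := by
  apply le_antisymm
  · exact (x.add_le f g).trans (max_le le_rfl h.le)
  · by_contra hcon
    push Not at hcon
    have := x.sub_le (f + g) g
    rw [add_sub_cancel_right] at this
    exact absurd this (not_le.2 (max_lt hcon h))

lemma sub_eq_left {f g : K[X]} (h : x g < x f) : x (f - g) = x f := by
  rw [sub_eq_add_neg]
  exact x.add_eq_left (by rwa [x.map_neg])

lemma sum_le {ι : Type*} (s : Finset ι) (f : ι → K[X]) {M : ℝ} (hM : 0 ≤ M) (h : ∀ i ∈ s, x (f i) ≤ M) :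
    x (∑ i ∈ s, f i) ≤ M := by
  classical
  induction s using Finset.induction_on with
  | empty => simpa using hM
  | insert a s ha ih =>
    rw [Finset.sum_insert ha]
    exact (x.add_le _ _).trans (max_le (h a (Finset.mem_insert_self a s))
      (ih (fun i hi => h i (Finset.mem_insert_of_mem hi))))

end A1

/-- The push-forward of a point `x` of the Berkovich affine line under a rational map `φ = P / Q`
which does not have `x` as a pole: `f ↦ |f(φ)|_x`. -/
noncomputable def push [IsAlgClosed K] (φ : RMap K) (x : A1 K) (h : x φ.Q ≠ 0) : A1 K where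
  toFun f := x (hom f.natDegree f φ.P φ.Q) / x φ.Q ^ f.natDegree
  nonneg' f := div_nonneg (x.nonneg _) (pow_nonneg (x.nonneg _) _)
  map_C' a := by simp [hom_zero_C]
  map_mul' f g := by
    have hQ : φ.Q ≠ 0 := by rintro h0; rw [h0] at h; simp at h
    by_cases hf : f = 0
    · subst hf; simp [hom]
    by_cases hg : g = 0
    · subst hg; simp [hom]
    rw [natDegree_mul hf hg, hom_mul le_rfl le_rfl hQ, x.map_mul, pow_add]
    field_simp
  map_add_le' f g := by
    have hQ : φ.Q ≠ 0 := by rintro h0; rw [h0] at h; simp at h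
    have key : ∀ (n : ℕ) (f : K[X]), f.natDegree ≤ n →
        x (hom f.natDegree f φ.P φ.Q) / x φ.Q ^ f.natDegree = x (hom n f φ.P φ.Q) / x φ.Q ^ n := by
      intro n f hf
      obtain ⟨k, rfl⟩ := Nat.exists_eq_add_of_le hf
      rw [hom_succ le_rfl hQ, x.map_mul, x.map_pow, pow_add]
      field_simp
    have hpos : 0 < x φ.Q := lt_of_le_of_ne (x.nonneg _) (Ne.symm h)
    rw [key (max f.natDegree g.natDegree) f (le_max_left _ _),
      key (max f.natDegree g.natDegree) g (le_max_right _ _),
      key (max f.natDegree g.natDegree) (f + g) (natDegree_add_le _ _), hom_add]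
    calc _ ≤ max (x (hom (max f.natDegree g.natDegree) f φ.P φ.Q))
          (x (hom (max f.natDegree g.natDegree) g φ.P φ.Q)) / x φ.Q ^ max f.natDegree g.natDegree := by
          gcongr; exact x.add_le _ _
      _ = _ := by rw [max_div_div_right (by positivity)]

variable [IsUltrametricDist K]

/-- The classical point of the Berkovich affine line given by evaluation at `a`. -/
noncomputable def evalPt (a : K) : A1 K where
  toFun f := ‖f.eval a‖
  nonneg' f := norm_nonneg _
  map_C' c := by simp
  map_mul' f g := by simp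
  map_add_le' f g := by rw [eval_add]; exact IsUltrametricDist.norm_add_le_max _ _

/-- The embedding of the classical projective line `P¹(K) = K ∪ {∞}` in the Berkovich one. -/
noncomputable def cl : OnePoint K → P1 K
  | ∞ => ∞
  | (a : K) => (evalPt a : P1 K)

/-- The points of the Berkovich hyperbolic space: the non-classical points. -/
def Hyp (x : P1 K) : Prop := x ∉ Set.range (cl : OnePoint K → P1 K)

variable [IsAlgClosed K]

open Classical in
/-- The action of a rational map on the Berkovich projective line. -/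
noncomputable def RMap.map (φ : RMap K) : P1 K → P1 K
  | ∞ => if φ.Q.coeff φ.deg = 0 then ∞ else cl ((φ.P.coeff φ.deg / φ.Q.coeff φ.deg : K) : OnePoint K)
  | (x : A1 K) => if h : x φ.Q = 0 then ∞ else (push φ x h : P1 K)

/-- The Wronskian `P' Q - P Q'`, so that `R' = (P' Q - P Q') / Q ^ 2`. -/
noncomputable def RMap.wr (φ : RMap K) : K[X] := derivative φ.P * φ.Q - φ.P * derivative φ.Q

/-- The spherical derivative `‖R'‖` on the Berkovich projective line. -/
noncomputable def RMap.sph (φ : RMap K) : P1 K → ℝ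
  | ∞ => ‖φ.wr.coeff (2 * φ.deg - 2)‖ / max ‖φ.P.coeff φ.deg‖ ‖φ.Q.coeff φ.deg‖ ^ 2
  | (x : A1 K) => x φ.wr * max 1 (x X) ^ 2 / max (x φ.P) (x φ.Q) ^ 2

open Classical in
/-- The local degree of `φ` at `x`: the least `m` such that `x` has an open neighbourhood in the
Berkovich line in which every classical value is taken at most `m` times, counted with
multiplicity. -/
noncomputable def localDegree (φ : RMap K) (x : P1 K) : ℕ :=
  sInf {m : ℕ | ∃ U : Set (P1 K), IsOpen U ∧ x ∈ U ∧
    ∀ a : OnePoint K, ((φ.fib a).filter (fun z => cl z ∈ U)).card ≤ m}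

/-- The repelling fixed points of `R ^ n` in hyperbolic space: the fixed points of `R ^ n` in
hyperbolic space at which `R ^ n` is critical, i.e. has local degree at least `2`. -/
def RFixH (R : RMap K) (n : ℕ) : Set (P1 K) :=
  {x | Hyp x ∧ (R.map^[n]) x = x ∧ 2 ≤ localDegree (iter R n) x}

/-- `ρ` is the equilibrium measure of `R`: a Radon probability measure on the Berkovich line which
does not charge the exceptional classical points (those with finite backward orbit), such that
`R^* ρ = deg(R) ρ`, i.e. `∫ R_* u dρ = deg(R) ∫ u dρ` where `R_* u` is the continuous function whose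
value at a classical point `a` is the sum of `u` over the fibre of `R` over `a`. -/
structure IsEquilibrium (R : RMap K) (ρ : Measure (P1 K)) : Prop where
  prob : IsProbabilityMeasure ρ
  regular : ρ.Regular
  pullback : ∀ u v : C(P1 K, ℝ), (∀ a : OnePoint K, v (cl a) = ((R.fib a).map (fun z => u (cl z))).sum) →
    ∫ x, v x ∂ρ = R.deg * ∫ x, u x ∂ρ
  noExceptional : ∀ a : OnePoint K, {z : OnePoint K | ∃ n, z ∈ (iter R n).fib a}.Finite → ρ {cl a} = 0

/-- The Lyapunov exponent of `R`, with respect to its equilibrium measure. -/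
noncomputable def lyap (R : RMap K) (ρ : Measure (P1 K)) : ℝ := ∫ x, Real.log (R.sph x) ∂ρ

end Berk

end BerkFix
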