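import Pool.Agent.Lib.MP_edb0ca_an.Sph

set_option linter.unusedSectionVars false
set_option linter.unusedVariables false

open Polynomial OnePoint Topology Filter

namespace BerkFix

variable {K : Type*} [NormedField K] [IsUltrametricDist K] [IsAlgClosed K]

lemma cc_self (a : OnePoint K) : cc a a = 0 := by
  induction a using OnePoint.rec with
  | infty => rfl
  | coe a => rw [cc_cc, sub_self, norm_zero, zero_div]

lemma exists_lipP (φ : RMap K) (hD : 1 ≤ φ.deg) : ∃ L : ℝ, 1 ≤ L ∧ ∀ (x : P1 K), Hyp x → ∀ z : OnePoint K,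
    chP (φ.map x) (cmap φ z) ≤ L * chP x z := by
  obtain ⟨L, hL, hLip⟩ := exists_lip φ hD
  refine ⟨L, hL, fun x hx z => ?_⟩
  obtain ⟨y, rfl⟩ := exists_coe_of_hyp hx
  have hQ := (hx.pos (Q_ne_zero φ hD)).ne'
  rw [map_of_ne φ y hQ]
  exact hLip y hQ z

lemma exists_crit_lipP (φ : RMap K) (hD : 2 ≤ φ.deg) {c : OnePoint K} (hc : c ∈ crit φ) :
    ∃ (B : ℝ) (ε : ℝ), 0 < B ∧ 0 < ε ∧ ∀ (x : P1 K), Hyp x → ∀ (z : OnePoint K), chP x c ≤ ε → cc z c ≤ ε →
      chP (φ.map x) (cmap φ z) ≤ B * (max (chP x c) (cc z c) * chP x z) := by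
  obtain ⟨B, ε, hB, hε, h⟩ := exists_crit_lip φ hD c (mem_crit φ hc)
  refine ⟨B, ε, hB, hε, fun x hx z h1 h2 => ?_⟩
  obtain ⟨y, rfl⟩ := exists_coe_of_hyp hx
  have hQ := (hx.pos (Q_ne_zero φ (by omega))).ne'
  rw [map_of_ne φ y hQ]
  exact h y hQ z h1 h2

lemma lip_iter (R : RMap K) (hR : 1 ≤ R.deg) {L : ℝ} (hL : 1 ≤ L)
    (hLip : ∀ (x : P1 K), Hyp x → ∀ z : OnePoint K, chP (R.map x) (cmap R z) ≤ L * chP x z) (n : ℕ) {x : P1 K}
    (hx : Hyp x) (z : OnePoint K) : chP (R.map^[n] x) ((cmap R)^[n] z) ≤ L ^ n * chP x z := by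
  induction n with
  | zero => simp
  | succ n ih =>
    rw [Function.iterate_succ_apply', Function.iterate_succ_apply']
    have h1 := hLip _ ((hyp_iterate R hR n x).2 hx) ((cmap R)^[n] z)
    calc _ ≤ L * chP (R.map^[n] x) ((cmap R)^[n] z) := h1
      _ ≤ L * (L ^ n * chP x z) := by gcongr
      _ = _ := by rw [pow_succ]; ring

/-- either hyperbolic periodic points stay away from the critical point `α`, or the critical point
returns slowly to itself -/
theorem crit_dichotomy (R : RMap K) (hR : 2 ≤ R.deg) {α : OnePoint K} (hα : α ∈ crit R) {L : ℝ} (hL : 1 ≤ L)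
    (hLip : ∀ (x : P1 K), Hyp x → ∀ z : OnePoint K, chP (R.map x) (cmap R z) ≤ L * chP x z) :
    (∃ ε > 0, ∀ m ≥ 1, ∀ x : P1 K, Hyp x → R.map^[m] x = x → (∃ δ > 0, ∀ z, δ ≤ chP x z) → ε ≤ chP x α) ∨
    (∃ c₀ > 0, ∀ n ≥ 1, c₀ / L ^ n ≤ cc ((cmap R)^[n] α) α) := by
  obtain ⟨B, ε, hB, hε, hcrit⟩ := exists_crit_lipP R hR hα
  have hL0 : 0 < L := by linarith
  set c₀ := min ε (1 / (2 * B)) with hc₀
  have hc₀pos : 0 < c₀ := lt_min hε (by positivity)
  by_cases h : ∃ N ≥ 1, cc ((cmap R)^[N] α) α < c₀ / L ^ N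
  · left
    obtain ⟨N, hN, hNlt⟩ := h
    set e := c₀ / L ^ N with he
    have hepos : 0 < e := by positivity
    have heε : e ≤ ε := by
      calc e ≤ c₀ / 1 := by rw [he]; gcongr; exact one_le_pow₀ hL
        _ = c₀ := div_one _
        _ ≤ ε := min_le_left _ _
    have heB : L ^ (N - 1) * (B * e) ≤ 1 / 2 := by
      have h1 : c₀ ≤ 1 / (2 * B) := min_le_right _ _
      have h2 : L ^ N = L ^ (N - 1) * L := by rw [← pow_succ]; congr 1; omega
      rw [he, h2]
      have h3 : L ^ (N - 1) * (B * (c₀ / (L ^ (N - 1) * L))) = B * c₀ / L := by field_simp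
      rw [h3]
      calc B * c₀ / L ≤ B * c₀ / 1 := by gcongr
        _ = B * c₀ := div_one _
        _ ≤ B * (1 / (2 * B)) := by gcongr
        _ = 1 / 2 := by field_simp
    have step : ∀ (w : P1 K), Hyp w → ∀ z : OnePoint K, chP w α < e → cc z α < e →
        chP (R.map^[N] w) ((cmap R)^[N] z) ≤ 1 / 2 * chP w z := by
      intro w hw z hw1 hz1
      obtain ⟨M, rfl⟩ : ∃ M, N = M + 1 := ⟨N - 1, by omega⟩
      rw [Function.iterate_succ_apply, Function.iterate_succ_apply]
      have hHyp : Hyp (R.map w) := (hyp_map_iff R (by omega) w).2 hw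
      have h1 := lip_iter R (by omega) hL hLip M hHyp (cmap R z)
      have h2 := hcrit w hw z (hw1.le.trans heε) (hz1.le.trans heε)
      rw [Nat.add_sub_cancel] at heB
      have hnn := chP_nonneg w z
      calc chP (R.map^[M] (R.map w)) ((cmap R)^[M] (cmap R z)) ≤ L ^ M * chP (R.map w) (cmap R z) := h1
        _ ≤ L ^ M * (B * (max (chP w α) (cc z α) * chP w z)) := by gcongr
        _ ≤ L ^ M * (B * (e * chP w z)) := by
            gcongr
            exact (max_lt hw1 hz1).le
        _ = (L ^ M * (B * e)) * chP w z := by ring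
        _ ≤ _ := by gcongr
    refine ⟨e, hepos, fun m hm x hx hper hδ => ?_⟩
    obtain ⟨δ, hδ, hδz⟩ := hδ
    by_contra hcon
    push Not at hcon
    have claim : ∀ k, chP ((R.map^[N])^[k] x) α < e ∧ cc (((cmap R)^[N])^[k] α) α < e ∧
        chP ((R.map^[N])^[k] x) (((cmap R)^[N])^[k] α) ≤ (1 / 2) ^ k := by
      intro k
      induction k with
      | zero =>
        simp only [Function.iterate_zero, id, pow_zero]
        refine ⟨hcon, ?_, ?_⟩
        · rw [cc_self]; exact hepos
        · exact chP_le_one _ _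
      | succ k ih =>
        obtain ⟨h1, h2, h3⟩ := ih
        simp only [Function.iterate_succ_apply']
        set w := (R.map^[N])^[k] x with hw
        set z := ((cmap R)^[N])^[k] α with hz
        have hwH : Hyp w := by
          rw [hw, ← Function.iterate_mul]
          exact (hyp_iterate R (by omega) _ x).2 hx
        have s1 := step w hwH z h1 h2
        have s2 := step w hwH α h1 (by rw [cc_self]; exact hepos)
        have hwα := chP_nonneg w α
        have hwz := chP_nonneg w z
        have hwz' : chP w z < e := by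
          refine lt_of_le_of_lt (chP_le_max w z α) (max_lt h1 ?_)
          rw [cc_comm]; exact h2
        have g1 : chP (R.map^[N] w) α < e := by
          refine lt_of_le_of_lt (chP_le_max _ α ((cmap R)^[N] α)) (max_lt ?_ hNlt)
          linarith
        refine ⟨g1, ?_, ?_⟩
        · refine lt_of_le_of_lt (cc_le_chP (R.map^[N] w) _ _) (max_lt ?_ g1)
          linarith
        · calc _ ≤ 1 / 2 * chP w z := s1
            _ ≤ 1 / 2 * (1 / 2) ^ k := by gcongr
            _ = _ := by rw [pow_succ]; ring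
    -- periodic
    have hfix : ∀ j, (R.map^[N])^[m * j] x = x := by
      intro j
      rw [← Function.iterate_mul]
      have : N * (m * j) = m * (N * j) := by ring
      rw [this, Function.iterate_mul]
      exact Function.iterate_fixed hper _
    have hle : ∀ j : ℕ, δ ≤ (1 / 2 : ℝ) ^ j := by
      intro j
      have h1 := (claim (m * j)).2.2
      rw [hfix] at h1
      refine (hδz _).trans (h1.trans ?_)
      apply pow_le_pow_of_le_one (by norm_num) (by norm_num)
      exact Nat.le_mul_of_pos_left j hm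
    have hlim : Tendsto (fun j : ℕ => (1 / 2 : ℝ) ^ j) atTop (𝓝 0) :=
      tendsto_pow_atTop_nhds_zero_of_lt_one (by norm_num) (by norm_num)
    have := ge_of_tendsto' hlim hle
    linarith
  · right
    push Not at h
    exact ⟨c₀, hc₀pos, h⟩

/-! ### slopes of Gauss norms -/

lemma slope_up (c : K) {r : ℝ} (hr : 0 < r) {f : K[X]} (hf : f ≠ 0) :
    (nO c r f : ℝ) ≤ Real.log (gn c (r * Real.exp 1) f) - Real.log (gn c r f) := by
  have h1 := le_gn c (r := r * Real.exp 1) (by positivity) (nO c r f) f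
  have h2 := gn_nO c hr f
  have hpos := gn_pos c hr hf
  have hpos' := gn_pos c (r := r * Real.exp 1) (by positivity) hf
  rw [mul_pow, ← mul_assoc, h2] at h1
  have h3 := Real.log_le_log (by positivity) h1
  rw [Real.log_mul hpos.ne' (by positivity), Real.log_pow, Real.log_exp, mul_one] at h3
  linarith

lemma slope_down (c : K) {r : ℝ} (hr : 0 < r) {f : K[X]} (hf : f ≠ 0) :
    Real.log (gn c r f) - Real.log (gn c (r * Real.exp (-1)) f) ≤ (nO c r f : ℝ) := by
  have h1 := le_gn c (r := r * Real.exp (-1)) (by positivity) (nO c r f) f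
  have h2 := gn_nO c hr f
  have hpos := gn_pos c hr hf
  have hpos' := gn_pos c (r := r * Real.exp (-1)) (by positivity) hf
  rw [mul_pow, ← mul_assoc, h2] at h1
  have h3 := Real.log_le_log (by positivity) h1
  rw [Real.log_mul hpos.ne' (by positivity), Real.log_pow, Real.log_exp] at h3
  linarith

lemma sum_slope_up (c : K) {r : ℝ} (hr : 0 < r) {f : K[X]} (hf : f ≠ 0) (J : ℕ) :
    ∑ j ∈ Finset.range (J + 1), (nO c (r * Real.exp (-(j : ℝ))) f : ℝ) ≤
      Real.log (gn c (r * Real.exp 1) f) - Real.log (gn c (r * Real.exp (-(J : ℝ))) f) := by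
  induction J with
  | zero =>
    simp only [zero_add, Finset.range_one, Finset.sum_singleton, Nat.cast_zero, neg_zero, Real.exp_zero, mul_one]
    exact slope_up c hr hf
  | succ J ih =>
    rw [Finset.sum_range_succ]
    have h1 := slope_up c (r := r * Real.exp (-((J + 1 : ℕ) : ℝ))) (by positivity) hf
    have h2 : r * Real.exp (-((J + 1 : ℕ) : ℝ)) * Real.exp 1 = r * Real.exp (-(J : ℝ)) := by
      rw [mul_assoc, ← Real.exp_add]
      congr 2
      push_cast; ring
    rw [h2] at h1
    linarith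

lemma sum_slope_down (c : K) {r : ℝ} (hr : 0 < r) {f : K[X]} (hf : f ≠ 0) (J : ℕ) :
    Real.log (gn c (r * Real.exp (J : ℝ)) f) - Real.log (gn c (r * Real.exp (-1)) f) ≤
      ∑ j ∈ Finset.range (J + 1), (nO c (r * Real.exp (j : ℝ)) f : ℝ) := by
  induction J with
  | zero =>
    simp only [zero_add, Finset.range_one, Finset.sum_singleton, Nat.cast_zero, neg_zero, Real.exp_zero, mul_one]
    exact slope_down c hr hf
  | succ J ih =>
    rw [Finset.sum_range_succ]
    have h1 := slope_down c (r := r * Real.exp ((J + 1 : ℕ) : ℝ)) (by positivity) hf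
    have h2 : r * Real.exp ((J + 1 : ℕ) : ℝ) * Real.exp (-1) = r * Real.exp (J : ℝ) := by
      rw [mul_assoc, ← Real.exp_add]
      congr 2
      push_cast; ring
    rw [h2] at h1
    linarith

/-- discrete layer cake -/
lemma layer_one (J : ℕ) {t : ℝ} (ht : t ≤ J + 1) : max 0 t ≤ ∑ j ∈ Finset.range (J + 1), if (j : ℝ) < t then (1 : ℝ) else 0 := by
  induction J with
  | zero =>
    simp only [zero_add, Finset.range_one, Finset.sum_singleton, Nat.cast_zero]
    split_ifs with h
    · rw [max_eq_right h.le]; simpa using ht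
    · push Not at h
      rw [max_eq_left h]
  | succ J ih =>
    by_cases h : t ≤ J + 1
    · rw [Finset.sum_range_succ]
      have h1 := ih h
      have h2 : (0 : ℝ) ≤ if ((J + 1 : ℕ) : ℝ) < t then (1 : ℝ) else 0 := by split_ifs <;> norm_num
      linarith
    · push Not at h
      have h1 : ∑ j ∈ Finset.range (J + 1 + 1), (if (j : ℝ) < t then (1 : ℝ) else 0) = ∑ j ∈ Finset.range (J + 1 + 1), (1 : ℝ) := by
        apply Finset.sum_congr rfl
        intro j hj
        rw [if_pos]
        refine lt_of_le_of_lt ?_ h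
        have := Finset.mem_range.1 hj
        have h3 : j ≤ J + 1 := by omega
        exact_mod_cast h3
      rw [h1]
      simp only [Finset.sum_const, Finset.card_range, nsmul_eq_mul, mul_one]
      push_cast at ht ⊢
      exact max_le (by positivity) ht

lemma layer_cake {ι : Type*} (T : Finset ι) (w : ι → ℕ) (t : ι → ℝ) (J : ℕ) (ht : ∀ x ∈ T, t x ≤ J + 1) :
    ∑ x ∈ T, (w x : ℝ) * max 0 (t x) ≤ ∑ j ∈ Finset.range (J + 1), ((∑ x ∈ T.filter (fun x => (j : ℝ) < t x), w x : ℕ) : ℝ) := by
  calc ∑ x ∈ T, (w x : ℝ) * max 0 (t x) ≤ ∑ x ∈ T, (w x : ℝ) * ∑ j ∈ Finset.range (J + 1), (if (j : ℝ) < t x then (1 : ℝ) else 0) := by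
        apply Finset.sum_le_sum
        intro x hx
        exact mul_le_mul_of_nonneg_left (layer_one J (ht x hx)) (by positivity)
    _ = ∑ j ∈ Finset.range (J + 1), ∑ x ∈ T, (w x : ℝ) * (if (j : ℝ) < t x then (1 : ℝ) else 0) := by
        simp_rw [Finset.mul_sum]
        exact Finset.sum_comm
    _ = _ := by
        apply Finset.sum_congr rfl
        intro j _
        push_cast
        rw [Finset.sum_filter]
        apply Finset.sum_congr rfl
        intro x _
        split_ifs <;> simp

end BerkFix
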