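import Pool.Agent.Lib.MP_edb0ca_an.NoAtoms

set_option linter.unusedSectionVars false
set_option linter.unusedVariables false

open Polynomial OnePoint Topology Filter MeasureTheory

namespace BerkFix

section

variable {K : Type*} [NormedField K] [IsUltrametricDist K] [IsAlgClosed K]

lemma isOpen_BO (c : K) (r : ℝ) : IsOpen (BO c r : Set (P1 K)) := by
  unfold BO
  exact OnePoint.isOpenEmbedding_coe.isOpenMap _ (isOpen_lt (continuous_eval_A1 _) continuous_const)

lemma measurableSet_BO (c : K) (r : ℝ) : MeasurableSet (BO c r : Set (P1 K)) := (isOpen_BO c r).measurableSet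

lemma slope_down' (c : K) {r r' : ℝ} (hr' : 0 < r') (h : r' < r) {f : K[X]} (hf : f ≠ 0) :
    Real.log (gn c r f) - Real.log (gn c r' f) ≤ (nO c r f : ℝ) * Real.log (r / r') := by
  have hr : 0 < r := hr'.trans h
  have h1 := le_gn c hr' (nO c r f) f
  have h2 := gn_nO c hr f
  have hpos := gn_pos c hr hf
  have hpos' := gn_pos c hr' hf
  have h3 : gn c r f = ‖co c (nO c r f) f‖ * r' ^ (nO c r f) * (r / r') ^ (nO c r f) := by
    rw [← h2, div_pow]
    have : 0 < r' ^ (nO c r f) := by positivity
    rw [h2]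
    conv_lhs => rw [← h2]
    field_simp
  have h4 : gn c r f ≤ gn c r' f * (r / r') ^ (nO c r f) := by
    rw [h3]
    gcongr
  have h5 := Real.log_le_log hpos h4
  rw [Real.log_mul hpos'.ne' (by positivity), Real.log_pow] at h5
  linarith

variable {R : RMap K} {ρ : Measure (P1 K)}

/-- approximation of an open ball from inside -/
lemma exists_inner_ball [IsFiniteMeasure ρ] (c : K) {r : ℝ} (hr : 0 < r) {ε : ℝ} (hε : 0 < ε) :
    ∃ r', 0 < r' ∧ r' < r ∧ ρ.real (BO c r) - ε ≤ ρ.real (BO c r') := by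
  set s : ℕ → ℝ := fun k => r - r / ((k : ℝ) + 2) with hs
  have hmono : Monotone (fun k => BO c (s k)) := by
    intro k l hkl x hx
    induction x using OnePoint.rec with
    | infty => exact absurd hx infty_notMem_BO
    | coe y =>
      rw [mem_BO_coe] at hx ⊢
      refine lt_of_lt_of_le hx ?_
      simp only [hs]
      have : r / ((l : ℝ) + 2) ≤ r / ((k : ℝ) + 2) := by
        have : (k : ℝ) ≤ l := by exact_mod_cast hkl
        gcongr
      linarith
  have hun : (⋃ k, BO c (s k)) = BO c r := by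
    ext x
    rw [Set.mem_iUnion]
    constructor
    · rintro ⟨k, hk⟩
      induction x using OnePoint.rec with
      | infty => exact absurd hk infty_notMem_BO
      | coe y =>
        rw [mem_BO_coe] at hk ⊢
        simp only [hs] at hk
        have : 0 < r / ((k : ℝ) + 2) := by positivity
        linarith
    · intro hx
      induction x using OnePoint.rec with
      | infty => exact absurd hx infty_notMem_BO
      | coe y =>
        rw [mem_BO_coe] at hx
        have h1 : 0 < r - y (X - C c) := by linarith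
        obtain ⟨N, hN⟩ := exists_nat_gt (r / (r - y (X - C c)))
        refine ⟨N, ?_⟩
        rw [mem_BO_coe]
        simp only [hs]
        rw [div_lt_iff₀ h1] at hN
        have h2 : r / ((N : ℝ) + 2) < r - y (X - C c) := by
          rw [div_lt_iff₀ (by positivity)]
          nlinarith
        linarith
  have htend := tendsto_measure_iUnion_atTop (μ := ρ) hmono
  rw [hun] at htend
  have h2 : Tendsto (fun k => ρ.real (BO c (s k))) atTop (𝓝 (ρ.real (BO c r))) := by
    have := (ENNReal.tendsto_toReal (measure_ne_top ρ _)).comp htend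
    simpa [Function.comp_def, measureReal_def] using this
  obtain ⟨k, hk⟩ := (h2.eventually (lt_mem_nhds (by linarith : ρ.real (BO c r) - ε < ρ.real (BO c r)))).exists
  refine ⟨s k, ?_, ?_, hk.le⟩
  · simp only [hs]
    have : r / ((k : ℝ) + 2) ≤ r / 2 := by
      gcongr
      have : (0 : ℝ) ≤ k := by positivity
      linarith
    linarith
  · simp only [hs]
    have : 0 < r / ((k : ℝ) + 2) := by positivity
    linarith

lemma integral_kap_diff [IsProbabilityMeasure ρ] (c : K) {r r' : ℝ} (hr' : 0 < r') (h : r' < r) :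
    Real.log (r / r') * ρ.real (BO c r') ≤ gU ρ c r - gU ρ c r' + (Real.log (Mz c r) - Real.log (Mz c r')) := by
  have hr : 0 < r := hr'.trans h
  have i1 := integrable_of_continuous (ρ := ρ) (continuous_kz c hr)
  have i2 := integrable_of_continuous (ρ := ρ) (continuous_kz c hr')
  have e1 : gU ρ c r - gU ρ c r' + (Real.log (Mz c r) - Real.log (Mz c r')) =
      ∫ x, (kz c r x - kz c r' x + (Real.log (Mz c r) - Real.log (Mz c r'))) ∂ρ := by
    have i12 : Integrable (fun x => kz c r x - kz c r' x) ρ := i1.sub i2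
    rw [integral_add i12 (integrable_const _), integral_sub i1 i2, integral_const, probReal_univ, one_smul]
    rfl
  rw [e1, mul_comm, ← smul_eq_mul, ← integral_indicator_const _ (measurableSet_BO c r')]
  apply integral_mono
  · exact (integrable_const _).indicator (measurableSet_BO c r')
  · exact (i1.sub i2).add (integrable_const _)
  · intro x
    simp only
    have e2 : kz c r x - kz c r' x + (Real.log (Mz c r) - Real.log (Mz c r')) = kap c r x - kap c r' x := by
      unfold kz; ring
    rw [e2]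
    induction x using OnePoint.rec with
    | infty =>
      rw [Set.indicator_of_notMem infty_notMem_BO]; simp
    | coe y =>
      by_cases hy : (y : P1 K) ∈ BO c r'
      · rw [Set.indicator_of_mem hy]
        rw [mem_BO_coe] at hy
        rw [kap_coe, kap_coe, max_eq_right hy.le, max_eq_right (hy.trans h).le, Real.log_div hr.ne' hr'.ne']
        linarith
      · rw [Set.indicator_of_notMem hy, kap_coe, kap_coe]
        have h1 : Real.log (max (y (X - C c)) r') ≤ Real.log (max (y (X - C c)) r) := by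
          apply Real.log_le_log (lt_of_lt_of_le hr' (le_max_right _ _))
          exact max_le_max le_rfl h.le
        linarith

/-- growth of the pencil across an annulus -/
lemma log_gn_diff (φ : RMap K) (hD : 1 ≤ φ.deg) (c : K) {r r' : ℝ} (hr : 0 < r) (hr' : 0 < r') (b : OnePoint K) {κ : ℝ} (hκ : 0 < κ)
    (h : κ ≤ chP (φ.map (zt c r hr : P1 K)) b) :
    Real.log κ + (hh φ (zt c r hr : P1 K) - hh φ (zt c r' hr' : P1 K)) + φ.deg * (Real.log (Mz c r) - Real.log (Mz c r')) ≤
      Real.log (gn c r (φ.F b)) - Real.log (gn c r' (φ.F b)) := by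
  have e1 := log_F φ hD (zt c r hr) (hyp_zt c hr) b
  have e2 := log_F φ hD (zt c r' hr') (hyp_zt c hr') b
  rw [zt_apply, ← Mz_eq] at e1 e2
  rw [e1, e2]
  have h0 := chP_map_pos φ hD (hyp_zt c hr') b
  have h1 : Real.log (chP (φ.map (zt c r' hr' : P1 K)) b) ≤ 0 := Real.log_nonpos h0.le (chP_le_one _ _)
  have h2 := Real.log_le_log hκ h
  linarith

end

variable {K : Type*} [NontriviallyNormedField K] [IsUltrametricDist K] [IsAlgClosed K]

variable {R : RMap K} {ρ : Measure (P1 K)}

/-- lower bound for the ball multiplicities in terms of the equilibrium measure -/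
theorem tauO_lower [CompleteSpace K] (hR : 2 ≤ R.deg) (h : IsEquilibrium R ρ) (c : K) {r : ℝ} (hr : 0 < r) {ε : ℝ} (hε : 0 < ε) :
    ∀ᶠ n in atTop, (ρ.real (BO c r) - ε) * (R.deg : ℝ) ^ n ≤ tauO (iter R n) c r := by
  have := h.prob
  have h0 := no_atoms (by omega) h
  have hd : (2 : ℝ) ≤ R.deg := by exact_mod_cast hR
  obtain ⟨r', hr', hr'r, hball⟩ := exists_inner_ball (ρ := ρ) c hr (ε := ε / 2) (by positivity)
  have hlog : 0 < Real.log (r / r') := Real.log_pos (by rw [one_lt_div hr']; exact hr'r)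
  set l := Real.log (r / r') with hl
  -- auxiliary classical points
  obtain ⟨t, ht0, htr⟩ := NormedField.exists_norm_lt K hr
  obtain ⟨u, hu⟩ := NormedField.exists_lt_norm K r
  have hne1 : (c : OnePoint K) ≠ ((c + t : K) : OnePoint K) := by
    intro h1
    rw [OnePoint.coe_eq_coe] at h1
    have : t = 0 := by linear_combination -h1
    rw [this, norm_zero] at ht0
    exact lt_irrefl _ ht0
  have hκ1 := cc_pos hne1
  have hκ2 : 0 < cc (∞ : OnePoint K) ((c + u : K) : OnePoint K) := cc_pos (OnePoint.infty_ne_coe _)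
  set κ := min (cc (c : OnePoint K) ((c + t : K) : OnePoint K)) (cc (∞ : OnePoint K) ((c + u : K) : OnePoint K)) with hκdef
  have hκ : 0 < κ := lt_min hκ1 hκ2
  have hs1 := gP_iter_small hR h0 (isZt_zt c hr) (ε := ε * l / 16) (by positivity)
  have hs2 := gP_iter_small hR h0 (isZt_zt c hr') (ε := ε * l / 16) (by positivity)
  have hlim : Tendsto (fun n : ℕ => (1 - Real.log κ / l) / (R.deg : ℝ) ^ n) atTop (𝓝 0) :=
    (tendsto_pow_atTop_atTop_of_one_lt (by linarith)).const_div_atTop _
  filter_upwards [hs1, hs2, hlim.eventually (gt_mem_nhds (by positivity : 0 < ε / 4))] with n h1 h2 h3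
  set φ := iter R n with hφ
  have hD : 1 ≤ φ.deg := deg_iter_pos R (by omega) n
  have hDn : (0 : ℝ) < (R.deg : ℝ) ^ n := by positivity
  have hdeg : (φ.deg : ℝ) = (R.deg : ℝ) ^ n := by rw [hφ, deg_iter]; push_cast; rfl
  rw [div_lt_iff₀ hDn] at h3
  -- the growth of the lift
  have hiter := gP_iter (by omega) h n (isZt_zt c hr) (isZt_zt c hr')
  rw [gP_zt, gP_zt] at hiter
  have hk := integral_kap_diff (ρ := ρ) c hr' hr'r
  have habs1 := abs_le.1 h1
  have habs2 := abs_le.1 h2
  -- the good points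
  obtain ⟨a, ha1, ha2⟩ : ∃ a : K, ‖a - c‖ < r ∧ κ ≤ chP (φ.map (zt c r hr : P1 K)) (a : OnePoint K) := by
    rcases le_max_iff.1 (cc_le_chP (φ.map (zt c r hr : P1 K)) (c : OnePoint K) ((c + t : K) : OnePoint K)) with h | h
    · exact ⟨c, by simpa using hr, (min_le_left _ _).trans h⟩
    · exact ⟨c + t, by simpa using htr, (min_le_left _ _).trans h⟩
  obtain ⟨a', ha1', ha2'⟩ : ∃ a' : OnePoint K, (∀ z : K, a' = z → r ≤ ‖z - c‖) ∧ κ ≤ chP (φ.map (zt c r hr : P1 K)) a' := by
    rcases le_max_iff.1 (cc_le_chP (φ.map (zt c r hr : P1 K)) (∞ : OnePoint K) ((c + u : K) : OnePoint K)) with h | h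
    · exact ⟨∞, by intro z hz; exact absurd hz (OnePoint.infty_ne_coe z), (min_le_right _ _).trans h⟩
    · refine ⟨((c + u : K) : OnePoint K), ?_, (min_le_right _ _).trans h⟩
      intro z hz
      rw [OnePoint.coe_eq_coe] at hz
      rw [← hz]; simpa using hu.le
  have hmain : ∀ b : OnePoint K, κ ≤ chP (φ.map (zt c r hr : P1 K)) b →
      Real.log κ + (R.deg : ℝ) ^ n * (l * ρ.real (BO c r')) - (ε * l / 8) * (R.deg : ℝ) ^ n ≤ (nO c r (φ.F b) : ℝ) * l := by
    intro b hb
    have g1 := log_gn_diff φ hD c hr hr' b hκ hb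
    have g2 := slope_down' c hr' hr'r (F_ne_zero φ hD b)
    rw [hdeg] at g1
    have g3 : (R.deg : ℝ) ^ n * (l * ρ.real (BO c r')) ≤
        (R.deg : ℝ) ^ n * (gU ρ c r - gU ρ c r' + (Real.log (Mz c r) - Real.log (Mz c r'))) := by gcongr
    linarith
  have hb1 := hmain (a : OnePoint K) ha2
  have hb2 := hmain a' ha2'
  have hmin := min_le_tauO φ hD c hr ha1 ha1'
  have hmin' : min (nO c r (φ.F (a : OnePoint K)) : ℝ) (nO c r (φ.F a') : ℝ) ≤ (tauO φ c r : ℝ) + 1 := by
    exact_mod_cast hmin
  have hb3 : Real.log κ + (R.deg : ℝ) ^ n * (l * ρ.real (BO c r')) - (ε * l / 8) * (R.deg : ℝ) ^ n ≤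
      ((tauO φ c r : ℝ) + 1) * l := by
    refine le_trans ?_ (mul_le_mul_of_nonneg_right hmin' hlog.le)
    rw [min_mul_of_nonneg _ _ hlog.le]
    exact le_min hb1 hb2
  have hb4 : Real.log κ / l + (R.deg : ℝ) ^ n * (ρ.real (BO c r')) - (ε / 8) * (R.deg : ℝ) ^ n ≤ (tauO φ c r : ℝ) + 1 := by
    rw [← mul_le_mul_iff_left₀ hlog]
    refine le_trans (le_of_eq ?_) hb3
    field_simp
  have hb5 : (R.deg : ℝ) ^ n * (ρ.real (BO c r) - ε / 2) ≤ (R.deg : ℝ) ^ n * ρ.real (BO c r') := by gcongr
  nlinarith

end BerkFix
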