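import Pool.Agent.Lib.MP_edb0ca_an.Uniq

set_option linter.unusedSectionVars false
set_option linter.unusedVariables false

open Polynomial OnePoint Topology Filter MeasureTheory

namespace BerkFix

variable {K : Type*} [NormedField K] [IsUltrametricDist K] [IsAlgClosed K]

variable {R : RMap K} {ρ : Measure (P1 K)}

/-- invariance on continuous functions -/
lemma integral_comp_map (hR : 1 ≤ R.deg) (h : IsEquilibrium R ρ) (u : C(P1 K, ℝ)) : ∫ x, u (R.map x) ∂ρ = ∫ x, u x ∂ρ := by
  have := h.prob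
  have hd : (0 : ℝ) < R.deg := by exact_mod_cast hR
  have h1 := h.pullback (u.comp ⟨R.map, continuous_map R⟩) ((R.deg : ℝ) • u) (by
    intro a
    have h2 : (R.fib a).map (fun z => (u.comp ⟨R.map, continuous_map R⟩) (cl z)) = (R.fib a).map (fun _ => u (cl a)) := by
      apply Multiset.map_congr rfl
      intro z hz
      simp only [ContinuousMap.comp_apply, ContinuousMap.coe_mk]
      rw [map_cl_of_mem_fib hz]
    rw [h2, Multiset.map_const', Multiset.sum_replicate, card_fib]
    simp)
  simp only [ContinuousMap.comp_apply, ContinuousMap.coe_mk, ContinuousMap.coe_smul, Pi.smul_apply, smul_eq_mul] at h1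
  rw [integral_const_mul] at h1
  exact (mul_left_cancel₀ hd.ne' h1).symm

/-- the equilibrium measure is invariant -/
theorem measurePreserving_map (hR : 1 ≤ R.deg) (h : IsEquilibrium R ρ) : MeasurePreserving R.map ρ ρ := by
  have := h.prob
  have := h.regular
  have hc := continuous_map R
  refine ⟨hc.measurable, ?_⟩
  have h1 : IsProbabilityMeasure (ρ.map R.map) := Measure.isProbabilityMeasure_map hc.measurable.aemeasurable
  have h2 : (ρ.map R.map).InnerRegularCompactLTTop := Measure.InnerRegularCompactLTTop.map_of_continuous hc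
  have h3 : (ρ.map R.map).Regular := inferInstance
  apply Measure.ext_of_integral_eq_on_compactlySupported
  intro f
  have hf : Continuous (fun x => f x) := f.continuous
  have h4 : ∫ x, f x ∂(ρ.map R.map) = ∫ x, f (R.map x) ∂ρ :=
    integral_map hc.measurable.aemeasurable hf.measurable.aestronglyMeasurable
  rw [h4]
  exact integral_comp_map hR h ⟨f, f.continuous⟩

/-- weighted pull-back formula -/
lemma weighted_pullback (hR : 1 ≤ R.deg) (h : IsEquilibrium R ρ) {u v : C(P1 K, ℝ)}
    (huv : ∀ a : OnePoint K, v (cl a) = ((R.fib a).map (fun z => u (cl z))).sum) (g : C(P1 K, ℝ)) :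
    ∫ x, v x * g x ∂ρ = R.deg * ∫ x, u x * g (R.map x) ∂ρ := by
  have h1 := h.pullback (u * g.comp ⟨R.map, continuous_map R⟩) (v * g) (by
    intro a
    have h2 : (R.fib a).map (fun z => (u * g.comp ⟨R.map, continuous_map R⟩) (cl z)) = (R.fib a).map (fun z => u (cl z) * g (cl a)) := by
      apply Multiset.map_congr rfl
      intro z hz
      simp only [ContinuousMap.mul_apply, ContinuousMap.comp_apply, ContinuousMap.coe_mk]
      rw [map_cl_of_mem_fib hz]
    rw [h2, Multiset.sum_map_mul_right, ContinuousMap.mul_apply, huv])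
  simpa using h1

/-- pull-back formula on invariant sets -/
lemma restrict_pullback (hR : 1 ≤ R.deg) (h : IsEquilibrium R ρ) {u v : C(P1 K, ℝ)}
    (huv : ∀ a : OnePoint K, v (cl a) = ((R.fib a).map (fun z => u (cl z))).sum) {s : Set (P1 K)} (hs : MeasurableSet s)
    (hinv : R.map ⁻¹' s = s) : ∫ x in s, v x ∂ρ = R.deg * ∫ x in s, u x ∂ρ := by
  classical
  have := h.prob
  have := h.regular
  have hmp := measurePreserving_map hR h
  have hd : (0 : ℝ) < R.deg := by exact_mod_cast hR
  set χ : P1 K → ℝ := s.indicator (fun _ => (1 : ℝ)) with hχ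
  have hχint : Integrable χ ρ := (integrable_const 1).indicator hs
  have hχR : ∀ x, χ (R.map x) = χ x := by
    intro x
    simp only [hχ, Set.indicator_apply]
    have : R.map x ∈ s ↔ x ∈ s := by rw [← Set.mem_preimage, hinv]
    simp only [this]
  have e1 : ∀ w : C(P1 K, ℝ), ∫ x in s, w x ∂ρ = ∫ x, w x * χ x ∂ρ := by
    intro w
    rw [← integral_indicator hs]
    congr 1
    funext x
    simp only [hχ, Set.indicator_apply]
    split_ifs <;> simp
  rw [e1, e1]
  have hbd : ∀ w : C(P1 K, ℝ), ∀ x, ‖w x‖ ≤ ‖w‖ := fun w x => w.norm_coe_le_norm x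
  have key : ∀ ε > 0, |∫ x, v x * χ x ∂ρ - R.deg * ∫ x, u x * χ x ∂ρ| ≤ (‖v‖ + R.deg * ‖u‖) * ε := by
    intro ε hε
    obtain ⟨g, hg1, hg2⟩ := hχint.exists_boundedContinuous_integral_sub_le hε
    have hg3 := weighted_pullback hR h huv ⟨g, g.continuous⟩
    simp only [ContinuousMap.coe_mk] at hg3
    have hint : ∀ (w : C(P1 K, ℝ)) (f : P1 K → ℝ), Integrable f ρ → Integrable (fun x => w x * f x) ρ := by
      intro w f hf
      exact hf.bdd_mul (c := ‖w‖) w.continuous.measurable.aestronglyMeasurable (ae_of_all _ (hbd w))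
    have hbound : ∀ (w : C(P1 K, ℝ)) (f : P1 K → ℝ), Integrable f ρ → |∫ x, w x * f x ∂ρ| ≤ ‖w‖ * ∫ x, ‖f x‖ ∂ρ := by
      intro w f hf
      rw [← Real.norm_eq_abs]
      refine (norm_integral_le_integral_norm _).trans ?_
      rw [← integral_const_mul]
      apply integral_mono (hint w f hf).norm (hf.norm.const_mul _)
      intro x
      simp only [norm_mul]
      gcongr
      exact hbd w x
    have hd1 : Integrable (fun x => χ x - g x) ρ := hχint.sub hg2
    have hgR : Integrable (fun x => g (R.map x)) ρ := by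
      exact integrable_of_continuous (g.continuous.comp (continuous_map R))
    have hd2 : Integrable (fun x => χ x - g (R.map x)) ρ := hχint.sub hgR
    have hd2' : ∫ x, ‖χ x - g (R.map x)‖ ∂ρ ≤ ε := by
      have h4 : ∫ x, ‖χ x - g (R.map x)‖ ∂ρ = ∫ x, ‖χ x - g x‖ ∂ρ := by
        have h5 : ∫ y, ‖χ y - g y‖ ∂(ρ.map R.map) = ∫ x, ‖χ (R.map x) - g (R.map x)‖ ∂ρ := by
          apply integral_map hmp.measurable.aemeasurable
          rw [hmp.map_eq]
          exact hd1.norm.aestronglyMeasurable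
        rw [hmp.map_eq] at h5
        rw [h5]
        simp_rw [hχR]
      rw [h4]; exact hg1
    have f1 : ∫ x, v x * χ x ∂ρ = ∫ x, v x * (χ x - g x) ∂ρ + ∫ x, v x * g x ∂ρ := by
      rw [← integral_add (hint v _ hd1) (hint v _ hg2)]
      congr 1; funext x; ring
    have f2 : ∫ x, u x * χ x ∂ρ = ∫ x, u x * (χ x - g (R.map x)) ∂ρ + ∫ x, u x * g (R.map x) ∂ρ := by
      rw [← integral_add (hint u _ hd2) (hint u _ hgR)]
      congr 1; funext x; ring
    have f3 : ∫ x, v x * χ x ∂ρ - R.deg * ∫ x, u x * χ x ∂ρ =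
        ∫ x, v x * (χ x - g x) ∂ρ - R.deg * ∫ x, u x * (χ x - g (R.map x)) ∂ρ := by
      rw [f1, f2, hg3]; ring
    rw [f3]
    have b1 := hbound v _ hd1
    have b2 := hbound u _ hd2
    have b3 : |∫ x, v x * (χ x - g x) ∂ρ| ≤ ‖v‖ * ε := b1.trans (mul_le_mul_of_nonneg_left hg1 (norm_nonneg _))
    have b4 : |∫ x, u x * (χ x - g (R.map x)) ∂ρ| ≤ ‖u‖ * ε := b2.trans (mul_le_mul_of_nonneg_left hd2' (norm_nonneg _))
    calc |∫ x, v x * (χ x - g x) ∂ρ - R.deg * ∫ x, u x * (χ x - g (R.map x)) ∂ρ|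
        ≤ |∫ x, v x * (χ x - g x) ∂ρ| + |R.deg * ∫ x, u x * (χ x - g (R.map x)) ∂ρ| := abs_sub _ _
      _ = |∫ x, v x * (χ x - g x) ∂ρ| + R.deg * |∫ x, u x * (χ x - g (R.map x)) ∂ρ| := by
          rw [abs_mul, abs_of_pos hd]
      _ ≤ ‖v‖ * ε + R.deg * (‖u‖ * ε) := by gcongr
      _ = _ := by ring
  have h0 : |∫ x, v x * χ x ∂ρ - R.deg * ∫ x, u x * χ x ∂ρ| ≤ 0 := by
    have hC : 0 ≤ ‖v‖ + R.deg * ‖u‖ := by positivity
    apply le_of_forall_pos_le_add
    intro ε hε
    rw [zero_add]
    refine (key (ε / (‖v‖ + R.deg * ‖u‖ + 1)) (by positivity)).trans ?_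
    rw [mul_div_assoc', div_le_iff₀ (by positivity)]
    nlinarith
  have := abs_eq_zero.1 (le_antisymm h0 (abs_nonneg _))
  linarith

/-- normalised restriction to an invariant set -/
theorem isEquilibrium_cond (hR : 1 ≤ R.deg) (h : IsEquilibrium R ρ) {s : Set (P1 K)} (hs : MeasurableSet s)
    (hinv : R.map ⁻¹' s = s) (hne : ρ s ≠ 0) : IsEquilibrium R ((ρ s)⁻¹ • ρ.restrict s) := by
  have := h.prob
  have := h.regular
  have hfin : ρ s ≠ ⊤ := measure_ne_top _ _
  have hinv' : (ρ s)⁻¹ ≠ ⊤ := ENNReal.inv_ne_top.2 hne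
  have hreg : (ρ.restrict s).Regular := inferInstance
  refine ⟨?_, ?_, ?_, ?_⟩
  · constructor
    rw [Measure.smul_apply, Measure.restrict_apply MeasurableSet.univ, Set.univ_inter, smul_eq_mul]
    exact ENNReal.inv_mul_cancel hne hfin
  · exact Measure.Regular.smul hinv'
  · intro u v huv
    rw [integral_smul_measure, integral_smul_measure, restrict_pullback hR h huv hs hinv]
    simp only [smul_eq_mul]
    ring
  · intro a _
    rw [Measure.smul_apply, smul_eq_mul]
    have h1 : (ρ.restrict s) {cl a} ≤ ρ {cl a} := Measure.restrict_apply_le _ _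
    rw [no_atoms hR h a] at h1
    have h2 : (ρ.restrict s) {cl a} = 0 := le_antisymm h1 bot_le
    rw [h2, mul_zero]

/-- the equilibrium measure is ergodic -/
theorem ergodic_map [CompleteSpace K] (hR : 2 ≤ R.deg) (h : IsEquilibrium R ρ) : Ergodic R.map ρ := by
  have := h.prob
  refine ⟨measurePreserving_map (by omega) h, ⟨?_⟩⟩
  intro s hs hinv
  rw [eventuallyConst_set']
  by_cases hne : ρ s = 0
  · left
    exact measure_eq_zero_iff_ae_notMem.1 hne |>.mono (fun x hx => by
      simp only [eq_iff_iff]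
      exact ⟨fun h => hx h, fun h => absurd h (Set.notMem_empty x)⟩)
  · right
    have h1 := equilibrium_unique hR (isEquilibrium_cond (by omega) h hs hinv hne) h
    have h2 : ρ sᶜ = 0 := by
      rw [← h1, Measure.smul_apply, Measure.restrict_apply hs.compl, Set.compl_inter_self, measure_empty, smul_zero]
    have h3 : ∀ᵐ x ∂ρ, x ∈ s := mem_ae_iff.2 h2
    exact h3.mono (fun x hx => by
      simp only [eq_iff_iff]
      exact ⟨fun _ => Set.mem_univ x, fun _ => hx⟩)

end BerkFix
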