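import Pool.Agent.Lib.MP_edb0ca_an.HypNull

set_option linter.unusedSectionVars false
set_option linter.unusedVariables false

open Polynomial OnePoint Topology Filter MeasureTheory

namespace BerkFix

section

variable {K : Type*} [NormedField K] [IsUltrametricDist K] [IsAlgClosed K]

variable {R : RMap K} {ρ : Measure (P1 K)}

/-! ### the logarithm of the spherical derivative -/

lemma chP_pos_of_hyp {x : P1 K} (hx : Hyp x) (z : OnePoint K) : 0 < chP x z :=
  chP_pos_of_ne (by rintro rfl; exact hx ⟨z, rfl⟩)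

lemma log_sph (φ : RMap K) (hD : 1 ≤ φ.deg) (hw : φ.wr ≠ 0) {x : P1 K} (hx : Hyp x) :
    -Real.log (φ.sph x) = ((crit φ).map (fun α => -Real.log (chP x α))).sum - Real.log (gn 0 1 φ.wr) + 2 * hh φ x := by
  have hg : 0 < gn 0 1 φ.wr := gn_pos 0 one_pos hw
  have hprod : ∀ s : Multiset (OnePoint K), 0 < (s.map (chP x)).prod ∧
      Real.log (s.map (chP x)).prod = -(s.map (fun w => -Real.log (chP x w))).sum := by
    intro s
    induction s using Multiset.induction_on with
    | empty => simp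
    | cons w s ih =>
      rw [Multiset.map_cons, Multiset.prod_cons, Multiset.map_cons, Multiset.sum_cons]
      have h1 := chP_pos_of_hyp hx w
      refine ⟨mul_pos h1 ih.1, ?_⟩
      rw [Real.log_mul h1.ne' ih.1.ne', ih.2]
      ring
  obtain ⟨hp1, hp2⟩ := hprod (crit φ)
  rw [sph_eq_prod φ hD x, Real.log_mul (by positivity) (Real.exp_pos _).ne', Real.log_mul hg.ne' hp1.ne', hp2, Real.log_exp]
  ring

/-- tails of the spherical derivative are controlled by the tails of the kernels -/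
lemma tail_sph_le (hR : 1 ≤ R.deg) (hw : R.wr ≠ 0) : ∃ C₁ : ℝ, 0 ≤ C₁ ∧ ∀ (A' : ℝ) (n : ℕ),
    ∑ x ∈ spt (iter R n), (wgt (iter R n) x : ℝ) * max 0 (-Real.log (R.sph x) - ((crit R).card * A' + C₁)) ≤
      ((crit R).map (fun α => tl (iter R n) α A')).sum := by
  obtain ⟨Ch, hCh0, hCh⟩ := exists_hh_bound R
  refine ⟨|Real.log (gn 0 1 R.wr)| + 2 * Ch, by positivity, ?_⟩
  intro A' n
  have hsum : ((crit R).map (fun α => tl (iter R n) α A')).sum =
      ∑ x ∈ spt (iter R n), (wgt (iter R n) x : ℝ) * ((crit R).map (fun α => max 0 (-Real.log (chP x α) - A'))).sum := by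
    have key : ∀ S : Multiset (OnePoint K), (S.map (fun α => tl (iter R n) α A')).sum =
      ∑ x ∈ spt (iter R n), (wgt (iter R n) x : ℝ) * (S.map (fun α => max 0 (-Real.log (chP x α) - A'))).sum := by
      intro S
      induction S using Multiset.induction_on with
      | empty => simp
      | cons w S ih =>
        simp only [Multiset.map_cons, Multiset.sum_cons]
        rw [ih, tl, ← Finset.sum_add_distrib]
        apply Finset.sum_congr rfl
        intro x _
        ring
    exact key _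
  rw [hsum]
  apply Finset.sum_le_sum
  intro x hx
  obtain ⟨hH, _, _⟩ := spt_props R hR hx
  apply mul_le_mul_of_nonneg_left _ (by positivity)
  apply max_le
  · apply Multiset.sum_nonneg
    intro y hy
    obtain ⟨α, _, rfl⟩ := Multiset.mem_map.1 hy
    exact le_max_left _ _
  · rw [log_sph R hR hw hH]
    have h1 : ∀ S : Multiset (OnePoint K), (S.map (fun α => -Real.log (chP x α))).sum ≤
        (S.map (fun α => max 0 (-Real.log (chP x α) - A'))).sum + S.card * A' := by
      intro S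
      induction S using Multiset.induction_on with
      | empty => simp
      | cons w S ih =>
        simp only [Multiset.map_cons, Multiset.sum_cons, Multiset.card_cons]
        have := le_max_right 0 (-Real.log (chP x w) - A')
        push_cast
        linarith
    have h2 := h1 (crit R)
    have h3 := neg_abs_le (Real.log (gn 0 1 R.wr))
    have h4 := (abs_le.1 (hCh x)).2
    linarith

lemma tail_multiset (hR : 2 ≤ R.deg) {ε : ℝ} (hε : 0 < ε) (S : Multiset (OnePoint K)) (hS : ∀ α ∈ S, α ∈ crit R) :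
    ∃ A : ℝ, 0 ≤ A ∧ ∀ᶠ n in atTop, (S.map (fun α => tl (iter R n) α A)).sum ≤ S.card * (ε * (R.deg : ℝ) ^ n) := by
  induction S using Multiset.induction_on with
  | empty => exact ⟨0, le_rfl, by simp⟩
  | cons w S ih =>
    obtain ⟨A₁, hA₁, h1⟩ := ih (fun α hα => hS α (Multiset.mem_cons_of_mem hα))
    obtain ⟨A₂, h2⟩ := tail_small R hR (hS w (Multiset.mem_cons_self w S)) hε
    refine ⟨max A₁ A₂, hA₁.trans (le_max_left _ _), ?_⟩
    filter_upwards [h1, h2] with n hn1 hn2
    simp only [Multiset.map_cons, Multiset.sum_cons, Multiset.card_cons]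
    have h3 : tl (iter R n) w (max A₁ A₂) ≤ ε * (R.deg : ℝ) ^ n := (tl_mono _ _ (le_max_right _ _)).trans hn2
    have h4 : (S.map (fun α => tl (iter R n) α (max A₁ A₂))).sum ≤ (S.map (fun α => tl (iter R n) α A₁)).sum := by
      apply Multiset.sum_map_le_sum_map
      intro α _
      exact tl_mono _ _ (le_max_left _ _)
    push_cast
    linarith

/-! ### invariance -/

lemma sum_wgt_iterate (hR : 1 ≤ R.deg) {n : ℕ} (hn : 1 ≤ n) (u : P1 K → ℝ) (i : ℕ) :
    ∑ x ∈ spt (iter R n), (wgt (iter R n) x : ℝ) * u (R.map^[i] x) = ∑ x ∈ spt (iter R n), (wgt (iter R n) x : ℝ) * u x := by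
  induction i with
  | zero => rfl
  | succ i ih =>
    have := sum_wgt_comp R hR hn (fun x => u (R.map^[i] x))
    simp only [Function.iterate_succ_apply] at this ⊢
    rw [this, ih]

lemma sum_wgt_avg (hR : 1 ≤ R.deg) {n : ℕ} (hn : 1 ≤ n) (u : P1 K → ℝ) {k : ℕ} (hk : 1 ≤ k) :
    ∑ x ∈ spt (iter R n), (wgt (iter R n) x : ℝ) * ((∑ i ∈ Finset.range k, u (R.map^[i] x)) / k) =
      ∑ x ∈ spt (iter R n), (wgt (iter R n) x : ℝ) * u x := by
  have hk0 : (k : ℝ) ≠ 0 := by positivity
  have h1 : ∑ x ∈ spt (iter R n), (wgt (iter R n) x : ℝ) * ((∑ i ∈ Finset.range k, u (R.map^[i] x)) / k) =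
      (∑ i ∈ Finset.range k, ∑ x ∈ spt (iter R n), (wgt (iter R n) x : ℝ) * u (R.map^[i] x)) / k := by
    rw [Finset.sum_comm, Finset.sum_div]
    apply Finset.sum_congr rfl
    intro x _
    rw [← Finset.mul_sum, mul_div_assoc]
  rw [h1]
  simp_rw [sum_wgt_iterate hR hn u]
  rw [Finset.sum_const, Finset.card_range, nsmul_eq_mul]
  field_simp

/-- the weighted sum of `log` of the spherical derivative is nonpositive -/
lemma sum_wgt_log_sph (hR : 1 ≤ R.deg) (hw : R.wr ≠ 0) {n : ℕ} (hn : 1 ≤ n) :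
    ∑ x ∈ spt (iter R n), (wgt (iter R n) x : ℝ) * Real.log (R.sph x) ≤ 0 := by
  rw [← sum_wgt_avg hR hn (fun x => Real.log (R.sph x)) hn]
  apply Finset.sum_nonpos
  intro x hx
  have hD := deg_iter_pos R hR n
  have hx0 := hx
  rw [mem_spt hD] at hx
  obtain ⟨c, r, hr, rfl, hF, _⟩ := exists_of_wgt_ne hD hx
  have hH := hyp_zt c hr
  have h1 := sph_le_one (iter R n) hD c hr hF
  have h2 : 0 < (iter R n).sph (zt c r hr : P1 K) := by
    rw [sph_iter R hR n hH]
    apply Finset.prod_pos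
    intro i _
    exact sph_pos R hw ((hyp_iterate R hR i _).2 hH)
  have h3 : ∑ i ∈ Finset.range n, Real.log (R.sph (R.map^[i] (zt c r hr : P1 K))) ≤ 0 := by
    rw [← Real.log_prod (fun i _ => (sph_pos R hw ((hyp_iterate R hR i _).2 hH)).ne'), ← sph_iter R hR n hH]
    exact Real.log_nonpos h2.le h1
  apply mul_nonpos_of_nonneg_of_nonpos (by positivity)
  exact div_nonpos_of_nonpos_of_nonneg h3 (by positivity)

/-! ### neighbourhoods of classical points -/

lemma exists_ball_subset (a : K) {U : Set (P1 K)} (hU : IsOpen U) (ha : cl (a : OnePoint K) ∈ U) :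
    ∃ r > 0, BO a r ⊆ U := by
  have h1 := exists_subset_nhds_of_isCompact' (ι := ℕ)
    (V := fun n => ((fun y : A1 K => (y : P1 K)) '' {y : A1 K | y (X - C a) ≤ 1 / ((n : ℝ) + 1)}))
    (by
      intro n m
      refine ⟨max n m, ?_, ?_⟩
      · rintro _ ⟨y, hy, rfl⟩
        refine ⟨y, ?_, rfl⟩
        rw [Set.mem_ofPred_eq] at hy ⊢
        refine le_trans hy ?_
        apply one_div_le_one_div_of_le (by positivity)
        have : (n : ℝ) ≤ (max n m : ℕ) := by exact_mod_cast le_max_left _ _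
        linarith
      · rintro _ ⟨y, hy, rfl⟩
        refine ⟨y, ?_, rfl⟩
        rw [Set.mem_ofPred_eq] at hy ⊢
        refine le_trans hy ?_
        apply one_div_le_one_div_of_le (by positivity)
        have : (m : ℝ) ≤ (max n m : ℕ) := by exact_mod_cast le_max_right _ _
        linarith)
    (fun n => (isCompact_cball a _).image OnePoint.continuous_coe)
    (fun n => isClosed_cb a _)
    (U := U) (by
      intro x hx
      have hxa : x = cl (a : OnePoint K) := by
        rw [Set.mem_iInter] at hx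
        obtain ⟨y, _, rfl⟩ := hx 0
        have hy : ∀ n : ℕ, y (X - C a) ≤ 1 / ((n : ℝ) + 1) := by
          intro n
          obtain ⟨w, hw, hw2⟩ := hx n
          have hw3 : w = y := OnePoint.coe_eq_coe.1 hw2
          rw [← hw3]; exact hw
        by_contra hne
        have hpos := chP_pos_of_ne hne
        rw [chP_coe, ch_coe] at hpos
        have hM := Mx_pos y
        have hA := Ma_pos a
        have h3 : 0 < y (X - C a) := by
          by_contra h4
          have h5 := le_antisymm (not_lt.1 h4) (y.nonneg _)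
          rw [h5, zero_div] at hpos
          exact lt_irrefl _ hpos
        obtain ⟨N, hN⟩ := exists_nat_one_div_lt h3
        have := hy N
        linarith
      rw [hxa]
      exact hU.mem_nhds ha)
  obtain ⟨n, hn⟩ := h1
  refine ⟨1 / ((n : ℝ) + 1), by positivity, ?_⟩
  rintro x hx
  apply hn
  obtain ⟨y, hy, rfl⟩ := hx
  refine ⟨y, ?_, rfl⟩
  rw [Set.mem_ofPred_eq] at hy ⊢
  exact hy.le

/-- finite disjoint covers by balls -/
lemma exists_disjoint_cover {C U : Set (P1 K)} (hC : IsCompact C) (hU : IsOpen U) (hCU : C ⊆ U)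
    (hcl : ∀ x ∈ C, ∃ a : K, x = cl (a : OnePoint K)) :
    ∃ B : Finset (K × ℝ), (∀ p ∈ B, 0 < p.2) ∧ (∀ p ∈ B, ∀ q ∈ B, p ≠ q → p.2 ≤ ‖p.1 - q.1‖) ∧
      (∀ p ∈ B, BO p.1 p.2 ⊆ U) ∧ C ⊆ ⋃ p ∈ B, BO p.1 p.2 := by
  classical
  -- a finite cover
  have h1 : ∃ B : Finset (K × ℝ), (∀ p ∈ B, 0 < p.2) ∧ (∀ p ∈ B, BO p.1 p.2 ⊆ U) ∧ C ⊆ ⋃ p ∈ B, BO p.1 p.2 := by
    obtain ⟨t, ht⟩ := hC.elim_finite_subcover
      (fun p : {p : K × ℝ // 0 < p.2 ∧ BO p.1 p.2 ⊆ U} => BO p.1.1 p.1.2) (fun p => isOpen_BO _ _) (by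
        intro x hx
        obtain ⟨a, rfl⟩ := hcl x hx
        obtain ⟨r, hr, hrU⟩ := exists_ball_subset a hU (hCU hx)
        rw [Set.mem_iUnion]
        refine ⟨⟨(a, r), hr, hrU⟩, ?_⟩
        rw [cl_coe, mem_BO_coe, evalPt_apply]
        simpa using hr)
    refine ⟨t.image Subtype.val, ?_, ?_, ?_⟩
    · intro p hp
      obtain ⟨q, _, rfl⟩ := Finset.mem_image.1 hp
      exact q.2.1
    · intro p hp
      obtain ⟨q, _, rfl⟩ := Finset.mem_image.1 hp
      exact q.2.2
    · intro x hx
      have := ht hx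
      simp only [Set.mem_iUnion] at this ⊢
      obtain ⟨q, hq, hx⟩ := this
      exact ⟨q.1, Finset.mem_image_of_mem _ hq, hx⟩
  -- minimal cardinality
  let P : ℕ → Prop := fun n => ∃ B : Finset (K × ℝ), B.card = n ∧ (∀ p ∈ B, 0 < p.2) ∧ (∀ p ∈ B, BO p.1 p.2 ⊆ U) ∧
    C ⊆ ⋃ p ∈ B, BO p.1 p.2
  have hP : ∃ n, P n := by
    obtain ⟨B, hB⟩ := h1
    exact ⟨B.card, B, rfl, hB⟩
  obtain ⟨B, hcard, hB1, hB2, hB3⟩ := Nat.find_spec hP
  have hmin : ∀ n, P n → Nat.find hP ≤ n := fun n hn => Nat.find_min' hP hn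
  refine ⟨B, hB1, ?_, hB2, hB3⟩
  intro p hp q hq hne
  by_contra hcon
  push Not at hcon
  -- one of the balls is contained in the other
  have hcontra : ∀ p ∈ B, ∀ q ∈ B, p ≠ q → BO p.1 p.2 ⊆ (BO q.1 q.2 : Set (P1 K)) → False := by
    intro p hp q hq hne hsub
    have hlt : (B.erase p).card < B.card := Finset.card_erase_lt_of_mem hp
    have := hmin (B.erase p).card ⟨B.erase p, rfl, fun s hs => hB1 s (Finset.mem_of_mem_erase hs),
      fun s hs => hB2 s (Finset.mem_of_mem_erase hs), by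
        intro x hx
        have := hB3 hx
        simp only [Set.mem_iUnion] at this ⊢
        obtain ⟨s, hs, hxs⟩ := this
        by_cases hsp : s = p
        · subst hsp
          exact ⟨q, Finset.mem_erase.2 ⟨Ne.symm hne, hq⟩, hsub hxs⟩
        · exact ⟨s, Finset.mem_erase.2 ⟨hsp, hs⟩, hxs⟩⟩
    omega
  rcases le_total q.2 p.2 with h2 | h2
  · apply hcontra q hq p hp (Ne.symm hne)
    intro x hx
    induction x using OnePoint.rec with
    | infty => exact absurd hx infty_notMem_BO
    | coe y =>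
      rw [mem_BO_coe] at hx ⊢
      exact lt_of_le_of_lt (y.lin_le p.1 q.1) (max_lt (lt_of_lt_of_le hx h2) hcon)
  · apply hcontra p hp q hq hne
    intro x hx
    induction x using OnePoint.rec with
    | infty => exact absurd hx infty_notMem_BO
    | coe y =>
      rw [mem_BO_coe] at hx ⊢
      refine lt_of_le_of_lt (y.lin_le q.1 p.1) (max_lt (lt_of_lt_of_le hx h2) ?_)
      rw [norm_sub_rev]
      exact lt_of_lt_of_le hcon h2

end

end BerkFix
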