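import Mathlib

set_option linter.unusedSectionVars false

open Polynomial

namespace BerkFix

variable {K : Type*} [NormedField K]

lemma countP_mono' {α : Type*} (p q : α → Prop) [DecidablePred p] [DecidablePred q] (s : Multiset α)
    (h : ∀ z, p z → q z) : s.countP p ≤ s.countP q := by
  induction s using Multiset.induction_on with
  | empty => simp
  | cons a s ih =>
    rw [Multiset.countP_cons, Multiset.countP_cons]
    by_cases hp : p a
    · rw [if_pos hp, if_pos (h a hp)]; omega
    · rw [if_neg hp]; omega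

/-- The value at the point `ζ(c,r)` of the polynomial `f`, in terms of its roots. -/
noncomputable def gn (c : K) (r : ℝ) (f : K[X]) : ℝ :=
  ‖f.leadingCoeff‖ * (f.roots.map (fun z => max ‖z - c‖ r)).prod

open Classical in
/-- number of roots in the open ball -/
noncomputable def nO (c : K) (r : ℝ) (f : K[X]) : ℕ :=
  f.roots.countP (fun z => ‖z - c‖ < r)

open Classical in
/-- number of roots in the closed ball -/
noncomputable def nB (c : K) (r : ℝ) (f : K[X]) : ℕ :=
  f.roots.countP (fun z => ‖z - c‖ ≤ r)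

/-- the coefficients of `f` at the centre `c` -/
noncomputable def co (c : K) (i : ℕ) (f : K[X]) : K := (taylor c f).coeff i

lemma co_add (c : K) (i : ℕ) (f g : K[X]) : co c i (f + g) = co c i f + co c i g := by
  simp [co]

lemma co_sub (c : K) (i : ℕ) (f g : K[X]) : co c i (f - g) = co c i f - co c i g := by
  simp [co]

lemma co_C_mul (c : K) (i : ℕ) (a : K) (g : K[X]) : co c i (C a * g) = a * co c i g := by
  simp [co, taylor_mul]

lemma co_X_sub_C_mul_succ (c α : K) (i : ℕ) (f : K[X]) :
    co c (i + 1) ((X - C α) * f) = co c i f - (α - c) * co c (i + 1) f := by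
  have : taylor c ((X - C α) * f) = X * taylor c f - C (α - c) * taylor c f := by
    rw [taylor_mul]; simp [taylor_X, taylor_C]; ring
  simp only [co]
  rw [this, coeff_sub, coeff_X_mul, coeff_C_mul]

lemma co_X_sub_C_mul_zero (c α : K) (f : K[X]) :
    co c 0 ((X - C α) * f) = - (α - c) * co c 0 f := by
  have : taylor c ((X - C α) * f) = X * taylor c f - C (α - c) * taylor c f := by
    rw [taylor_mul]; simp [taylor_X, taylor_C]; ring
  simp only [co]
  rw [this, coeff_sub, coeff_X_mul_zero, coeff_C_mul]; ring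

lemma gn_nonneg (c : K) {r : ℝ} (hr : 0 ≤ r) (f : K[X]) : 0 ≤ gn c r f := by
  unfold gn
  refine mul_nonneg (norm_nonneg _) (Multiset.prod_nonneg ?_)
  intro x hx
  simp only [Multiset.mem_map] at hx
  obtain ⟨z, _, rfl⟩ := hx
  exact le_trans hr (le_max_right _ _)

lemma gn_pos (c : K) {r : ℝ} (hr : 0 < r) {f : K[X]} (hf : f ≠ 0) : 0 < gn c r f := by
  unfold gn
  refine mul_pos (norm_pos_iff.2 (leadingCoeff_ne_zero.2 hf)) (Multiset.prod_pos ?_)
  intro x hx
  simp only [Multiset.mem_map] at hx
  obtain ⟨z, _, rfl⟩ := hx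
  exact lt_of_lt_of_le hr (le_max_right _ _)

@[simp] lemma gn_zero (c : K) (r : ℝ) : gn c r 0 = 0 := by simp [gn]

@[simp] lemma gn_C (c : K) (r : ℝ) (a : K) : gn c r (C a) = ‖a‖ := by simp [gn]

@[simp] lemma gn_one (c : K) (r : ℝ) : gn c r 1 = 1 := by simp [gn]

lemma gn_mul (c : K) (r : ℝ) (f g : K[X]) : gn c r (f * g) = gn c r f * gn c r g := by
  by_cases hf : f = 0
  · simp [hf]
  by_cases hg : g = 0
  · simp [hg]
  unfold gn
  rw [leadingCoeff_mul, roots_mul (mul_ne_zero hf hg), Multiset.map_add, Multiset.prod_add, norm_mul]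
  ring

lemma gn_X_sub_C (c : K) (r : ℝ) (a : K) : gn c r (X - C a) = max ‖a - c‖ r := by
  simp [gn]

lemma gn_pow (c : K) (r : ℝ) (f : K[X]) (n : ℕ) : gn c r (f ^ n) = gn c r f ^ n := by
  induction n with
  | zero => simp
  | succ n ih => rw [pow_succ, gn_mul, ih, pow_succ]

lemma gn_C_mul (c : K) (r : ℝ) (a : K) (g : K[X]) : gn c r (C a * g) = ‖a‖ * gn c r g := by
  rw [gn_mul, gn_C]

lemma gn_neg (c : K) (r : ℝ) (g : K[X]) : gn c r (-g) = gn c r g := by
  have : -g = C (-1) * g := by simp
  rw [this, gn_C_mul]; simp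


section Ultra

variable [IsUltrametricDist K]

lemma norm_sub_le_max' (a b : K) : ‖a - b‖ ≤ max ‖a‖ ‖b‖ := by
  have := IsUltrametricDist.norm_add_le_max a (-b)
  rwa [norm_neg, ← sub_eq_add_neg] at this

lemma norm_sub_eq_left {a b : K} (h : ‖b‖ < ‖a‖) : ‖a - b‖ = ‖a‖ := by
  have := IsUltrametricDist.norm_add_eq_max_of_norm_ne_norm (x := a) (y := -b) (by rw [norm_neg]; exact ne_of_gt h)
  rw [norm_neg, ← sub_eq_add_neg] at this
  rw [this, max_eq_left h.le]

lemma norm_sub_eq_right {a b : K} (h : ‖a‖ < ‖b‖) : ‖a - b‖ = ‖b‖ := by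
  rw [norm_sub_rev]; exact norm_sub_eq_left h

open Classical in
lemma main_prod (c : K) {r : ℝ} (hr : 0 < r) (s : Multiset K) :
    (∀ i, ‖co c i (s.map (fun z => X - C z)).prod‖ * r ^ i ≤ (s.map (fun z => max ‖z - c‖ r)).prod) ∧
    (‖co c (s.countP (fun z => ‖z - c‖ < r)) (s.map (fun z => X - C z)).prod‖ *
      r ^ (s.countP (fun z => ‖z - c‖ < r)) = (s.map (fun z => max ‖z - c‖ r)).prod) ∧
    (∀ i < s.countP (fun z => ‖z - c‖ < r), ‖co c i (s.map (fun z => X - C z)).prod‖ * r ^ i <
      (s.map (fun z => max ‖z - c‖ r)).prod) ∧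
    (‖co c (s.countP (fun z => ‖z - c‖ ≤ r)) (s.map (fun z => X - C z)).prod‖ *
      r ^ (s.countP (fun z => ‖z - c‖ ≤ r)) = (s.map (fun z => max ‖z - c‖ r)).prod) ∧
    (∀ i > s.countP (fun z => ‖z - c‖ ≤ r), ‖co c i (s.map (fun z => X - C z)).prod‖ * r ^ i <
      (s.map (fun z => max ‖z - c‖ r)).prod) := by
  induction s using Multiset.induction_on with
  | empty =>
    simp only [Multiset.map_zero, Multiset.prod_zero, Multiset.countP_zero, pow_zero, mul_one]
    have h0 : co c 0 (1 : K[X]) = 1 := by simp [co]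
    have h1 : ∀ i, i ≠ 0 → co c i (1 : K[X]) = 0 := by
      intro i hi
      simp [co, coeff_one, hi]
    refine ⟨?_, ?_, ?_, ?_, ?_⟩
    · intro i
      by_cases hi : i = 0
      · subst hi; simp [h0]
      · simp [h1 i hi]
    · simp [h0]
    · intro i hi; omega
    · simp [h0]
    · intro i hi
      simp [h1 i (by omega)]
  | cons α s ih =>
    obtain ⟨ih1, ih2, ih3, ih4, ih5⟩ := ih
    set f := (s.map (fun z => X - C z)).prod with hf
    set G := (s.map (fun z => max ‖z - c‖ r)).prod with hG
    have hGpos : 0 < G := by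
      rw [hG]
      refine Multiset.prod_pos ?_
      intro x hx
      simp only [Multiset.mem_map] at hx
      obtain ⟨z, _, rfl⟩ := hx
      exact lt_of_lt_of_le hr (le_max_right _ _)
    simp only [Multiset.map_cons, Multiset.prod_cons, Multiset.countP_cons]
    rw [← hf, ← hG]
    have hup : ∀ i, ‖co c i ((X - C α) * f)‖ * r ^ i ≤ max ‖α - c‖ r * G := by
      intro i
      cases i with
      | zero =>
        rw [co_X_sub_C_mul_zero, norm_mul, norm_neg]
        have := ih1 0
        simp only [pow_zero, mul_one] at this ⊢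
        exact mul_le_mul (le_max_left _ _) this (norm_nonneg _) (le_trans hr.le (le_max_right _ _))
      | succ i =>
        rw [co_X_sub_C_mul_succ]
        have h1 := norm_sub_le_max' (co c i f) ((α - c) * co c (i + 1) f)
        have h2 : ‖co c i f‖ * r ^ (i+1) ≤ max ‖α - c‖ r * G := by
          calc ‖co c i f‖ * r ^ (i+1) = r * (‖co c i f‖ * r ^ i) := by ring
            _ ≤ max ‖α - c‖ r * G := mul_le_mul (le_max_right _ _) (ih1 i) (by positivity)
                (le_trans hr.le (le_max_right _ _))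
        have h3 : ‖(α - c) * co c (i + 1) f‖ * r ^ (i+1) ≤ max ‖α - c‖ r * G := by
          rw [norm_mul]
          calc ‖α - c‖ * ‖co c (i + 1) f‖ * r ^ (i+1) = ‖α - c‖ * (‖co c (i + 1) f‖ * r ^ (i+1)) := by ring
            _ ≤ max ‖α - c‖ r * G := mul_le_mul (le_max_left _ _) (ih1 (i+1)) (by positivity)
                (le_trans hr.le (le_max_right _ _))
        calc ‖co c i f - (α - c) * co c (i + 1) f‖ * r ^ (i+1)
            ≤ max ‖co c i f‖ ‖(α - c) * co c (i + 1) f‖ * r ^ (i+1) := by gcongr
          _ = max (‖co c i f‖ * r ^ (i+1)) (‖(α - c) * co c (i + 1) f‖ * r ^ (i+1)) := by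
              rw [max_mul_of_nonneg _ _ (by positivity)]
          _ ≤ _ := max_le h2 h3
    refine ⟨hup, ?_⟩
    set l := s.countP (fun z => ‖z - c‖ < r) with hl
    set h := s.countP (fun z => ‖z - c‖ ≤ r) with hh
    have key : ∀ i, ‖co c i ((X - C α) * f)‖ * r ^ i = 
        (if i = 0 then ‖α - c‖ * ‖co c 0 f‖ else ‖co c (i-1) f - (α - c) * co c i f‖ * r ^ i) := by
      intro i
      cases i with
      | zero => rw [co_X_sub_C_mul_zero, norm_mul, norm_neg]; simp
      | succ i => simp [co_X_sub_C_mul_succ]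
    rcases lt_trichotomy ‖α - c‖ r with hlt | heq | hgt
    · -- inside
      rw [if_pos hlt, if_pos hlt.le, max_eq_right hlt.le]
      refine ⟨?_, ?_, ?_, ?_⟩
      · rw [co_X_sub_C_mul_succ, norm_sub_eq_left, pow_succ]
        · calc ‖co c l f‖ * (r ^ l * r) = r * (‖co c l f‖ * r ^ l) := by ring
            _ = r * G := by rw [ih2]
        · have hpos : 0 < r ^ (l+1) := by positivity
          refine lt_of_mul_lt_mul_right ?_ hpos.le
          calc ‖(α - c) * co c (l + 1) f‖ * r ^ (l+1) = ‖α - c‖ * (‖co c (l + 1) f‖ * r ^ (l+1)) := by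
                rw [norm_mul]; ring
            _ ≤ ‖α - c‖ * G := by gcongr; exact ih1 _
            _ < r * G := by gcongr
            _ = ‖co c l f‖ * r ^ (l+1) := by rw [← ih2]; ring
      · intro i hi
        rw [key]
        split_ifs with hi0
        · calc ‖α - c‖ * ‖co c 0 f‖ = ‖α - c‖ * (‖co c 0 f‖ * r ^ 0) := by simp
            _ ≤ ‖α - c‖ * G := by gcongr; exact ih1 _
            _ < r * G := by gcongr
        · have h1 := norm_sub_le_max' (co c (i-1) f) ((α - c) * co c i f)
          have h2 : ‖co c (i-1) f‖ * r ^ i < r * G := by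
            calc ‖co c (i-1) f‖ * r ^ i = r * (‖co c (i-1) f‖ * r ^ (i-1)) := by
                  obtain ⟨j, rfl⟩ : ∃ j, i = j + 1 := ⟨i - 1, by omega⟩
                  simp only [Nat.add_sub_cancel]; ring
              _ < r * G := by gcongr; exact ih3 _ (by omega)
          have h3 : ‖(α - c) * co c i f‖ * r ^ i < r * G := by
            rw [norm_mul]
            calc ‖α - c‖ * ‖co c i f‖ * r ^ i = ‖α - c‖ * (‖co c i f‖ * r ^ i) := by ring
              _ ≤ ‖α - c‖ * G := by gcongr; exact ih1 _
              _ < r * G := by gcongr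
          calc ‖co c (i-1) f - (α - c) * co c i f‖ * r ^ i
              ≤ max ‖co c (i-1) f‖ ‖(α - c) * co c i f‖ * r ^ i := by gcongr
            _ = max (‖co c (i-1) f‖ * r ^ i) (‖(α - c) * co c i f‖ * r ^ i) := by
                rw [max_mul_of_nonneg _ _ (by positivity)]
            _ < _ := max_lt h2 h3
      · rw [co_X_sub_C_mul_succ, norm_sub_eq_left, pow_succ]
        · calc ‖co c h f‖ * (r ^ h * r) = r * (‖co c h f‖ * r ^ h) := by ring
            _ = r * G := by rw [ih4]
        · have hpos : 0 < r ^ (h+1) := by positivity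
          refine lt_of_mul_lt_mul_right ?_ hpos.le
          calc ‖(α - c) * co c (h + 1) f‖ * r ^ (h+1) = ‖α - c‖ * (‖co c (h + 1) f‖ * r ^ (h+1)) := by
                rw [norm_mul]; ring
            _ ≤ ‖α - c‖ * G := by gcongr; exact ih1 _
            _ < r * G := by gcongr
            _ = ‖co c h f‖ * r ^ (h+1) := by rw [← ih4]; ring
      · intro i hi
        rw [key, if_neg (by omega)]
        have h1 := norm_sub_le_max' (co c (i-1) f) ((α - c) * co c i f)
        have h2 : ‖co c (i-1) f‖ * r ^ i < r * G := by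
          calc ‖co c (i-1) f‖ * r ^ i = r * (‖co c (i-1) f‖ * r ^ (i-1)) := by
                obtain ⟨j, rfl⟩ : ∃ j, i = j + 1 := ⟨i - 1, by omega⟩
                simp only [Nat.add_sub_cancel]; ring
            _ < r * G := by gcongr; exact ih5 _ (by omega)
        have h3 : ‖(α - c) * co c i f‖ * r ^ i < r * G := by
          rw [norm_mul]
          calc ‖α - c‖ * ‖co c i f‖ * r ^ i = ‖α - c‖ * (‖co c i f‖ * r ^ i) := by ring
            _ ≤ ‖α - c‖ * G := by gcongr; exact ih1 _
            _ < r * G := by gcongr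
        calc ‖co c (i-1) f - (α - c) * co c i f‖ * r ^ i
            ≤ max ‖co c (i-1) f‖ ‖(α - c) * co c i f‖ * r ^ i := by gcongr
          _ = max (‖co c (i-1) f‖ * r ^ i) (‖(α - c) * co c i f‖ * r ^ i) := by
              rw [max_mul_of_nonneg _ _ (by positivity)]
          _ < _ := max_lt h2 h3
    · -- on the circle
      rw [if_neg (by rw [heq]; exact lt_irrefl _), if_pos heq.le, heq, max_self]
      simp only [add_zero]
      refine ⟨?_, ?_, ?_, ?_⟩
      · rw [key]
        split_ifs with hl0
        · rw [heq, ← ih2, hl0]; simp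
        · rw [norm_sub_eq_right]
          · rw [norm_mul, heq, ← ih2]; ring
          · have hpos : 0 < r ^ l := by positivity
            refine lt_of_mul_lt_mul_right ?_ hpos.le
            calc ‖co c (l-1) f‖ * r ^ l = r * (‖co c (l-1) f‖ * r ^ (l-1)) := by
                  obtain ⟨j, hj⟩ : ∃ j, l = j + 1 := ⟨l - 1, by omega⟩
                  rw [hj]
                  simp only [Nat.add_sub_cancel]; ring
              _ < r * G := by gcongr; exact ih3 _ (by omega)
              _ = ‖(α - c) * co c l f‖ * r ^ l := by rw [norm_mul, heq, ← ih2]; ring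
      · intro i hi
        rw [key]
        split_ifs with hi0
        · rw [heq]
          have := ih3 0 (by omega)
          simp only [pow_zero, mul_one] at this
          gcongr
        · have h1 := norm_sub_le_max' (co c (i-1) f) ((α - c) * co c i f)
          have h2 : ‖co c (i-1) f‖ * r ^ i < r * G := by
            calc ‖co c (i-1) f‖ * r ^ i = r * (‖co c (i-1) f‖ * r ^ (i-1)) := by
                  obtain ⟨j, rfl⟩ : ∃ j, i = j + 1 := ⟨i - 1, by omega⟩
                  simp only [Nat.add_sub_cancel]; ring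
              _ < r * G := by gcongr; exact ih3 _ (by omega)
          have h3 : ‖(α - c) * co c i f‖ * r ^ i < r * G := by
            rw [norm_mul, heq]
            calc r * ‖co c i f‖ * r ^ i = r * (‖co c i f‖ * r ^ i) := by ring
              _ < r * G := by gcongr; exact ih3 _ (by omega)
          calc ‖co c (i-1) f - (α - c) * co c i f‖ * r ^ i
              ≤ max ‖co c (i-1) f‖ ‖(α - c) * co c i f‖ * r ^ i := by gcongr
            _ = max (‖co c (i-1) f‖ * r ^ i) (‖(α - c) * co c i f‖ * r ^ i) := by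
                rw [max_mul_of_nonneg _ _ (by positivity)]
            _ < _ := max_lt h2 h3
      · rw [co_X_sub_C_mul_succ, norm_sub_eq_left, pow_succ]
        · calc ‖co c h f‖ * (r ^ h * r) = r * (‖co c h f‖ * r ^ h) := by ring
            _ = r * G := by rw [ih4]
        · have hpos : 0 < r ^ (h+1) := by positivity
          refine lt_of_mul_lt_mul_right ?_ hpos.le
          calc ‖(α - c) * co c (h + 1) f‖ * r ^ (h+1) = r * (‖co c (h + 1) f‖ * r ^ (h+1)) := by
                rw [norm_mul, heq]; ring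
            _ < r * G := by gcongr; exact ih5 _ (by omega)
            _ = ‖co c h f‖ * r ^ (h+1) := by rw [← ih4]; ring
      · intro i hi
        rw [key, if_neg (by omega)]
        have h1 := norm_sub_le_max' (co c (i-1) f) ((α - c) * co c i f)
        have h2 : ‖co c (i-1) f‖ * r ^ i < r * G := by
          calc ‖co c (i-1) f‖ * r ^ i = r * (‖co c (i-1) f‖ * r ^ (i-1)) := by
                obtain ⟨j, rfl⟩ : ∃ j, i = j + 1 := ⟨i - 1, by omega⟩
                simp only [Nat.add_sub_cancel]; ring
            _ < r * G := by gcongr; exact ih5 _ (by omega)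
        have h3 : ‖(α - c) * co c i f‖ * r ^ i < r * G := by
          rw [norm_mul, heq]
          calc r * ‖co c i f‖ * r ^ i = r * (‖co c i f‖ * r ^ i) := by ring
            _ < r * G := by gcongr; exact ih5 _ (by omega)
        calc ‖co c (i-1) f - (α - c) * co c i f‖ * r ^ i
            ≤ max ‖co c (i-1) f‖ ‖(α - c) * co c i f‖ * r ^ i := by gcongr
          _ = max (‖co c (i-1) f‖ * r ^ i) (‖(α - c) * co c i f‖ * r ^ i) := by
              rw [max_mul_of_nonneg _ _ (by positivity)]
          _ < _ := max_lt h2 h3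
    · -- outside
      have hα : 0 < ‖α - c‖ := lt_trans hr hgt
      rw [if_neg (not_lt.2 hgt.le), if_neg (not_le.2 hgt), max_eq_left hgt.le]
      simp only [add_zero]
      have hat : ∀ k, ‖co c k f‖ * r ^ k = G → ‖co c k ((X - C α) * f)‖ * r ^ k = ‖α - c‖ * G := by
        intro k hk
        rw [key]
        split_ifs with hl0
        · rw [← hk, hl0]; simp
        · rw [norm_sub_eq_right]
          · rw [norm_mul, ← hk]; ring
          · have hpos : 0 < r ^ k := by positivity
            refine lt_of_mul_lt_mul_right ?_ hpos.le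
            calc ‖co c (k-1) f‖ * r ^ k = r * (‖co c (k-1) f‖ * r ^ (k-1)) := by
                  obtain ⟨j, hj⟩ : ∃ j, k = j + 1 := ⟨k - 1, by omega⟩
                  rw [hj]
                  simp only [Nat.add_sub_cancel]; ring
              _ ≤ r * G := by gcongr; exact ih1 _
              _ < ‖α - c‖ * G := by gcongr
              _ = ‖(α - c) * co c k f‖ * r ^ k := by rw [norm_mul, ← hk]; ring
      have hno : ∀ k, ‖co c k f‖ * r ^ k < G → ‖co c k ((X - C α) * f)‖ * r ^ k < ‖α - c‖ * G := by
        intro i hi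
        rw [key]
        split_ifs with hi0
        · subst hi0
          simp only [pow_zero, mul_one] at hi
          gcongr
        · have h1 := norm_sub_le_max' (co c (i-1) f) ((α - c) * co c i f)
          have h2 : ‖co c (i-1) f‖ * r ^ i < ‖α - c‖ * G := by
            calc ‖co c (i-1) f‖ * r ^ i = r * (‖co c (i-1) f‖ * r ^ (i-1)) := by
                  obtain ⟨j, rfl⟩ : ∃ j, i = j + 1 := ⟨i - 1, by omega⟩
                  simp only [Nat.add_sub_cancel]; ring
              _ ≤ r * G := by gcongr; exact ih1 _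
              _ < ‖α - c‖ * G := by gcongr
          have h3 : ‖(α - c) * co c i f‖ * r ^ i < ‖α - c‖ * G := by
            rw [norm_mul]
            calc ‖α - c‖ * ‖co c i f‖ * r ^ i = ‖α - c‖ * (‖co c i f‖ * r ^ i) := by ring
              _ < ‖α - c‖ * G := by gcongr
          calc ‖co c (i-1) f - (α - c) * co c i f‖ * r ^ i
              ≤ max ‖co c (i-1) f‖ ‖(α - c) * co c i f‖ * r ^ i := by gcongr
            _ = max (‖co c (i-1) f‖ * r ^ i) (‖(α - c) * co c i f‖ * r ^ i) := by
                rw [max_mul_of_nonneg _ _ (by positivity)]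
            _ < _ := max_lt h2 h3
      exact ⟨hat _ ih2, fun i hi => hno i (ih3 i hi), hat _ ih4, fun i hi => hno i (ih5 i hi)⟩

variable [IsAlgClosed K]

lemma eq_prod (f : K[X]) : f = C f.leadingCoeff * (f.roots.map (fun z => X - C z)).prod := by
  have := C_leadingCoeff_mul_prod_multiset_X_sub_C (p := f)
    (IsAlgClosed.card_roots_eq_natDegree)
  exact this.symm

lemma le_gn (c : K) {r : ℝ} (hr : 0 < r) (i : ℕ) (f : K[X]) : ‖co c i f‖ * r ^ i ≤ gn c r f := by
  classical
  have h := (main_prod c hr f.roots).1 i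
  conv_lhs => rw [eq_prod f, co_C_mul, norm_mul]
  unfold gn
  rw [mul_assoc]
  gcongr

lemma gn_nO (c : K) {r : ℝ} (hr : 0 < r) (f : K[X]) : ‖co c (nO c r f) f‖ * r ^ (nO c r f) = gn c r f := by
  classical
  have h := (main_prod c hr f.roots).2.1
  have e : co c (nO c r f) f = f.leadingCoeff * co c (nO c r f) (f.roots.map (fun z => X - C z)).prod := by
    conv_lhs => rw [eq_prod f]
    rw [co_C_mul, ← eq_prod f]
  rw [e, norm_mul]
  unfold gn nO at *
  rw [mul_assoc]
  congr 1

lemma gn_nB (c : K) {r : ℝ} (hr : 0 < r) (f : K[X]) : ‖co c (nB c r f) f‖ * r ^ (nB c r f) = gn c r f := by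
  classical
  have h := (main_prod c hr f.roots).2.2.2.1
  have e : co c (nB c r f) f = f.leadingCoeff * co c (nB c r f) (f.roots.map (fun z => X - C z)).prod := by
    conv_lhs => rw [eq_prod f]
    rw [co_C_mul, ← eq_prod f]
  rw [e, norm_mul]
  unfold gn nB at *
  rw [mul_assoc]
  congr 1

lemma lt_nO (c : K) {r : ℝ} (hr : 0 < r) {f : K[X]} (hf : f ≠ 0) {i : ℕ} (hi : i < nO c r f) :
    ‖co c i f‖ * r ^ i < gn c r f := by
  classical
  have h := (main_prod c hr f.roots).2.2.1 i (by unfold nO at hi; convert hi)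
  have e : co c i f = f.leadingCoeff * co c i (f.roots.map (fun z => X - C z)).prod := by
    conv_lhs => rw [eq_prod f]
    rw [co_C_mul]
  rw [e, norm_mul]
  unfold gn
  rw [mul_assoc]
  have : 0 < ‖f.leadingCoeff‖ := norm_pos_iff.2 (leadingCoeff_ne_zero.2 hf)
  gcongr

lemma gt_nB (c : K) {r : ℝ} (hr : 0 < r) {f : K[X]} (hf : f ≠ 0) {i : ℕ} (hi : nB c r f < i) :
    ‖co c i f‖ * r ^ i < gn c r f := by
  classical
  have h := (main_prod c hr f.roots).2.2.2.2 i (by unfold nB at hi; convert hi)
  have e : co c i f = f.leadingCoeff * co c i (f.roots.map (fun z => X - C z)).prod := by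
    conv_lhs => rw [eq_prod f]
    rw [co_C_mul]
  rw [e, norm_mul]
  unfold gn
  rw [mul_assoc]
  have : 0 < ‖f.leadingCoeff‖ := norm_pos_iff.2 (leadingCoeff_ne_zero.2 hf)
  gcongr

lemma gn_add_le (c : K) {r : ℝ} (hr : 0 < r) (f g : K[X]) :
    gn c r (f + g) ≤ max (gn c r f) (gn c r g) := by
  rw [← gn_nO c hr (f + g), co_add]
  have h := IsUltrametricDist.norm_add_le_max (co c (nO c r (f + g)) f) (co c (nO c r (f + g)) g)
  calc ‖co c (nO c r (f + g)) f + co c (nO c r (f + g)) g‖ * r ^ nO c r (f + g)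
      ≤ max ‖co c (nO c r (f + g)) f‖ ‖co c (nO c r (f + g)) g‖ * r ^ nO c r (f + g) := by gcongr
    _ = max (‖co c (nO c r (f + g)) f‖ * r ^ nO c r (f + g))
          (‖co c (nO c r (f + g)) g‖ * r ^ nO c r (f + g)) := by
        rw [max_mul_of_nonneg _ _ (by positivity)]
    _ ≤ _ := max_le_max (le_gn c hr _ _) (le_gn c hr _ _)

lemma gn_sub_le (c : K) {r : ℝ} (hr : 0 < r) (f g : K[X]) :
    gn c r (f - g) ≤ max (gn c r f) (gn c r g) := by
  rw [sub_eq_add_neg, ← gn_neg c r g]
  exact gn_add_le c hr f (-g)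

lemma gn_add_eq_left (c : K) {r : ℝ} (hr : 0 < r) {f g : K[X]} (h : gn c r g < gn c r f) :
    gn c r (f + g) = gn c r f := by
  apply le_antisymm
  · exact (gn_add_le c hr f g).trans (max_le le_rfl h.le)
  · by_contra hcon
    push Not at hcon
    have := gn_sub_le c hr (f + g) g
    rw [add_sub_cancel_right] at this
    exact absurd this (not_le.2 (max_lt hcon h))

lemma gn_sub_eq_left (c : K) {r : ℝ} (hr : 0 < r) {f g : K[X]} (h : gn c r g < gn c r f) :
    gn c r (f - g) = gn c r f := by
  rw [sub_eq_add_neg]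
  exact gn_add_eq_left c hr (by rwa [gn_neg])

/-- characterisation of the number of roots in the open ball -/
lemma nO_eq (c : K) {r : ℝ} (hr : 0 < r) {f : K[X]} (hf : f ≠ 0) {l : ℕ}
    (h1 : ‖co c l f‖ * r ^ l = gn c r f) (h2 : ∀ i < l, ‖co c i f‖ * r ^ i < gn c r f) :
    nO c r f = l := by
  rcases lt_trichotomy (nO c r f) l with h | h | h
  · exact absurd (gn_nO c hr f) (ne_of_lt (h2 _ h))
  · exact h
  · exact absurd h1 (ne_of_lt (lt_nO c hr hf h))

lemma nB_eq (c : K) {r : ℝ} (hr : 0 < r) {f : K[X]} (hf : f ≠ 0) {l : ℕ}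
    (h1 : ‖co c l f‖ * r ^ l = gn c r f) (h2 : ∀ i, l < i → ‖co c i f‖ * r ^ i < gn c r f) :
    nB c r f = l := by
  rcases lt_trichotomy (nB c r f) l with h | h | h
  · exact absurd h1 (ne_of_lt (gt_nB c hr hf h))
  · exact h
  · exact absurd (gn_nB c hr f) (ne_of_lt (h2 _ h))

/-- Rouche -/
lemma nO_congr (c : K) {r : ℝ} (hr : 0 < r) {f g : K[X]} (h : gn c r (f - g) < gn c r f) :
    nO c r g = nO c r f := by
  have hg : gn c r g = gn c r f := by
    have : g = f - (f - g) := by ring
    rw [this, gn_sub_eq_left c hr h]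
  have hgpos : 0 < gn c r g := by rw [hg]; exact lt_of_le_of_lt (gn_nonneg c hr.le _) h
  have hg0 : g ≠ 0 := by rintro rfl; simp at hgpos
  have hf0 : f ≠ 0 := by rintro rfl; rw [hg] at hgpos; simp at hgpos
  have hco : ∀ i, ‖co c i (f - g)‖ * r ^ i < gn c r f := fun i => lt_of_le_of_lt (le_gn c hr i _) h
  apply nO_eq c hr hg0
  · rw [hg, ← gn_nO c hr f]
    have h1 := hco (nO c r f)
    have h2 := gn_nO c hr f
    rw [co_sub] at h1
    have h3 : ‖co c (nO c r f) f - co c (nO c r f) g‖ < ‖co c (nO c r f) f‖ := by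
      refine lt_of_mul_lt_mul_right ?_ (pow_nonneg hr.le (nO c r f))
      rw [h2]; exact h1
    have h4 := norm_sub_eq_left h3
    rw [sub_sub_cancel] at h4
    rw [h4]
  · intro i hi
    have h1 := hco i
    rw [co_sub] at h1
    have h2 := lt_nO c hr hf0 hi
    have h3 : co c i g = co c i f - (co c i f - co c i g) := by ring
    rw [hg, h3]
    calc ‖co c i f - (co c i f - co c i g)‖ * r ^ i ≤ max ‖co c i f‖ ‖co c i f - co c i g‖ * r ^ i := by
          gcongr; exact norm_sub_le_max' _ _
      _ = max (‖co c i f‖ * r ^ i) (‖co c i f - co c i g‖ * r ^ i) := by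
          rw [max_mul_of_nonneg _ _ (by positivity)]
      _ < _ := max_lt h2 h1

lemma nB_congr (c : K) {r : ℝ} (hr : 0 < r) {f g : K[X]} (h : gn c r (f - g) < gn c r f) :
    nB c r g = nB c r f := by
  have hg : gn c r g = gn c r f := by
    have : g = f - (f - g) := by ring
    rw [this, gn_sub_eq_left c hr h]
  have hgpos : 0 < gn c r g := by rw [hg]; exact lt_of_le_of_lt (gn_nonneg c hr.le _) h
  have hg0 : g ≠ 0 := by rintro rfl; simp at hgpos
  have hf0 : f ≠ 0 := by rintro rfl; rw [hg] at hgpos; simp at hgpos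
  have hco : ∀ i, ‖co c i (f - g)‖ * r ^ i < gn c r f := fun i => lt_of_le_of_lt (le_gn c hr i _) h
  apply nB_eq c hr hg0
  · rw [hg, ← gn_nB c hr f]
    have h1 := hco (nB c r f)
    have h2 := gn_nB c hr f
    rw [co_sub] at h1
    have h3 : ‖co c (nB c r f) f - co c (nB c r f) g‖ < ‖co c (nB c r f) f‖ := by
      refine lt_of_mul_lt_mul_right ?_ (pow_nonneg hr.le (nB c r f))
      rw [h2]; exact h1
    have h4 := norm_sub_eq_left h3
    rw [sub_sub_cancel] at h4
    rw [h4]
  · intro i hi
    have h1 := hco i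
    rw [co_sub] at h1
    have h2 := gt_nB c hr hf0 hi
    have h3 : co c i g = co c i f - (co c i f - co c i g) := by ring
    rw [hg, h3]
    calc ‖co c i f - (co c i f - co c i g)‖ * r ^ i ≤ max ‖co c i f‖ ‖co c i f - co c i g‖ * r ^ i := by
          gcongr; exact norm_sub_le_max' _ _
      _ = max (‖co c i f‖ * r ^ i) (‖co c i f - co c i g‖ * r ^ i) := by
          rw [max_mul_of_nonneg _ _ (by positivity)]
      _ < _ := max_lt h2 h1

/-- change of centre -/
lemma gn_center {c c' : K} {r : ℝ} (h : ‖c - c'‖ ≤ r) (f : K[X]) : gn c r f = gn c' r f := by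
  unfold gn
  congr 2
  apply Multiset.map_congr rfl
  intro z _
  have h1 : ‖z - c‖ ≤ max ‖z - c'‖ r := by
    have : z - c = (z - c') - (c - c') := by ring
    rw [this]; exact (norm_sub_le_max' _ _).trans (max_le_max le_rfl h)
  have h2 : ‖z - c'‖ ≤ max ‖z - c‖ r := by
    have : z - c' = (z - c) - (c' - c) := by ring
    rw [this, norm_sub_rev] 
    rw [norm_sub_rev] at h
    rw [norm_sub_rev]
    exact (norm_sub_le_max' _ _).trans (max_le_max le_rfl h)
  exact le_antisymm (max_le h1 (le_max_right _ _)) (max_le h2 (le_max_right _ _))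

lemma nB_center {c c' : K} {r : ℝ} (h : ‖c - c'‖ ≤ r) (f : K[X]) : nB c r f = nB c' r f := by
  classical
  unfold nB
  apply Multiset.countP_congr rfl
  intro z _
  apply propext
  constructor
  · intro hz
    have : z - c' = (z - c) + (c - c') := by ring
    rw [this]; exact (IsUltrametricDist.norm_add_le_max _ _).trans (max_le hz h)
  · intro hz
    have : z - c = (z - c') - (c - c') := by ring
    rw [this]; exact (norm_sub_le_max' _ _).trans (max_le hz h)

lemma nO_center {c c' : K} {r : ℝ} (h : ‖c - c'‖ < r) (f : K[X]) : nO c r f = nO c' r f := by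
  classical
  unfold nO
  apply Multiset.countP_congr rfl
  intro z _
  apply propext
  constructor
  · intro hz
    have : z - c' = (z - c) + (c - c') := by ring
    rw [this]; exact lt_of_le_of_lt (IsUltrametricDist.norm_add_le_max _ _) (max_lt hz h)
  · intro hz
    have : z - c = (z - c') - (c - c') := by ring
    rw [this]; exact lt_of_le_of_lt (norm_sub_le_max' _ _) (max_lt hz h)

lemma nO_le_nB (c : K) (r : ℝ) (f : K[X]) : nO c r f ≤ nB c r f := by
  classical
  unfold nO nB
  exact countP_mono' _ _ _ (fun z h => le_of_lt h)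

lemma nB_le_natDegree (c : K) (r : ℝ) (f : K[X]) : nB c r f ≤ f.natDegree := by
  classical
  unfold nB
  exact (Multiset.countP_le_card _ _).trans (card_roots' f)

end Ultra

end BerkFix
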