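import Mathlib

set_option linter.unusedSectionVars false
set_option linter.unusedVariables false

open MeasureTheory Filter Topology

namespace BerkFix

/-- a consequence of the mean ergodic theorem: some Birkhoff average is close to the space average -/
theorem mean_ergodic_meas {α : Type*} [MeasurableSpace α] {μ : Measure α} [IsProbabilityMeasure μ] {f : α → α}
    (hf : Ergodic f μ) {g : α → ℝ} (hg : MemLp g 2 μ) {ε : ℝ} (hε : 0 < ε) :
    ∃ k : ℕ, 1 ≤ k ∧ μ.real {x | (∑ i ∈ Finset.range k, g (f^[i] x)) / k ≤ (∫ x, g x ∂μ) - ε} ≤ ε := by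
  have hmp := hf.toMeasurePreserving
  set T : Lp ℝ 2 μ →L[ℝ] Lp ℝ 2 μ := (Lp.compMeasurePreservingₗᵢ ℝ f hmp).toContinuousLinearMap with hT
  have hTn : ‖T‖ ≤ 1 := LinearIsometry.norm_toContinuousLinearMap_le _
  set x : Lp ℝ 2 μ := hg.toLp g with hx
  have hlim := T.tendsto_birkhoffAverage_orthogonalProjection hTn x
  set y : Lp ℝ 2 μ := ((T.eqLocus (1 : Lp ℝ 2 μ →L[ℝ] Lp ℝ 2 μ)).orthogonalProjectionOnto x : Lp ℝ 2 μ) with hy
  have hTy : T y = y := by
    have := ((T.eqLocus (1 : Lp ℝ 2 μ →L[ℝ] Lp ℝ 2 μ)).orthogonalProjectionOnto x).2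
    exact this
  -- y is constant
  have hyc : ∃ c : ℝ, (y : α → ℝ) =ᵐ[μ] Function.const α c := by
    apply hf.ae_eq_const_of_ae_eq_comp_ae (Lp.aestronglyMeasurable y)
    have h1 : (T y : α → ℝ) =ᵐ[μ] (y : α → ℝ) ∘ f := Lp.coeFn_compMeasurePreserving y hmp
    rw [hTy] at h1
    exact h1.symm
  obtain ⟨c, hc⟩ := hyc
  -- iterates
  have hiter : ∀ i : ℕ, T^[i] x = ((hg.comp_measurePreserving (hmp.iterate i)).toLp (g ∘ f^[i]) : Lp ℝ 2 μ) := by
    intro i
    induction i with
    | zero => rfl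
    | succ i ih =>
      rw [Function.iterate_succ_apply', ih]
      exact Lp.toLp_compMeasurePreserving (hg.comp_measurePreserving (hmp.iterate i)) hmp
  -- the averages as functions
  have havg : ∀ k : ℕ, ((birkhoffAverage ℝ T _root_.id k x : Lp ℝ 2 μ) : α → ℝ) =ᵐ[μ] fun z => (∑ i ∈ Finset.range k, g (f^[i] z)) / k := by
    intro k
    have h1 : birkhoffAverage ℝ T _root_.id k x = (k : ℝ)⁻¹ • ∑ i ∈ Finset.range k,
        ((hg.comp_measurePreserving (hmp.iterate i)).toLp (g ∘ f^[i]) : Lp ℝ 2 μ) := by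
      unfold birkhoffAverage birkhoffSum
      congr 1
      apply Finset.sum_congr rfl
      intro i _
      exact hiter i
    rw [h1]
    have h2 := Lp.coeFn_smul (k : ℝ)⁻¹ (∑ i ∈ Finset.range k,
        ((hg.comp_measurePreserving (hmp.iterate i)).toLp (g ∘ f^[i]) : Lp ℝ 2 μ))
    have h3 : ∀ S : Finset ℕ, ((∑ i ∈ S, ((hg.comp_measurePreserving (hmp.iterate i)).toLp (g ∘ f^[i]) : Lp ℝ 2 μ) : Lp ℝ 2 μ) : α → ℝ)
        =ᵐ[μ] fun z => ∑ i ∈ S, g (f^[i] z) := by
      classical
      intro S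
      induction S using Finset.induction_on with
      | empty =>
        simp only [Finset.sum_empty]
        exact Lp.coeFn_zero _ _ _
      | insert a S ha ih =>
        rw [Finset.sum_insert ha]
        have h4 := Lp.coeFn_add ((hg.comp_measurePreserving (hmp.iterate a)).toLp (g ∘ f^[a]) : Lp ℝ 2 μ)
          (∑ i ∈ S, ((hg.comp_measurePreserving (hmp.iterate i)).toLp (g ∘ f^[i]) : Lp ℝ 2 μ))
        have h5 := (hg.comp_measurePreserving (hmp.iterate a)).coeFn_toLp
        filter_upwards [h4, h5, ih] with z hz1 hz2 hz3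
        rw [hz1, Pi.add_apply, hz2, hz3, Finset.sum_insert ha]
        rfl
    filter_upwards [h2, h3 (Finset.range k)] with z hz1 hz2
    rw [hz1, Pi.smul_apply, hz2, smul_eq_mul, div_eq_inv_mul]
  -- the constant is the integral
  have hcint : c = ∫ z, g z ∂μ := by
    have huniv : μ Set.univ ≠ ⊤ := measure_ne_top _ _
    have h1 : Tendsto (fun k => inner ℝ (indicatorConstLp 2 MeasurableSet.univ huniv (1 : ℝ) : Lp ℝ 2 μ)
        (birkhoffAverage ℝ T _root_.id k x)) atTop (𝓝 (inner ℝ (indicatorConstLp 2 MeasurableSet.univ huniv (1 : ℝ) : Lp ℝ 2 μ) y)) :=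
      Tendsto.inner tendsto_const_nhds hlim
    have h2 : ∀ w : Lp ℝ 2 μ, inner ℝ (indicatorConstLp 2 MeasurableSet.univ huniv (1 : ℝ) : Lp ℝ 2 μ) w = ∫ z, w z ∂μ := by
      intro w
      rw [L2.inner_indicatorConstLp_one, Measure.restrict_univ]
    simp_rw [h2] at h1
    have h3 : ∫ z, y z ∂μ = c := by
      rw [integral_congr_ae hc]; simp
    rw [h3] at h1
    have h4 : ∀ k : ℕ, 1 ≤ k → ∫ z, (birkhoffAverage ℝ T _root_.id k x : Lp ℝ 2 μ) z ∂μ = ∫ z, g z ∂μ := by
      intro k hk
      rw [integral_congr_ae (havg k), integral_div, integral_finsetSum]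
      · have h5 : ∀ i ∈ Finset.range k, ∫ z, g (f^[i] z) ∂μ = ∫ z, g z ∂μ := by
          intro i _
          have h6 := integral_map (hmp.iterate i).measurable.aemeasurable (f := g) (by
            rw [(hmp.iterate i).map_eq]; exact hg.aestronglyMeasurable)
          rw [(hmp.iterate i).map_eq] at h6
          exact h6.symm
        rw [Finset.sum_congr rfl h5, Finset.sum_const, Finset.card_range, nsmul_eq_mul]
        have : (k : ℝ) ≠ 0 := by positivity
        field_simp
      · intro i _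
        exact (hg.comp_measurePreserving (hmp.iterate i)).integrable (by norm_num)
    have h5 : Tendsto (fun k => ∫ z, (birkhoffAverage ℝ T _root_.id k x : Lp ℝ 2 μ) z ∂μ) atTop (𝓝 (∫ z, g z ∂μ)) := by
      apply tendsto_const_nhds.congr'
      filter_upwards [eventually_ge_atTop 1] with k hk
      exact (h4 k hk).symm
    exact tendsto_nhds_unique h1 h5
  -- convergence in measure
  have hmeas := tendstoInMeasure_of_tendsto_Lp hlim (ENNReal.ofReal ε) (by simpa using hε)
  have hev := (hmeas.eventually (gt_mem_nhds (by simpa using hε : (0 : ENNReal) < ENNReal.ofReal ε))).and (eventually_ge_atTop 1)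
  obtain ⟨k, hk1, hk2⟩ := hev.exists
  refine ⟨k, hk2, ?_⟩
  rw [measureReal_def]
  apply ENNReal.toReal_le_of_le_ofReal hε.le
  refine le_trans (measure_mono_ae ?_) hk1.le
  filter_upwards [havg k, hc] with z hz1 hz2 hz3
  have hz3' : (∑ i ∈ Finset.range k, g (f^[i] z)) / k ≤ (∫ x, g x ∂μ) - ε := hz3
  change ENNReal.ofReal ε ≤ edist ((birkhoffAverage ℝ T _root_.id k x : Lp ℝ 2 μ) z) (y z)
  rw [hz1, hz2, edist_dist, Real.dist_eq]
  apply ENNReal.ofReal_le_ofReal
  rw [Function.const_apply, hcint, abs_sub_comm]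
  refine le_trans ?_ (le_abs_self _)
  linarith

end BerkFix
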