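import Pool.Agent.Lib.MP_edb0ca_an.Erg
import Pool.Agent.Lib.MP_edb0ca_an.MeanErg

set_option linter.unusedSectionVars false
set_option linter.unusedVariables false

open Polynomial OnePoint Topology Filter MeasureTheory

namespace BerkFix

variable {K : Type*} [NormedField K] [IsUltrametricDist K] [IsAlgClosed K]

variable {R : RMap K} {ρ : Measure (P1 K)}

/-- the hyperbolic space -/
def HypSet (K : Type*) [NormedField K] [IsUltrametricDist K] [IsAlgClosed K] : Set (P1 K) := {x | Hyp x}

lemma mem_HypSet {x : P1 K} : x ∈ HypSet K ↔ Hyp x := Iff.rfl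

lemma measurableSet_HypSet [CompleteSpace K] : MeasurableSet (HypSet K) := by
  have h : HypSet K = ⋃ k : ℕ, ({∞} ∪ ⋃ c : K, BO c (1 / ((k : ℝ) + 1)))ᶜ := by
    ext x
    rw [mem_HypSet, Set.mem_iUnion]
    constructor
    · intro hx
      obtain ⟨y, rfl⟩ := exists_coe_of_hyp hx
      obtain ⟨δ, hδ, h⟩ := (hyp_iff_diam y).1 hx
      obtain ⟨k, hk⟩ := exists_nat_one_div_lt hδ
      refine ⟨k, ?_⟩
      rw [Set.mem_compl_iff, Set.mem_union, Set.mem_iUnion]
      rintro (h1 | ⟨c, h1⟩)
      · exact OnePoint.coe_ne_infty y h1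
      · rw [mem_BO_coe] at h1
        have := h c
        linarith
    · rintro ⟨k, hk⟩
      rw [Set.mem_compl_iff, Set.mem_union, Set.mem_iUnion] at hk
      push Not at hk
      obtain ⟨h1, h2⟩ := hk
      induction x using OnePoint.rec with
      | infty => exact absurd rfl h1
      | coe y =>
        rw [hyp_iff_diam]
        refine ⟨1 / ((k : ℝ) + 1), by positivity, fun c => ?_⟩
        have := h2 c
        rw [mem_BO_coe, not_lt] at this
        exact this
  rw [h]
  apply MeasurableSet.iUnion
  intro k
  apply MeasurableSet.compl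
  exact (isClosed_singleton.measurableSet).union ((isOpen_iUnion (fun c => isOpen_BO c _)).measurableSet)

lemma HypSet_invariant (hR : 1 ≤ R.deg) : R.map ⁻¹' (HypSet K) = HypSet K := by
  ext x
  rw [Set.mem_preimage, mem_HypSet, mem_HypSet, hyp_map_iff R hR]

lemma integrable_of_lyap_pos (h : 0 < lyap R ρ) : Integrable (fun x => Real.log (R.sph x)) ρ := by
  by_contra hcon
  unfold lyap at h
  rw [integral_undef hcon] at h
  exact lt_irrefl _ h

lemma wr_ne_zero_of_lyap_pos (h : 0 < lyap R ρ) : R.wr ≠ 0 := by
  intro h0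
  have h1 : ∀ x, R.sph x = 0 := by
    intro x
    induction x using OnePoint.rec with
    | infty =>
      change ‖R.wr.coeff (2 * R.deg - 2)‖ / max ‖R.P.coeff R.deg‖ ‖R.Q.coeff R.deg‖ ^ 2 = 0
      rw [h0]; simp
    | coe y => rw [sph_coe, h0, y.map_zero]; simp
  unfold lyap at h
  simp_rw [h1] at h
  simp at h

/-- if the Lyapunov exponent is positive then hyperbolic space is a null set -/
theorem hyp_null [CompleteSpace K] (hR : 2 ≤ R.deg) (h : IsEquilibrium R ρ) (hχ : 0 < lyap R ρ) : ρ (HypSet K) = 0 := by
  have := h.prob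
  have herg := ergodic_map hR h
  have hmp := herg.toMeasurePreserving
  rcases herg.toPreErgodic.measure_self_or_compl_eq_zero measurableSet_HypSet (HypSet_invariant (by omega)) with h1 | h1
  · exact h1
  exfalso
  have hint := integrable_of_lyap_pos hχ
  have hw := wr_ne_zero_of_lyap_pos hχ
  have hae : ∀ᵐ x ∂ρ, Hyp x := mem_ae_iff.2 h1
  obtain ⟨S, hS1, hS⟩ := exists_sph_bound R (by omega)
  set g : P1 K → ℝ := fun x => Real.log (R.sph x) with hg
  set f : ℕ → P1 K → ℝ := fun n x => (∑ i ∈ Finset.range n, g (R.map^[i] x)) / n with hf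
  have hgS : ∀ x, g x ≤ Real.log S := by
    intro x
    rcases (sph_nonneg R x).lt_or_eq with h2 | h2
    · exact Real.log_le_log h2 (hS x)
    · simp only [hg]
      rw [← h2, Real.log_zero]
      exact Real.log_nonneg hS1
  have hgi : ∀ i : ℕ, Integrable (fun x => g (R.map^[i] x)) ρ := fun i => (hmp.iterate i).integrable_comp_of_integrable hint
  have hfi : ∀ n, Integrable (f n) ρ := fun n => (integrable_finsetSum _ (fun i _ => hgi i)).div_const _
  have hfint : ∀ n : ℕ, 1 ≤ n → ∫ x, f n x ∂ρ = lyap R ρ := by
    intro n hn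
    simp only [hf]
    rw [integral_div, integral_finsetSum _ (fun i _ => hgi i)]
    have h5 : ∀ i ∈ Finset.range n, ∫ z, g (R.map^[i] z) ∂ρ = ∫ z, g z ∂ρ := by
      intro i _
      have h6 := integral_map (hmp.iterate i).measurable.aemeasurable (f := g) (by
        rw [(hmp.iterate i).map_eq]; exact hint.aestronglyMeasurable)
      rw [(hmp.iterate i).map_eq] at h6
      exact h6.symm
    rw [Finset.sum_congr rfl h5, Finset.sum_const, Finset.card_range, nsmul_eq_mul]
    have : (n : ℝ) ≠ 0 := by positivity
    unfold lyap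
    field_simp
    rfl
  have hlogS : 0 ≤ Real.log S := Real.log_nonneg hS1
  have hfS : ∀ (n : ℕ) x, f n x ≤ Real.log S := by
    intro n x
    simp only [hf]
    by_cases hn : n = 0
    · subst hn; simpa using hlogS
    · rw [div_le_iff₀ (by positivity)]
      calc ∑ i ∈ Finset.range n, g (R.map^[i] x) ≤ ∑ i ∈ Finset.range n, Real.log S := Finset.sum_le_sum (fun i _ => hgS _)
        _ = Real.log S * n := by rw [Finset.sum_const, Finset.card_range, nsmul_eq_mul, mul_comm]
  -- positive parts
  have hlim : Tendsto (fun n => ∫ x, max (f n x) 0 ∂ρ) atTop (𝓝 (∫ x, (0 : ℝ) ∂ρ)) := by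
    apply tendsto_integral_of_dominated_convergence (fun _ => Real.log S)
    · intro n
      exact ((hfi n).sup (integrable_const 0)).aestronglyMeasurable
    · exact integrable_const _
    · intro n
      apply ae_of_all
      intro x
      rw [Real.norm_eq_abs, abs_of_nonneg (le_max_right _ _)]
      exact max_le (hfS n x) hlogS
    · filter_upwards [hae] with x hx
      obtain ⟨y, rfl⟩ := exists_coe_of_hyp hx
      obtain ⟨δ, hδ, hδ2⟩ := (hyp_iff_diam y).1 hx
      set M := max 1 (y X) ^ 2 / δ with hM
      have hMy := Mx_pos y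
      have hM0 : 0 < M := by positivity
      have h3 : Tendsto (fun n : ℕ => |Real.log M| / n) atTop (𝓝 0) :=
        tendsto_natCast_atTop_atTop.const_div_atTop _
      refine squeeze_zero (fun n => le_max_right _ _) ?_ h3
      intro n
      apply max_le _ (by positivity)
      simp only [hf]
      gcongr
      have h4 := sph_iter R (by omega) n hx
      have h5 := sph_le_of_diam (iter R n) y hδ hδ2
      have h6 : ∑ i ∈ Finset.range n, g (R.map^[i] (y : P1 K)) = Real.log ((iter R n).sph (y : P1 K)) := by
        rw [h4, Real.log_prod]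
        intro i _
        exact (sph_pos R hw ((hyp_iterate R (by omega) i _).2 hx)).ne'
      rw [h6]
      have h7 : 0 < (iter R n).sph (y : P1 K) := by
        rw [h4]
        apply Finset.prod_pos
        intro i _
        exact sph_pos R hw ((hyp_iterate R (by omega) i _).2 hx)
      exact (Real.log_le_log h7 h5).trans (le_abs_self _)
  rw [integral_zero] at hlim
  have hle : ∀ᶠ n in atTop, lyap R ρ ≤ ∫ x, max (f n x) 0 ∂ρ := by
    filter_upwards [eventually_ge_atTop 1] with n hn
    rw [← hfint n hn]
    exact integral_mono (hfi n) ((hfi n).sup (integrable_const 0)) (fun x => le_max_left _ _)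
  have := ge_of_tendsto hlim hle
  linarith

end BerkFix
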