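import Pool.Agent.Lib.MP_edb0ca_an.Maps

set_option linter.unusedSectionVars false
set_option linter.unusedVariables false

open Polynomial OnePoint Topology Filter

namespace BerkFix

variable {K : Type*} [NormedField K] [IsUltrametricDist K] [IsAlgClosed K]

lemma hom_eval_Q_zero (φ : RMap K) (y : A1 K) (h : y φ.Q = 0) (d : ℕ) (f : K[X]) :
    y (hom d f φ.P φ.Q) = ‖f.coeff d‖ * y φ.P ^ d := by
  have h1 : hom d f φ.P φ.Q = C (f.coeff d) * φ.P ^ d +
      ∑ i ∈ Finset.range d, C (f.coeff i) * φ.P ^ i * φ.Q ^ (d - i) := by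
    unfold hom
    rw [Finset.sum_range_succ, add_comm, Nat.sub_self, pow_zero, mul_one]
  have h2 : y (∑ i ∈ Finset.range d, C (f.coeff i) * φ.P ^ i * φ.Q ^ (d - i)) = 0 := by
    apply le_antisymm _ (y.nonneg _)
    apply y.sum_le _ _ le_rfl
    intro i hi
    rw [y.map_mul, y.map_pow, h, zero_pow (by have := Finset.mem_range.1 hi; omega), mul_zero]
  have h3 : y (C (f.coeff d) * φ.P ^ d) = ‖f.coeff d‖ * y φ.P ^ d := by
    rw [y.map_C_mul, y.map_pow]
  rw [h1]
  apply le_antisymm
  · refine (y.add_le _ _).trans ?_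
    rw [h2, h3, max_eq_left]
    exact mul_nonneg (norm_nonneg _) (pow_nonneg (y.nonneg _) _)
  · rw [← h3]
    have := y.sub_le (C (f.coeff d) * φ.P ^ d +
      ∑ i ∈ Finset.range d, C (f.coeff i) * φ.P ^ i * φ.Q ^ (d - i))
      (∑ i ∈ Finset.range d, C (f.coeff i) * φ.P ^ i * φ.Q ^ (d - i))
    rw [add_sub_cancel_right, h2, max_eq_left (y.nonneg _)] at this
    exact this

lemma comp_coeff_F (ψ φ : RMap K) (a : OnePoint K) :
    ((ψ.comp φ).F a).coeff (ψ.deg * φ.deg) = homv ψ.deg (ψ.F a) (φ.P.coeff φ.deg) (φ.Q.coeff φ.deg) := by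
  rw [comp_F]
  exact coeff_hom (natDegree_P_le φ) (natDegree_Q_le φ)

lemma comp_coeff_P (ψ φ : RMap K) :
    ((ψ.comp φ).P).coeff (ψ.deg * φ.deg) = homv ψ.deg ψ.P (φ.P.coeff φ.deg) (φ.Q.coeff φ.deg) :=
  coeff_hom (natDegree_P_le φ) (natDegree_Q_le φ)

/-- scaling in the formula for kap -/
lemma log_scale {A B C s : ℝ} (hs : 0 < s) {r : ℝ} (h1 : 0 < max A (r * B)) (h2 : 0 < max B C) :
    Real.log (max (A * s) (r * (B * s))) - Real.log (max (B * s) (C * s)) =
    Real.log (max A (r * B)) - Real.log (max B C) := by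
  have e1 : max (A * s) (r * (B * s)) = max A (r * B) * s := by
    rw [max_mul_of_nonneg _ _ hs.le]; congr 1; ring
  have e2 : max (B * s) (C * s) = max B C * s := by rw [max_mul_of_nonneg _ _ hs.le]
  rw [e1, e2, Real.log_mul h1.ne' hs.ne', Real.log_mul h2.ne' hs.ne']; ring

theorem map_comp (ψ φ : RMap K) (x : P1 K) : (ψ.comp φ).map x = ψ.map (φ.map x) := by
  apply kap_sep
  intro c r hr
  have hm : ∀ z : A1 K, 0 < max (z (ψ.F c)) (r * z ψ.Q) := fun z => max_FQ_pos ψ z c hr
  have hm2 : ∀ z : A1 K, 0 < max (z ψ.Q) (z ψ.P) := fun z => by rw [max_comm]; exact max_PQ_pos ψ z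
  have hmi : 0 < max ‖(ψ.F c).coeff ψ.deg‖ (r * ‖ψ.Q.coeff ψ.deg‖) := by
    rcases F_coeff_ne ψ c with h | h
    · exact lt_of_lt_of_le (norm_pos_iff.2 h) (le_max_left _ _)
    · exact lt_of_lt_of_le (mul_pos hr (norm_pos_iff.2 h)) (le_max_right _ _)
  have hmi2 : 0 < max ‖ψ.Q.coeff ψ.deg‖ ‖ψ.P.coeff ψ.deg‖ := by
    rcases exists_coeff_ne ψ with h | h
    · exact lt_of_lt_of_le (norm_pos_iff.2 h) (le_max_right _ _)
    · exact lt_of_lt_of_le (norm_pos_iff.2 h) (le_max_left _ _)
  induction x using OnePoint.rec with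
  | infty =>
    rw [kap_map_infty _ c hr, deg_comp, comp_coeff_F]
    have hQ := comp_coeff_F ψ φ ∞
    simp only [F_infty] at hQ
    rw [hQ, comp_coeff_P]
    by_cases h : φ.Q.coeff φ.deg = 0
    · rw [map_infty_of_eq φ h, kap_map_infty ψ c hr, h, homv_of_eq, homv_of_eq, homv_of_eq]
      simp only [norm_mul]
      have hP : φ.P.coeff φ.deg ≠ 0 := by
        rcases exists_coeff_ne φ with h1 | h1
        · exact h1
        · exact absurd h h1
      exact log_scale (norm_pos_iff.2 (pow_ne_zero _ hP)) hmi hmi2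
    · rw [map_infty_of_ne φ h, kap_map ψ c hr, homv_of_ne (natDegree_F_le ψ c) h,
        homv_of_ne (natDegree_Q_le ψ) h, homv_of_ne (natDegree_P_le ψ) h]
      simp only [norm_mul, evalPt_apply]
      have := log_scale (norm_pos_iff.2 (pow_ne_zero ψ.deg h))
        (hm (evalPt (φ.P.coeff φ.deg / φ.Q.coeff φ.deg))) (hm2 (evalPt (φ.P.coeff φ.deg / φ.Q.coeff φ.deg)))
      simp only [evalPt_apply] at this
      rw [← this]
      simp only [mul_comm]
  | coe y =>
    rw [kap_map _ c hr]
    have hF := comp_F ψ φ c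
    have hQ := comp_F ψ φ ∞
    have hP : (ψ.comp φ).P = hom ψ.deg ψ.P φ.P φ.Q := rfl
    simp only [F_infty] at hQ
    rw [hF, hQ, hP]
    by_cases h : y φ.Q = 0
    · rw [map_of_eq φ y h, kap_map_infty ψ c hr, hom_eval_Q_zero φ y h, hom_eval_Q_zero φ y h,
        hom_eval_Q_zero φ y h]
      exact log_scale (pow_pos (P_pos_of_Q_zero φ y h) _) hmi hmi2
    · have hpos : 0 < y φ.Q := lt_of_le_of_ne (y.nonneg _) (Ne.symm h)
      rw [map_of_ne φ y h, kap_map ψ c hr, ← push_mul_pow φ y h (natDegree_F_le ψ c),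
        ← push_mul_pow φ y h (natDegree_Q_le ψ), ← push_mul_pow φ y h (natDegree_P_le ψ)]
      exact log_scale (pow_pos hpos _) (hm _) (hm2 _)

theorem map_iter (R : RMap K) (n : ℕ) (x : P1 K) : (iter R n).map x = R.map^[n] x := by
  induction n with
  | zero =>
    have hd : (iter R 0).deg = 1 := by simp [iter, RMap.deg]
    simp only [Function.iterate_zero, id]
    apply kap_sep
    intro c r hr
    induction x using OnePoint.rec with
    | infty =>
      rw [kap_map_infty _ c hr, hd, F_coe]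
      change Real.log (max ‖((X : K[X]) - C c * 1).coeff 1‖ (r * ‖(1 : K[X]).coeff 1‖)) -
        Real.log (max ‖(1 : K[X]).coeff 1‖ ‖(X : K[X]).coeff 1‖) = _
      simp [coeff_one, coeff_X]
    | coe y =>
      rw [kap_map _ c hr, F_coe, kap_coe]
      change Real.log (max (y ((X : K[X]) - C c * 1)) (r * y 1)) - Real.log (max (y 1) (y X)) = _
      rw [mul_one, y.map_one, mul_one]
  | succ n ih =>
    rw [iter, map_comp, ih, Function.iterate_succ_apply']

/-- points of the fibre are mapped correctly -/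
theorem map_cl_of_mem_fib {φ : RMap K} {a z : OnePoint K} (h : z ∈ φ.fib a) : φ.map (cl z) = cl a := by
  unfold RMap.fib at h
  rw [Multiset.mem_add] at h
  rcases h with h | h
  · obtain ⟨w, hw, rfl⟩ := Multiset.mem_map.1 h
    have hroot : (φ.F a).eval w = 0 := (mem_roots'.1 hw).2
    rw [cl_coe]
    induction a using OnePoint.rec with
    | infty =>
      rw [map_of_eq]; rfl
      rw [evalPt_apply]; rw [F_infty] at hroot; rw [hroot, norm_zero]
    | coe a =>
      simp only [F_coe, eval_sub, eval_mul, eval_C] at hroot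
      have hQ : φ.Q.eval w ≠ 0 := by
        intro h0
        rw [h0, mul_zero, sub_zero] at hroot
        rcases φ.no_common_root w with h1 | h1
        · exact h1 hroot
        · exact h1 h0
      have hne : evalPt w φ.Q ≠ 0 := by rw [evalPt_apply]; exact norm_ne_zero_iff.2 hQ
      rw [map_of_ne φ _ hne, cl_coe, OnePoint.coe_eq_coe]
      apply A1.ext_lin
      intro b
      rw [push_lin, evalPt_apply, evalPt_apply, evalPt_apply, F_coe]
      simp only [eval_sub, eval_mul, eval_C, eval_X]
      rw [← norm_div]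
      congr 1
      have : φ.P.eval w = a * φ.Q.eval w := by linear_combination hroot
      rw [this]; field_simp
  · have hz : z = ∞ := Multiset.eq_of_mem_replicate h
    have hn : φ.deg - (φ.F a).natDegree ≠ 0 := by
      intro h0; rw [h0] at h; simp at h
    have hc : (φ.F a).coeff φ.deg = 0 := coeff_eq_zero_of_natDegree_lt (by omega)
    rw [hz, cl_infty]
    induction a using OnePoint.rec with
    | infty => rw [map_infty_of_eq φ hc]; rfl
    | coe a =>
      have hQ : φ.Q.coeff φ.deg ≠ 0 := by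
        rcases F_coeff_ne φ a with h1 | h1
        · exact absurd hc h1
        · exact h1
      rw [map_infty_of_ne φ hQ, cl_coe]
      congr 2
      rw [F_coe, coeff_sub, coeff_C_mul, sub_eq_zero] at hc
      rw [hc]; field_simp

/-- evaluation of nonzero polynomials at hyperbolic points -/
lemma Hyp.pos {x : A1 K} (h : Hyp (x : P1 K)) {f : K[X]} (hf : f ≠ 0) : 0 < x f := by
  rw [x.eq_prod]
  apply mul_pos (norm_pos_iff.2 (leadingCoeff_ne_zero.2 hf))
  apply Multiset.prod_pos
  intro y hy
  obtain ⟨a, _, rfl⟩ := Multiset.mem_map.1 hy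
  apply lt_of_le_of_ne (x.nonneg _)
  intro h0
  apply hyp_coe.1 h a
  apply A1.ext_lin
  intro b
  rw [evalPt_apply]
  simp only [eval_sub, eval_X, eval_C]
  by_cases hab : b = a
  · rw [hab, ← h0]; simp
  · rw [x.lin_eq_of_lt (b := a), norm_sub_rev]
    rw [← h0]; exact norm_pos_iff.2 (sub_ne_zero.2 hab)

lemma exists_cl_map (φ : RMap K) (z : OnePoint K) : ∃ a, φ.map (cl z) = cl a := by
  induction z using OnePoint.rec with
  | infty =>
    by_cases h : φ.Q.coeff φ.deg = 0
    · exact ⟨∞, by rw [cl_infty, map_infty_of_eq φ h]⟩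
    · exact ⟨((φ.P.coeff φ.deg / φ.Q.coeff φ.deg : K) : OnePoint K), by rw [cl_infty, map_infty_of_ne φ h]; rfl⟩
  | coe z =>
    by_cases h : φ.Q.eval z = 0
    · exact ⟨∞, by rw [cl_coe, map_of_eq]; rfl; rw [evalPt_apply, h, norm_zero]⟩
    · refine ⟨((φ.P.eval z / φ.Q.eval z : K) : OnePoint K), ?_⟩
      have hne : evalPt z φ.Q ≠ 0 := by rw [evalPt_apply]; exact norm_ne_zero_iff.2 h
      rw [cl_coe, map_of_ne φ _ hne, cl_coe, OnePoint.coe_eq_coe]
      apply A1.ext_lin
      intro b
      rw [push_lin, evalPt_apply, evalPt_apply, evalPt_apply, F_coe]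
      simp only [eval_sub, eval_mul, eval_C, eval_X]
      rw [← norm_div]
      congr 1
      field_simp

lemma hyp_map_iff (φ : RMap K) (hD : 1 ≤ φ.deg) (x : P1 K) : Hyp (φ.map x) ↔ Hyp x := by
  constructor
  · intro h
    unfold Hyp
    rintro ⟨z, rfl⟩
    obtain ⟨a, ha⟩ := exists_cl_map φ z
    exact h ⟨a, ha.symm⟩
  · intro h
    induction x using OnePoint.rec with
    | infty => exact absurd h not_hyp_infty
    | coe x =>
      have hQ := h.pos (Q_ne_zero φ hD)
      rw [map_of_ne φ x hQ.ne', hyp_coe]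
      intro a ha
      have h1 : push φ x hQ.ne' (X - C a) = evalPt a (X - C a) := by rw [ha]
      rw [push_lin, evalPt_apply] at h1
      simp only [eval_sub, eval_X, eval_C, sub_self, norm_zero] at h1
      have h2 := h.pos (F_ne_zero φ hD a)
      have : 0 < x (φ.F a) / x φ.Q := by positivity
      linarith

/-- characterisation of hyperbolic points by the diameter -/
lemma hyp_iff_diam [CompleteSpace K] (x : A1 K) :
    Hyp (x : P1 K) ↔ ∃ δ : ℝ, 0 < δ ∧ ∀ c : K, δ ≤ x (X - C c) := by
  constructor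
  · intro h
    by_contra hcon
    push Not at hcon
    have h1 : ∀ n : ℕ, ∃ c : K, x (X - C c) < 1 / ((n : ℝ) + 1) := fun n => hcon _ (by positivity)
    choose c hc using h1
    have hcau : CauchySeq c := by
      rw [Metric.cauchySeq_iff']
      intro ε hε
      obtain ⟨N, hN⟩ := exists_nat_one_div_lt hε
      refine ⟨N, fun n hn => ?_⟩
      rw [dist_eq_norm]
      refine lt_of_le_of_lt (x.norm_sub_le _ _) (max_lt ?_ ((hc N).trans hN))
      refine (hc n).trans_le (le_trans ?_ hN.le)
      apply one_div_le_one_div_of_le (by positivity)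
      have : (N : ℝ) ≤ n := by exact_mod_cast hn
      linarith
    obtain ⟨a, ha⟩ := cauchySeq_tendsto_of_complete hcau
    have hzero : x (X - C a) = 0 := by
      apply le_antisymm _ (x.nonneg _)
      apply le_of_forall_pos_le_add
      intro ε hε
      rw [zero_add]
      obtain ⟨N, hN⟩ := exists_nat_one_div_lt hε
      rw [Metric.tendsto_atTop] at ha
      obtain ⟨M, hM⟩ := ha ε hε
      have h2 := hM (max N M) (le_max_right _ _)
      rw [dist_eq_norm, norm_sub_rev] at h2
      refine (x.lin_le a (c (max N M))).trans (max_le ?_ h2.le)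
      refine (hc _).le.trans (le_trans ?_ hN.le)
      apply one_div_le_one_div_of_le (by positivity)
      have : (N : ℝ) ≤ (max N M : ℕ) := by exact_mod_cast le_max_left _ _
      linarith
    exact absurd hzero (h.pos (X_sub_C_ne_zero a)).ne'
  · rintro ⟨δ, hδ, h⟩
    rw [hyp_coe]
    intro a ha
    have := h a
    rw [ha, evalPt_apply] at this
    simp at this
    linarith

end BerkFix
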