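import Pool.Agent.Lib.MP_edb0ca_an.Tail

set_option linter.unusedSectionVars false
set_option linter.unusedVariables false

open Polynomial OnePoint Topology Filter MeasureTheory

namespace BerkFix

variable {K : Type*} [NormedField K] [IsUltrametricDist K] [IsAlgClosed K]

/-- `max(1,|T|)` at `ζ(c,r)` -/
noncomputable def Mz (c : K) (r : ℝ) : ℝ := max 1 (max ‖c‖ r)

lemma Mz_pos (c : K) (r : ℝ) : 0 < Mz c r := lt_of_lt_of_le one_pos (le_max_left _ _)
lemma one_le_Mz (c : K) (r : ℝ) : 1 ≤ Mz c r := le_max_left _ _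

lemma Mz_eq (c : K) {r : ℝ} (hr : 0 < r) : Mz c r = max 1 (zt c r hr X) := by rw [zt_X]; rfl

/-- logarithm of the chordal kernel `[ζ(c,r), x]` -/
noncomputable def kz (c : K) (r : ℝ) (x : P1 K) : ℝ := kap c r x - Real.log (Mz c r)

lemma continuous_kz (c : K) {r : ℝ} (hr : 0 < r) : Continuous (kz c r) :=
  (continuous_kap c hr).sub continuous_const

lemma kz_coe (c : K) {r : ℝ} (hr : 0 < r) (y : A1 K) :
    kz c r (y : P1 K) = Real.log (max (y (X - C c)) r / (max 1 (y X) * Mz c r)) := by
  have h1 := Mx_pos y
  have h2 := Mz_pos c r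
  have h3 : 0 < max (y (X - C c)) r := lt_of_lt_of_le hr (le_max_right _ _)
  rw [kz, kap_coe, Real.log_div h3.ne' (by positivity), Real.log_mul h1.ne' h2.ne']
  ring

lemma kz_infty (c : K) {r : ℝ} (hr : 0 < r) : kz c r (∞ : P1 K) = Real.log (1 / Mz c r) := by
  rw [kz, kap_infty, one_div, Real.log_inv, zero_sub]

/-- the kernel itself -/
noncomputable def kk (c : K) (r : ℝ) : P1 K → ℝ
  | ∞ => 1 / Mz c r
  | (y : A1 K) => max (y (X - C c)) r / (max 1 (y X) * Mz c r)

@[simp] lemma kk_infty (c : K) (r : ℝ) : kk c r (∞ : P1 K) = 1 / Mz c r := rfl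
@[simp] lemma kk_coe (c : K) (r : ℝ) (y : A1 K) : kk c r (y : P1 K) = max (y (X - C c)) r / (max 1 (y X) * Mz c r) := rfl

lemma kk_pos (c : K) {r : ℝ} (hr : 0 < r) (x : P1 K) : 0 < kk c r x := by
  have h2 := Mz_pos c r
  induction x using OnePoint.rec with
  | infty => rw [kk_infty]; positivity
  | coe y =>
    have h1 := Mx_pos y
    have h3 : 0 < max (y (X - C c)) r := lt_of_lt_of_le hr (le_max_right _ _)
    rw [kk_coe]; positivity

lemma kz_eq_log (c : K) {r : ℝ} (hr : 0 < r) (x : P1 K) : kz c r x = Real.log (kk c r x) := by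
  induction x using OnePoint.rec with
  | infty => rw [kk_infty, kz_infty c hr]
  | coe y => rw [kk_coe, kz_coe c hr]

lemma kk_le_one (c : K) {r : ℝ} (hr : 0 < r) (x : P1 K) : kk c r x ≤ 1 := by
  have h2 := Mz_pos c r
  induction x using OnePoint.rec with
  | infty => rw [kk_infty, div_le_one h2]; exact le_max_left _ _
  | coe y =>
    have h1 := Mx_pos y
    rw [kk_coe, div_le_one (by positivity)]
    have ha : 1 ≤ Mz c r := le_max_left _ _
    have hb : ‖c‖ ≤ Mz c r := (le_max_left _ _).trans (le_max_right _ _)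
    have hc : r ≤ Mz c r := (le_max_right _ _).trans (le_max_right _ _)
    have hM := one_le_Mx y
    apply max_le
    · refine (y.lin_le' c).trans (max_le ?_ ?_)
      · calc y X ≤ max 1 (y X) * 1 := by rw [mul_one]; exact le_max_right _ _
          _ ≤ _ := by gcongr
      · calc ‖c‖ ≤ 1 * Mz c r := by rw [one_mul]; exact hb
          _ ≤ _ := by gcongr
    · calc r ≤ 1 * Mz c r := by rw [one_mul]; exact hc
        _ ≤ _ := by gcongr

lemma kz_nonpos (c : K) {r : ℝ} (hr : 0 < r) (x : P1 K) : kz c r x ≤ 0 := by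
  rw [kz_eq_log c hr]
  exact Real.log_nonpos (kk_pos c hr x).le (kk_le_one c hr x)

/-- lower bound -/
lemma kk_lower (c : K) {r : ℝ} (hr : 0 < r) (x : P1 K) : r / Mz c r ^ 2 ≤ kk c r x := by
  have h2 := Mz_pos c r
  have hrM : r ≤ Mz c r := (le_max_right _ _).trans (le_max_right _ _)
  have hcM : ‖c‖ ≤ Mz c r := (le_max_left _ _).trans (le_max_right _ _)
  have h1M : 1 ≤ Mz c r := le_max_left _ _
  have key : r / Mz c r ^ 2 ≤ 1 / Mz c r := by
    rw [pow_two, ← div_div]
    gcongr
    rwa [div_le_one h2]
  induction x using OnePoint.rec with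
  | infty => rw [kk_infty]; exact key
  | coe y =>
    have h1 := Mx_pos y
    rw [kk_coe]
    by_cases hy : max 1 (y X) ≤ Mz c r
    · rw [pow_two]
      gcongr
      exact le_max_right _ _
    · push Not at hy
      have h3 : max 1 (y X) = y X := by
        rcases max_choice 1 (y X) with h | h
        · rw [h] at hy; linarith
        · exact h
      rw [h3] at hy
      have h4 : y (X - C c) = y X := y.lin_of_large (lt_of_le_of_lt hcM hy)
      rw [h3, h4]
      refine key.trans ?_
      have h5 : 0 < y X := by linarith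
      have h6 : 1 / Mz c r = y X / (y X * Mz c r) := by field_simp
      rw [h6]
      gcongr
      exact le_max_left _ _

/-- at classical points the kernel is the chordal one -/
lemma kk_cl (c : K) {r : ℝ} (hr : 0 < r) (z : OnePoint K) : kk c r (cl z) = chP (zt c r hr : P1 K) z := by
  induction z using OnePoint.rec with
  | infty => rw [cl_infty, kk_infty, chP_coe, ch_infty, Mz_eq c hr]
  | coe a =>
    rw [cl_coe, kk_coe, chP_coe, ch_coe, zt_lin, ← Mz_eq c hr, evalPt_apply, evalPt_apply]
    simp only [eval_sub, eval_X, eval_C]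
    rw [mul_comm (max 1 ‖a‖)]

/-- ultrametric inequality -/
lemma chP_le_kk (c : K) {r : ℝ} (hr : 0 < r) (x : P1 K) (z : OnePoint K) :
    chP x z ≤ max (kk c r x) (chP (zt c r hr : P1 K) z) := by
  have h2 := Mz_pos c r
  induction x using OnePoint.rec with
  | infty =>
    rw [chP_infty, kk_infty, chP_coe]
    have h3 : 1 / Mz c r = ch (zt c r hr) ∞ := by rw [ch_infty, Mz_eq c hr]
    rw [h3]
    exact cc_le_max _ _ _
  | coe y =>
    have hM := Mx_pos y
    have hM1 := one_le_Mx y
    have hz1 := one_le_Mz c r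
    induction z using OnePoint.rec with
    | infty =>
      -- 1/M(y) ≤ max (max |y-c| r/(M(y) M(ζ))) (1/M(ζ))
      rw [chP_coe, ch_infty, kk_coe, chP_coe, ch_infty, ← Mz_eq c hr]
      have e : max (max (y (X - C c)) r / (max 1 (y X) * Mz c r)) (1 / Mz c r) =
          max (max (y (X - C c)) r) (max 1 (y X)) / (max 1 (y X) * Mz c r) := by
        generalize max (y (X - C c)) r = p
        rw [← max_div_div_right (by positivity)]
        congr 1
        field_simp
      rw [e, div_le_div_iff₀ hM (by positivity), one_mul, mul_comm]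
      gcongr
      apply max_le
      · exact (le_max_left _ _).trans (le_max_right _ _)
      · apply max_le
        · have := y.norm_sub_le c 0
          rw [sub_zero, A1.lin_zero] at this
          exact this.trans (max_le_max (le_max_left _ _) (le_max_right _ _))
        · exact (le_max_right _ _).trans (le_max_left _ _)
    | coe a =>
      have hA := Ma_pos a
      have hA1 : 1 ≤ max 1 ‖a‖ := le_max_left _ _
      rw [chP_coe, ch_coe, kk_coe, chP_coe, ch_coe, zt_lin, ← Mz_eq c hr]
      have e : max (max (y (X - C c)) r / (max 1 (y X) * Mz c r)) (max ‖a - c‖ r / (Mz c r * max 1 ‖a‖)) =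
          max (max (y (X - C c)) r * max 1 ‖a‖) (max ‖a - c‖ r * max 1 (y X)) / (max 1 (y X) * Mz c r * max 1 ‖a‖) := by
        generalize max (y (X - C c)) r = p
        generalize max ‖a - c‖ r = q
        rw [← max_div_div_right (by positivity)]
        congr 1
        · field_simp
        · field_simp
      rw [e, div_le_div_iff₀ (by positivity) (by positivity)]
      have key : y (X - C a) * Mz c r ≤ max (max (y (X - C c)) r * max 1 ‖a‖) (max ‖a - c‖ r * max 1 (y X)) := by
        have hn := y.nonneg (X - C a)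
        have hp : 0 < max (y (X - C c)) r := lt_of_lt_of_le hr (le_max_right _ _)
        have hq : 0 < max ‖a - c‖ r := lt_of_lt_of_le hr (le_max_right _ _)
        have hpl : y (X - C c) ≤ max (y (X - C c)) r := le_max_left _ _
        have hpr : r ≤ max (y (X - C c)) r := le_max_right _ _
        have hql : ‖a - c‖ ≤ max ‖a - c‖ r := le_max_left _ _
        have hqr : r ≤ max ‖a - c‖ r := le_max_right _ _
        have hal : ‖a‖ ≤ max 1 ‖a‖ := le_max_right _ _
        have hyl : y X ≤ max 1 (y X) := le_max_right _ _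
        have hyX := y.nonneg X
        have hyc := y.nonneg (X - C c)
        unfold Mz
        rw [mul_max_of_nonneg _ _ hn, mul_max_of_nonneg _ _ hn, mul_one]
        apply max_le
        · refine (y.lin_le a c).trans (max_le_max ?_ ?_)
          · calc y (X - C c) ≤ max (y (X - C c)) r * 1 := by rw [mul_one]; exact le_max_left _ _
              _ ≤ _ := by gcongr
          · calc ‖a - c‖ ≤ max ‖a - c‖ r * 1 := by rw [mul_one]; exact le_max_left _ _
              _ ≤ _ := by gcongr
        · apply max_le
          · have e2 : C c * (X - C a) = C a * (X - C c) - C (a - c) * X := by rw [C_sub]; ring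
            rw [mul_comm, ← y.map_C_mul, e2]
            refine (y.sub_le _ _).trans (max_le_max ?_ ?_)
            · rw [y.map_C_mul, mul_comm]
              exact mul_le_mul hpl hal (norm_nonneg _) hp.le
            · rw [y.map_C_mul]
              exact mul_le_mul hql hyl hyX hq.le
          · calc y (X - C a) * r ≤ max (y X) ‖a‖ * r := mul_le_mul_of_nonneg_right (y.lin_le' a) hr.le
              _ = max (y X * r) (‖a‖ * r) := by rw [max_mul_of_nonneg _ _ hr.le]
              _ ≤ _ := by
                rw [max_comm]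
                apply max_le_max
                · rw [mul_comm]
                  exact mul_le_mul hpr hal (norm_nonneg _) hp.le
                · rw [mul_comm]
                  exact mul_le_mul hqr hyl hyX hq.le
      calc y (X - C a) * (max 1 (y X) * Mz c r * max 1 ‖a‖) = (y (X - C a) * Mz c r) * (max 1 (y X) * max 1 ‖a‖) := by ring
        _ ≤ _ := by gcongr

/-- if the kernel is small then `x` is close to a classical point depending only on `ζ` -/
lemma exists_close (c : K) {r : ℝ} (hr : 0 < r) : ∃ z : OnePoint K, ∀ x : P1 K, chP x z ≤ kk c r x := by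
  have h2 := Mz_pos c r
  by_cases h : r ≤ max 1 ‖c‖
  · refine ⟨(c : OnePoint K), fun x => ?_⟩
    have hM : Mz c r = max 1 ‖c‖ := by
      unfold Mz
      apply le_antisymm
      · exact max_le (le_max_left _ _) (max_le (le_max_right _ _) h)
      · exact max_le_max le_rfl (le_max_left _ _)
    induction x using OnePoint.rec with
    | infty => rw [chP_infty, cc_ic, kk_infty, hM]
    | coe y =>
      have := Mx_pos y
      have := Ma_pos c
      rw [chP_coe, ch_coe, kk_coe, hM]
      gcongr
      exact le_max_left _ _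
  · push Not at h
    refine ⟨∞, fun x => ?_⟩
    have hM : Mz c r = r := by
      unfold Mz
      rw [← max_assoc, max_eq_right h.le]
    induction x using OnePoint.rec with
    | infty => rw [chP_infty, cc_ii]; exact (kk_pos c hr _).le
    | coe y =>
      have := Mx_pos y
      rw [chP_coe, ch_infty, kk_coe, hM]
      rw [div_le_div_iff₀ this (by positivity), one_mul, mul_comm]
      gcongr
      exact le_max_right _ _

/-! ### the potential -/

/-- the sum of `κ` over a fibre -/
lemma sum_fib_kap (φ : RMap K) (hD : 1 ≤ φ.deg) (c : K) {r : ℝ} (hr : 0 < r) (a : OnePoint K) :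
    ((φ.fib a).map (fun z => kap c r (cl z))).sum = Real.log (gn c r (φ.F a)) - Real.log (gn 0 1 (φ.F a)) := by
  have hF := F_ne_zero φ hD a
  have hlc : 0 < ‖(φ.F a).leadingCoeff‖ := norm_pos_iff.2 (leadingCoeff_ne_zero.2 hF)
  unfold RMap.fib
  rw [Multiset.map_add, Multiset.sum_add, Multiset.map_map, Multiset.map_replicate, Multiset.sum_replicate,
    cl_infty, kap_infty, smul_zero, add_zero, gn, gn]
  have hp : ∀ (c : K) {r : ℝ} (hr : 0 < r) (s : Multiset K), 0 < (s.map (fun z => max ‖z - c‖ r)).prod := by
    intro c r hr s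
    apply Multiset.prod_pos
    intro y hy
    obtain ⟨z, _, rfl⟩ := Multiset.mem_map.1 hy
    exact lt_of_lt_of_le hr (le_max_right _ _)
  rw [Real.log_mul hlc.ne' (hp c hr _).ne', Real.log_mul hlc.ne' (hp 0 one_pos _).ne']
  have h1 : ∀ s : Multiset K, (s.map ((fun z => kap c r (cl z)) ∘ fun z => ((z : K) : OnePoint K))).sum =
      Real.log (s.map (fun z => max ‖z - c‖ r)).prod - Real.log (s.map (fun z => max ‖z - 0‖ 1)).prod := by
    intro s
    induction s using Multiset.induction_on with
    | empty => simp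
    | cons a s ih =>
      rw [Multiset.map_cons, Multiset.sum_cons, ih, Multiset.map_cons, Multiset.prod_cons, Multiset.map_cons,
        Multiset.prod_cons, Real.log_mul (lt_of_lt_of_le hr (le_max_right _ _)).ne' (hp c hr s).ne',
        Real.log_mul (lt_of_lt_of_le one_pos (le_max_right _ _)).ne' (hp 0 one_pos s).ne']
      have h2 : ((fun z => kap c r (cl z)) ∘ fun z => ((z : K) : OnePoint K)) a =
          Real.log (max ‖a - c‖ r) - Real.log (max ‖a - 0‖ 1) := by
        simp only [Function.comp, cl_coe, kap_coe, evalPt_apply]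
        simp only [eval_sub, eval_X, eval_C, sub_zero]
        rw [max_comm 1 ‖a‖]
      rw [h2]; ring
  rw [h1]; ring

lemma log_wt (b : K) {ρ : ℝ} (hρ : 0 < ρ) (a : OnePoint K) : Real.log (wt b ρ a) = kap b ρ (cl a) + Real.log (Mc a) := by
  induction a using OnePoint.rec with
  | infty => rw [wt_infty, cl_infty, kap_infty, Mc_infty]; simp
  | coe a =>
    rw [wt_coe, cl_coe, kap_coe, Mc_coe, evalPt_apply, evalPt_apply]
    simp only [eval_sub, eval_X, eval_C]
    ring

/-- the potential at a point `ζ(c,r)` -/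
noncomputable def gU (ρ : Measure (P1 K)) (c : K) (r : ℝ) : ℝ := ∫ x, kz c r x ∂ρ

variable {R : RMap K} {ρ : Measure (P1 K)}

lemma integrable_of_continuous [IsFiniteMeasure ρ] {u : P1 K → ℝ} (hu : Continuous u) : Integrable u ρ := by
  obtain ⟨C, hC⟩ := IsCompact.exists_bound_of_continuousOn (isCompact_univ (X := P1 K)) hu.continuousOn
  exact Integrable.of_bound hu.measurable.aestronglyMeasurable C (ae_of_all _ (fun x => hC x (Set.mem_univ x)))

/-- the basic functional equation -/
theorem gU_eq (hR : 1 ≤ R.deg) (h : IsEquilibrium R ρ) : ∃ k₀ : ℝ, ∀ (c : K) (r : ℝ) (hr : 0 < r) (b : K) (s : ℝ), Im R c r b s →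
    R.deg * gU ρ c r = gU ρ b s + hh R (zt c r hr : P1 K) + k₀ := by
  have := h.prob
  obtain ⟨b₀, s₀, hI₀⟩ := exists_Im R hR (0 : K) one_pos
  have hs₀ := hI₀.1
  refine ⟨- ∫ x, kap b₀ s₀ x ∂ρ - Real.log (gn 0 1 R.Q), ?_⟩
  intro c r hr b s hI
  have hs := hI.1
  have hQ := Q_ne_zero R hR
  have hg := gn_pos c hr hQ
  have hg0 := gn_pos (0 : K) one_pos hQ
  have hwt : ∀ (b : K) (s : ℝ), 0 < s → ∀ a : OnePoint K, 0 < wt b s a := by
    intro b s hs a
    induction a using OnePoint.rec with
    | infty => simp
    | coe a => rw [wt_coe]; exact lt_of_lt_of_le hs (le_max_right _ _)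
  have hpb := h.pullback ⟨kap c r, continuous_kap c hr⟩
    ⟨fun x => kap b s x - kap b₀ s₀ x + (Real.log (gn c r R.Q) - Real.log (gn 0 1 R.Q)),
      ((continuous_kap b hs).sub (continuous_kap b₀ hs₀)).add continuous_const⟩ (by
    intro a
    simp only [ContinuousMap.coe_mk]
    rw [sum_fib_kap R hR c hr a, hI.gn_F, hI₀.gn_F, Real.log_mul (hwt b s hs a).ne' hg.ne',
      Real.log_mul (hwt b₀ s₀ hs₀ a).ne' hg0.ne', log_wt b hs, log_wt b₀ hs₀]
    ring)
  simp only [ContinuousMap.coe_mk] at hpb
  have i1 := integrable_of_continuous (ρ := ρ) (continuous_kap b hs)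
  have i2 := integrable_of_continuous (ρ := ρ) (continuous_kap b₀ hs₀)
  have i3 := integrable_of_continuous (ρ := ρ) (continuous_kap c hr)
  have i12 : Integrable (fun x => kap b s x - kap b₀ s₀ x) ρ := i1.sub i2
  rw [integral_add i12 (integrable_const _), integral_sub i1 i2, integral_const, probReal_univ, one_smul] at hpb
  have e1 : gU ρ c r = ∫ x, kap c r x ∂ρ - Real.log (Mz c r) := by
    unfold gU kz
    rw [integral_sub i3 (integrable_const _), integral_const, probReal_univ, one_smul]
  have e2 : gU ρ b s = ∫ x, kap b s x ∂ρ - Real.log (Mz b s) := by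
    unfold gU kz
    rw [integral_sub i1 (integrable_const _), integral_const, probReal_univ, one_smul]
  -- log M(Rζ)
  have hζH : Hyp (zt c r hr : P1 K) := hyp_zt c hr
  have hQz := (hζH.pos hQ).ne'
  have e3 : Real.log (Mz b s) = Real.log (max (zt c r hr R.P) (zt c r hr R.Q)) - Real.log (gn c r R.Q) := by
    have h1 := hI.map_zt hR (hr := hr)
    rw [map_of_ne R _ hQz, OnePoint.coe_eq_coe] at h1
    rw [Mz_eq b hs]
    have h2 : zt b s hs X = push R (zt c r hr) hQz X := by rw [h1]
    rw [h2, max_push_X, Real.log_div (max_PQ_pos R _).ne' hQz]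
    rfl
  rw [e1, e2, hh_coe, e3, ← Mz_eq c hr]
  linarith

end BerkFix
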