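import Pool.Agent.Lib.MP_edb0ca_an.Cocycle

set_option linter.unusedSectionVars false
set_option linter.unusedVariables false

open Polynomial OnePoint Topology Filter

namespace BerkFix

variable {K : Type*} [NormedField K] [IsUltrametricDist K] [IsAlgClosed K]

/-- homogeneous coordinates of the image of a classical point -/
noncomputable def hu (φ : RMap K) : OnePoint K → K
  | ∞ => φ.P.coeff φ.deg
  | (z : K) => φ.P.eval z

/-- homogeneous coordinates of the image of a classical point -/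
noncomputable def hv (φ : RMap K) : OnePoint K → K
  | ∞ => φ.Q.coeff φ.deg
  | (z : K) => φ.Q.eval z

@[simp] lemma hu_infty (φ : RMap K) : hu φ ∞ = φ.P.coeff φ.deg := rfl
@[simp] lemma hv_infty (φ : RMap K) : hv φ ∞ = φ.Q.coeff φ.deg := rfl
@[simp] lemma hu_coe (φ : RMap K) (z : K) : hu φ (z : OnePoint K) = φ.P.eval z := rfl
@[simp] lemma hv_coe (φ : RMap K) (z : K) : hv φ (z : OnePoint K) = φ.Q.eval z := rfl

/-- the classical action -/
noncomputable def cmap (φ : RMap K) (z : OnePoint K) : OnePoint K := (exists_cl_map φ z).choose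

lemma cl_cmap (φ : RMap K) (z : OnePoint K) : φ.map (cl z) = cl (cmap φ z) := (exists_cl_map φ z).choose_spec

lemma hu_or_hv (φ : RMap K) (z : OnePoint K) : hu φ z ≠ 0 ∨ hv φ z ≠ 0 := by
  induction z using OnePoint.rec with
  | infty => exact exists_coeff_ne φ
  | coe z => exact φ.no_common_root z

lemma cmap_of_eq (φ : RMap K) {z : OnePoint K} (h : hv φ z = 0) : cmap φ z = ∞ := by
  apply cl_injective
  rw [← cl_cmap]
  induction z using OnePoint.rec with
  | infty => rw [cl_infty, map_infty_of_eq φ h]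
  | coe z =>
    rw [hv_coe] at h
    rw [cl_coe, map_of_eq φ _ (by rw [evalPt_apply, h, norm_zero])]; rfl

lemma cmap_of_ne (φ : RMap K) {z : OnePoint K} (h : hv φ z ≠ 0) : cmap φ z = ((hu φ z / hv φ z : K) : OnePoint K) := by
  apply cl_injective
  rw [← cl_cmap]
  induction z using OnePoint.rec with
  | infty => rw [cl_infty, map_infty_of_ne φ h]; rfl
  | coe z =>
    rw [hv_coe] at h
    have hne : evalPt z φ.Q ≠ 0 := by rw [evalPt_apply]; exact norm_ne_zero_iff.2 h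
    rw [cl_coe, map_of_ne φ _ hne, cl_coe, OnePoint.coe_eq_coe]
    apply A1.ext_lin
    intro b
    rw [push_lin, evalPt_apply, evalPt_apply, evalPt_apply, F_coe]
    simp only [eval_sub, eval_mul, eval_C, eval_X, hu_coe, hv_coe]
    rw [← norm_div]
    congr 1
    field_simp

/-- the kernel between images -/
lemma ch_push_cmap (φ : RMap K) (x : A1 K) (hQ : x φ.Q ≠ 0) (z : OnePoint K) :
    ch (push φ x hQ) (cmap φ z) = x (C (hv φ z) * φ.P - C (hu φ z) * φ.Q) /
      (max (x φ.P) (x φ.Q) * max ‖hu φ z‖ ‖hv φ z‖) := by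
  have hm := max_PQ_pos φ x
  have hpos : 0 < x φ.Q := lt_of_le_of_ne (x.nonneg _) (Ne.symm hQ)
  by_cases h : hv φ z = 0
  · have hu0 : hu φ z ≠ 0 := by rcases hu_or_hv φ z with h1 | h1; exact h1; exact absurd h h1
    have hu1 : 0 < ‖hu φ z‖ := norm_pos_iff.2 hu0
    rw [cmap_of_eq φ h, ch_infty, max_push_X, h, C_0, zero_mul, zero_sub, x.map_neg, x.map_C_mul, norm_zero,
      max_eq_left hu1.le]
    field_simp
  · have hv1 : 0 < ‖hv φ z‖ := norm_pos_iff.2 h
    have h1 := F_eq_ch' φ x hQ (cmap φ z)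
    rw [cmap_of_ne φ h] at h1 ⊢
    have h2 : Mc ((hu φ z / hv φ z : K) : OnePoint K) = max ‖hu φ z‖ ‖hv φ z‖ / ‖hv φ z‖ := by
      rw [Mc_coe, norm_div, ← max_div_div_right hv1.le, div_self hv1.ne', max_comm]
    have h3 : x (φ.F ((hu φ z / hv φ z : K) : OnePoint K)) = x (C (hv φ z) * φ.P - C (hu φ z) * φ.Q) / ‖hv φ z‖ := by
      rw [eq_div_iff hv1.ne', mul_comm, ← x.map_C_mul, F_coe, mul_sub, ← mul_assoc, ← C_mul]
      congr 4
      field_simp
    have hmm : 0 < max ‖hu φ z‖ ‖hv φ z‖ := lt_of_lt_of_le hv1 (le_max_right _ _)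
    rw [h2, h3] at h1
    rw [eq_div_iff (by positivity)]
    field_simp at h1
    linarith

/-- lower bound for the homogeneous lifts -/
lemma exists_lift_lower (φ : RMap K) : ∃ c : ℝ, 0 < c ∧ (∀ x : A1 K, c * max 1 (x X) ^ φ.deg ≤ max (x φ.P) (x φ.Q)) ∧
    ∀ z : OnePoint K, c * Mc z ^ φ.deg ≤ max ‖hu φ z‖ ‖hv φ z‖ := by
  obtain ⟨C, hC0, hC⟩ := exists_hh_bound φ
  have h1 : ∀ x : A1 K, Real.exp (-C) * max 1 (x X) ^ φ.deg ≤ max (x φ.P) (x φ.Q) := by
    intro x
    have hM := Mx_pos x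
    have hm := max_PQ_pos φ x
    have h1 := (abs_le.1 (hC (x : P1 K))).1
    rw [hh_coe, le_sub_iff_add_le, ← Real.log_pow] at h1
    have h2 := Real.exp_le_exp.2 h1
    rwa [Real.exp_log hm, Real.exp_add, Real.exp_log (by positivity)] at h2
  refine ⟨Real.exp (-C), Real.exp_pos _, h1, fun z => ?_⟩
  induction z using OnePoint.rec with
  | infty =>
    have h1 := (abs_le.1 (hC (∞ : P1 K))).1
    rw [hh_infty] at h1
    have h2 := Real.exp_le_exp.2 h1
    rw [Real.exp_log (max_coeff_pos φ)] at h2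
    simpa using h2
  | coe z =>
    have := h1 (evalPt z)
    simpa using this

/-- the basic differences -/
lemma pow_sub_le (x : A1 K) (Y : K[X]) (w : K) (m : ℕ) :
    x (Y ^ (m + 1) - C (w ^ (m + 1))) ≤ x (Y - C w) * max (x Y) ‖w‖ ^ m := by
  induction m with
  | zero => simp
  | succ m ih =>
    have e : Y ^ (m + 1 + 1) - C (w ^ (m + 1 + 1)) = Y * (Y ^ (m + 1) - C (w ^ (m + 1))) + C (w ^ (m + 1)) * (Y - C w) := by
      simp only [C_pow]; ring
    have hM : 0 ≤ max (x Y) ‖w‖ := le_trans (x.nonneg _) (le_max_left _ _)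
    rw [e]
    refine (x.add_le _ _).trans (max_le ?_ ?_)
    · rw [x.map_mul]
      calc x Y * x (Y ^ (m + 1) - C (w ^ (m + 1))) ≤ max (x Y) ‖w‖ * (x (Y - C w) * max (x Y) ‖w‖ ^ m) := by
            apply mul_le_mul (le_max_left _ _) ih (x.nonneg _) hM
        _ = _ := by ring
    · rw [x.map_C_mul, norm_pow, mul_comm]
      apply mul_le_mul_of_nonneg_left _ (x.nonneg _)
      exact pow_le_pow_left₀ (norm_nonneg _) (le_max_right _ _) _

lemma term_le (x : A1 K) (Y : K[X]) (w : K) (i m : ℕ) :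
    x (Y ^ i * C (w ^ (i + (m + 1))) - Y ^ (i + (m + 1)) * C (w ^ i)) ≤
      x (Y - C w) * ((x Y * ‖w‖) ^ i * max (x Y) ‖w‖ ^ m) := by
  have e : Y ^ i * C (w ^ (i + (m + 1))) - Y ^ (i + (m + 1)) * C (w ^ i) =
      C (w ^ i) * Y ^ i * -(Y ^ (m + 1) - C (w ^ (m + 1))) := by
    rw [pow_add Y, pow_add w, C_mul]; ring
  rw [e, x.map_mul, x.map_C_mul, x.map_pow, x.map_neg, norm_pow, mul_pow]
  calc ‖w‖ ^ i * x Y ^ i * x (Y ^ (m + 1) - C (w ^ (m + 1))) ≤ ‖w‖ ^ i * x Y ^ i * (x (Y - C w) * max (x Y) ‖w‖ ^ m) := by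
        have := x.nonneg Y
        gcongr
        exact pow_sub_le x Y w m
    _ = _ := by ring

/-- symmetric form of the bound: `g i j` bounds the quotient -/
lemma term_le' (x : A1 K) (Y : K[X]) (w : K) (i j : ℕ) {B : ℝ} (hB0 : 0 ≤ B)
    (hB : ∀ k m : ℕ, (k = i ∧ k + (m + 1) = j ∨ k = j ∧ k + (m + 1) = i) → (x Y * ‖w‖) ^ k * max (x Y) ‖w‖ ^ m ≤ B) :
    x (Y ^ i * C (w ^ j) - Y ^ j * C (w ^ i)) ≤ x (Y - C w) * B := by
  rcases lt_trichotomy i j with h | h | h
  · obtain ⟨m, rfl⟩ : ∃ m, j = i + (m + 1) := ⟨j - i - 1, by omega⟩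
    refine (term_le x Y w i m).trans ?_
    exact mul_le_mul_of_nonneg_left (hB i m (Or.inl ⟨rfl, rfl⟩)) (x.nonneg _)
  · subst h
    rw [sub_self, x.map_zero]; exact mul_nonneg (x.nonneg _) hB0
  · obtain ⟨m, rfl⟩ : ∃ m, i = j + (m + 1) := ⟨i - j - 1, by omega⟩
    have e : Y ^ (j + (m + 1)) * C (w ^ j) - Y ^ j * C (w ^ (j + (m + 1))) =
      -(Y ^ j * C (w ^ (j + (m + 1))) - Y ^ (j + (m + 1)) * C (w ^ j)) := by ring
    rw [e, x.map_neg]
    refine (term_le x Y w j m).trans ?_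
    exact mul_le_mul_of_nonneg_left (hB j m (Or.inr ⟨rfl, rfl⟩)) (x.nonneg _)

/-- double sum estimate -/
lemma sum_estimate (x : A1 K) (Y : K[X]) (w : K) (S : Finset (ℕ × ℕ)) (a : ℕ → K) (b : ℕ → K) {B A : ℝ} (hB0 : 0 ≤ B)
    (hA0 : 0 ≤ A) (hA : ∀ p ∈ S, ‖a p.1 * b p.2‖ ≤ A)
    (hB : ∀ p ∈ S, x (Y ^ p.1 * C (w ^ p.2) - Y ^ p.2 * C (w ^ p.1)) ≤ x (Y - C w) * B) :
    x (∑ p ∈ S, C (a p.1 * b p.2) * (Y ^ p.1 * C (w ^ p.2) - Y ^ p.2 * C (w ^ p.1))) ≤ A * (x (Y - C w) * B) := by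
  apply x.sum_le _ _ (mul_nonneg hA0 (mul_nonneg (x.nonneg _) hB0))
  intro p hp
  rw [x.map_C_mul]
  exact mul_le_mul (hA p hp) (hB p hp) (x.nonneg _) hA0

/-- expansion of the determinant -/
lemma det_expand (Y : K[X]) (w : K) (d : ℕ) (a b : ℕ → K) :
    C (∑ j ∈ Finset.range (d + 1), b j * w ^ j) * (∑ i ∈ Finset.range (d + 1), C (a i) * Y ^ i) -
    C (∑ i ∈ Finset.range (d + 1), a i * w ^ i) * (∑ j ∈ Finset.range (d + 1), C (b j) * Y ^ j) =
    ∑ p ∈ Finset.range (d + 1) ×ˢ Finset.range (d + 1),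
      C (a p.1 * b p.2) * (Y ^ p.1 * C (w ^ p.2) - Y ^ p.2 * C (w ^ p.1)) := by
  rw [Finset.sum_product]
  simp only [mul_sub, Finset.sum_sub_distrib]
  congr 1
  · rw [mul_comm, Finset.sum_mul]
    apply Finset.sum_congr rfl
    intro i _
    rw [map_sum, Finset.mul_sum]
    apply Finset.sum_congr rfl
    intro j _
    simp only [C_mul, C_pow]; ring
  · rw [map_sum, Finset.sum_mul]
    apply Finset.sum_congr rfl
    intro i _
    rw [Finset.mul_sum]
    apply Finset.sum_congr rfl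
    intro j _
    simp only [C_mul, C_pow]; ring

/-- a bound for the products of coefficients -/
lemma exists_coeff_bound (d : ℕ) (a b : ℕ → K) : ∃ A : ℝ, 0 ≤ A ∧ ∀ p ∈ Finset.range (d + 1) ×ˢ Finset.range (d + 1),
    ‖a p.1 * b p.2‖ ≤ A := by
  refine ⟨∑ p ∈ Finset.range (d + 1) ×ˢ Finset.range (d + 1), ‖a p.1 * b p.2‖, Finset.sum_nonneg (fun _ _ => norm_nonneg _), ?_⟩
  intro p hp
  exact Finset.single_le_sum (f := fun p : ℕ × ℕ => ‖a p.1 * b p.2‖) (fun _ _ => norm_nonneg _) hp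

/-- Lipschitz estimate for the numerator -/
lemma exists_num_lip (φ : RMap K) (hD : 1 ≤ φ.deg) : ∃ A : ℝ, 0 ≤ A ∧ ∀ (x : A1 K) (z : OnePoint K),
    x (C (hv φ z) * φ.P - C (hu φ z) * φ.Q) ≤ A * (ch x z * (max 1 (x X) ^ φ.deg * Mc z ^ φ.deg)) := by
  obtain ⟨A, hA0, hA⟩ := exists_coeff_bound φ.deg φ.P.coeff φ.Q.coeff
  refine ⟨A, hA0, fun x z => ?_⟩
  have hM := Mx_pos x
  have hP : φ.P = ∑ i ∈ Finset.range (φ.deg + 1), C (φ.P.coeff i) * X ^ i :=
    as_sum_range_C_mul_X_pow' φ.P (Nat.lt_succ_of_le (natDegree_P_le φ))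
  have hQ : φ.Q = ∑ i ∈ Finset.range (φ.deg + 1), C (φ.Q.coeff i) * X ^ i :=
    as_sum_range_C_mul_X_pow' φ.Q (Nat.lt_succ_of_le (natDegree_Q_le φ))
  induction z using OnePoint.rec with
  | infty =>
    have e : C (hv φ ∞) * φ.P - C (hu φ ∞) * φ.Q = ∑ i ∈ Finset.range φ.deg,
        C (φ.Q.coeff φ.deg * φ.P.coeff i - φ.P.coeff φ.deg * φ.Q.coeff i) * X ^ i := by
      have : C (hv φ ∞) * φ.P - C (hu φ ∞) * φ.Q = ∑ i ∈ Finset.range (φ.deg + 1),
        C (φ.Q.coeff φ.deg * φ.P.coeff i - φ.P.coeff φ.deg * φ.Q.coeff i) * X ^ i := by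
        conv_lhs => rw [hP, hQ]
        rw [Finset.mul_sum, Finset.mul_sum, ← Finset.sum_sub_distrib]
        apply Finset.sum_congr rfl
        intro i _
        simp only [hv_infty, hu_infty, C_sub, C_mul]; ring
      rw [this, Finset.sum_range_succ]
      have h0 : φ.Q.coeff φ.deg * φ.P.coeff φ.deg - φ.P.coeff φ.deg * φ.Q.coeff φ.deg = 0 := by ring
      rw [h0]; simp
    rw [e, Mc_infty, one_pow, mul_one, ch_infty]
    have h2 : 1 / max 1 (x X) * max 1 (x X) ^ φ.deg = max 1 (x X) ^ (φ.deg - 1) := by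
      obtain ⟨k, hk⟩ : ∃ k, φ.deg = k + 1 := ⟨φ.deg - 1, by omega⟩
      rw [hk, pow_succ, Nat.add_sub_cancel]; field_simp
    rw [h2]
    apply x.sum_le _ _ (by positivity)
    intro i hi
    have hi' := Finset.mem_range.1 hi
    rw [x.map_C_mul, x.map_pow]
    apply mul_le_mul _ _ (pow_nonneg (x.nonneg _) _) hA0
    · refine (norm_sub_le_max' _ _).trans (max_le ?_ ?_)
      · rw [mul_comm]
        exact hA (i, φ.deg) (Finset.mem_product.2 ⟨Finset.mem_range.2 (by simp; omega), Finset.mem_range.2 (by simp)⟩)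
      · exact hA (φ.deg, i) (Finset.mem_product.2 ⟨Finset.mem_range.2 (by simp), Finset.mem_range.2 (by simp; omega)⟩)
    · calc x X ^ i ≤ max 1 (x X) ^ i := pow_le_pow_left₀ (x.nonneg _) (le_max_right _ _) _
        _ ≤ max 1 (x X) ^ (φ.deg - 1) := pow_le_pow_right₀ (le_max_left _ _) (by omega)
  | coe z =>
    have hz := Ma_pos z
    have e : C (hv φ z) * φ.P - C (hu φ z) * φ.Q = ∑ p ∈ Finset.range (φ.deg + 1) ×ˢ Finset.range (φ.deg + 1),
      C (φ.P.coeff p.1 * φ.Q.coeff p.2) * (X ^ p.1 * C (z ^ p.2) - X ^ p.2 * C (z ^ p.1)) := by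
      rw [← det_expand X z φ.deg φ.P.coeff φ.Q.coeff, ← hP, ← hQ, hv_coe, hu_coe]
      rw [eval_eq_sum_range' (Nat.lt_succ_of_le (natDegree_P_le φ)), eval_eq_sum_range' (Nat.lt_succ_of_le (natDegree_Q_le φ))]
    rw [e, Mc_coe, ch_coe]
    refine (sum_estimate x X z _ _ _ (B := (max 1 (x X) * max 1 ‖z‖) ^ (φ.deg - 1)) (by positivity) hA0 hA ?_).trans (le_of_eq ?_)
    · intro p hp
      rw [Finset.mem_product, Finset.mem_range, Finset.mem_range] at hp
      apply term_le' x X z _ _ (by positivity)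
      intro k m hkm
      have hkm' : k + m ≤ φ.deg - 1 := by omega
      have hmm : 1 ≤ max 1 (x X) * max 1 ‖z‖ := one_le_mul_of_one_le_of_one_le (le_max_left _ _) (le_max_left _ _)
      calc (x X * ‖z‖) ^ k * max (x X) ‖z‖ ^ m ≤ (max 1 (x X) * max 1 ‖z‖) ^ k * (max 1 (x X) * max 1 ‖z‖) ^ m := by
            have := x.nonneg X
            gcongr
            · exact le_max_right _ _
            · exact le_max_right _ _
            · apply max_le
              · calc x X ≤ max 1 (x X) * 1 := by rw [mul_one]; exact le_max_right _ _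
                  _ ≤ _ := by gcongr; exact le_max_left _ _
              · calc ‖z‖ ≤ 1 * max 1 ‖z‖ := by rw [one_mul]; exact le_max_right _ _
                  _ ≤ _ := by gcongr; exact le_max_left _ _
        _ = (max 1 (x X) * max 1 ‖z‖) ^ (k + m) := by rw [pow_add]
        _ ≤ _ := pow_le_pow_right₀ hmm hkm'
    · obtain ⟨k, hk⟩ : ∃ k, φ.deg = k + 1 := ⟨φ.deg - 1, by omega⟩
      rw [hk, Nat.add_sub_cancel, pow_succ, pow_succ, mul_pow]
      field_simp

/-- Lipschitz property for the chordal kernel -/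
theorem exists_lip (φ : RMap K) (hD : 1 ≤ φ.deg) : ∃ L : ℝ, 1 ≤ L ∧ ∀ (x : A1 K) (hQ : x φ.Q ≠ 0) (z : OnePoint K),
    ch (push φ x hQ) (cmap φ z) ≤ L * ch x z := by
  obtain ⟨A, hA0, hA⟩ := exists_num_lip φ hD
  obtain ⟨c, hc, hc1, hc2⟩ := exists_lift_lower φ
  refine ⟨max 1 (A / (c * c)), le_max_left _ _, fun x hQ z => ?_⟩
  have hM := Mx_pos x
  have hz : 0 < Mc z := lt_of_lt_of_le one_pos (one_le_Mc z)
  have hch := ch_nonneg x z
  rw [ch_push_cmap]
  have hm := max_PQ_pos φ x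
  have hden : c * max 1 (x X) ^ φ.deg * (c * Mc z ^ φ.deg) ≤ max (x φ.P) (x φ.Q) * max ‖hu φ z‖ ‖hv φ z‖ :=
    mul_le_mul (hc1 x) (hc2 z) (by positivity) hm.le
  have hdenpos : 0 < c * max 1 (x X) ^ φ.deg * (c * Mc z ^ φ.deg) := by positivity
  calc x (C (hv φ z) * φ.P - C (hu φ z) * φ.Q) / (max (x φ.P) (x φ.Q) * max ‖hu φ z‖ ‖hv φ z‖)
      ≤ (A * (ch x z * (max 1 (x X) ^ φ.deg * Mc z ^ φ.deg))) / (c * max 1 (x X) ^ φ.deg * (c * Mc z ^ φ.deg)) := by
        apply div_le_div₀ (by positivity) (hA x z) hdenpos hden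
    _ = A / (c * c) * ch x z := by field_simp
    _ ≤ _ := by gcongr; exact le_max_right _ _

/-! ### second order estimates at critical points -/

/-- coefficient of the Wronskian in degree `2d-2` -/
lemma coeff_wr_top (φ : RMap K) (hD : 2 ≤ φ.deg) : φ.wr.coeff (2 * φ.deg - 2) =
    φ.P.coeff φ.deg * φ.Q.coeff (φ.deg - 1) - φ.P.coeff (φ.deg - 1) * φ.Q.coeff φ.deg := by
  obtain ⟨k, hk⟩ := Nat.exists_eq_add_of_le hD
  have hk1 : φ.deg - 1 = k + 1 := by omega
  have hk2 : 2 * φ.deg - 2 = 2 * k + 2 := by omega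
  have hP := natDegree_P_le φ
  have hQ := natDegree_Q_le φ
  have hdeg : φ.deg = k + 2 := by omega
  have key : ∀ f g : K[X], f.natDegree ≤ k + 2 → g.natDegree ≤ k + 2 →
      (derivative f * g).coeff (2 * k + 2) = (k + 2 : K) * f.coeff (k + 2) * g.coeff (k + 1) +
        (k + 1 : K) * f.coeff (k + 1) * g.coeff (k + 2) := by
    intro f g hf hg
    rw [coeff_mul]
    rw [Finset.sum_eq_add_of_mem (k + 1, k + 1) (k, k + 2)]
    · rw [coeff_derivative, coeff_derivative]
      push_cast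
      ring
    · rw [Finset.HasAntidiagonal.mem_antidiagonal]; omega
    · rw [Finset.HasAntidiagonal.mem_antidiagonal]; omega
    · intro h
      simp at h
    · rintro ⟨i, j⟩ hij ⟨h1, h2⟩
      rw [Finset.HasAntidiagonal.mem_antidiagonal] at hij
      simp only [ne_eq, Prod.mk.injEq, not_and] at h1 h2
      simp only at hij ⊢
      by_cases hi : k + 1 < i
      · rw [coeff_derivative, coeff_eq_zero_of_natDegree_lt (by omega : f.natDegree < i + 1)]; ring
      · by_cases hj : k + 2 < j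
        · rw [coeff_eq_zero_of_natDegree_lt (by omega : g.natDegree < j)]; ring
        · exfalso
          by_cases hi1 : i = k + 1
          · exact h1 hi1 (by omega)
          · exact h2 (by omega) (by omega)
  have h1 := key φ.P φ.Q (by omega) (by omega)
  have h2 := key φ.Q φ.P (by omega) (by omega)
  rw [hk2, RMap.wr, coeff_sub, h1, mul_comm φ.P, h2, hk1, hdeg]
  ring

/-- numerator estimate at a critical point at infinity -/
lemma exists_num_crit_infty (φ : RMap K) (hD : 2 ≤ φ.deg) (hc : φ.wr.coeff (2 * φ.deg - 2) = 0) :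
    ∃ A : ℝ, 0 ≤ A ∧ ∀ (x : A1 K) (z : OnePoint K), x (C (hv φ z) * φ.P - C (hu φ z) * φ.Q) ≤
      A * (max (ch x ∞) (cc z ∞) * (ch x z * (max 1 (x X) ^ φ.deg * Mc z ^ φ.deg))) := by
  obtain ⟨A, hA0, hA⟩ := exists_coeff_bound φ.deg φ.P.coeff φ.Q.coeff
  have hcrit := coeff_wr_top φ hD
  rw [hc] at hcrit
  refine ⟨A, hA0, fun x z => ?_⟩
  have hM := Mx_pos x
  have hP : φ.P = ∑ i ∈ Finset.range (φ.deg + 1), C (φ.P.coeff i) * X ^ i :=
    as_sum_range_C_mul_X_pow' φ.P (Nat.lt_succ_of_le (natDegree_P_le φ))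
  have hQ : φ.Q = ∑ i ∈ Finset.range (φ.deg + 1), C (φ.Q.coeff i) * X ^ i :=
    as_sum_range_C_mul_X_pow' φ.Q (Nat.lt_succ_of_le (natDegree_Q_le φ))
  obtain ⟨k, hk⟩ : ∃ k, φ.deg = k + 2 := ⟨φ.deg - 2, by omega⟩
  induction z using OnePoint.rec with
  | infty =>
    have e : C (hv φ ∞) * φ.P - C (hu φ ∞) * φ.Q = ∑ i ∈ Finset.range (k + 1),
        C (φ.Q.coeff φ.deg * φ.P.coeff i - φ.P.coeff φ.deg * φ.Q.coeff i) * X ^ i := by
      have : C (hv φ ∞) * φ.P - C (hu φ ∞) * φ.Q = ∑ i ∈ Finset.range (k + 2 + 1),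
        C (φ.Q.coeff φ.deg * φ.P.coeff i - φ.P.coeff φ.deg * φ.Q.coeff i) * X ^ i := by
        conv_lhs => rw [hP, hQ]
        rw [Finset.mul_sum, Finset.mul_sum, ← Finset.sum_sub_distrib, hk]
        apply Finset.sum_congr rfl
        intro i _
        simp only [hv_infty, hu_infty, C_sub, C_mul, hk]; ring
      rw [this, Finset.sum_range_succ, Finset.sum_range_succ]
      have h0 : φ.Q.coeff φ.deg * φ.P.coeff (k + 2) - φ.P.coeff φ.deg * φ.Q.coeff (k + 2) = 0 := by
        rw [← hk]; ring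
      have h1 : φ.Q.coeff φ.deg * φ.P.coeff (k + 1) - φ.P.coeff φ.deg * φ.Q.coeff (k + 1) = 0 := by
        have : φ.deg - 1 = k + 1 := by omega
        rw [this] at hcrit
        linear_combination hcrit
      rw [h0, h1]; simp
    rw [e, Mc_infty, one_pow, mul_one, ch_infty, cc_ii, max_eq_left (by positivity)]
    have h2 : 1 / max 1 (x X) * (1 / max 1 (x X) * max 1 (x X) ^ φ.deg) = max 1 (x X) ^ k := by
      rw [hk, pow_add]; field_simp
    rw [h2]
    apply x.sum_le _ _ (by positivity)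
    intro i hi
    have hi' := Finset.mem_range.1 hi
    rw [x.map_C_mul, x.map_pow]
    apply mul_le_mul _ _ (pow_nonneg (x.nonneg _) _) hA0
    · refine (norm_sub_le_max' _ _).trans (max_le ?_ ?_)
      · rw [mul_comm]
        exact hA (i, φ.deg) (Finset.mem_product.2 ⟨Finset.mem_range.2 (by simp; omega), Finset.mem_range.2 (by simp)⟩)
      · exact hA (φ.deg, i) (Finset.mem_product.2 ⟨Finset.mem_range.2 (by simp), Finset.mem_range.2 (by simp; omega)⟩)
    · calc x X ^ i ≤ max 1 (x X) ^ i := pow_le_pow_left₀ (x.nonneg _) (le_max_right _ _) _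
        _ ≤ max 1 (x X) ^ k := pow_le_pow_right₀ (le_max_left _ _) (by omega)
  | coe z =>
    have hz := Ma_pos z
    set S := Finset.range (φ.deg + 1) ×ˢ Finset.range (φ.deg + 1) with hS
    set T : Finset (ℕ × ℕ) := {(k + 2, k + 1), (k + 1, k + 2)} with hT
    have hTS : T ⊆ S := by
      intro p hp
      rw [hT, Finset.mem_insert, Finset.mem_singleton] at hp
      rw [hS, Finset.mem_product, Finset.mem_range, Finset.mem_range]
      rcases hp with rfl | rfl <;> simp <;> omega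
    have e : C (hv φ z) * φ.P - C (hu φ z) * φ.Q = ∑ p ∈ S \ T,
      C (φ.P.coeff p.1 * φ.Q.coeff p.2) * (X ^ p.1 * C (z ^ p.2) - X ^ p.2 * C (z ^ p.1)) := by
      have e1 : C (hv φ z) * φ.P - C (hu φ z) * φ.Q = ∑ p ∈ S,
          C (φ.P.coeff p.1 * φ.Q.coeff p.2) * (X ^ p.1 * C (z ^ p.2) - X ^ p.2 * C (z ^ p.1)) := by
        rw [hS, ← det_expand X z φ.deg φ.P.coeff φ.Q.coeff, ← hP, ← hQ, hv_coe, hu_coe]
        rw [eval_eq_sum_range' (Nat.lt_succ_of_le (natDegree_P_le φ)), eval_eq_sum_range' (Nat.lt_succ_of_le (natDegree_Q_le φ))]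
      rw [e1, ← Finset.sum_sdiff hTS]
      have h0 : ∑ p ∈ T, C (φ.P.coeff p.1 * φ.Q.coeff p.2) * (X ^ p.1 * C (z ^ p.2) - X ^ p.2 * C (z ^ p.1)) = 0 := by
        rw [hT, Finset.sum_pair (by simp)]
        have : φ.P.coeff (k + 2) * φ.Q.coeff (k + 1) = φ.P.coeff (k + 1) * φ.Q.coeff (k + 2) := by
          have h1 : φ.deg - 1 = k + 1 := by omega
          rw [h1, hk] at hcrit
          linear_combination -hcrit
        simp only
        rw [this]; ring
      rw [h0, add_zero]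
    rw [e, Mc_coe, ch_coe, ch_infty, cc_ci]
    have hBpos : 0 ≤ (max 1 (x X) * max 1 ‖z‖) ^ k * max (max 1 (x X)) (max 1 ‖z‖) := by positivity
    refine (sum_estimate x X z _ _ _ (B := (max 1 (x X) * max 1 ‖z‖) ^ k * max (max 1 (x X)) (max 1 ‖z‖)) hBpos hA0
      (fun p hp => hA p (Finset.mem_sdiff.1 hp).1) ?_).trans (le_of_eq ?_)
    · intro p hp
      have hp1 := (Finset.mem_sdiff.1 hp).1
      have hp2 := (Finset.mem_sdiff.1 hp).2
      rw [hS, Finset.mem_product, Finset.mem_range, Finset.mem_range] at hp1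
      rw [hT, Finset.mem_insert, Finset.mem_singleton, not_or] at hp2
      apply term_le' x X z _ _ hBpos
      intro l m hlm
      have hmm : 1 ≤ max 1 (x X) * max 1 ‖z‖ := one_le_mul_of_one_le_of_one_le (le_max_left _ _) (le_max_left _ _)
      have h1 : x X ≤ max 1 (x X) := le_max_right _ _
      have h2 : ‖z‖ ≤ max 1 ‖z‖ := le_max_right _ _
      have hNle : max (x X) ‖z‖ ≤ max (max 1 (x X)) (max 1 ‖z‖) := max_le_max h1 h2
      have hN1 : max (max 1 (x X)) (max 1 ‖z‖) ≤ max 1 (x X) * max 1 ‖z‖ := by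
        apply max_le
        · calc max 1 (x X) = max 1 (x X) * 1 := by rw [mul_one]
            _ ≤ _ := by gcongr; exact le_max_left _ _
        · calc max 1 ‖z‖ = 1 * max 1 ‖z‖ := by rw [one_mul]
            _ ≤ _ := by gcongr; exact le_max_left _ _
      have hNone : 1 ≤ max (max 1 (x X)) (max 1 ‖z‖) := (le_max_left _ _).trans (le_max_left _ _)
      have hxX := x.nonneg X
      rcases Nat.eq_zero_or_pos m with hm0 | hm0
      · -- m = 0 : then l ≤ k
        subst hm0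
        have hl : l ≤ k := by
          by_contra hcon
          push Not at hcon
          rcases hlm with ⟨h3, h4⟩ | ⟨h3, h4⟩
          · exact hp2.2 (Prod.ext (by simp; omega) (by simp; omega))
          · exact hp2.1 (Prod.ext (by simp; omega) (by simp; omega))
        rw [pow_zero, mul_one]
        calc (x X * ‖z‖) ^ l ≤ (max 1 (x X) * max 1 ‖z‖) ^ l := by gcongr
          _ ≤ (max 1 (x X) * max 1 ‖z‖) ^ k := pow_le_pow_right₀ hmm hl
          _ ≤ _ := le_mul_of_one_le_right (by positivity) hNone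
      · obtain ⟨m', rfl⟩ : ∃ m', m = m' + 1 := ⟨m - 1, by omega⟩
        have hlm' : l + m' ≤ k := by omega
        rw [pow_succ, ← mul_assoc]
        calc (x X * ‖z‖) ^ l * max (x X) ‖z‖ ^ m' * max (x X) ‖z‖
            ≤ (max 1 (x X) * max 1 ‖z‖) ^ l * (max 1 (x X) * max 1 ‖z‖) ^ m' * max (max 1 (x X)) (max 1 ‖z‖) := by
              gcongr
              exact hNle.trans hN1
          _ = (max 1 (x X) * max 1 ‖z‖) ^ (l + m') * max (max 1 (x X)) (max 1 ‖z‖) := by rw [pow_add]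
          _ ≤ _ := by gcongr
    · have h3 : max (1 / max 1 (x X)) (1 / max 1 ‖z‖) = max (max 1 (x X)) (max 1 ‖z‖) / (max 1 (x X) * max 1 ‖z‖) := by
        rw [← max_div_div_right (by positivity), max_comm]
        congr 1
        · field_simp
        · field_simp
      rw [h3, hk, pow_add, pow_add, mul_pow]
      field_simp

lemma taylor_expand (c : K) {d : ℕ} {f : K[X]} (hf : f.natDegree ≤ d) :
    f = ∑ i ∈ Finset.range (d + 1), C (co c i f) * (X - C c) ^ i := by
  conv_lhs => rw [← sum_taylor_eq f c]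
  rw [sum_over_range' _ _ (d + 1)]
  · rfl
  · rw [natDegree_taylor]; omega
  · intro i; simp

lemma taylor_eval_expand (c : K) {d : ℕ} {f : K[X]} (hf : f.natDegree ≤ d) (z : K) :
    f.eval z = ∑ i ∈ Finset.range (d + 1), co c i f * (z - c) ^ i := by
  conv_lhs => rw [taylor_expand c hf]
  simp [eval_finsetSum]

lemma co_zero (c : K) (f : K[X]) : co c 0 f = f.eval c := by simp [co]

lemma co_one (c : K) (f : K[X]) : co c 1 f = (derivative f).eval c := by simp [co, taylor_coeff_one]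

/-- numerator estimate at a finite critical point -/
lemma exists_num_crit_coe (φ : RMap K) (hD : 1 ≤ φ.deg) (c : K) (hc : φ.wr.eval c = 0) :
    ∃ A : ℝ, 0 ≤ A ∧ ∀ (x : A1 K) (z : K) (r : ℝ), x (X - C c) ≤ r → ‖z - c‖ ≤ r → r ≤ 1 →
      x (C (hv φ z) * φ.P - C (hu φ z) * φ.Q) ≤ A * (x (X - C z) * r) := by
  obtain ⟨A, hA0, hA⟩ := exists_coeff_bound φ.deg (fun i => co c i φ.P) (fun i => co c i φ.Q)
  refine ⟨A, hA0, fun x z r hxr hzr hr1 => ?_⟩
  have hr0 : 0 ≤ r := (norm_nonneg _).trans hzr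
  have hP := taylor_expand c (natDegree_P_le φ)
  have hQ := taylor_expand c (natDegree_Q_le φ)
  set S := Finset.range (φ.deg + 1) ×ˢ Finset.range (φ.deg + 1) with hS
  set T : Finset (ℕ × ℕ) := {(0, 1), (1, 0)} with hT
  have hTS : T ⊆ S := by
    intro p hp
    rw [hT, Finset.mem_insert, Finset.mem_singleton] at hp
    rw [hS, Finset.mem_product, Finset.mem_range, Finset.mem_range]
    rcases hp with rfl | rfl <;> simp <;> omega
  have hYw : (X - C c) - C (z - c) = X - C z := by rw [C_sub]; ring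
  have e : C (hv φ z) * φ.P - C (hu φ z) * φ.Q = ∑ p ∈ S \ T,
      C (co c p.1 φ.P * co c p.2 φ.Q) * ((X - C c) ^ p.1 * C ((z - c) ^ p.2) - (X - C c) ^ p.2 * C ((z - c) ^ p.1)) := by
    have e1 : C (hv φ z) * φ.P - C (hu φ z) * φ.Q = ∑ p ∈ S,
        C (co c p.1 φ.P * co c p.2 φ.Q) * ((X - C c) ^ p.1 * C ((z - c) ^ p.2) - (X - C c) ^ p.2 * C ((z - c) ^ p.1)) := by
      rw [hS, ← det_expand (X - C c) (z - c) φ.deg (fun i => co c i φ.P) (fun i => co c i φ.Q), ← hP, ← hQ, hv_coe, hu_coe,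
        ← taylor_eval_expand c (natDegree_P_le φ), ← taylor_eval_expand c (natDegree_Q_le φ)]
    rw [e1, ← Finset.sum_sdiff hTS]
    have h0 : ∑ p ∈ T, C (co c p.1 φ.P * co c p.2 φ.Q) *
        ((X - C c) ^ p.1 * C ((z - c) ^ p.2) - (X - C c) ^ p.2 * C ((z - c) ^ p.1)) = 0 := by
      rw [hT, Finset.sum_pair (by simp)]
      have : co c 0 φ.P * co c 1 φ.Q = co c 1 φ.P * co c 0 φ.Q := by
        rw [co_zero, co_zero, co_one, co_one]
        simp only [RMap.wr, eval_sub, eval_mul] at hc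
        linear_combination -hc
      simp only
      rw [this]; ring
    rw [h0, add_zero]
  rw [e, ← hYw]
  refine sum_estimate x (X - C c) (z - c) _ _ _ hr0 hA0 (fun p hp => hA p (Finset.mem_sdiff.1 hp).1) ?_
  intro p hp
  have hp1 := (Finset.mem_sdiff.1 hp).1
  have hp2 := (Finset.mem_sdiff.1 hp).2
  rw [hT, Finset.mem_insert, Finset.mem_singleton, not_or] at hp2
  apply term_le' x _ _ _ _ hr0
  intro l m hlm
  have hlm' : 1 ≤ l + m := by
    by_contra hcon
    push Not at hcon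
    have hl : l = 0 := by omega
    have hm : m = 0 := by omega
    subst hl; subst hm
    rcases hlm with ⟨h3, h4⟩ | ⟨h3, h4⟩
    · exact hp2.1 (Prod.ext (by simp; omega) (by simp; omega))
    · exact hp2.2 (Prod.ext (by simp; omega) (by simp; omega))
  have h1 : x (X - C c) * ‖z - c‖ ≤ r := by
    calc x (X - C c) * ‖z - c‖ ≤ r * 1 := by
          apply mul_le_mul hxr (hzr.trans hr1) (norm_nonneg _) hr0
      _ = r := mul_one r
  have h2 : max (x (X - C c)) ‖z - c‖ ≤ r := max_le hxr hzr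
  have h3 : 0 ≤ x (X - C c) * ‖z - c‖ := mul_nonneg (x.nonneg _) (norm_nonneg _)
  have h4 : 0 ≤ max (x (X - C c)) ‖z - c‖ := le_trans (norm_nonneg _) (le_max_right _ _)
  calc (x (X - C c) * ‖z - c‖) ^ l * max (x (X - C c)) ‖z - c‖ ^ m ≤ r ^ l * r ^ m := by gcongr
    _ = r ^ (l + m) := by rw [pow_add]
    _ ≤ r ^ 1 := pow_le_pow_of_le_one hr0 hr1 hlm'
    _ = r := pow_one r

lemma Mx_le_of_near (x : A1 K) (c : K) (h : ch x (c : OnePoint K) < 1 / max 1 ‖c‖) : max 1 (x X) ≤ max 1 ‖c‖ := by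
  by_contra hcon
  push Not at hcon
  have hc := Ma_pos c
  have h1 : ‖c‖ < max 1 (x X) := lt_of_le_of_lt (le_max_right _ _) hcon
  have h2 : 1 < x X := by
    by_contra h3
    push Not at h3
    rw [max_eq_left h3] at hcon
    exact absurd (le_max_left 1 ‖c‖) (not_le.2 hcon)
  have h3 : max 1 (x X) = x X := max_eq_right h2.le
  rw [h3] at h1
  rw [ch_coe, x.lin_of_large h1, h3] at h
  have h4 : x X / (x X * max 1 ‖c‖) = 1 / max 1 ‖c‖ := by
    have : 0 < x X := by linarith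
    field_simp
  rw [h4] at h
  exact lt_irrefl _ h

/-- second order estimate for the kernel near a critical point -/
theorem exists_crit_lip (φ : RMap K) (hD : 2 ≤ φ.deg) (c : OnePoint K)
    (hc : (c = ∞ ∧ φ.wr.coeff (2 * φ.deg - 2) = 0) ∨ ∃ a : K, c = a ∧ φ.wr.eval a = 0) :
    ∃ (B : ℝ) (ε : ℝ), 0 < B ∧ 0 < ε ∧ ∀ (x : A1 K) (hQ : x φ.Q ≠ 0) (z : OnePoint K), ch x c ≤ ε → cc z c ≤ ε →
      ch (push φ x hQ) (cmap φ z) ≤ B * (max (ch x c) (cc z c) * ch x z) := by
  obtain ⟨k, hk, hk1, hk2⟩ := exists_lift_lower φ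
  rcases hc with ⟨rfl, hc⟩ | ⟨c, rfl, hc⟩
  · obtain ⟨A, hA0, hA⟩ := exists_num_crit_infty φ hD hc
    refine ⟨A / (k * k) + 1, 1, by positivity, one_pos, fun x hQ z _ _ => ?_⟩
    have hM := Mx_pos x
    have hz : 0 < Mc z := lt_of_lt_of_le one_pos (one_le_Mc z)
    have hch := ch_nonneg x z
    have hmx : 0 ≤ max (ch x ∞) (cc z ∞) := (ch_nonneg x ∞).trans (le_max_left _ _)
    rw [ch_push_cmap]
    have hm := max_PQ_pos φ x
    have hden : k * max 1 (x X) ^ φ.deg * (k * Mc z ^ φ.deg) ≤ max (x φ.P) (x φ.Q) * max ‖hu φ z‖ ‖hv φ z‖ :=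
      mul_le_mul (hk1 x) (hk2 z) (by positivity) hm.le
    have hdenpos : 0 < k * max 1 (x X) ^ φ.deg * (k * Mc z ^ φ.deg) := by positivity
    calc x (C (hv φ z) * φ.P - C (hu φ z) * φ.Q) / (max (x φ.P) (x φ.Q) * max ‖hu φ z‖ ‖hv φ z‖)
        ≤ (A * (max (ch x ∞) (cc z ∞) * (ch x z * (max 1 (x X) ^ φ.deg * Mc z ^ φ.deg)))) /
          (k * max 1 (x X) ^ φ.deg * (k * Mc z ^ φ.deg)) := by
          apply div_le_div₀ (by positivity) (hA x z) hdenpos hden
      _ = A / (k * k) * (max (ch x ∞) (cc z ∞) * ch x z) := by field_simp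
      _ ≤ _ := by
          apply mul_le_mul_of_nonneg_right _ (by positivity)
          linarith
  · obtain ⟨A, hA0, hA⟩ := exists_num_crit_coe φ (by omega) c hc
    have hMc := Ma_pos c
    have hMc1 : 1 ≤ max 1 ‖c‖ := le_max_left _ _
    set M := max 1 ‖c‖ with hMdef
    refine ⟨A * M ^ 4 / (k * k) + 1, 1 / (2 * M ^ 2), by positivity, by positivity, fun x hQ z hx hz => ?_⟩
    have hM := Mx_pos x
    have hlt : 1 / (2 * M ^ 2) < 1 / M := by
      apply one_div_lt_one_div_of_lt hMc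
      nlinarith
    have hxM : max 1 (x X) ≤ M := Mx_le_of_near x c (lt_of_le_of_lt hx hlt)
    -- z is finite
    induction z using OnePoint.rec with
    | infty =>
      exfalso
      rw [cc_ic] at hz
      exact absurd hz (not_le.2 hlt)
    | coe z =>
    have hz0 := Ma_pos z
    have hzM : max 1 ‖z‖ ≤ M := by
      have h1 : ch (evalPt z) (c : OnePoint K) = cc (z : OnePoint K) (c : OnePoint K) := by
        rw [ch_coe, cc_cc, evalPt_apply, evalPt_apply]; simp
      have := Mx_le_of_near (evalPt z) c (by rw [h1]; exact lt_of_le_of_lt hz hlt)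
      have h2 : (evalPt z : A1 K) X = ‖z‖ := by rw [evalPt_apply, eval_X]
      rw [h2] at this
      exact this
    have hxc : x (X - C c) ≤ M ^ 2 * ch x (c : OnePoint K) := by
      have : x (X - C c) = (max 1 (x X) * max 1 ‖c‖) * ch x (c : OnePoint K) := by rw [ch_coe]; field_simp
      have h0 := ch_nonneg x (c : OnePoint K)
      calc x (X - C c) = (max 1 (x X) * max 1 ‖c‖) * ch x (c : OnePoint K) := this
        _ ≤ (M * M) * ch x (c : OnePoint K) := by gcongr
        _ = _ := by rw [pow_two]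
    have hzc : ‖z - c‖ ≤ M ^ 2 * cc (z : OnePoint K) (c : OnePoint K) := by
      have : ‖z - c‖ = (max 1 ‖z‖ * max 1 ‖c‖) * cc (z : OnePoint K) (c : OnePoint K) := by rw [cc_cc]; field_simp
      have h0 := cc_nonneg (z : OnePoint K) (c : OnePoint K)
      calc ‖z - c‖ = (max 1 ‖z‖ * max 1 ‖c‖) * cc (z : OnePoint K) (c : OnePoint K) := this
        _ ≤ (M * M) * cc (z : OnePoint K) (c : OnePoint K) := by gcongr
        _ = _ := by rw [pow_two]
    set m := max (ch x (c : OnePoint K)) (cc (z : OnePoint K) (c : OnePoint K)) with hm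
    have hm0 : 0 ≤ m := (ch_nonneg x _).trans (le_max_left _ _)
    have hmε : m ≤ 1 / (2 * M ^ 2) := max_le hx hz
    have hr1 : M ^ 2 * m ≤ 1 := by
      calc M ^ 2 * m ≤ M ^ 2 * (1 / (2 * M ^ 2)) := by gcongr
        _ = 1 / 2 := by field_simp
        _ ≤ 1 := by norm_num
    have h1 := hA x z (M ^ 2 * m) (hxc.trans (by gcongr; exact le_max_left _ _)) (hzc.trans (by gcongr; exact le_max_right _ _)) hr1
    have hch : x (X - C z) = ch x (z : OnePoint K) * (max 1 (x X) * max 1 ‖z‖) := by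
      rw [ch_coe]; field_simp
    have hchn := ch_nonneg x (z : OnePoint K)
    rw [ch_push_cmap]
    have hmm := max_PQ_pos φ x
    have hden : k * k ≤ max (x φ.P) (x φ.Q) * max ‖hu φ (z : OnePoint K)‖ ‖hv φ (z : OnePoint K)‖ := by
      apply mul_le_mul _ _ hk.le hmm.le
      · refine le_trans ?_ (hk1 x)
        exact le_mul_of_one_le_right hk.le (one_le_pow₀ (le_max_left _ _))
      · refine le_trans ?_ (hk2 (z : OnePoint K))
        exact le_mul_of_one_le_right hk.le (one_le_pow₀ (one_le_Mc _))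
    calc x (C (hv φ (z : OnePoint K)) * φ.P - C (hu φ (z : OnePoint K)) * φ.Q) /
          (max (x φ.P) (x φ.Q) * max ‖hu φ (z : OnePoint K)‖ ‖hv φ (z : OnePoint K)‖)
        ≤ (A * (x (X - C z) * (M ^ 2 * m))) / (k * k) := by
          apply div_le_div₀ _ h1 (by positivity) hden
          have := x.nonneg (X - C z)
          positivity
      _ ≤ (A * ((ch x (z : OnePoint K) * (M * M)) * (M ^ 2 * m))) / (k * k) := by
          rw [hch]
          gcongr
      _ = A * M ^ 4 / (k * k) * (m * ch x (z : OnePoint K)) := by ring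
      _ ≤ _ := by
          apply mul_le_mul_of_nonneg_right _ (by positivity)
          linarith

end BerkFix
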