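import Pool.Agent.Lib.MP_edb0ca_an.Iter

set_option linter.unusedSectionVars false
set_option linter.unusedVariables false

open Polynomial OnePoint Topology Filter

namespace BerkFix

variable {K : Type*} [NormedField K] [IsUltrametricDist K] [IsAlgClosed K]

lemma gn_mono_r (c : K) {r r' : ℝ} (hr : 0 ≤ r) (h : r ≤ r') (f : K[X]) : gn c r f ≤ gn c r' f := by
  unfold gn
  gcongr
  induction f.roots using Multiset.induction_on with
  | empty => simp
  | cons a s ih =>
    rw [Multiset.map_cons, Multiset.prod_cons, Multiset.map_cons, Multiset.prod_cons]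
    have h2 : 0 ≤ (s.map (fun z => max ‖z - c‖ r)).prod := by
      apply Multiset.prod_nonneg
      intro y hy
      obtain ⟨z, _, rfl⟩ := Multiset.mem_map.1 hy
      exact le_trans (norm_nonneg _) (le_max_left _ _)
    exact mul_le_mul (max_le_max le_rfl h) ih h2 (le_trans (norm_nonneg _) (le_max_left _ _))

/-- coefficient estimate on the pencil -/
lemma Im.coeff_pencil {φ : RMap K} {c : K} {r : ℝ} {b : K} {ρ : ℝ} (h : Im φ c r b ρ) (hr : 0 < r)
    (hD : 1 ≤ φ.deg) {q : ℝ} (hq : 0 < q) (i : ℕ)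
    (h1 : ‖co c i (φ.F b)‖ * r ^ i < q * (ρ * gn c r φ.Q)) (h2 : ‖co c i φ.Q‖ * r ^ i < q * gn c r φ.Q)
    (a : OnePoint K) : ‖co c i (φ.F a)‖ * r ^ i < q * gn c r (φ.F a) := by
  have hg : 0 < gn c r φ.Q := gn_pos c hr (Q_ne_zero φ hD)
  have hρ := h.1
  induction a using OnePoint.rec with
  | infty => exact h2
  | coe a =>
    have e : φ.F (a : OnePoint K) = φ.F (b : OnePoint K) - C (a - b) * φ.Q := by
      simp only [F_coe, C_sub]; ring
    have hmax : 0 < max ‖a - b‖ ρ := lt_of_lt_of_le hρ (le_max_right _ _)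
    rw [h.gn_F a, wt_coe, e, co_sub, co_C_mul]
    calc ‖co c i (φ.F b) - (a - b) * co c i φ.Q‖ * r ^ i
        ≤ max ‖co c i (φ.F b)‖ ‖(a - b) * co c i φ.Q‖ * r ^ i := by gcongr; exact norm_sub_le_max' _ _
      _ = max (‖co c i (φ.F b)‖ * r ^ i) (‖(a - b) * co c i φ.Q‖ * r ^ i) := by
          rw [max_mul_of_nonneg _ _ (by positivity)]
      _ < q * (max ‖a - b‖ ρ * gn c r φ.Q) := by
          apply max_lt
          · refine lt_of_lt_of_le h1 ?_
            gcongr; exact le_max_right _ _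
          · rw [norm_mul, mul_assoc]
            calc ‖a - b‖ * (‖co c i φ.Q‖ * r ^ i) ≤ max ‖a - b‖ ρ * (‖co c i φ.Q‖ * r ^ i) := by
                  gcongr; exact le_max_left _ _
              _ < max ‖a - b‖ ρ * (q * gn c r φ.Q) := by gcongr
              _ = q * (max ‖a - b‖ ρ * gn c r φ.Q) := by ring

lemma shrinkO (φ : RMap K) (hD : 1 ≤ φ.deg) (c : K) {r : ℝ} (hr : 0 < r) :
    ∃ r', 0 < r' ∧ r' < r ∧ ∀ a, sV φ c r (Option.some (Metric.ball c r)) ≤ nB c r' (φ.F a) := by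
  obtain ⟨b, ρ, h⟩ := exists_Im φ hD c hr
  have hg : 0 < gn c r φ.Q := gn_pos c hr (Q_ne_zero φ hD)
  have hρ := h.1
  set s := sV φ c r (Option.some (Metric.ball c r)) with hs
  have hself : ‖c - c‖ ≤ r := by simpa using hr.le
  have hs' : ∀ a, s ≤ nO c r (φ.F a) := by
    intro a
    rw [← cnt_some φ hr a hself]; exact sV_le _ _ _ _ _
  have hcont : Tendsto (fun r' : ℝ => (r' / r) ^ φ.deg) (𝓝[<] r) (𝓝 1) := by
    have : Tendsto (fun r' : ℝ => (r' / r) ^ φ.deg) (𝓝 r) (𝓝 ((r / r) ^ φ.deg)) :=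
      ((continuous_id.div_const r).pow _).tendsto r
    rw [div_self hr.ne', one_pow] at this
    exact this.mono_left nhdsWithin_le_nhds
  have hev : ∀ᶠ r' in 𝓝[<] r, ∀ i ∈ Finset.range s, ‖co c i (φ.F b)‖ * r ^ i < (r' / r) ^ φ.deg * (ρ * gn c r φ.Q) ∧
      ‖co c i φ.Q‖ * r ^ i < (r' / r) ^ φ.deg * gn c r φ.Q := by
    rw [Filter.eventually_all_finset]
    intro i hi
    have hi' : i < s := Finset.mem_range.1 hi
    have h1 : ‖co c i (φ.F b)‖ * r ^ i < 1 * (ρ * gn c r φ.Q) := by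
      have := lt_nO c hr (F_ne_zero φ hD b) (lt_of_lt_of_le hi' (hs' b))
      rw [h.gn_F b, wt_coe, sub_self, norm_zero, max_eq_right hρ.le] at this
      rw [one_mul]; exact this
    have h2 : ‖co c i φ.Q‖ * r ^ i < 1 * gn c r φ.Q := by
      rw [one_mul]
      exact lt_nO c hr (F_ne_zero φ hD ∞) (lt_of_lt_of_le hi' (hs' ∞))
    exact ((hcont.mul_const _).eventually_const_lt h1).and ((hcont.mul_const _).eventually_const_lt h2)
  have hev2 : ∀ᶠ r' in 𝓝[<] r, 0 < r' ∧ r' < r := by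
    filter_upwards [Ioo_mem_nhdsLT hr] with r' hr'
    exact hr'
  obtain ⟨r', hr'1, hr'0, hr'r⟩ := (hev.and hev2).exists
  refine ⟨r', hr'0, hr'r, fun a => ?_⟩
  by_contra hcon
  push Not at hcon
  have hq : 0 < (r' / r) ^ φ.deg := by positivity
  have h3 := h.coeff_pencil hr hD hq _ (hr'1 _ (Finset.mem_range.2 hcon)).1 (hr'1 _ (Finset.mem_range.2 hcon)).2 a
  have h4 := gn_nB c hr'0 (φ.F a)
  have h5 : (r' / r) ^ φ.deg * gn c r (φ.F a) ≤ gn c r' (φ.F a) := by
    rw [← gn_nO c hr (φ.F a)]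
    refine le_trans ?_ (le_gn c hr'0 (nO c r (φ.F a)) (φ.F a))
    have h6 : nO c r (φ.F a) ≤ φ.deg := (nO_le_nB _ _ _).trans ((nB_le_natDegree _ _ _).trans (natDegree_F_le φ a))
    have h7 : (r' / r) ^ φ.deg ≤ (r' / r) ^ nO c r (φ.F a) :=
      pow_le_pow_of_le_one (by positivity) ((div_le_one hr).2 hr'r.le) h6
    calc (r' / r) ^ φ.deg * (‖co c (nO c r (φ.F a)) (φ.F a)‖ * r ^ nO c r (φ.F a))
        ≤ (r' / r) ^ nO c r (φ.F a) * (‖co c (nO c r (φ.F a)) (φ.F a)‖ * r ^ nO c r (φ.F a)) := by gcongr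
      _ = ‖co c (nO c r (φ.F a)) (φ.F a)‖ * r' ^ nO c r (φ.F a) := by rw [div_pow]; field_simp
  have h8 : ‖co c (nB c r' (φ.F a)) (φ.F a)‖ * r' ^ nB c r' (φ.F a) ≤
      ‖co c (nB c r' (φ.F a)) (φ.F a)‖ * r ^ nB c r' (φ.F a) := by gcongr
  linarith

lemma shrinkC (φ : RMap K) (hD : 1 ≤ φ.deg) (c : K) {r : ℝ} (hr : 0 < r) :
    ∃ r', r < r' ∧ ∀ a, sV φ c r none ≤ φ.deg - nO c r' (φ.F a) := by
  obtain ⟨b, ρ, h⟩ := exists_Im φ hD c hr
  have hg : 0 < gn c r φ.Q := gn_pos c hr (Q_ne_zero φ hD)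
  have hρ := h.1
  set s := sV φ c r none with hs
  have hdeg : ∀ a r', nO c r' (φ.F a) ≤ φ.deg := fun a r' =>
    (nO_le_nB _ _ _).trans ((nB_le_natDegree _ _ _).trans (natDegree_F_le φ a))
  have hs' : ∀ a, nB c r (φ.F a) + s ≤ φ.deg := by
    intro a
    have h1 := sV_le φ c r none a
    rw [cnt_none] at h1
    have h2 : nB c r (φ.F a) ≤ φ.deg := (nB_le_natDegree _ _ _).trans (natDegree_F_le φ a)
    omega
  have hcont : Tendsto (fun r' : ℝ => (r' / r) ^ φ.deg) (𝓝[>] r) (𝓝 1) := by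
    have : Tendsto (fun r' : ℝ => (r' / r) ^ φ.deg) (𝓝 r) (𝓝 ((r / r) ^ φ.deg)) :=
      ((continuous_id.div_const r).pow _).tendsto r
    rw [div_self hr.ne', one_pow] at this
    exact this.mono_left nhdsWithin_le_nhds
  have hcont' : Tendsto (fun r' : ℝ => ((r' / r) ^ φ.deg)⁻¹) (𝓝[>] r) (𝓝 1) := by
    have := hcont.inv₀ one_ne_zero
    rwa [inv_one] at this
  have hev : ∀ᶠ r' in 𝓝[>] r, ∀ i ∈ (Finset.range (φ.deg + 1)).filter (fun i => φ.deg < i + s),
      ‖co c i (φ.F b)‖ * r ^ i < ((r' / r) ^ φ.deg)⁻¹ * (ρ * gn c r φ.Q) ∧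
      ‖co c i φ.Q‖ * r ^ i < ((r' / r) ^ φ.deg)⁻¹ * gn c r φ.Q := by
    rw [Filter.eventually_all_finset]
    intro i hi
    have hi' := (Finset.mem_filter.1 hi).2
    have h1 : ‖co c i (φ.F b)‖ * r ^ i < 1 * (ρ * gn c r φ.Q) := by
      have := gt_nB c hr (F_ne_zero φ hD b) (i := i) (by have := hs' b; omega)
      rw [h.gn_F b, wt_coe, sub_self, norm_zero, max_eq_right hρ.le] at this
      rw [one_mul]; exact this
    have h2 : ‖co c i φ.Q‖ * r ^ i < 1 * gn c r φ.Q := by
      rw [one_mul]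
      exact gt_nB c hr (F_ne_zero φ hD ∞) (i := i) (by have := hs' ∞; omega)
    exact ((hcont'.mul_const _).eventually_const_lt h1).and ((hcont'.mul_const _).eventually_const_lt h2)
  have hev2 : ∀ᶠ r' in 𝓝[>] r, r < r' := eventually_mem_nhdsWithin
  obtain ⟨r', hr'1, hr'r⟩ := (hev.and hev2).exists
  have hr'0 : 0 < r' := hr.trans hr'r
  refine ⟨r', hr'r, fun a => ?_⟩
  by_contra hcon
  push Not at hcon
  have hj := hdeg a r'
  have hmem : nO c r' (φ.F a) ∈ (Finset.range (φ.deg + 1)).filter (fun i => φ.deg < i + s) := by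
    rw [Finset.mem_filter, Finset.mem_range]; omega
  have hq : 0 < ((r' / r) ^ φ.deg)⁻¹ := by positivity
  have h3 := h.coeff_pencil hr hD hq _ (hr'1 _ hmem).1 (hr'1 _ hmem).2 a
  have h4 := gn_nO c hr'0 (φ.F a)
  have h5 : gn c r (φ.F a) ≤ gn c r' (φ.F a) := gn_mono_r c hr.le hr'r.le _
  have h6 : gn c r' (φ.F a) < gn c r (φ.F a) := by
    rw [← h4]
    calc ‖co c (nO c r' (φ.F a)) (φ.F a)‖ * r' ^ nO c r' (φ.F a)
        = (r' / r) ^ nO c r' (φ.F a) * (‖co c (nO c r' (φ.F a)) (φ.F a)‖ * r ^ nO c r' (φ.F a)) := by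
          rw [div_pow]; field_simp
      _ ≤ (r' / r) ^ φ.deg * (‖co c (nO c r' (φ.F a)) (φ.F a)‖ * r ^ nO c r' (φ.F a)) := by
          gcongr
          exact (one_le_div hr).2 hr'r.le
      _ < (r' / r) ^ φ.deg * (((r' / r) ^ φ.deg)⁻¹ * gn c r (φ.F a)) := by
          gcongr
      _ = gn c r (φ.F a) := by field_simp
  linarith

lemma isClosed_cb (z : K) (r : ℝ) : IsClosed ((fun y : A1 K => (y : P1 K)) '' {y : A1 K | y (X - C z) ≤ r}) :=
  ((isCompact_cball z r).image OnePoint.continuous_coe).isClosed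

lemma isOpen_ob (z : K) (r : ℝ) : IsOpen ((fun y : A1 K => (y : P1 K)) '' {y : A1 K | y (X - C z) < r}) :=
  OnePoint.isOpen_image_coe.2 (isOpen_lt (continuous_eval_A1 _) continuous_const)

lemma le_card_filter_in (φ : RMap K) (a : OnePoint K) (p : OnePoint K → Prop) [DecidablePred p] {z : K} {r : ℝ}
    (h : ∀ w : K, ‖w - z‖ ≤ r → p w) : nB z r (φ.F a) ≤ ((φ.fib a).filter p).card := by
  classical
  unfold RMap.fib
  rw [Multiset.filter_add, Multiset.card_add]
  refine le_trans ?_ (Nat.le_add_right _ _)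
  rw [Multiset.filter_map, Multiset.card_map, nB, Multiset.countP_eq_card_filter]
  apply Multiset.card_le_card
  apply Multiset.monotone_filter_right
  intro w hw
  exact h w hw

lemma le_card_filter_out (φ : RMap K) (a : OnePoint K) (p : OnePoint K → Prop) [DecidablePred p] {c : K} {r : ℝ}
    (hi : p ∞) (h : ∀ w : K, r ≤ ‖w - c‖ → p w) : φ.deg - nO c r (φ.F a) ≤ ((φ.fib a).filter p).card := by
  classical
  unfold RMap.fib
  rw [Multiset.filter_add, Multiset.card_add, Multiset.filter_map, Multiset.card_map]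
  have e2 : Multiset.filter p (Multiset.replicate (φ.deg - (φ.F a).natDegree) (∞ : OnePoint K)) =
      Multiset.replicate (φ.deg - (φ.F a).natDegree) ∞ := by
    rw [Multiset.filter_eq_self]
    intro z hz
    rw [Multiset.eq_of_mem_replicate hz]
    exact hi
  rw [e2, Multiset.card_replicate]
  have e3 : (φ.F a).natDegree ≤ nO c r (φ.F a) + (Multiset.filter (p ∘ fun z => ((z : K) : OnePoint K)) (φ.F a).roots).card := by
    rw [← IsAlgClosed.card_roots_eq_natDegree, nO, Multiset.countP_eq_card_filter]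
    have : (φ.F a).roots = Multiset.filter (fun z => ‖z - c‖ < r) (φ.F a).roots +
        Multiset.filter (fun z => ¬ ‖z - c‖ < r) (φ.F a).roots := (Multiset.filter_add_not _ _).symm
    conv_lhs => rw [this]
    rw [Multiset.card_add]
    gcongr
    apply Multiset.monotone_filter_right
    intro w hw
    exact h w (not_lt.1 hw)
  have := natDegree_F_le φ a
  omega

/-- the local degree at `ζ(c,r)` is at most the multiplicity -/
theorem localDegree_zt_le (φ : RMap K) (hD : 1 ≤ φ.deg) (c : K) {r : ℝ} (hr : 0 < r) :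
    localDegree φ (zt c r hr : P1 K) ≤ mu φ c r := by
  classical
  -- closed sets
  have hC : ∀ V : Option (Set K), (∃ z, lab c r z = V) → ∃ Cl : Set (P1 K), IsClosed Cl ∧ (zt c r hr : P1 K) ∉ Cl ∧
      ∀ a, sV φ c r V ≤ ((φ.fib a).filter (fun z => lab c r z = V ∧ cl z ∈ Cl)).card := by
    intro V hV
    rcases dir_cases c r V with ⟨z, hz, rfl⟩ | rfl | hV'
    · obtain ⟨r', hr'0, hr'r, h1⟩ := shrinkO φ hD z hr
      refine ⟨_, isClosed_cb z r', ?_, ?_⟩
      · rintro ⟨y, hy, hy'⟩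
        rw [OnePoint.coe_eq_coe] at hy'
        rw [hy', Set.mem_ofPred_eq, zt_lin, max_eq_right hz] at hy
        exact absurd hr'r (not_lt.2 hy)
      · intro a
        rw [sV_some φ hr hz]
        refine (h1 a).trans ?_
        apply le_card_filter_in
        intro w hw
        constructor
        · rw [(lab_eq_iff_of_in (w := w) hr hz).2 (lt_of_le_of_lt hw hr'r), lab_coe_in hz]
        · refine ⟨evalPt w, ?_, rfl⟩
          rw [Set.mem_ofPred_eq, evalPt_apply]
          simpa using hw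
    · obtain ⟨r', hr'r, h1⟩ := shrinkC φ hD c hr
      refine ⟨((fun y : A1 K => (y : P1 K)) '' {y : A1 K | y (X - C c) < r'})ᶜ, (isOpen_ob c r').isClosed_compl, ?_, ?_⟩
      · rw [Set.mem_compl_iff, not_not]
        refine ⟨zt c r hr, ?_, rfl⟩
        rw [Set.mem_ofPred_eq, zt_lin]
        simp only [sub_self, norm_zero]
        rw [max_eq_right hr.le]; exact hr'r
      · intro a
        refine (h1 a).trans ?_
        refine le_trans (le_card_filter_out φ a (fun z => lab c r z = none ∧ cl z ∈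
          ((fun y : A1 K => (y : P1 K)) '' {y : A1 K | y (X - C c) < r'})ᶜ) (c := c) (r := r') ?_ ?_)
          (le_of_eq (by congr!))
        · refine ⟨rfl, ?_⟩
          rintro ⟨y, _, hy⟩
          simp at hy
        · intro w hw
          refine ⟨lab_coe_out (lt_of_lt_of_le hr'r hw), ?_⟩
          rintro ⟨y, hy, hy'⟩
          rw [cl_coe, OnePoint.coe_eq_coe] at hy'
          rw [hy', Set.mem_ofPred_eq, evalPt_apply] at hy
          simp at hy
          linarith
    · obtain ⟨z, hz⟩ := hV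
      exact absurd hz (hV' z)
  set 𝒱 := (base φ c r).toFinset with h𝒱
  have hrange : ∀ V ∈ 𝒱, ∃ z, lab c r z = V := by
    intro V hV
    rw [h𝒱, Multiset.mem_toFinset] at hV
    have := Multiset.mem_of_le (base_le φ c r ∞) hV
    obtain ⟨z, _, hz⟩ := Multiset.mem_map.1 this
    exact ⟨z, hz⟩
  have hC' : ∀ V : Option (Set K), ∃ Cl : Set (P1 K), V ∈ 𝒱 → (IsClosed Cl ∧ (zt c r hr : P1 K) ∉ Cl ∧
      ∀ a, sV φ c r V ≤ ((φ.fib a).filter (fun z => lab c r z = V ∧ cl z ∈ Cl)).card) := by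
    intro V
    by_cases hV : V ∈ 𝒱
    · obtain ⟨Cl, h⟩ := hC V (hrange V hV)
      exact ⟨Cl, fun _ => h⟩
    · exact ⟨∅, fun h => absurd h hV⟩
  choose Cl hCl using hC'
  apply Nat.sInf_le
  refine ⟨⋂ V ∈ 𝒱, (Cl V)ᶜ, ?_, ?_, ?_⟩
  · exact isOpen_biInter_finset (fun V hV => (hCl V hV).1.isOpen_compl)
  · simp only [Set.mem_iInter]
    intro V hV
    exact (hCl V hV).2.1
  · intro a
    set bad : OnePoint K → Prop := fun z => lab c r z ∈ 𝒱 ∧ cl z ∈ Cl (lab c r z) with hbad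
    have h1 : ((φ.fib a).filter (fun z => cl z ∈ ⋂ V ∈ 𝒱, (Cl V)ᶜ)).card ≤
        ((φ.fib a).filter (fun z => ¬ bad z)).card := by
      apply Multiset.card_le_card
      apply Multiset.monotone_filter_right
      intro z hz hb
      simp only [Set.mem_iInter] at hz
      exact hz _ hb.1 hb.2
    have h2 : ((φ.fib a).filter bad).card + ((φ.fib a).filter (fun z => ¬ bad z)).card = φ.deg := by
      rw [← Multiset.card_add, Multiset.filter_add_not, card_fib]
    have h3 : base φ c r ≤ ((φ.fib a).filter bad).map (lab c r) := by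
      rw [Multiset.le_iff_count]
      intro V
      by_cases hV : V ∈ 𝒱
      · rw [count_base, Multiset.count_map, Multiset.filter_filter]
        refine ((hCl V hV).2.2 a).trans ?_
        apply Multiset.card_le_card
        apply Multiset.monotone_filter_right
        rintro z ⟨hz1, hz2⟩
        refine ⟨hz1.symm, ?_⟩
        rw [hbad]; simp only
        rw [hz1]; exact ⟨hV, hz2⟩
      · rw [h𝒱, Multiset.mem_toFinset] at hV
        rw [Multiset.count_eq_zero.2 hV]; exact Nat.zero_le _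
    have h4 := Multiset.card_le_card h3
    rw [Multiset.card_map] at h4
    have h5 := card_base_add_mu φ c r
    omega

end BerkFix
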