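import Pool.Agent.Lib.MP_edb0ca_an.Pencil

set_option linter.unusedSectionVars false
set_option linter.unusedVariables false

open Polynomial OnePoint

namespace BerkFix

variable {K : Type*} [NormedField K] [IsUltrametricDist K] [IsAlgClosed K]

lemma sum_count_le {α : Type*} [DecidableEq α] (s : Finset α) (m : Multiset α) : ∑ V ∈ s, m.count V ≤ m.card := by
  rw [← Multiset.toFinset_sum_count_eq m]
  calc ∑ V ∈ s, m.count V = ∑ V ∈ s.filter (· ∈ m.toFinset), m.count V := by
        rw [Finset.sum_filter]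
        apply Finset.sum_congr rfl
        intro V _
        split_ifs with h
        · rfl
        · rw [Multiset.mem_toFinset] at h
          exact Multiset.count_eq_zero.2 h
    _ ≤ _ := Finset.sum_le_sum_of_subset (by intro x hx; exact (Finset.mem_filter.1 hx).2)

open Classical in
/-- The common part of all fibres, at the level of directions at `ζ(c,r)`. -/
noncomputable def base (φ : RMap K) (c : K) (r : ℝ) : Multiset (Option (Set K)) :=
  ∑ V ∈ ((φ.fib ∞).map (lab c r)).toFinset, Multiset.replicate (sV φ c r V) V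

open Classical in
lemma count_base (φ : RMap K) (c : K) (r : ℝ) (V : Option (Set K)) :
    (base φ c r).count V = sV φ c r V := by
  unfold base
  rw [Multiset.count_sum']
  simp only [Multiset.count_replicate]
  rw [Finset.sum_ite_eq']
  split_ifs with h
  · rfl
  · rw [Multiset.mem_toFinset] at h
    have h1 : cnt φ c r ∞ V = 0 := Multiset.count_eq_zero.2 h
    have h2 := sV_le φ c r V ∞
    omega

/-- the multiplicity of `φ` at `ζ(c,r)` -/
noncomputable def mu (φ : RMap K) (c : K) (r : ℝ) : ℕ := φ.deg - (base φ c r).card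

lemma base_le (φ : RMap K) (c : K) (r : ℝ) (a : OnePoint K) :
    base φ c r ≤ (φ.fib a).map (lab c r) := by
  classical
  rw [Multiset.le_iff_count]
  intro V
  rw [count_base]
  exact (sV_le φ c r V a).trans (le_of_eq (by unfold cnt; congr))

lemma card_base_le (φ : RMap K) (c : K) (r : ℝ) : (base φ c r).card ≤ φ.deg := by
  have := Multiset.card_le_card (base_le φ c r ∞)
  rwa [Multiset.card_map, card_fib] at this

lemma card_base_add_mu (φ : RMap K) (c : K) (r : ℝ) : (base φ c r).card + mu φ c r = φ.deg := by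
  have := card_base_le φ c r
  unfold mu; omega

open Classical in
/-- the moving part of the fibre -/
noncomputable def Ea (φ : RMap K) (c : K) (r : ℝ) (a : OnePoint K) : Multiset (Option (Set K)) :=
  (φ.fib a).map (lab c r) - base φ c r

lemma base_add_Ea (φ : RMap K) (c : K) (r : ℝ) (a : OnePoint K) :
    base φ c r + Ea φ c r a = (φ.fib a).map (lab c r) := by
  classical
  unfold Ea
  rw [add_comm]
  exact Multiset.sub_add_cancel (base_le φ c r a)

lemma card_Ea (φ : RMap K) (c : K) (r : ℝ) (a : OnePoint K) : (Ea φ c r a).card = mu φ c r := by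
  have h1 := congrArg Multiset.card (base_add_Ea φ c r a)
  rw [Multiset.card_add, Multiset.card_map, card_fib] at h1
  have h2 := card_base_add_mu φ c r
  omega

open Classical in
lemma count_Ea (φ : RMap K) (c : K) (r : ℝ) (a : OnePoint K) (V : Option (Set K)) :
    (Ea φ c r a).count V = cnt φ c r a V - sV φ c r V := by
  unfold Ea cnt
  rw [Multiset.count_sub, count_base]

lemma mu_pos (φ : RMap K) (hD : 1 ≤ φ.deg) (c : K) {r : ℝ} (hr : 0 < r) : 1 ≤ mu φ c r := by
  classical
  obtain ⟨a, ha⟩ := exists_sV_lt (φ := φ) (c := c) hr hD (V := lab c r ∞) ⟨∞, rfl⟩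
  rw [← card_Ea φ c r a]
  have h1 : 0 < (Ea φ c r a).count (lab c r ∞) := by
    rw [count_Ea]; omega
  exact lt_of_lt_of_le h1 (Multiset.count_le_card _ _)

lemma exists_sV_lt' (φ : RMap K) (hD : 1 ≤ φ.deg) (c : K) {r : ℝ} (hr : 0 < r) (a : OnePoint K) :
    ∃ V, sV φ c r V < cnt φ c r a V := by
  classical
  have h1 : 0 < (Ea φ c r a).card := by rw [card_Ea]; exact mu_pos φ hD c hr
  obtain ⟨V, hV⟩ := Multiset.card_pos_iff_exists_mem.1 h1
  refine ⟨V, ?_⟩
  have h2 := Multiset.count_pos.2 hV
  rw [count_Ea] at h2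
  omega

/-- the maximal number of preimages in a direction -/
noncomputable def MV (φ : RMap K) (c : K) (r : ℝ) (V : Option (Set K)) : ℕ :=
  sSup (Set.range (fun a => cnt φ c r a V))

lemma cnt_le_deg (φ : RMap K) (c : K) (r : ℝ) (a : OnePoint K) (V : Option (Set K)) :
    cnt φ c r a V ≤ φ.deg := by
  classical
  unfold cnt
  refine (Multiset.count_le_card _ _).trans ?_
  rw [Multiset.card_map, card_fib]

lemma bdd_cnt (φ : RMap K) (c : K) (r : ℝ) (V : Option (Set K)) :
    BddAbove (Set.range (fun a => cnt φ c r a V)) :=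
  ⟨φ.deg, by rintro _ ⟨a, rfl⟩; exact cnt_le_deg φ c r a V⟩

lemma le_MV (φ : RMap K) (c : K) (r : ℝ) (V : Option (Set K)) (a : OnePoint K) :
    cnt φ c r a V ≤ MV φ c r V := le_csSup (bdd_cnt φ c r V) ⟨a, rfl⟩

lemma exists_cnt_eq_MV (φ : RMap K) (c : K) (r : ℝ) (V : Option (Set K)) :
    ∃ a, cnt φ c r a V = MV φ c r V :=
  Nat.sSup_mem (s := Set.range (fun a => cnt φ c r a V)) ⟨_, ⟨∞, rfl⟩⟩ (bdd_cnt φ c r V)

lemma sV_lt_MV (φ : RMap K) (hD : 1 ≤ φ.deg) (c : K) {r : ℝ} (hr : 0 < r) {V : Option (Set K)}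
    (hV : ∃ z, lab c r z = V) : sV φ c r V < MV φ c r V := by
  obtain ⟨a, ha⟩ := exists_sV_lt (φ := φ) (c := c) hr hD hV
  exact lt_of_lt_of_le ha (le_MV _ _ _ _ _)

/-- two-valuedness -/
lemma cnt_two (φ : RMap K) (hD : 1 ≤ φ.deg) (c : K) {r : ℝ} (hr : 0 < r) {V : Option (Set K)}
    (hV : ∃ z, lab c r z = V) (a : OnePoint K) (ha : cnt φ c r a V ≠ sV φ c r V) :
    cnt φ c r a V = MV φ c r V := by
  obtain ⟨b, ρ, h⟩ := exists_Im φ hD c hr
  obtain ⟨a', ha'⟩ := exists_cnt_eq_MV φ c r V
  have h1 := sV_lt_MV φ hD c hr hV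
  have h2 := sV_le φ c r V a
  by_cases hl : lab b ρ a = lab b ρ a'
  · rw [h.cnt_congr hr hD hl V, ha']
  · have h3 := h.min_eq hr hD hl V
    rw [ha'] at h3
    omega

open Classical in
/-- The quantity `τ` for the direction `V` at `ζ(c,r)`. -/
noncomputable def tau (φ : RMap K) (c : K) (r : ℝ) (V : Option (Set K)) : ℕ :=
  if (cnt φ c r c V = sV φ c r V ∧ r * gn c r φ.Q ≤ gn c r (φ.F c)) ∨
    (cnt φ c r ∞ V = sV φ c r V ∧ gn c r (φ.F c) ≤ r * gn c r φ.Q) then sV φ c r V
  else MV φ c r V - 1

/-- `τ` of the open ball `O(c,r)` -/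
noncomputable def tauO (φ : RMap K) (c : K) (r : ℝ) : ℕ := tau φ c r (Option.some (Metric.ball c r))

/-- `τ` of the complement of the closed ball `B(c,r)` -/
noncomputable def tauC (φ : RMap K) (c : K) (r : ℝ) : ℕ := tau φ c r none

lemma mem_dir_self (c : K) {r : ℝ} (hr : 0 < r) : lab c r (c : OnePoint K) = Option.some (Metric.ball c r) :=
  lab_coe_in (by simpa using hr.le)

lemma sV_some (φ : RMap K) {c z : K} {r : ℝ} (hr : 0 < r) (hz : ‖z - c‖ ≤ r) :
    sV φ c r (Option.some (Metric.ball z r)) = sV φ z r (Option.some (Metric.ball z r)) := by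
  unfold sV
  congr 1
  ext n
  simp only [Set.mem_range]
  constructor
  · rintro ⟨a, ha⟩
    exact ⟨a, by rw [cnt_some φ hr a (by simpa using hr.le), ← ha, cnt_some φ hr a hz]⟩
  · rintro ⟨a, ha⟩
    exact ⟨a, by rw [cnt_some φ hr a hz, ← ha, cnt_some φ hr a (by simpa using hr.le)]⟩

lemma cnt_some' (φ : RMap K) {c z : K} {r : ℝ} (hr : 0 < r) (hz : ‖z - c‖ ≤ r) (a : OnePoint K) :
    cnt φ c r a (Option.some (Metric.ball z r)) = cnt φ z r a (Option.some (Metric.ball z r)) := by
  rw [cnt_some φ hr a hz, cnt_some φ hr a (by simpa using hr.le)]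

lemma sV_le_tau (φ : RMap K) (hD : 1 ≤ φ.deg) (c : K) {r : ℝ} (hr : 0 < r) {V : Option (Set K)}
    (hV : ∃ z, lab c r z = V) : sV φ c r V ≤ tau φ c r V := by
  unfold tau
  split_ifs
  · exact le_rfl
  · have := sV_lt_MV φ hD c hr hV
    omega

/-- (G1) points close to `a` relatively to the distance from `a` to `ζ(b,ρ)` are in the direction of `a`. -/
lemma lab_eq_of_close {b : K} {ρ : ℝ} (hρ : 0 < ρ) {a a' : K} (h : ‖a' - a‖ < max ‖a - b‖ ρ) :
    lab b ρ (a' : OnePoint K) = lab b ρ (a : OnePoint K) ∧ max ‖a' - b‖ ρ = max ‖a - b‖ ρ := by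
  by_cases ha : ‖a - b‖ ≤ ρ
  · rw [max_eq_right ha] at h
    have : ‖a' - b‖ ≤ ρ := by
      have e : a' - b = (a' - a) + (a - b) := by ring
      rw [e]; exact (IsUltrametricDist.norm_add_le_max _ _).trans (max_le h.le ha)
    exact ⟨(lab_eq_iff_of_in hρ ha).2 h, by rw [max_eq_right ha, max_eq_right this]⟩
  · push Not at ha
    rw [max_eq_left ha.le] at h
    have : ‖a' - b‖ = ‖a - b‖ := by
      have e : a' - b = (a - b) - (a - a') := by ring
      rw [e, norm_sub_eq_left]; rwa [norm_sub_rev]
    exact ⟨by rw [lab_coe_out ha, lab_coe_out (by rw [this]; exact ha)], by rw [this]⟩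

/-- fixed point -/
def Fx (φ : RMap K) (c : K) (r : ℝ) : Prop := Im φ c r c r

lemma Im.center {φ : RMap K} {c c' : K} {r : ℝ} {b b' : K} {ρ : ℝ} (h : Im φ c r b ρ) 
    (hc : ‖c - c'‖ ≤ r) (hb : ‖b - b'‖ ≤ ρ) : Im φ c' r b' ρ := by
  refine ⟨h.1, fun a => ?_⟩
  rw [← gn_center hc, ← gn_center hc, h.2 a]
  congr 1
  have e1 : a - b = (a - b') - (b - b') := by ring
  have e2 : a - b' = (a - b) + (b - b') := by ring
  apply le_antisymm
  · apply max_le _ (le_max_right _ _)
    rw [e1]; exact (norm_sub_le_max' _ _).trans (max_le_max le_rfl hb)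
  · apply max_le _ (le_max_right _ _)
    rw [e2]; exact (IsUltrametricDist.norm_add_le_max _ _).trans (max_le_max le_rfl hb)

/-- in the fixed case, tau is the surplus -/
lemma tau_eq_of_fixed {φ : RMap K} (hD : 1 ≤ φ.deg) {c : K} {r : ℝ} (hr : 0 < r) (h : Fx φ c r) (V : Option (Set K)) :
    tau φ c r V = sV φ c r V := by
  have h1 : lab c r (c : OnePoint K) ≠ lab c r ∞ := by rw [mem_dir_self c hr]; simp
  have h2 := h.min_eq hr hD h1 V
  have h3 : gn c r (φ.F c) = r * gn c r φ.Q := by
    rw [h.gn_F, wt_coe, sub_self, norm_zero, max_eq_right hr.le]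
  unfold tau
  rw [if_pos]
  rcases le_total (cnt φ c r c V) (cnt φ c r ∞ V) with hle | hle
  · left; rw [min_eq_left hle] at h2; exact ⟨h2, h3.ge⟩
  · right; rw [min_eq_right hle] at h2; exact ⟨h2, h3.le⟩

open Classical in
/-- weight of a fixed point -/
noncomputable def om (φ : RMap K) (c : K) (r : ℝ) : ℕ := if Fx φ c r then mu φ c r - 1 else 0

/-- (VI) vertex inequality -/
lemma vertex_ineq (φ : RMap K) (hD : 1 ≤ φ.deg) (c : K) {r : ℝ} (hr : 0 < r) (T : Finset K)
    (hT : ∀ z ∈ T, ‖z - c‖ ≤ r) (hT' : ∀ z ∈ T, ∀ w ∈ T, z ≠ w → r ≤ ‖z - w‖) :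
    ∑ z ∈ T, tauO φ z r + tauC φ c r + om φ c r ≤ φ.deg - 1 := by
  classical
  unfold om
  -- the directions
  set 𝒱 : Finset (Option (Set K)) := T.image (fun z => Option.some (Metric.ball z r)) with h𝒱
  have hinj : Set.InjOn (fun z : K => Option.some (Metric.ball z r)) T := by
    intro z hz w hw hzw
    by_contra hne
    simp only [Option.some_inj] at hzw
    rw [ball_eq_iff hr] at hzw
    exact absurd hzw (not_lt.2 (hT' z hz w hw hne))
  have hsum : ∀ f : Option (Set K) → ℕ, ∑ V ∈ 𝒱, f V = ∑ z ∈ T, f (Option.some (Metric.ball z r)) := by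
    intro f
    rw [h𝒱, Finset.sum_image hinj]
  have hnone : none ∉ 𝒱 := by
    rw [h𝒱]; simp
  split_ifs with hfix
  · -- fixed case
    have h1 : ∑ z ∈ T, tauO φ z r + tauC φ c r = ∑ V ∈ insert none 𝒱, (base φ c r).count V := by
      rw [Finset.sum_insert hnone, hsum, add_comm]
      congr 1
      · rw [tauC, tau_eq_of_fixed hD hr hfix, count_base]
      · apply Finset.sum_congr rfl
        intro z hz
        have hz' : Fx φ z r := Im.center hfix (by rw [norm_sub_rev]; exact hT z hz) (by rw [norm_sub_rev]; exact hT z hz)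
        rw [tauO, tau_eq_of_fixed hD hr hz', count_base, sV_some φ hr (hT z hz)]
    have h2 := sum_count_le (insert none 𝒱) (base φ c r)
    have h3 := card_base_add_mu φ c r
    have h4 := mu_pos φ hD c hr
    rw [h1]
    omega
  · -- non fixed case
    have key : ∃ a₀ : OnePoint K, (∀ z ∈ T, tauO φ z r ≤ max (sV φ c r (Option.some (Metric.ball z r)))
        (cnt φ c r a₀ (Option.some (Metric.ball z r)) - 1)) ∧
        tauC φ c r ≤ max (sV φ c r none) (cnt φ c r a₀ none - 1) := by
      obtain ⟨b, ρ, h⟩ := exists_Im φ hD c hr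
      have hg : 0 < gn c r φ.Q := gn_pos c hr (Q_ne_zero φ hD)
      by_cases hσ : r < max ‖c - b‖ ρ
      · refine ⟨c, ?_, ?_⟩
        · intro z hz
          obtain ⟨h1, h2⟩ := lab_eq_of_close (a' := z) h.1 (lt_of_le_of_lt (hT z hz) hσ)
          have h3 : cnt φ c r c (Option.some (Metric.ball z r)) = cnt φ z r z (Option.some (Metric.ball z r)) := by
            rw [← h.cnt_congr hr hD h1, cnt_some' φ hr (hT z hz)]
          rw [h3, sV_some φ hr (hT z hz), tauO, tau]
          split_ifs with hcond
          · exact le_max_left _ _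
          · push Not at hcond
            have h4 : r * gn z r φ.Q ≤ gn z r (φ.F z) := by
              rw [gn_center (hT z hz), gn_center (hT z hz), h.gn_F, wt_coe, h2]
              gcongr
            have h5 : cnt φ z r z (Option.some (Metric.ball z r)) ≠ sV φ z r (Option.some (Metric.ball z r)) := by
              intro heq
              exact absurd h4 (not_le.2 (hcond.1 heq))
            rw [← cnt_two φ hD z hr ⟨z, mem_dir_self z hr⟩ _ h5]
            exact le_max_right _ _
        · rw [tauC, tau]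
          split_ifs with hcond
          · exact le_max_left _ _
          · push Not at hcond
            have h4 : r * gn c r φ.Q ≤ gn c r (φ.F c) := by
              rw [h.gn_F, wt_coe]
              gcongr
            have h5 : cnt φ c r c none ≠ sV φ c r none := by
              intro heq
              exact absurd h4 (not_le.2 (hcond.1 heq))
            rw [← cnt_two φ hD c hr (V := none) ⟨∞, rfl⟩ _ h5]
            exact le_max_right _ _
      · push Not at hσ
        refine ⟨∞, ?_, ?_⟩
        · intro z hz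
          rw [sV_some φ hr (hT z hz), cnt_some' φ hr (hT z hz), tauO, tau]
          split_ifs with hcond
          · exact le_max_left _ _
          · push Not at hcond
            have h4 : gn z r (φ.F z) ≤ r * gn z r φ.Q := by
              rw [gn_center (hT z hz), gn_center (hT z hz), h.gn_F, wt_coe]
              gcongr
              refine max_le ?_ ((le_max_right _ _).trans hσ)
              have e : z - b = (z - c) + (c - b) := by ring
              rw [e]
              exact (IsUltrametricDist.norm_add_le_max _ _).trans (max_le (hT z hz) ((le_max_left _ _).trans hσ))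
            have h5 : cnt φ z r ∞ (Option.some (Metric.ball z r)) ≠ sV φ z r (Option.some (Metric.ball z r)) := by
              intro heq
              exact absurd h4 (not_le.2 (hcond.2 heq))
            rw [← cnt_two φ hD z hr ⟨z, mem_dir_self z hr⟩ _ h5]
            exact le_max_right _ _
        · rw [tauC, tau]
          split_ifs with hcond
          · exact le_max_left _ _
          · push Not at hcond
            have h4 : gn c r (φ.F c) ≤ r * gn c r φ.Q := by
              rw [h.gn_F, wt_coe]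
              gcongr
            have h5 : cnt φ c r ∞ none ≠ sV φ c r none := by
              intro heq
              exact absurd h4 (not_le.2 (hcond.2 heq))
            rw [← cnt_two φ hD c hr (V := none) ⟨∞, rfl⟩ _ h5]
            exact le_max_right _ _
    obtain ⟨a₀, ha1, ha2⟩ := key
    obtain ⟨V₀, hV₀⟩ := exists_sV_lt' φ hD c hr a₀
    set g : Option (Set K) → ℕ := fun V => max (sV φ c r V) (cnt φ c r a₀ V - 1) with hg
    have hgle : ∀ V, g V ≤ cnt φ c r a₀ V := fun V =>
      max_le (sV_le φ c r V a₀) (Nat.sub_le _ _)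
    have hgV₀ : g V₀ + 1 ≤ cnt φ c r a₀ V₀ := by
      simp only [hg]
      have := max_le (a := sV φ c r V₀) (b := cnt φ c r a₀ V₀ - 1) (c := cnt φ c r a₀ V₀ - 1) (by omega) le_rfl
      omega
    have h1 : ∑ z ∈ T, tauO φ z r + tauC φ c r ≤ ∑ V ∈ insert V₀ (insert none 𝒱), g V := by
      calc ∑ z ∈ T, tauO φ z r + tauC φ c r ≤ ∑ z ∈ T, g (Option.some (Metric.ball z r)) + g none := by
            gcongr with z hz
            exact ha1 z hz
        _ = ∑ V ∈ insert none 𝒱, g V := by rw [Finset.sum_insert hnone, hsum, add_comm]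
        _ ≤ _ := Finset.sum_le_sum_of_subset (Finset.subset_insert _ _)
    have h2 : ∑ V ∈ insert V₀ (insert none 𝒱), g V + 1 ≤ ∑ V ∈ insert V₀ (insert none 𝒱), cnt φ c r a₀ V := by
      have hmem : V₀ ∈ insert V₀ (insert none 𝒱) := Finset.mem_insert_self _ _
      rw [← Finset.add_sum_erase _ _ hmem, ← Finset.add_sum_erase _ _ hmem]
      have := Finset.sum_le_sum (s := (insert V₀ (insert none 𝒱)).erase V₀) (fun V _ => hgle V)
      omega
    have h3 : ∑ V ∈ insert V₀ (insert none 𝒱), cnt φ c r a₀ V ≤ φ.deg := by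
      have := sum_count_le (insert V₀ (insert none 𝒱)) ((φ.fib a₀).map (lab c r))
      rw [Multiset.card_map, card_fib] at this
      exact this
    omega

end BerkFix
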