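import Pool.Agent.Lib.MP_edb0ca_an.Final

set_option linter.unusedSectionVars false
set_option linter.unusedVariables false

open Polynomial OnePoint Topology Filter MeasureTheory

namespace BerkFix

variable {K : Type*} [NontriviallyNormedField K] [IsUltrametricDist K] [IsAlgClosed K] [CompleteSpace K]

variable {R : RMap K} {ρ : Measure (P1 K)}

/-- the good region -/
lemma exists_good (hR : 2 ≤ R.deg) (h : IsEquilibrium R ρ) (hχ : 0 < lyap R ρ) {ψ : P1 K → ℝ} (hψc : Continuous ψ)
    (hψχ : lyap R ρ ≤ ∫ x, ψ x ∂ρ) {ε : ℝ} (hε : 0 < ε) :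
    ∃ (k : ℕ) (B : Finset (K × ℝ)), 1 ≤ k ∧ (∀ p ∈ B, 0 < p.2) ∧ (∀ p ∈ B, ∀ q ∈ B, p ≠ q → p.2 ≤ ‖p.1 - q.1‖) ∧
      (∀ p ∈ B, ∀ x ∈ BO p.1 p.2, lyap R ρ - ε ≤ (∑ i ∈ Finset.range k, ψ (R.map^[i] x)) / k) ∧
      1 - 2 * ε ≤ ∑ p ∈ B, ρ.real (BO p.1 p.2) := by
  classical
  have := h.prob
  have := h.regular
  have herg := ergodic_map hR h
  have h0 := no_atoms (by omega) h
  have hnull := hyp_null hR h hχ
  have hmem : MemLp ψ 2 ρ := by
    obtain ⟨C, hC⟩ := IsCompact.exists_bound_of_continuousOn (isCompact_univ (X := P1 K)) hψc.continuousOn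
    exact MemLp.of_bound hψc.measurable.aestronglyMeasurable C (ae_of_all _ (fun x => hC x (Set.mem_univ x)))
  obtain ⟨k, hk, hk2⟩ := mean_ergodic_meas herg hmem hε
  set ψk : P1 K → ℝ := fun x => (∑ i ∈ Finset.range k, ψ (R.map^[i] x)) / k with hψk
  have hcont : Continuous ψk := by
    apply Continuous.div_const
    apply continuous_finsetSum
    intro i _
    exact hψc.comp ((continuous_map R).iterate i)
  set U : Set (P1 K) := {x | lyap R ρ - ε < ψk x} with hU
  have hUo : IsOpen U := isOpen_lt continuous_const hcont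
  have hUc : ρ.real Uᶜ ≤ ε := by
    refine le_trans (measureReal_mono ?_ (measure_ne_top _ _)) hk2
    intro x hx
    have hx' : ψk x ≤ lyap R ρ - ε := not_lt.1 hx
    exact hx'.trans (by linarith)
  -- remove the hyperbolic space and infinity
  set G : Set (P1 K) := U \ (HypSet K ∪ {∞}) with hG
  have hN : ρ (HypSet K ∪ {∞}) = 0 := by
    refine measure_union_null hnull ?_
    exact h0 ∞
  have hGm : MeasurableSet G := hUo.measurableSet.diff (measurableSet_HypSet.union (measurableSet_singleton _))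
  have hGμ : ρ G = ρ U := measure_sdiff_null hN
  have hGr : 1 - ε ≤ ρ.real G := by
    rw [measureReal_def, hGμ, ← measureReal_def]
    have := probReal_add_probReal_compl (μ := ρ) hUo.measurableSet
    linarith
  -- compact approximation
  obtain ⟨C, hCG, hC, hCμ⟩ := hGm.exists_isCompact_lt_add (μ := ρ) (measure_ne_top _ _) (ε := ENNReal.ofReal ε) (by simpa using hε)
  have hCr : 1 - 2 * ε ≤ ρ.real C := by
    have h1 : ρ.real G ≤ ρ.real C + ε := by
      rw [measureReal_def, measureReal_def]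
      have h2 := hCμ.le
      have h3 := ENNReal.toReal_mono (by finiteness) h2
      rwa [ENNReal.toReal_add (by finiteness) (by finiteness), ENNReal.toReal_ofReal hε.le] at h3
    linarith
  obtain ⟨B, hB1, hB2, hB3, hB4⟩ := exists_disjoint_cover hC hUo (fun x hx => (hCG hx).1) (by
    intro x hx
    have h1 := (hCG hx).2
    rw [Set.mem_union, not_or] at h1
    obtain ⟨h2, h3⟩ := h1
    have h4 : x ∈ Set.range (cl : OnePoint K → P1 K) := by
      by_contra hcon; exact h2 hcon
    obtain ⟨z, rfl⟩ := h4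
    induction z using OnePoint.rec with
    | infty => exact absurd rfl h3
    | coe a => exact ⟨a, rfl⟩)
  refine ⟨k, B, hk, hB1, hB2, ?_, ?_⟩
  · intro p hp x hx
    have : x ∈ U := hB3 p hp hx
    exact le_of_lt this
  · refine hCr.trans ?_
    refine (measureReal_mono hB4 (measure_ne_top _ _)).trans ?_
    exact measureReal_biUnion_finset_le _ _

/-- the total weight is negligible -/
theorem Wt_small (hR : 2 ≤ R.deg) (h : IsEquilibrium R ρ) (hχ : 0 < lyap R ρ) {η : ℝ} (hη : 0 < η) :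
    ∀ᶠ n in atTop, (Wt (iter R n) : ℝ) ≤ η * (R.deg : ℝ) ^ n := by
  classical
  have := h.prob
  have hw := wr_ne_zero_of_lyap_pos hχ
  have hint := integrable_of_lyap_pos hχ
  have h0 := no_atoms (by omega) h
  set χ := lyap R ρ with hχdef
  -- tails
  obtain ⟨C₁, hC₁, htail⟩ := tail_sph_le (R := R) (by omega) hw
  set m := (crit R).card with hm
  obtain ⟨A', hA', htl⟩ := tail_multiset hR (ε := χ * η / (8 * (m + 1))) (by positivity) (crit R) (fun α hα => hα)
  set A : ℝ := m * A' + C₁ with hA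
  have hA0 : 0 ≤ A := by positivity
  -- the truncated function
  set ψ : P1 K → ℝ := fun x => Real.log (max (R.sph x) (Real.exp (-A))) with hψ
  have hψc : Continuous ψ := by
    apply Continuous.log ((continuous_sph R (by omega)).max continuous_const)
    intro x
    exact (lt_of_lt_of_le (Real.exp_pos _) (le_max_right _ _)).ne'
  have hψA : ∀ x, -A ≤ ψ x := by
    intro x
    have := Real.log_le_log (Real.exp_pos (-A)) (le_max_right (R.sph x) (Real.exp (-A)))
    rwa [Real.log_exp] at this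
  have hψdec : ∀ x, 0 < R.sph x → Real.log (R.sph x) = ψ x - max 0 (-Real.log (R.sph x) - A) := by
    intro x hx
    simp only [hψ]
    rcases le_total (R.sph x) (Real.exp (-A)) with h1 | h1
    · rw [max_eq_right h1, Real.log_exp]
      have h2 := Real.log_le_log hx h1
      rw [Real.log_exp] at h2
      rw [max_eq_right (by linarith)]
      ring
    · rw [max_eq_left h1]
      have h2 := Real.log_le_log (Real.exp_pos _) h1
      rw [Real.log_exp] at h2
      rw [max_eq_left (by linarith)]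
      ring
  -- zeros of the spherical derivative are classical
  have hae : ∀ᵐ x ∂ρ, 0 < R.sph x := by
    have hfin : (⋃ α ∈ (crit R).toFinset, ({cl α} : Set (P1 K))) = {x | ¬ 0 < R.sph x} ∨
        {x | ¬ 0 < R.sph x} ⊆ (⋃ α ∈ (crit R).toFinset, ({cl α} : Set (P1 K))) := by
      right
      intro x hx
      rw [Set.mem_ofPred_eq] at hx
      simp only [Set.mem_iUnion, Set.mem_singleton_iff, Multiset.mem_toFinset]
      by_contra hcon
      push Not at hcon
      apply hx
      rw [sph_eq_prod R (by omega) x]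
      have hg : 0 < gn 0 1 R.wr := gn_pos 0 one_pos hw
      have hp : 0 < ((crit R).map (chP x)).prod := by
        apply Multiset.prod_pos
        intro y hy
        obtain ⟨α, hα, rfl⟩ := Multiset.mem_map.1 hy
        exact chP_pos_of_ne (hcon α hα)
      positivity
    have hnull : ρ (⋃ α ∈ (crit R).toFinset, ({cl α} : Set (P1 K))) = 0 := by
      refine (measure_biUnion_null_iff (μ := ρ) (s := fun α => ({cl α} : Set (P1 K)))
        (Finset.countable_toSet (crit R).toFinset)).2 ?_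
      intro α _
      exact h0 α
    rw [ae_iff]
    rcases hfin with h1 | h1
    · rw [← h1]; exact hnull
    · exact measure_mono_null h1 hnull
  have hψχ : χ ≤ ∫ x, ψ x ∂ρ := by
    rw [hχdef]
    unfold lyap
    apply integral_mono_ae hint (integrable_of_continuous hψc)
    filter_upwards [hae] with x hx
    have := hψdec x hx
    have h2 := le_max_left 0 (-Real.log (R.sph x) - A)
    linarith
  -- choice of ε
  set ε : ℝ := min (χ / 2) (χ * η / (24 * (χ + A))) with hε
  have hε0 : 0 < ε := lt_min (by positivity) (by positivity)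
  have hε1 : ε ≤ χ / 2 := min_le_left _ _
  have hε2 : (χ + A) * (3 * ε) ≤ χ * η / 8 := by
    have h1 : ε ≤ χ * η / (24 * (χ + A)) := min_le_right _ _
    rw [le_div_iff₀ (by positivity)] at h1
    linarith
  obtain ⟨k, B, hk, hB1, hB2, hB3, hB4⟩ := exists_good hR h hχ hψc hψχ hε0
  -- ball multiplicities
  have htau : ∀ᶠ n in atTop, ∀ p ∈ B, (ρ.real (BO p.1 p.2) - ε / (B.card + 1)) * (R.deg : ℝ) ^ n ≤ tauO (iter R n) p.1 p.2 := by
    rw [Filter.eventually_all_finset]
    intro p hp
    exact tauO_lower hR h p.1 (hB1 p hp) (by positivity)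
  filter_upwards [htau, htl, eventually_ge_atTop 1] with n hn1 hn2 hn3
  set φ := iter R n with hφ
  have hD : 1 ≤ φ.deg := deg_iter_pos R (by omega) n
  set D : ℝ := (R.deg : ℝ) ^ n with hDdef
  have hD0 : 0 < D := by
    have : (0 : ℝ) < R.deg := by exact_mod_cast (by omega : 0 < R.deg)
    positivity
  have hdeg : (φ.deg : ℝ) = D := by rw [hφ, deg_iter]; push_cast; rfl
  set V : Set (P1 K) := ⋃ p ∈ B, BO p.1 p.2 with hV
  -- outside mass
  have hout : (∑ x ∈ (spt φ).filter (fun x => x ∉ V), (wgt φ x : ℝ)) ≤ 3 * ε * D := by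
    have h1 := wgt_count_total φ hD ((spt φ).filter (fun x => x ∉ V)) B hB1 hB2 (by
      intro x hx p hp hxp
      apply (Finset.mem_filter.1 hx).2
      simp only [hV, Set.mem_iUnion]
      exact ⟨p, hp, hxp⟩)
    have h2 : (∑ x ∈ (spt φ).filter (fun x => x ∉ V), (wgt φ x : ℝ)) + ∑ p ∈ B, (tauO φ p.1 p.2 : ℝ) ≤ D := by
      rw [← hdeg]
      have h3 : (∑ x ∈ (spt φ).filter (fun x => x ∉ V), wgt φ x) + ∑ p ∈ B, tauO φ p.1 p.2 ≤ φ.deg := by omega
      exact_mod_cast h3
    have h3 : ∑ p ∈ B, ((ρ.real (BO p.1 p.2) - ε / (B.card + 1)) * D) ≤ ∑ p ∈ B, (tauO φ p.1 p.2 : ℝ) :=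
      Finset.sum_le_sum hn1
    rw [← Finset.sum_mul, Finset.sum_sub_distrib, Finset.sum_const, nsmul_eq_mul] at h3
    have h4 : (B.card : ℝ) * (ε / (B.card + 1)) ≤ ε := by
      rw [mul_div_assoc', div_le_iff₀ (by positivity)]
      nlinarith
    have h5 : (1 - 2 * ε - ε) * D ≤ (∑ p ∈ B, ρ.real (BO p.1 p.2) - (B.card : ℝ) * (ε / (B.card + 1))) * D := by
      apply mul_le_mul_of_nonneg_right _ hD0.le
      linarith
    nlinarith
  have hout0 : 0 ≤ ∑ x ∈ (spt φ).filter (fun x => x ∉ V), (wgt φ x : ℝ) := Finset.sum_nonneg (fun x _ => by positivity)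
  -- the tail
  have htail' : ∑ x ∈ spt φ, (wgt φ x : ℝ) * max 0 (-Real.log (R.sph x) - A) ≤ χ * η / 8 * D := by
    have h1 := (htail A' n).trans hn2
    refine le_trans h1 ?_
    have h2 : (m : ℝ) * (χ * η / (8 * (m + 1)) * D) = (m / (m + 1)) * (χ * η / 8 * D) := by
      field_simp
    rw [h2]
    have h3 : (m : ℝ) / (m + 1) ≤ 1 := by
      rw [div_le_one (by positivity)]; linarith
    have h4 : 0 ≤ χ * η / 8 * D := by positivity
    nlinarith
  -- the main inequality
  have hlog := sum_wgt_log_sph (R := R) (by omega) hw hn3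
  have hsplit : ∑ x ∈ spt φ, (wgt φ x : ℝ) * Real.log (R.sph x) =
      ∑ x ∈ spt φ, (wgt φ x : ℝ) * ψ x - ∑ x ∈ spt φ, (wgt φ x : ℝ) * max 0 (-Real.log (R.sph x) - A) := by
    rw [← Finset.sum_sub_distrib]
    apply Finset.sum_congr rfl
    intro x hx
    obtain ⟨hH, _, _⟩ := spt_props R (by omega) hx
    rw [← mul_sub, ← hψdec x (sph_pos R hw hH)]
  have havg := sum_wgt_avg (R := R) (by omega) hn3 ψ hk
  have hlow : (χ - ε) * (Wt φ : ℝ) - (χ + A) * (∑ x ∈ (spt φ).filter (fun x => x ∉ V), (wgt φ x : ℝ)) ≤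
      ∑ x ∈ spt φ, (wgt φ x : ℝ) * ((∑ i ∈ Finset.range k, ψ (R.map^[i] x)) / k) := by
    have e1 : (Wt φ : ℝ) = ∑ x ∈ spt φ, (wgt φ x : ℝ) := by unfold Wt; push_cast; rfl
    rw [e1, Finset.sum_filter, Finset.mul_sum, Finset.mul_sum, ← Finset.sum_sub_distrib]
    apply Finset.sum_le_sum
    intro x hx
    by_cases hxV : x ∈ V
    · rw [if_neg (not_not.2 hxV), mul_zero, sub_zero]
      simp only [hV, Set.mem_iUnion] at hxV
      obtain ⟨p, hp, hxp⟩ := hxV
      have := hB3 p hp x hxp
      rw [mul_comm]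
      gcongr
    · rw [if_pos hxV]
      have h1 : -A ≤ (∑ i ∈ Finset.range k, ψ (R.map^[i] x)) / k := by
        rw [le_div_iff₀ (by positivity)]
        calc -A * k = ∑ i ∈ Finset.range k, -A := by rw [Finset.sum_const, Finset.card_range, nsmul_eq_mul]; ring
          _ ≤ _ := Finset.sum_le_sum (fun i _ => hψA _)
      have h2 : (0 : ℝ) ≤ wgt φ x := by positivity
      have h3 : -A * (wgt φ x : ℝ) ≤ (wgt φ x : ℝ) * ((∑ i ∈ Finset.range k, ψ (R.map^[i] x)) / k) := by
        rw [mul_comm]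
        exact mul_le_mul_of_nonneg_left h1 h2
      nlinarith
  rw [hsplit, ← havg] at hlog
  have hWt0 : (0 : ℝ) ≤ Wt φ := by positivity
  have h1 : (χ - ε) * (Wt φ : ℝ) ≤ (χ + A) * (3 * ε * D) + χ * η / 8 * D := by
    have h2 : (χ + A) * (∑ x ∈ (spt φ).filter (fun x => x ∉ V), (wgt φ x : ℝ)) ≤ (χ + A) * (3 * ε * D) := by
      gcongr
    linarith
  have h2 : (χ / 2) * (Wt φ : ℝ) ≤ (χ - ε) * (Wt φ : ℝ) := by
    apply mul_le_mul_of_nonneg_right _ hWt0
    linarith
  have h3 : (χ + A) * (3 * ε * D) ≤ χ * η / 8 * D := by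
    calc (χ + A) * (3 * ε * D) = ((χ + A) * (3 * ε)) * D := by ring
      _ ≤ _ := by gcongr
  have h4 : (χ / 2) * (Wt φ : ℝ) ≤ (χ / 2) * (η * D) := by
    have : 0 ≤ χ * η * D := by positivity
    linarith
  exact le_of_mul_le_mul_left h4 (by positivity)

/-- **Main theorem** -/
theorem main_tendsto (hR : 2 ≤ R.deg) (h : IsEquilibrium R ρ) (hχ : 0 < lyap R ρ) :
    Tendsto (fun n : ℕ => (∑' x : RFixH R n, (localDegree (iter R n) (x : P1 K) : ENNReal)) / (R.deg : ENNReal) ^ n)
      atTop (𝓝 0) := by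
  rw [ENNReal.tendsto_nhds_zero]
  intro ε hε
  by_cases htop : ε = ⊤
  · subst htop; exact Eventually.of_forall (fun _ => le_top)
  have hε' : 0 < ε.toReal := ENNReal.toReal_pos hε.ne' htop
  filter_upwards [Wt_small hR h hχ (η := ε.toReal / 2) (by positivity), eventually_ge_atTop 1] with n hn1 hn2
  have hd0 : (R.deg : ENNReal) ^ n ≠ 0 := by
    apply pow_ne_zero
    exact_mod_cast (by omega : R.deg ≠ 0)
  have hdt : (R.deg : ENNReal) ^ n ≠ ⊤ := by finiteness
  rw [ENNReal.div_le_iff hd0 hdt]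
  refine (tsum_le_Wt R hR n hn2).trans ?_
  have h1 : (2 * (Wt (iter R n) : ENNReal)).toReal ≤ (ε * (R.deg : ENNReal) ^ n).toReal := by
    rw [ENNReal.toReal_mul, ENNReal.toReal_mul, ENNReal.toReal_pow]
    simp only [ENNReal.toReal_ofNat, ENNReal.toReal_natCast]
    linarith
  exact (ENNReal.toReal_le_toReal (by finiteness) (ENNReal.mul_ne_top htop hdt)).1 h1

end BerkFix
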