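import Pool.Agent.Lib.MP_edb0ca_an.Topo

set_option linter.unusedSectionVars false
set_option linter.unusedVariables false

open Polynomial OnePoint Topology Filter

namespace BerkFix

variable {K : Type*} [NormedField K] [IsUltrametricDist K] [IsAlgClosed K]

section push

variable (φ : RMap K) (x : A1 K)

lemma P_pos_of_Q_zero (h : x φ.Q = 0) : 0 < x φ.P := by
  obtain ⟨u, v, huv⟩ := φ.cop
  by_contra hcon
  have hP : x φ.P = 0 := le_antisymm (not_lt.1 hcon) (x.nonneg _)
  have h1 : x (u * φ.P + v * φ.Q) ≤ max (x (u * φ.P)) (x (v * φ.Q)) := x.add_le _ _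
  rw [huv, x.map_one, x.map_mul, x.map_mul, h, hP, mul_zero, mul_zero, max_self] at h1
  exact absurd h1 (by norm_num)

lemma max_PQ_pos : 0 < max (x φ.P) (x φ.Q) := by
  by_cases h : x φ.Q = 0
  · exact lt_of_lt_of_le (P_pos_of_Q_zero φ x h) (le_max_left _ _)
  · exact lt_of_lt_of_le (lt_of_le_of_ne (x.nonneg _) (Ne.symm h)) (le_max_right _ _)

lemma max_FQ_pos (c : K) {r : ℝ} (hr : 0 < r) : 0 < max (x (φ.F c)) (r * x φ.Q) := by
  by_cases h : x φ.Q = 0
  · have h1 := P_pos_of_Q_zero φ x h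
    have h2 : x φ.P ≤ max (x (φ.F c)) (x (C c * φ.Q)) := by
      have : φ.P = φ.F c + C c * φ.Q := by simp
      conv_lhs => rw [this]
      exact x.add_le _ _
    rw [x.map_C_mul, h, mul_zero, max_eq_left (x.nonneg _)] at h2
    exact lt_of_lt_of_le (lt_of_lt_of_le h1 h2) (le_max_left _ _)
  · exact lt_of_lt_of_le (mul_pos hr (lt_of_le_of_ne (x.nonneg _) (Ne.symm h))) (le_max_right _ _)

lemma map_of_ne (h : x φ.Q ≠ 0) : φ.map (x : P1 K) = (push φ x h : P1 K) := by
  classical
  exact dif_neg h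

lemma map_of_eq (h : x φ.Q = 0) : φ.map (x : P1 K) = ∞ := by
  classical
  exact dif_pos h

lemma map_infty_of_eq (h : φ.Q.coeff φ.deg = 0) : φ.map ∞ = ∞ := by
  classical
  exact if_pos h

lemma map_infty_of_ne (h : φ.Q.coeff φ.deg ≠ 0) :
    φ.map ∞ = (evalPt (φ.P.coeff φ.deg / φ.Q.coeff φ.deg) : P1 K) := by
  classical
  exact if_neg h

lemma push_apply (h : x φ.Q ≠ 0) (f : K[X]) :
    push φ x h f = x (hom f.natDegree f φ.P φ.Q) / x φ.Q ^ f.natDegree := rfl

lemma push_lin (h : x φ.Q ≠ 0) (a : K) : push φ x h (X - C a) = x (φ.F a) / x φ.Q := by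
  rw [push_apply, natDegree_X_sub_C, hom_one_X_sub_C, pow_one, F_coe]

lemma push_mul_pow (h : x φ.Q ≠ 0) {d : ℕ} {f : K[X]} (hf : f.natDegree ≤ d) :
    push φ x h f * x φ.Q ^ d = x (hom d f φ.P φ.Q) := by
  have hQ : φ.Q ≠ 0 := by rintro h0; rw [h0] at h; simp at h
  rw [push_apply]
  obtain ⟨k, rfl⟩ := Nat.exists_eq_add_of_le hf
  rw [hom_succ le_rfl hQ, x.map_mul, x.map_pow, pow_add]
  field_simp

end push

@[simp] lemma evalPt_apply (a : K) (f : K[X]) : evalPt a f = ‖f.eval a‖ := rfl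

@[simp] lemma cl_infty : cl (∞ : OnePoint K) = ∞ := rfl

@[simp] lemma cl_coe (a : K) : cl (a : OnePoint K) = (evalPt a : P1 K) := rfl

lemma hyp_coe {x : A1 K} : Hyp (x : P1 K) ↔ ∀ a : K, x ≠ evalPt a := by
  unfold Hyp
  constructor
  · intro h a hxa
    exact h ⟨(a : OnePoint K), by rw [cl_coe, hxa]⟩
  · rintro h ⟨a, ha⟩
    induction a using OnePoint.rec with
    | infty => simp at ha
    | coe a =>
      rw [cl_coe, OnePoint.coe_eq_coe] at ha
      exact h a ha.symm

lemma not_hyp_infty : ¬ Hyp (∞ : P1 K) := by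
  unfold Hyp; rw [not_not]; exact ⟨∞, rfl⟩

lemma cl_injective : Function.Injective (cl : OnePoint K → P1 K) := by
  intro a b h
  induction a using OnePoint.rec with
  | infty =>
    induction b using OnePoint.rec with
    | infty => rfl
    | coe b => simp at h
  | coe a =>
    induction b using OnePoint.rec with
    | infty => simp at h
    | coe b =>
      rw [cl_coe, cl_coe, OnePoint.coe_eq_coe] at h
      have h1 : (evalPt a : A1 K) (X - C b) = evalPt b (X - C b) := by rw [h]
      simp at h1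
      rw [sub_eq_zero] at h1
      rw [h1]

lemma Im.map_zt {φ : RMap K} (hD : 1 ≤ φ.deg) {c : K} {r : ℝ} {hr : 0 < r} {b : K} {ρ : ℝ} (h : Im φ c r b ρ) :
    φ.map (zt c r hr : P1 K) = (zt b ρ h.1 : P1 K) := by
  have hg : 0 < gn c r φ.Q := gn_pos c hr (Q_ne_zero φ hD)
  have hne : zt c r hr φ.Q ≠ 0 := by rw [zt_apply]; exact hg.ne'
  rw [map_of_ne φ _ hne, OnePoint.coe_eq_coe]
  apply A1.ext_lin
  intro a
  rw [push_lin, zt_apply, zt_apply, h.gn_F, wt_coe, zt_lin]
  field_simp

/-! ### behaviour near infinity -/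

lemma A1.lin_of_large (y : A1 K) {a : K} (h : ‖a‖ < y X) : y (X - C a) = y X := by
  apply le_antisymm
  · exact (y.lin_le' a).trans (max_le le_rfl h.le)
  · rcases le_max_iff.1 (y.X_le a) with h1 | h1
    · exact h1
    · exact absurd h (not_lt.2 h1)

lemma exists_large (f : K[X]) : ∃ L : ℝ, 0 ≤ L ∧ ∀ y : A1 K, L < y X → y f = ‖f.leadingCoeff‖ * y X ^ f.natDegree := by
  refine ⟨(f.roots.map (fun z => ‖z‖)).sum, ?_, ?_⟩
  · apply Multiset.sum_nonneg
    intro x hx
    obtain ⟨z, _, rfl⟩ := Multiset.mem_map.1 hx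
    exact norm_nonneg _
  · intro y hy
    rw [y.eq_prod]
    congr 1
    have : f.roots.map (fun z => y (X - C z)) = f.roots.map (fun _ => y X) := by
      apply Multiset.map_congr rfl
      intro z hz
      apply y.lin_of_large
      refine lt_of_le_of_lt ?_ hy
      apply Multiset.single_le_sum
      · intro x hx
        obtain ⟨z, _, rfl⟩ := Multiset.mem_map.1 hx
        exact norm_nonneg _
      · exact Multiset.mem_map_of_mem _ hz
    rw [this, Multiset.map_const', Multiset.prod_replicate, IsAlgClosed.card_roots_eq_natDegree]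

lemma lead_of_ne {d : ℕ} {f : K[X]} (hf : f.natDegree ≤ d) (h : f.coeff d ≠ 0) :
    ∃ L : ℝ, ∀ y : A1 K, L < y X → y f = ‖f.coeff d‖ * y X ^ d := by
  have hd : f.natDegree = d := le_antisymm hf (le_natDegree_of_ne_zero h)
  obtain ⟨L, _, hL⟩ := exists_large f
  refine ⟨L, fun y hy => ?_⟩
  rw [hL y hy, leadingCoeff, hd]

lemma lead_of_eq {d : ℕ} {f : K[X]} (hf : f.natDegree ≤ d) (h : f.coeff d = 0) {ε : ℝ} (hε : 0 < ε) :
    ∃ L : ℝ, ∀ y : A1 K, L < y X → y f ≤ ε * y X ^ d := by
  by_cases hf0 : f = 0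
  · refine ⟨0, fun y hy => ?_⟩
    rw [hf0, y.map_zero]; positivity
  have hd : f.natDegree < d := by
    rcases lt_or_eq_of_le hf with h1 | h1
    · exact h1
    · exfalso
      rw [← h1, coeff_natDegree, leadingCoeff_eq_zero] at h
      exact hf0 h
  obtain ⟨L, hL0, hL⟩ := exists_large f
  refine ⟨max L (max 1 (‖f.leadingCoeff‖ / ε)), fun y hy => ?_⟩
  have h1 : L < y X := lt_of_le_of_lt (le_max_left _ _) hy
  have h2 : 1 < y X := lt_of_le_of_lt ((le_max_left _ _).trans (le_max_right _ _)) hy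
  have h3 : ‖f.leadingCoeff‖ / ε < y X := lt_of_le_of_lt ((le_max_right _ _).trans (le_max_right _ _)) hy
  rw [hL y h1]
  have h4 : ‖f.leadingCoeff‖ ≤ ε * y X ^ (d - f.natDegree) := by
    rw [div_lt_iff₀ hε] at h3
    calc ‖f.leadingCoeff‖ ≤ ε * y X := by rw [mul_comm]; exact h3.le
      _ ≤ ε * y X ^ (d - f.natDegree) := by
          gcongr
          exact le_self_pow₀ h2.le (by omega)
  have hpow : y X ^ d = y X ^ (d - f.natDegree) * y X ^ f.natDegree := by rw [← pow_add]; congr 1; omega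
  rw [hpow, ← mul_assoc]
  gcongr

lemma maxlead {d : ℕ} {f g : K[X]} (hf : f.natDegree ≤ d) (hg : g.natDegree ≤ d) (h : f.coeff d ≠ 0 ∨ g.coeff d ≠ 0)
    {s t : ℝ} (hs : 0 < s) (ht : 0 < t) :
    ∃ L : ℝ, ∀ y : A1 K, L < y X → max (s * y f) (t * y g) = max (s * ‖f.coeff d‖) (t * ‖g.coeff d‖) * y X ^ d := by
  by_cases h1 : f.coeff d = 0
  · have h2 : g.coeff d ≠ 0 := by rcases h with h | h; exact absurd h1 h; exact h
    have h2' : 0 < ‖g.coeff d‖ := norm_pos_iff.2 h2
    obtain ⟨L₁, hL₁⟩ := lead_of_ne hg h2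
    obtain ⟨L₂, hL₂⟩ := lead_of_eq hf h1 (ε := t * ‖g.coeff d‖ / s) (by positivity)
    refine ⟨max L₁ L₂, fun y hy => ?_⟩
    rw [hL₁ y (lt_of_le_of_lt (le_max_left _ _) hy), h1, norm_zero, mul_zero, max_eq_right (by positivity : 0 ≤ t * ‖g.coeff d‖)]
    rw [max_eq_right, mul_assoc]
    have := hL₂ y (lt_of_le_of_lt (le_max_right _ _) hy)
    calc s * y f ≤ s * (t * ‖g.coeff d‖ / s * y X ^ d) := by gcongr
      _ = t * (‖g.coeff d‖ * y X ^ d) := by field_simp
  · by_cases h2 : g.coeff d = 0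
    · have h1' : 0 < ‖f.coeff d‖ := norm_pos_iff.2 h1
      obtain ⟨L₁, hL₁⟩ := lead_of_ne hf h1
      obtain ⟨L₂, hL₂⟩ := lead_of_eq hg h2 (ε := s * ‖f.coeff d‖ / t) (by positivity)
      refine ⟨max L₁ L₂, fun y hy => ?_⟩
      rw [hL₁ y (lt_of_le_of_lt (le_max_left _ _) hy), h2, norm_zero, mul_zero, max_eq_left (by positivity : 0 ≤ s * ‖f.coeff d‖)]
      rw [max_eq_left, mul_assoc]
      have := hL₂ y (lt_of_le_of_lt (le_max_right _ _) hy)
      calc t * y g ≤ t * (s * ‖f.coeff d‖ / t * y X ^ d) := by gcongr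
        _ = s * (‖f.coeff d‖ * y X ^ d) := by field_simp
    · obtain ⟨L₁, hL₁⟩ := lead_of_ne hf h1
      obtain ⟨L₂, hL₂⟩ := lead_of_ne hg h2
      refine ⟨max L₁ L₂, fun y hy => ?_⟩
      rw [hL₁ y (lt_of_le_of_lt (le_max_left _ _) hy), hL₂ y (lt_of_le_of_lt (le_max_right _ _) hy),
        max_mul_of_nonneg _ _ (pow_nonneg (y.nonneg _) _), mul_assoc, mul_assoc]

/-! ### the functions `κ` -/

/-- `log max(|T-c|, r) - log max(1,|T|)` -/
noncomputable def kap (c : K) (r : ℝ) : P1 K → ℝ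
  | ∞ => 0
  | (y : A1 K) => Real.log (max (y (X - C c)) r) - Real.log (max 1 (y X))

@[simp] lemma kap_infty (c : K) (r : ℝ) : kap c r ∞ = 0 := rfl
@[simp] lemma kap_coe (c : K) (r : ℝ) (y : A1 K) :
    kap c r (y : P1 K) = Real.log (max (y (X - C c)) r) - Real.log (max 1 (y X)) := rfl

lemma continuous_kap (c : K) {r : ℝ} (hr : 0 < r) : Continuous (kap c r) := by
  apply continuous_P1
  · simp only [kap_coe]
    apply Continuous.sub
    · apply Continuous.log
      · exact (continuous_eval_A1 _).max continuous_const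
      · intro y; exact (lt_of_lt_of_le hr (le_max_right _ _)).ne'
    · apply Continuous.log
      · exact continuous_const.max (continuous_eval_A1 _)
      · intro y; exact (lt_of_lt_of_le one_pos (le_max_left _ _)).ne'
  · refine ⟨max ‖c‖ (max r 1), fun y hy => ?_⟩
    have h1 : ‖c‖ < y X := lt_of_le_of_lt (le_max_left _ _) hy
    have h2 : r < y X := lt_of_le_of_lt ((le_max_left _ _).trans (le_max_right _ _)) hy
    have h3 : 1 < y X := lt_of_le_of_lt ((le_max_right _ _).trans (le_max_right _ _)) hy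
    rw [kap_coe, y.lin_of_large h1, max_eq_left h2.le, max_eq_right h3.le]; simp

lemma kap_sep {x y : P1 K} (h : ∀ (c : K) (r : ℝ), 0 < r → kap c r x = kap c r y) : x = y := by
  have key : ∀ z : A1 K, ¬ ∀ (c : K) (r : ℝ), 0 < r → kap c r (z : P1 K) = 0 := by
    intro z hz
    have h1 := hz 0 (max 1 (z X) + 1) (by have := le_max_left 1 (z X); linarith)
    rw [kap_coe, A1.lin_zero, max_eq_right (by have := le_max_right 1 (z X); linarith), sub_eq_zero] at h1
    have h2 := Real.log_injOn_pos (Set.mem_Ioi.2 (by have := le_max_left 1 (z X); linarith))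
      (Set.mem_Ioi.2 (by have := le_max_left 1 (z X); linarith)) h1
    linarith
  induction x using OnePoint.rec with
  | infty =>
    induction y using OnePoint.rec with
    | infty => rfl
    | coe y => exact absurd (fun c r hr => (h c r hr).symm) (key y)
  | coe x =>
    induction y using OnePoint.rec with
    | infty => exact absurd (fun c r hr => h c r hr) (key x)
    | coe y =>
      rw [OnePoint.coe_eq_coe]
      have hmax : max 1 (x X) = max 1 (y X) := by
        have h0 : 0 < max (max 1 (x X)) (max 1 (y X)) := lt_of_lt_of_le one_pos ((le_max_left _ _).trans (le_max_left _ _))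
        have h1 := h 0 (max (max 1 (x X)) (max 1 (y X))) h0
        rw [kap_coe, kap_coe, A1.lin_zero, A1.lin_zero,
          max_eq_right ((le_max_right _ _).trans (le_max_left _ _)),
          max_eq_right ((le_max_right _ _).trans (le_max_right _ _))] at h1
        have h2 : Real.log (max 1 (x X)) = Real.log (max 1 (y X)) := by linarith
        exact Real.log_injOn_pos (Set.mem_Ioi.2 (lt_of_lt_of_le one_pos (le_max_left _ _)))
          (Set.mem_Ioi.2 (lt_of_lt_of_le one_pos (le_max_left _ _))) h2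
      apply A1.ext_lin
      intro a
      have h3 : ∀ r : ℝ, 0 < r → max (x (X - C a)) r = max (y (X - C a)) r := by
        intro r hr
        have h1 := h a r hr
        rw [kap_coe, kap_coe, hmax] at h1
        have h2 : Real.log (max (x (X - C a)) r) = Real.log (max (y (X - C a)) r) := by linarith
        exact Real.log_injOn_pos (Set.mem_Ioi.2 (lt_of_lt_of_le hr (le_max_right _ _)))
          (Set.mem_Ioi.2 (lt_of_lt_of_le hr (le_max_right _ _))) h2
      rcases lt_trichotomy (x (X - C a)) (y (X - C a)) with hlt | heq | hgt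
      · exfalso
        have hr : 0 < (x (X - C a) + y (X - C a)) / 2 := by have := x.nonneg (X - C a); linarith
        have := h3 _ hr
        rw [max_eq_right (by linarith), max_eq_left (by linarith)] at this
        linarith
      · exact heq
      · exfalso
        have hr : 0 < (x (X - C a) + y (X - C a)) / 2 := by have := y.nonneg (X - C a); linarith
        have := h3 _ hr
        rw [max_eq_left (by linarith), max_eq_right (by linarith)] at this
        linarith

lemma continuous_of_kap {Z : Type*} [TopologicalSpace Z] (g : Z → P1 K)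
    (h : ∀ (c : K) (r : ℝ), 0 < r → Continuous (fun z => kap c r (g z))) : Continuous g := by
  have hcont : Continuous (fun x : P1 K => fun p : K × {r : ℝ // 0 < r} => kap p.1 p.2.1 x) :=
    continuous_pi (fun p => continuous_kap p.1 p.2.2)
  have hinj : Function.Injective (fun x : P1 K => fun p : K × {r : ℝ // 0 < r} => kap p.1 p.2.1 x) := by
    intro x y hxy
    apply kap_sep
    intro c r hr
    exact congrFun hxy (c, ⟨r, hr⟩)
  have hemb := hcont.isClosedEmbedding hinj
  rw [hemb.isInducing.continuous_iff]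
  apply continuous_pi
  intro p
  exact h p.1 p.2.1 p.2.2

lemma kap_map (φ : RMap K) (c : K) {r : ℝ} (hr : 0 < r) (y : A1 K) :
    kap c r (φ.map (y : P1 K)) = Real.log (max (y (φ.F c)) (r * y φ.Q)) - Real.log (max (y φ.Q) (y φ.P)) := by
  by_cases h : y φ.Q = 0
  · rw [map_of_eq φ y h, kap_infty, h, mul_zero, max_eq_left (y.nonneg _), max_eq_right (y.nonneg _)]
    have : y (φ.F c) = y φ.P := by
      rw [F_coe, y.sub_eq_left]
      rw [y.map_C_mul, h, mul_zero]; exact P_pos_of_Q_zero φ y h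
    rw [this, sub_self]
  · have hpos : 0 < y φ.Q := lt_of_le_of_ne (y.nonneg _) (Ne.symm h)
    rw [map_of_ne φ y h, kap_coe, push_lin]
    have h1 : push φ y h X = y φ.P / y φ.Q := by
      have := push_lin φ y h 0
      rw [A1.lin_zero] at this
      rw [this, F_coe]; simp
    have e1 : max (y (φ.F c) / y φ.Q) r = max (y (φ.F c)) (r * y φ.Q) / y φ.Q := by
      rw [← max_div_div_right hpos.le]; congr 1; field_simp
    have e2 : max 1 (y φ.P / y φ.Q) = max (y φ.Q) (y φ.P) / y φ.Q := by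
      rw [← max_div_div_right hpos.le, div_self h]
    have hm := max_FQ_pos φ y c hr
    have hm2 := max_PQ_pos φ y
    rw [max_comm] at hm2
    rw [h1, e1, e2, Real.log_div hm.ne' h, Real.log_div hm2.ne' h]
    ring

lemma F_coeff_ne (φ : RMap K) (c : K) : (φ.F c).coeff φ.deg ≠ 0 ∨ φ.Q.coeff φ.deg ≠ 0 := by
  by_cases h : φ.Q.coeff φ.deg = 0
  · left
    rw [F_coe, coeff_sub, coeff_C_mul, h, mul_zero, sub_zero]
    rcases exists_coeff_ne φ with h1 | h1
    · exact h1
    · exact absurd h h1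
  · right; exact h

lemma kap_map_infty (φ : RMap K) (c : K) {r : ℝ} (hr : 0 < r) :
    kap c r (φ.map (∞ : P1 K)) = Real.log (max ‖(φ.F c).coeff φ.deg‖ (r * ‖φ.Q.coeff φ.deg‖)) -
      Real.log (max ‖φ.Q.coeff φ.deg‖ ‖φ.P.coeff φ.deg‖) := by
  by_cases h : φ.Q.coeff φ.deg = 0
  · rw [map_infty_of_eq φ h, kap_infty, h, norm_zero, mul_zero, max_eq_left (norm_nonneg _),
      max_eq_right (norm_nonneg _), F_coe, coeff_sub, coeff_C_mul, h, mul_zero, sub_zero, sub_self]
  · have hpos : 0 < ‖φ.Q.coeff φ.deg‖ := norm_pos_iff.2 h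
    rw [map_infty_of_ne φ h, kap_coe, evalPt_apply, evalPt_apply]
    simp only [eval_sub, eval_X, eval_C]
    have e0 : φ.P.coeff φ.deg / φ.Q.coeff φ.deg - c = (φ.F c).coeff φ.deg / φ.Q.coeff φ.deg := by
      rw [F_coe, coeff_sub, coeff_C_mul]; field_simp
    have e1 : max (‖φ.P.coeff φ.deg / φ.Q.coeff φ.deg - c‖) r =
        max ‖(φ.F c).coeff φ.deg‖ (r * ‖φ.Q.coeff φ.deg‖) / ‖φ.Q.coeff φ.deg‖ := by
      rw [e0, norm_div, ← max_div_div_right hpos.le]; congr 1; field_simp
    have e2 : max 1 ‖φ.P.coeff φ.deg / φ.Q.coeff φ.deg‖ = max ‖φ.Q.coeff φ.deg‖ ‖φ.P.coeff φ.deg‖ / ‖φ.Q.coeff φ.deg‖ := by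
      rw [norm_div, ← max_div_div_right hpos.le, div_self hpos.ne']
    have hm : 0 < max ‖(φ.F c).coeff φ.deg‖ (r * ‖φ.Q.coeff φ.deg‖) :=
      lt_of_lt_of_le (mul_pos hr hpos) (le_max_right _ _)
    have hm2 : 0 < max ‖φ.Q.coeff φ.deg‖ ‖φ.P.coeff φ.deg‖ := lt_of_lt_of_le hpos (le_max_left _ _)
    rw [e1, e2, Real.log_div hm.ne' hpos.ne', Real.log_div hm2.ne' hpos.ne']
    ring

lemma natDegree_P_le (φ : RMap K) : φ.P.natDegree ≤ φ.deg := le_max_left _ _
lemma natDegree_Q_le (φ : RMap K) : φ.Q.natDegree ≤ φ.deg := le_max_right _ _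

/-- continuity of the action -/
theorem continuous_map (φ : RMap K) : Continuous (φ.map : P1 K → P1 K) := by
  apply continuous_of_kap
  intro c r hr
  apply continuous_P1
  · simp only [kap_map φ c hr]
    apply Continuous.sub
    · apply Continuous.log
      · exact (continuous_eval_A1 _).max (continuous_const.mul (continuous_eval_A1 _))
      · intro y; exact (max_FQ_pos φ y c hr).ne'
    · apply Continuous.log
      · exact (continuous_eval_A1 _).max (continuous_eval_A1 _)
      · intro y; rw [max_comm]; exact (max_PQ_pos φ y).ne'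
  · obtain ⟨L₁, hL₁⟩ := maxlead (natDegree_F_le φ (c : OnePoint K)) (natDegree_Q_le φ) (F_coeff_ne φ c)
      one_pos hr
    obtain ⟨L₂, hL₂⟩ := maxlead (natDegree_Q_le φ) (natDegree_P_le φ) (exists_coeff_ne φ).symm
      one_pos one_pos
    refine ⟨max (max L₁ L₂) 0, fun y hy => ?_⟩
    have hy0 : 0 < y X := lt_of_le_of_lt (le_max_right _ _) hy
    have h1 := hL₁ y (lt_of_le_of_lt ((le_max_left _ _).trans (le_max_left _ _)) hy)
    have h2 := hL₂ y (lt_of_le_of_lt ((le_max_right _ _).trans (le_max_left _ _)) hy)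
    simp only [one_mul] at h1 h2
    rw [kap_map φ c hr, h1, h2, kap_map_infty φ c hr]
    have hm : 0 < max ‖(φ.F c).coeff φ.deg‖ (r * ‖φ.Q.coeff φ.deg‖) := by
      rcases F_coeff_ne φ c with h | h
      · exact lt_of_lt_of_le (norm_pos_iff.2 h) (le_max_left _ _)
      · exact lt_of_lt_of_le (mul_pos hr (norm_pos_iff.2 h)) (le_max_right _ _)
    have hm2 : 0 < max ‖φ.Q.coeff φ.deg‖ ‖φ.P.coeff φ.deg‖ := by
      rcases exists_coeff_ne φ with h | h
      · exact lt_of_lt_of_le (norm_pos_iff.2 h) (le_max_right _ _)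
      · exact lt_of_lt_of_le (norm_pos_iff.2 h) (le_max_left _ _)
    rw [Real.log_mul hm.ne' (pow_pos hy0 _).ne', Real.log_mul hm2.ne' (pow_pos hy0 _).ne']
    ring

end BerkFix
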