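import Pool.Agent.Lib.MP_edb0ca_an.Atoms

set_option linter.unusedSectionVars false
set_option linter.unusedVariables false

open Polynomial OnePoint Topology Filter MeasureTheory

namespace BerkFix

variable {K : Type*} [NormedField K] [IsUltrametricDist K] [IsAlgClosed K]

variable {R : RMap K} {ρ : Measure (P1 K)}

/-- finitely many big atoms -/
lemma finite_big_atoms [IsFiniteMeasure ρ] {η : ℝ} (hη : 0 < η) : {z : OnePoint K | η ≤ ρ.real {cl z}}.Finite := by
  classical
  by_contra hinf
  obtain ⟨N, hN⟩ := exists_nat_gt (ρ.real Set.univ / η)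
  obtain ⟨S, hS1, hS2⟩ := Set.Infinite.exists_subset_card_eq hinf N
  have h1 : ∑ z ∈ S, ρ.real {cl z} = ρ.real (⋃ z ∈ S, {cl z}) := by
    rw [measureReal_biUnion_finset]
    · intro x _ y _ hxy
      simp only [Function.onFun]
      rw [Set.disjoint_singleton]
      exact fun h => hxy (cl_injective h)
    · intro z _; exact measurableSet_cl z
  have h2 : ρ.real (⋃ z ∈ S, {cl z}) ≤ ρ.real Set.univ := measureReal_mono (Set.subset_univ _)
  have h3 : (N : ℝ) * η ≤ ∑ z ∈ S, ρ.real {cl z} := by
    rw [← hS2, ← nsmul_eq_mul, ← Finset.sum_const]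
    apply Finset.sum_le_sum
    intro z hz
    exact hS1 hz
  rw [div_lt_iff₀ hη] at hN
  linarith

/-- the equilibrium measure does not charge classical points -/
theorem no_atoms (hR : 1 ≤ R.deg) (h : IsEquilibrium R ρ) (a : OnePoint K) : ρ {cl a} = 0 := by
  classical
  have := h.prob
  by_contra hne
  have hpos : 0 < ρ.real {cl a} := by
    rw [measureReal_def]
    exact ENNReal.toReal_pos hne (measure_ne_top _ _)
  -- a maximal atom
  set S : Set (OnePoint K) := {z : OnePoint K | ρ.real {cl a} ≤ ρ.real {cl z}} with hS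
  have hSfin : S.Finite := finite_big_atoms hpos
  obtain ⟨b, hbS, hbmax⟩ := Set.exists_max_image S (fun z => ρ.real {cl z}) hSfin ⟨a, le_refl (ρ.real {cl a})⟩
  have hmax : ∀ z, ρ.real {cl z} ≤ ρ.real {cl b} := by
    intro z
    by_cases hz : z ∈ S
    · exact hbmax z hz
    · have hz' : ρ.real {cl z} < ρ.real {cl a} := not_le.1 hz
      exact hz'.le.trans hbS
  set η := ρ.real {cl b} with hη
  have hηpos : 0 < η := lt_of_lt_of_le hpos hbS
  set E : Set (OnePoint K) := {z : OnePoint K | η ≤ ρ.real {cl z}} with hE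
  have hEfin : E.Finite := finite_big_atoms hηpos
  have hd : (0 : ℝ) < R.deg := by exact_mod_cast hR
  -- the total ramification
  have key : ∀ z ∈ E, cmap R z ∈ E ∧ (R.fib (cmap R z)).count z = R.deg := by
    intro z hz
    have h1 := atom_formula hR h z
    have h2 : (R.fib (cmap R z)).count z ≤ R.deg := by
      rw [← card_fib R (cmap R z)]; exact Multiset.count_le_card _ _
    have h2' : ((R.fib (cmap R z)).count z : ℝ) ≤ R.deg := by exact_mod_cast h2
    have h3 := hmax (cmap R z)
    have h4 : η ≤ ρ.real {cl z} := hz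
    have h5 : (0 : ℝ) ≤ (R.fib (cmap R z)).count z := by positivity
    have h6 : (R.deg : ℝ) * η ≤ ((R.fib (cmap R z)).count z : ℝ) * ρ.real {cl (cmap R z)} := by
      rw [← h1]; gcongr
    constructor
    · change η ≤ ρ.real {cl (cmap R z)}
      by_contra hcon
      push Not at hcon
      have h7 : ((R.fib (cmap R z)).count z : ℝ) * ρ.real {cl (cmap R z)} ≤ R.deg * ρ.real {cl (cmap R z)} := by
        gcongr
      have h8 : (R.deg : ℝ) * ρ.real {cl (cmap R z)} < R.deg * η := by gcongr
      linarith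
    · have h7 : ((R.fib (cmap R z)).count z : ℝ) * ρ.real {cl (cmap R z)} ≤ ((R.fib (cmap R z)).count z : ℝ) * η := by
        gcongr
      have h8 : (R.deg : ℝ) ≤ (R.fib (cmap R z)).count z := by
        have := h6.trans h7
        exact le_of_mul_le_mul_right this hηpos
      have h9 : R.deg ≤ (R.fib (cmap R z)).count z := by exact_mod_cast h8
      omega
  have hfib : ∀ z ∈ E, R.fib (cmap R z) = Multiset.replicate R.deg z := by
    intro z hz
    have h1 := (key z hz).2
    rw [Multiset.eq_replicate]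
    refine ⟨card_fib R _, ?_⟩
    rw [← card_fib R (cmap R z), Multiset.count_eq_card] at h1
    intro w hw
    exact (h1 w hw).symm
  -- surjectivity
  have hinj : Set.InjOn (cmap R) E := by
    intro x hx y hy hxy
    have h1 := hfib x hx
    have h2 := hfib y hy
    rw [hxy, h2] at h1
    have h3 : y ∈ Multiset.replicate R.deg x := by
      rw [← h1, Multiset.mem_replicate]; exact ⟨by omega, rfl⟩
    exact (Multiset.eq_of_mem_replicate h3).symm
  have hsurj : Set.SurjOn (cmap R) E E := by
    have hmaps : Set.MapsTo (cmap R) E E := fun z hz => (key z hz).1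
    have h1 : Set.SurjOn (cmap R) (hEfin.toFinset : Set (OnePoint K)) (hEfin.toFinset : Set (OnePoint K)) := by
      apply Finset.surjOn_of_injOn_of_card_le _ _ _ le_rfl
      · rw [Set.Finite.coe_toFinset]; exact hmaps
      · rw [Set.Finite.coe_toFinset]; exact hinj
    rwa [Set.Finite.coe_toFinset] at h1
  have hback : ∀ n : ℕ, ∀ w ∈ E, ∀ z ∈ (iter R n).fib w, z ∈ E := by
    intro n
    induction n with
    | zero =>
      intro w hw z hz
      have h1 := map_cl_of_mem_fib hz
      rw [map_iter] at h1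
      have h2 : z = w := cl_injective h1
      rw [h2]; exact hw
    | succ n ih =>
      intro w hw z hz
      rw [iter, fib_comp R (iter R n) (deg_iter_pos R hR n) hR, Multiset.mem_bind] at hz
      obtain ⟨v, hv, hz⟩ := hz
      obtain ⟨u, hu, rfl⟩ := hsurj hw
      rw [hfib u hu] at hv
      have := Multiset.eq_of_mem_replicate hv
      subst this
      exact ih _ hu z hz
  have hfinite : {z : OnePoint K | ∃ n, z ∈ (iter R n).fib b}.Finite := by
    apply hEfin.subset
    rintro z ⟨n, hz⟩
    exact hback n b (le_refl (ρ.real {cl b})) z hz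
  have h0 := h.noExceptional b hfinite
  rw [hη, measureReal_def, h0] at hηpos
  simp at hηpos

/-- a continuity property of measures: small balls have uniformly small measure -/
theorem small_balls [CompleteSpace K] [IsFiniteMeasure ρ] (h0 : ∀ z : OnePoint K, ρ {cl z} = 0) {η : ℝ} (hη : 0 < η) :
    ∃ δ > 0, ∀ z : OnePoint K, ρ.real {x : P1 K | chP x z < δ} ≤ η := by
  classical
  by_contra hcon
  push Not at hcon
  have h1 : ∀ k : ℕ, ∃ z : OnePoint K, η < ρ.real {x : P1 K | chP x z < 1 / ((k : ℝ) + 1)} :=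
    fun k => hcon _ (by positivity)
  choose z hz using h1
  have hmeas : ∀ (w : OnePoint K) (δ : ℝ), MeasurableSet {x : P1 K | chP x w < δ} :=
    fun w δ => (isOpen_lt (continuous_chP w) continuous_const).measurableSet
  -- the limsup set
  set A : ℕ → Set (P1 K) := fun n => ⋃ k, ⋃ (_ : n ≤ k), {x : P1 K | chP x (z k) < 1 / ((k : ℝ) + 1)} with hA
  have hAm : ∀ n, MeasurableSet (A n) := fun n => MeasurableSet.iUnion (fun k => MeasurableSet.iUnion (fun _ => hmeas _ _))
  have hanti : Antitone A := by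
    intro n m hnm x hx
    simp only [hA, Set.mem_iUnion] at hx ⊢
    obtain ⟨k, hk, hx⟩ := hx
    exact ⟨k, hnm.trans hk, hx⟩
  have hlow : ∀ n, η ≤ ρ.real (A n) := by
    intro n
    refine (hz n).le.trans (measureReal_mono ?_ (measure_ne_top _ _))
    intro x hx
    simp only [hA, Set.mem_iUnion]
    exact ⟨n, le_refl n, hx⟩
  have htend := tendsto_measure_iInter_atTop (μ := ρ) (fun n => (hAm n).nullMeasurableSet) hanti ⟨0, measure_ne_top _ _⟩
  have hne : ρ (⋂ n, A n) ≠ 0 := by
    intro h
    rw [h] at htend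
    have h2 : Tendsto (fun n => ρ.real (A n)) atTop (𝓝 0) := by
      have := (ENNReal.tendsto_toReal ENNReal.zero_ne_top).comp htend
      simpa [Function.comp_def, measureReal_def] using this
    have := ge_of_tendsto' h2 hlow
    linarith
  obtain ⟨x, hx⟩ := nonempty_of_measure_ne_zero hne
  have hxk : ∀ n : ℕ, ∃ k ≥ n, chP x (z k) < 1 / ((k : ℝ) + 1) := by
    intro n
    have := Set.mem_iInter.1 hx n
    simp only [hA, Set.mem_iUnion] at this
    obtain ⟨k, hk, h2⟩ := this
    exact ⟨k, hk, h2⟩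
  -- x is classical
  have hxc : ¬ Hyp x := by
    intro hH
    obtain ⟨y, rfl⟩ := exists_coe_of_hyp hH
    obtain ⟨δ, hδ, hδ2⟩ := (hyp_iff_diam y).1 hH
    have h3 := fun z => ch_ge_of_diam y hδ hδ2 z
    have hM := Mx_pos y
    have hpos : 0 < δ / max 1 (y X) ^ 2 := by positivity
    obtain ⟨N, hN⟩ := exists_nat_one_div_lt hpos
    obtain ⟨k, hk, h4⟩ := hxk N
    have h5 := h3 (z k)
    rw [chP_coe] at h4
    have h6 : 1 / ((k : ℝ) + 1) ≤ 1 / ((N : ℝ) + 1) := by
      apply one_div_le_one_div_of_le (by positivity)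
      have : (N : ℝ) ≤ k := by exact_mod_cast hk
      linarith
    linarith
  have hxr : x ∈ Set.range (cl : OnePoint K → P1 K) := by
    by_contra h; exact hxc h
  obtain ⟨w, rfl⟩ := hxr
  -- balls around w
  have hball : ∀ n : ℕ, η ≤ ρ.real {x : P1 K | chP x w < 1 / ((n : ℝ) + 1)} := by
    intro n
    obtain ⟨k, hk, h2⟩ := hxk n
    refine (hz k).le.trans (measureReal_mono ?_)
    intro y hy
    have h6 : 1 / ((k : ℝ) + 1) ≤ 1 / ((n : ℝ) + 1) := by
      apply one_div_le_one_div_of_le (by positivity)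
      have : (n : ℝ) ≤ k := by exact_mod_cast hk
      linarith
    rw [chP_cl] at h2
    have hy' : chP y (z k) < 1 / ((k : ℝ) + 1) := hy
    have h7 : chP y w < 1 / ((k : ℝ) + 1) := by
      refine lt_of_le_of_lt (chP_le_max y w (z k)) (max_lt hy' ?_)
      rw [cc_comm]; exact h2
    exact lt_of_lt_of_le h7 h6
  have hanti2 : Antitone (fun n : ℕ => {x : P1 K | chP x w < 1 / ((n : ℝ) + 1)}) := by
    intro n m hnm x hx
    have hx' : chP x w < 1 / ((m : ℝ) + 1) := hx
    refine lt_of_lt_of_le hx' ?_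
    apply one_div_le_one_div_of_le (by positivity)
    have : (n : ℝ) ≤ m := by exact_mod_cast hnm
    linarith
  have hinter : (⋂ n : ℕ, {x : P1 K | chP x w < 1 / ((n : ℝ) + 1)}) = {cl w} := by
    ext x
    simp only [Set.mem_iInter, Set.mem_ofPred_eq, Set.mem_singleton_iff]
    constructor
    · intro hx
      by_contra hne
      have hpos := chP_pos_of_ne hne
      obtain ⟨N, hN⟩ := exists_nat_one_div_lt hpos
      have := hx N
      linarith
    · rintro rfl n
      rw [chP_cl, cc_self]; positivity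
  have htend2 := tendsto_measure_iInter_atTop (μ := ρ) (fun n : ℕ => (hmeas w (1 / ((n : ℝ) + 1))).nullMeasurableSet) hanti2
    ⟨0, measure_ne_top _ _⟩
  rw [hinter, h0 w] at htend2
  have h2 : Tendsto (fun n : ℕ => ρ.real {x : P1 K | chP x w < 1 / ((n : ℝ) + 1)}) atTop (𝓝 0) := by
    have := (ENNReal.tendsto_toReal ENNReal.zero_ne_top).comp htend2
    simpa [Function.comp_def, measureReal_def] using this
  have := ge_of_tendsto' h2 hball
  linarith

/-- potentials along orbits grow slower than `d ^ n` -/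
theorem gP_iter_small [CompleteSpace K] (hR : 2 ≤ R.deg) [IsProbabilityMeasure ρ] (h0 : ∀ z : OnePoint K, ρ {cl z} = 0) {x : P1 K} (hx : IsZt x)
    {ε : ℝ} (hε : 0 < ε) : ∀ᶠ n in atTop, |gP ρ (R.map^[n] x)| ≤ ε * (R.deg : ℝ) ^ n := by
  have hd : (2 : ℝ) ≤ R.deg := by exact_mod_cast hR
  obtain ⟨⟨c, r⟩, hr, rfl⟩ := hx
  simp only at hr
  obtain ⟨δ, hδ, hδ2⟩ := chP_zt_lower c hr
  obtain ⟨C, hC0, hC⟩ := exists_ch_iter_lower R hR (zt c r hr) (hyp_zt c hr) hδ hδ2
  obtain ⟨δ', hδ', hball⟩ := small_balls (ρ := ρ) h0 (η := ε / (2 * (2 * C + 1))) (by positivity)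
  set T := |Real.log δ'| with hT
  have hT0 : 0 ≤ T := abs_nonneg _
  have hlim : Tendsto (fun n : ℕ => T / (R.deg : ℝ) ^ n) atTop (𝓝 0) :=
    (tendsto_pow_atTop_atTop_of_one_lt (by linarith)).const_div_atTop _
  filter_upwards [hlim.eventually (gt_mem_nhds (by positivity : 0 < ε / 2))] with n hn
  have hzt := (isZt_zt c hr).iterate (R := R) (by omega) n
  obtain ⟨⟨b, s⟩, hs, hbs⟩ := hzt
  simp only at hs hbs
  have hDn : (0 : ℝ) < (R.deg : ℝ) ^ n := by positivity
  rw [div_lt_iff₀ hDn] at hn
  have hlow : ∀ w, Real.exp (-C * (R.deg : ℝ) ^ n) ≤ chP (zt b s hs : P1 K) w := hC n (zt b s hs) hbs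
  have hkk : ∀ x : P1 K, -kz b s x ≤ 2 * C * (R.deg : ℝ) ^ n := by
    intro x
    rw [kz_eq_log b hs]
    have h2 := kk_lower' b hs x
    have h3 : Real.exp (-C * (R.deg : ℝ) ^ n) * Real.exp (-C * (R.deg : ℝ) ^ n) ≤ kk b s x := by
      refine le_trans ?_ h2
      exact mul_le_mul (hlow _) (hlow _) (Real.exp_pos _).le (chP_nonneg _ _)
    rw [← Real.exp_add] at h3
    have h4 := Real.log_le_log (Real.exp_pos _) h3
    rw [Real.log_exp] at h4
    linarith
  obtain ⟨z, hz⟩ := exists_close b hs
  set B : Set (P1 K) := {x : P1 K | chP x z < δ'} with hB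
  have hBm : MeasurableSet B := (isOpen_lt (continuous_chP z) continuous_const).measurableSet
  rw [hbs, gP_zt]
  have hle0 : gU ρ b s ≤ 0 := integral_nonpos (fun x => kz_nonpos b hs x)
  rw [abs_of_nonpos hle0]
  unfold gU
  rw [← integral_neg]
  have hpt : ∀ x : P1 K, -kz b s x ≤ T + B.indicator (fun _ => 2 * C * (R.deg : ℝ) ^ n) x := by
    intro x
    by_cases hxB : x ∈ B
    · rw [Set.indicator_of_mem hxB]
      have := hkk x
      linarith
    · rw [Set.indicator_of_notMem hxB, add_zero, kz_eq_log b hs]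
      have h1 : δ' ≤ chP x z := not_lt.1 hxB
      have h2 := Real.log_le_log hδ' (h1.trans (hz x))
      have h3 := neg_abs_le (Real.log δ')
      linarith
  have hint1 : Integrable (fun x => -kz b s x) ρ := (integrable_of_continuous (continuous_kz b hs)).neg
  have hint2 : Integrable (fun x => T + B.indicator (fun _ => 2 * C * (R.deg : ℝ) ^ n) x) ρ :=
    (integrable_const _).add ((integrable_const _).indicator hBm)
  calc ∫ x, -kz b s x ∂ρ ≤ ∫ x, (T + B.indicator (fun _ => 2 * C * (R.deg : ℝ) ^ n) x) ∂ρ :=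
        integral_mono hint1 hint2 hpt
    _ = T + ρ.real B * (2 * C * (R.deg : ℝ) ^ n) := by
        rw [integral_add (integrable_const _) ((integrable_const _).indicator hBm), integral_const, probReal_univ, one_smul,
          integral_indicator_const _ hBm, smul_eq_mul]
    _ ≤ T + (ε / (2 * (2 * C + 1))) * (2 * C * (R.deg : ℝ) ^ n) := by
        gcongr
        exact hball z
    _ ≤ ε * (R.deg : ℝ) ^ n := by
        have h1 : (ε / (2 * (2 * C + 1))) * (2 * C * (R.deg : ℝ) ^ n) ≤ ε / 2 * (R.deg : ℝ) ^ n := by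
          have h2 : (ε / (2 * (2 * C + 1))) * (2 * C) ≤ ε / 2 := by
            rw [div_mul_eq_mul_div, div_le_div_iff₀ (by positivity) (by norm_num)]
            nlinarith
          calc (ε / (2 * (2 * C + 1))) * (2 * C * (R.deg : ℝ) ^ n) = ((ε / (2 * (2 * C + 1))) * (2 * C)) * (R.deg : ℝ) ^ n := by ring
            _ ≤ _ := by gcongr
        linarith

end BerkFix
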