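import Pool.Agent.Lib.MP_edb0ca_an.Gauss
import Pool.Agent.Lib.MP_edb0ca_an.Defs

set_option linter.unusedSectionVars false
set_option linter.unusedVariables false

open Polynomial OnePoint

namespace BerkFix

variable {K : Type*} [NormedField K] [IsUltrametricDist K] [IsAlgClosed K]

section basic

variable (φ : RMap K)

@[simp] lemma F_infty : φ.F ∞ = φ.Q := rfl

@[simp] lemma F_coe (a : K) : φ.F (a : OnePoint K) = φ.P - C a * φ.Q := rfl

lemma F_ne_zero (hD : 1 ≤ φ.deg) (a : OnePoint K) : φ.F a ≠ 0 := by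
  intro h
  induction a using OnePoint.rec with
  | infty =>
    simp only [F_infty] at h
    have h1 := φ.cop
    rw [h, isCoprime_zero_right] at h1
    have h2 := natDegree_eq_zero_of_isUnit h1
    unfold RMap.deg at hD
    rw [h, h2] at hD
    simp at hD
  | coe a =>
    simp only [F_coe] at h
    have hP : φ.P = C a * φ.Q := sub_eq_zero.1 h
    have h1 := φ.cop
    rw [hP] at h1
    have h2 : IsUnit φ.Q := by
      have := IsCoprime.of_mul_left_right h1
      rwa [isCoprime_self] at this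
    have h3 := natDegree_eq_zero_of_isUnit h2
    have h4 : φ.P.natDegree ≤ 0 := by
      rw [hP]
      exact (natDegree_C_mul_le _ _).trans h3.le
    unfold RMap.deg at hD
    rw [h3] at hD
    omega

lemma Q_ne_zero (hD : 1 ≤ φ.deg) : φ.Q ≠ 0 := F_ne_zero φ hD ∞

lemma natDegree_F_le (a : OnePoint K) : (φ.F a).natDegree ≤ φ.deg := by
  induction a using OnePoint.rec with
  | infty => exact le_max_right _ _
  | coe a =>
    simp only [F_coe]
    refine (natDegree_sub_le _ _).trans (max_le_max le_rfl ?_)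
    exact natDegree_C_mul_le _ _

lemma card_fib (a : OnePoint K) : (φ.fib a).card = φ.deg := by
  unfold RMap.fib
  rw [Multiset.card_add, Multiset.card_map, Multiset.card_replicate,
    IsAlgClosed.card_roots_eq_natDegree]
  have := natDegree_F_le φ a
  omega

end basic

/-- `ζ(b,ρ)` is the image of `ζ(c,r)` under `φ`. -/
def Im (φ : RMap K) (c : K) (r : ℝ) (b : K) (ρ : ℝ) : Prop :=
  0 < ρ ∧ ∀ a : K, gn c r (φ.P - C a * φ.Q) = max ‖a - b‖ ρ * gn c r φ.Q

lemma exists_Im (φ : RMap K) (hD : 1 ≤ φ.deg) (c : K) {r : ℝ} (hr : 0 < r) :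
    ∃ b ρ, Im φ c r b ρ := by
  have hQ := Q_ne_zero φ hD
  have hg : 0 < gn c r φ.Q := gn_pos c hr hQ
  set j := nO c r φ.Q with hj
  have h1 := gn_nO c hr φ.Q
  rw [← hj] at h1
  have hq : co c j φ.Q ≠ 0 := by
    intro h
    rw [h] at h1; simp at h1
    exact absurd h1 (ne_of_lt hg)
  set b := co c j φ.P / co c j φ.Q with hb
  have hpos : 0 < gn c r (φ.P - C b * φ.Q) := gn_pos c hr (F_ne_zero φ hD b)
  refine ⟨b, gn c r (φ.P - C b * φ.Q) / gn c r φ.Q, by positivity, ?_⟩
  intro a
  rw [max_mul_of_nonneg _ _ hg.le, div_mul_cancel₀ _ hg.ne']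
  have e1 : φ.P - C a * φ.Q = (φ.P - C b * φ.Q) - C (a - b) * φ.Q := by
    rw [C_sub]; ring
  have e2 : φ.P - C b * φ.Q = (φ.P - C a * φ.Q) - C (b - a) * φ.Q := by
    rw [C_sub]; ring
  have h2 : ‖a - b‖ * gn c r φ.Q ≤ gn c r (φ.P - C a * φ.Q) := by
    refine le_trans (le_of_eq ?_) (le_gn c hr j _)
    rw [co_sub, co_C_mul, ← h1]
    have : co c j φ.P - a * co c j φ.Q = (b - a) * co c j φ.Q := by
      rw [hb]; field_simp
    rw [this, norm_mul, norm_sub_rev]; ring
  apply le_antisymm
  · conv_lhs => rw [e1]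
    refine (gn_sub_le c hr _ _).trans ?_
    rw [gn_C_mul, max_comm]
  · apply max_le h2
    conv_lhs => rw [e2]
    refine (gn_sub_le c hr _ _).trans ?_
    rw [gn_C_mul, norm_sub_rev]
    exact max_le le_rfl h2

/-- weight -/
noncomputable def wt (b : K) (ρ : ℝ) : OnePoint K → ℝ
  | ∞ => 1
  | (a : K) => max ‖a - b‖ ρ

@[simp] lemma wt_infty (b : K) (ρ : ℝ) : wt b ρ ∞ = 1 := rfl
@[simp] lemma wt_coe (b : K) (ρ : ℝ) (a : K) : wt b ρ (a : OnePoint K) = max ‖a - b‖ ρ := rfl

lemma Im.gn_F {φ : RMap K} {c : K} {r : ℝ} {b : K} {ρ : ℝ} (h : Im φ c r b ρ) (a : OnePoint K) :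
    gn c r (φ.F a) = wt b ρ a * gn c r φ.Q := by
  induction a using OnePoint.rec with
  | infty => simp
  | coe a => exact h.2 a

open Classical in
/-- The direction at `ζ(c,r)` of a classical point: `none` is the direction of `∞`, and
`some (ball z r)` the direction of `z` in the closed ball. -/
noncomputable def lab (c : K) (r : ℝ) : OnePoint K → Option (Set K)
  | ∞ => none
  | (z : K) => if ‖z - c‖ ≤ r then Option.some (Metric.ball z r) else none

@[simp] lemma lab_infty (c : K) (r : ℝ) : lab c r ∞ = none := rfl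

lemma lab_coe_in {c : K} {r : ℝ} {z : K} (h : ‖z - c‖ ≤ r) :
    lab c r (z : OnePoint K) = Option.some (Metric.ball z r) := by
  simp [lab, h]

lemma lab_coe_out {c : K} {r : ℝ} {z : K} (h : r < ‖z - c‖) :
    lab c r (z : OnePoint K) = none := by
  simp [lab, not_le.2 h]

lemma ball_eq_iff {z w : K} {r : ℝ} (hr : 0 < r) : Metric.ball z r = Metric.ball w r ↔ ‖z - w‖ < r := by
  constructor
  · intro h
    have : z ∈ Metric.ball w r := by rw [← h]; exact Metric.mem_ball_self hr
    rwa [Metric.mem_ball, dist_eq_norm] at this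
  · intro h
    ext x
    simp only [Metric.mem_ball, dist_eq_norm]
    constructor
    · intro hx
      have : x - w = (x - z) + (z - w) := by ring
      rw [this]; exact lt_of_le_of_lt (IsUltrametricDist.norm_add_le_max _ _) (max_lt hx h)
    · intro hx
      have : x - z = (x - w) - (z - w) := by ring
      rw [this]; exact lt_of_le_of_lt (norm_sub_le_max' _ _) (max_lt hx h)

lemma lab_eq_iff_of_in {c : K} {r : ℝ} (hr : 0 < r) {z w : K} (hz : ‖z - c‖ ≤ r) :
    lab c r (w : OnePoint K) = lab c r (z : OnePoint K) ↔ ‖w - z‖ < r := by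
  rw [lab_coe_in hz]
  by_cases hw : ‖w - c‖ ≤ r
  · rw [lab_coe_in hw, Option.some_inj, ball_eq_iff hr]
  · push Not at hw
    rw [lab_coe_out hw]
    simp only [reduceCtorEq, false_iff, not_lt]
    by_contra hcon
    push Not at hcon
    have : w - c = (w - z) + (z - c) := by ring
    rw [this] at hw
    exact absurd hw (not_lt.2 ((IsUltrametricDist.norm_add_le_max _ _).trans (max_le hcon.le hz)))

open Classical in
/-- Number of preimages of `a` in the direction `V` at `ζ(c,r)`. -/
noncomputable def cnt (φ : RMap K) (c : K) (r : ℝ) (a : OnePoint K) (V : Option (Set K)) : ℕ :=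
  ((φ.fib a).map (lab c r)).count V

lemma cnt_none (φ : RMap K) (c : K) {r : ℝ} (a : OnePoint K) :
    cnt φ c r a none = φ.deg - nB c r (φ.F a) := by
  classical
  unfold cnt RMap.fib
  rw [Multiset.map_add, Multiset.count_add, Multiset.map_replicate, lab_infty,
    Multiset.count_replicate_self, Multiset.map_map, Multiset.count_map]
  have h1 : (Multiset.filter (fun a => none = (lab c r ∘ fun z => ((z : K) : OnePoint K)) a) (φ.F a).roots).card
      + nB c r (φ.F a) = (φ.F a).natDegree := by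
    rw [← IsAlgClosed.card_roots_eq_natDegree, nB, Multiset.countP_eq_card_filter, ← Multiset.card_add]
    have : Multiset.filter (fun a => none = (lab c r ∘ fun z => ((z : K) : OnePoint K)) a) (φ.F a).roots
        = Multiset.filter (fun z => ¬ ‖z - c‖ ≤ r) (φ.F a).roots := by
      apply Multiset.filter_congr
      intro z _
      by_cases hz : ‖z - c‖ ≤ r
      · simp [Function.comp, lab_coe_in hz, hz]
      · simp [Function.comp, lab_coe_out (not_le.1 hz), hz]
    rw [this, add_comm]
    congr 1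
    convert Multiset.filter_add_not _ _
  have h2 := natDegree_F_le φ a
  omega

lemma cnt_some (φ : RMap K) {c : K} {r : ℝ} (hr : 0 < r) (a : OnePoint K) {z : K} (hz : ‖z - c‖ ≤ r) :
    cnt φ c r a (Option.some (Metric.ball z r)) = nO z r (φ.F a) := by
  classical
  unfold cnt RMap.fib
  rw [Multiset.map_add, Multiset.count_add, Multiset.map_replicate, lab_infty,
    Multiset.count_replicate, if_neg (by simp), Multiset.map_map, Multiset.count_map, add_zero, nO,
    Multiset.countP_eq_card_filter]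
  congr 1
  have : Multiset.filter (fun a => Option.some (Metric.ball z r) = (lab c r ∘ fun z => ((z : K) : OnePoint K)) a) (φ.F a).roots
        = Multiset.filter (fun w => ‖w - z‖ < r) (φ.F a).roots := by
    apply Multiset.filter_congr
    intro w _
    rw [← lab_eq_iff_of_in hr hz, lab_coe_in hz]
    simp only [Function.comp]
    exact eq_comm
  rw [this]

lemma cnt_eq_zero_of_not_mem (φ : RMap K) {c : K} {r : ℝ} (a : OnePoint K) {V : Option (Set K)}
    (hV : ∀ z, lab c r z ≠ V) : cnt φ c r a V = 0 := by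
  classical
  unfold cnt
  rw [Multiset.count_eq_zero]
  intro h
  rw [Multiset.mem_map] at h
  obtain ⟨z, _, hz⟩ := h
  exact hV z hz

/-- trichotomy for directions -/
lemma dir_cases (c : K) (r : ℝ) (V : Option (Set K)) :
    (∃ z : K, ‖z - c‖ ≤ r ∧ V = Option.some (Metric.ball z r)) ∨ V = none ∨ (∀ z, lab c r z ≠ V) := by
  by_cases h : ∃ z, lab c r z = V
  · obtain ⟨z, hz⟩ := h
    induction z using OnePoint.rec with
    | infty => right; left; rw [← hz]; rfl
    | coe z =>
      by_cases hz' : ‖z - c‖ ≤ r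
      · left; exact ⟨z, hz', by rw [← hz, lab_coe_in hz']⟩
      · right; left; rw [← hz, lab_coe_out (not_le.1 hz')]
  · right; right
    intro z hz
    exact h ⟨z, hz⟩

section key

variable {φ : RMap K} {c : K} {r : ℝ} {b : K} {ρ : ℝ}

lemma Im.strict_of (h : Im φ c r b ρ) (hr : 0 < r) (hD : 1 ≤ φ.deg) {c' : K} (j : ℕ)
    {a : K} (ha : ‖a - b‖ ≤ ρ) (h1 : ‖co c' j (φ.F a)‖ * r ^ j < gn c r (φ.F a))
    (h2 : ‖co c' j φ.Q‖ * r ^ j < gn c r φ.Q) (a'' : OnePoint K) :
    ‖co c' j (φ.F a'')‖ * r ^ j < gn c r (φ.F a'') := by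
  have hg : 0 < gn c r φ.Q := gn_pos c hr (Q_ne_zero φ hD)
  have hρ := h.1
  have h1' : ‖co c' j (φ.P - C a * φ.Q)‖ * r ^ j < ρ * gn c r φ.Q := by
    rw [h.gn_F, wt_coe, max_eq_right ha] at h1
    exact h1
  induction a'' using OnePoint.rec with
  | infty => exact h2
  | coe d =>
    have e : φ.F (d : OnePoint K) = (φ.P - C a * φ.Q) - C (d - a) * φ.Q := by
      simp only [F_coe, C_sub]; ring
    have h3 : gn c r (φ.F (d : OnePoint K)) = max ‖d - b‖ ρ * gn c r φ.Q := h.2 d
    have hda : ‖d - a‖ ≤ max ‖d - b‖ ρ := by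
      have : d - a = (d - b) - (a - b) := by ring
      rw [this]; exact (norm_sub_le_max' _ _).trans (max_le_max le_rfl ha)
    have hmax : 0 < max ‖d - b‖ ρ := lt_of_lt_of_le hρ (le_max_right _ _)
    rw [h3, e, co_sub, co_C_mul]
    calc ‖co c' j (φ.P - C a * φ.Q) - (d - a) * co c' j φ.Q‖ * r ^ j
        ≤ max ‖co c' j (φ.P - C a * φ.Q)‖ ‖(d - a) * co c' j φ.Q‖ * r ^ j := by
          gcongr; exact norm_sub_le_max' _ _
      _ = max (‖co c' j (φ.P - C a * φ.Q)‖ * r ^ j) (‖(d - a) * co c' j φ.Q‖ * r ^ j) := by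
          rw [max_mul_of_nonneg _ _ (by positivity)]
      _ < max ‖d - b‖ ρ * gn c r φ.Q := by
          apply max_lt
          · refine lt_of_lt_of_le h1' ?_
            gcongr; exact le_max_right _ _
          · rw [norm_mul, mul_assoc]
            calc ‖d - a‖ * (‖co c' j φ.Q‖ * r ^ j) ≤ max ‖d - b‖ ρ * (‖co c' j φ.Q‖ * r ^ j) := by
                  gcongr
              _ < max ‖d - b‖ ρ * gn c r φ.Q := by gcongr

lemma Im.strict_Q (h : Im φ c r b ρ) (hr : 0 < r) (hD : 1 ≤ φ.deg) {c' : K} (j : ℕ)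
    {a a' : K} (haa : max ‖a - b‖ (max ‖a' - b‖ ρ) ≤ ‖a - a'‖)
    (h1 : ‖co c' j (φ.F a)‖ * r ^ j < gn c r (φ.F a))
    (h2 : ‖co c' j (φ.F a')‖ * r ^ j < gn c r (φ.F a')) :
    ‖co c' j φ.Q‖ * r ^ j < gn c r φ.Q := by
  have hg : 0 < gn c r φ.Q := gn_pos c hr (Q_ne_zero φ hD)
  have hρ := h.1
  have e : C (a - a') * φ.Q = (φ.P - C a' * φ.Q) - (φ.P - C a * φ.Q) := by
    rw [C_sub]; ring
  have hpos : 0 < ‖a - a'‖ := lt_of_lt_of_le hρ ((le_max_right _ _).trans ((le_max_right _ _).trans haa))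
  have h3 : (a - a') * co c' j φ.Q = co c' j (φ.P - C a' * φ.Q) - co c' j (φ.P - C a * φ.Q) := by
    rw [← co_C_mul, e, co_sub]
  have h4 : ‖a - a'‖ * (‖co c' j φ.Q‖ * r ^ j) < ‖a - a'‖ * gn c r φ.Q := by
    rw [← mul_assoc, ← norm_mul, h3]
    calc ‖co c' j (φ.P - C a' * φ.Q) - co c' j (φ.P - C a * φ.Q)‖ * r ^ j
        ≤ max ‖co c' j (φ.P - C a' * φ.Q)‖ ‖co c' j (φ.P - C a * φ.Q)‖ * r ^ j := by
          gcongr; exact norm_sub_le_max' _ _
      _ = max (‖co c' j (φ.P - C a' * φ.Q)‖ * r ^ j) (‖co c' j (φ.P - C a * φ.Q)‖ * r ^ j) := by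
          rw [max_mul_of_nonneg _ _ (by positivity)]
      _ < ‖a - a'‖ * gn c r φ.Q := by
          apply max_lt
          · refine lt_of_lt_of_le h2 ?_
            rw [h.gn_F, wt_coe]
            gcongr
            exact max_le ((le_max_left _ _).trans ((le_max_right _ _).trans haa))
              ((le_max_right _ _).trans ((le_max_right _ _).trans haa))
          · refine lt_of_lt_of_le h1 ?_
            rw [h.gn_F, wt_coe]
            gcongr
            exact max_le ((le_max_left _ _).trans haa)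
              ((le_max_right _ _).trans ((le_max_right _ _).trans haa))
  exact lt_of_mul_lt_mul_left h4 hpos.le

lemma Im.strict_all (h : Im φ c r b ρ) (hr : 0 < r) (hD : 1 ≤ φ.deg) {c' : K} (j : ℕ)
    {a a' : OnePoint K} (haa : lab b ρ a ≠ lab b ρ a')
    (h1 : ‖co c' j (φ.F a)‖ * r ^ j < gn c r (φ.F a))
    (h2 : ‖co c' j (φ.F a')‖ * r ^ j < gn c r (φ.F a')) (a'' : OnePoint K) :
    ‖co c' j (φ.F a'')‖ * r ^ j < gn c r (φ.F a'') := by
  have hρ := h.1
  induction a using OnePoint.rec with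
  | infty =>
    induction a' using OnePoint.rec with
    | infty => exact absurd rfl haa
    | coe a' =>
      by_cases ha' : ‖a' - b‖ ≤ ρ
      · exact h.strict_of hr hD j ha' h2 h1 a''
      · rw [lab_coe_out (not_le.1 ha')] at haa
        exact absurd rfl haa
  | coe a =>
    induction a' using OnePoint.rec with
    | infty =>
      by_cases ha : ‖a - b‖ ≤ ρ
      · exact h.strict_of hr hD j ha h1 h2 a''
      · rw [lab_coe_out (not_le.1 ha)] at haa
        exact absurd rfl haa
    | coe a' =>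
      by_cases ha : ‖a - b‖ ≤ ρ
      · refine h.strict_of hr hD j ha h1 (h.strict_Q hr hD j (a := a) (a' := a') ?_ h1 h2) a''
        by_cases ha' : ‖a' - b‖ ≤ ρ
        · have : ρ ≤ ‖a - a'‖ := by
            by_contra hcon
            push Not at hcon
            exact haa ((lab_eq_iff_of_in hρ ha').2 hcon)
          exact max_le (ha.trans this) (max_le (ha'.trans this) this)
        · push Not at ha'
          have : ‖a - a'‖ = ‖a' - b‖ := by
            have e : a - a' = (a - b) - (a' - b) := by ring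
            rw [e, norm_sub_eq_right (lt_of_le_of_lt ha ha')]
          rw [this]
          exact max_le (ha.trans ha'.le) (max_le le_rfl ha'.le)
      · push Not at ha
        by_cases ha' : ‖a' - b‖ ≤ ρ
        · refine h.strict_of hr hD j ha' h2 (h.strict_Q hr hD j (a := a) (a' := a') ?_ h1 h2) a''
          have : ‖a - a'‖ = ‖a - b‖ := by
            have e : a - a' = (a - b) - (a' - b) := by ring
            rw [e, norm_sub_eq_left (lt_of_le_of_lt ha' ha)]
          rw [this]
          exact max_le le_rfl (max_le (ha'.trans ha.le) ha.le)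
        · push Not at ha'
          rw [lab_coe_out ha, lab_coe_out ha'] at haa
          exact absurd rfl haa

/-- points in the same direction have normalised pencil members close to each other -/
lemma Im.close (h : Im φ c r b ρ) (hr : 0 < r) (hD : 1 ≤ φ.deg) {a a' : OnePoint K}
    (haa : lab b ρ a = lab b ρ a') :
    ∃ t : K, t ≠ 0 ∧ gn c r (φ.F a - C t * φ.F a') < gn c r (φ.F a) := by
  have hg : 0 < gn c r φ.Q := gn_pos c hr (Q_ne_zero φ hD)
  have hρ := h.1
  have hb : gn c r (φ.P - C b * φ.Q) = ρ * gn c r φ.Q := by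
    have := h.2 b
    rw [sub_self, norm_zero, max_eq_right hρ.le] at this
    exact this
  -- relation of an outside point with infinity
  have hout : ∀ a : K, ρ < ‖a - b‖ → gn c r (φ.F (a : OnePoint K) + C (a - b) * φ.Q) < gn c r (φ.F (a : OnePoint K)) ∧
      gn c r (φ.F (a : OnePoint K)) = ‖a - b‖ * gn c r φ.Q := by
    intro a ha
    have e : φ.F (a : OnePoint K) + C (a - b) * φ.Q = φ.P - C b * φ.Q := by
      simp only [F_coe, C_sub]; ring
    rw [e, hb, h.gn_F, wt_coe, max_eq_left ha.le]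
    exact ⟨by gcongr, rfl⟩
  induction a using OnePoint.rec with
  | infty =>
    induction a' using OnePoint.rec with
    | infty => exact ⟨1, one_ne_zero, by simpa using hg⟩
    | coe a' =>
      by_cases ha' : ‖a' - b‖ ≤ ρ
      · rw [lab_coe_in ha'] at haa; simp at haa
      · push Not at ha'
        obtain ⟨h1, h2⟩ := hout a' ha'
        have hne : a' - b ≠ 0 := by
          intro h0; rw [h0, norm_zero] at ha'; exact absurd ha' (not_lt.2 hρ.le)
        refine ⟨-(a' - b)⁻¹, neg_ne_zero.2 (inv_ne_zero hne), ?_⟩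
        have e : φ.F ∞ - C (-(a' - b)⁻¹) * φ.F (a' : OnePoint K) =
            C ((a' - b)⁻¹) * (φ.F (a' : OnePoint K) + C (a' - b) * φ.Q) := by
          rw [mul_add, ← mul_assoc, ← C_mul, inv_mul_cancel₀ hne]
          simp; ring
        rw [e, gn_C_mul, norm_inv]
        have : 0 < ‖a' - b‖ := norm_pos_iff.2 hne
        rw [inv_mul_lt_iff₀ this]
        simp only [F_infty]
        rw [← h2]; exact h1
  | coe a =>
    induction a' using OnePoint.rec with
    | infty =>
      by_cases ha : ‖a - b‖ ≤ ρ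
      · rw [lab_coe_in ha] at haa; simp at haa
      · push Not at ha
        obtain ⟨h1, h2⟩ := hout a ha
        have hne : a - b ≠ 0 := by
          intro h0; rw [h0, norm_zero] at ha; exact absurd ha (not_lt.2 hρ.le)
        refine ⟨-(a - b), neg_ne_zero.2 hne, ?_⟩
        have e : φ.F (a : OnePoint K) - C (-(a - b)) * φ.F ∞ = φ.F (a : OnePoint K) + C (a - b) * φ.Q := by
          simp only [F_infty, C_neg]; ring
        rw [e]; exact h1
    | coe a' =>
      by_cases ha : ‖a - b‖ ≤ ρ
      · by_cases ha' : ‖a' - b‖ ≤ ρ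
        · refine ⟨1, one_ne_zero, ?_⟩
          have h1 := (lab_eq_iff_of_in hρ ha').1 haa
          have e : φ.F (a : OnePoint K) - C 1 * φ.F (a' : OnePoint K) = C (a' - a) * φ.Q := by
            simp only [F_coe, C_sub, C_1]; ring
          rw [e, gn_C_mul, h.gn_F, wt_coe, max_eq_right ha, norm_sub_rev]
          gcongr
        · rw [lab_coe_in ha, lab_coe_out (not_le.1 ha')] at haa; simp at haa
      · by_cases ha' : ‖a' - b‖ ≤ ρ
        · rw [lab_coe_in ha', lab_coe_out (not_le.1 ha)] at haa; simp at haa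
        · push Not at ha ha'
          obtain ⟨h1, h2⟩ := hout a ha
          obtain ⟨h1', h2'⟩ := hout a' ha'
          have hne : a - b ≠ 0 := by
            intro h0; rw [h0, norm_zero] at ha; exact absurd ha (not_lt.2 hρ.le)
          have hne' : a' - b ≠ 0 := by
            intro h0; rw [h0, norm_zero] at ha'; exact absurd ha' (not_lt.2 hρ.le)
          refine ⟨(a - b) / (a' - b), div_ne_zero hne hne', ?_⟩
          have e : φ.F (a : OnePoint K) - C ((a - b) / (a' - b)) * φ.F (a' : OnePoint K) =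
              (φ.F (a : OnePoint K) + C (a - b) * φ.Q) - C ((a - b) / (a' - b)) *
              (φ.F (a' : OnePoint K) + C (a' - b) * φ.Q) := by
            rw [mul_add, ← mul_assoc, ← C_mul, div_mul_cancel₀ _ hne']; ring
          rw [e]
          refine lt_of_le_of_lt (gn_sub_le c hr _ _) (max_lt h1 ?_)
          rw [gn_C_mul, norm_div, h2]
          have hp' : 0 < ‖a' - b‖ := norm_pos_iff.2 hne'
          have hp : 0 < ‖a - b‖ := norm_pos_iff.2 hne
          rw [h2'] at h1'
          calc ‖a - b‖ / ‖a' - b‖ * gn c r (φ.F (a' : OnePoint K) + C (a' - b) * φ.Q)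
              < ‖a - b‖ / ‖a' - b‖ * (‖a' - b‖ * gn c r φ.Q) := by gcongr
            _ = ‖a - b‖ * gn c r φ.Q := by field_simp

lemma nO_C_mul (c : K) (r : ℝ) {t : K} (ht : t ≠ 0) (f : K[X]) : nO c r (C t * f) = nO c r f := by
  unfold nO; rw [roots_C_mul f ht]

lemma nB_C_mul (c : K) (r : ℝ) {t : K} (ht : t ≠ 0) (f : K[X]) : nB c r (C t * f) = nB c r f := by
  unfold nB; rw [roots_C_mul f ht]

/-- (KP1) -/
lemma Im.cnt_congr (h : Im φ c r b ρ) (hr : 0 < r) (hD : 1 ≤ φ.deg) {a a' : OnePoint K}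
    (haa : lab b ρ a = lab b ρ a') (V : Option (Set K)) : cnt φ c r a V = cnt φ c r a' V := by
  obtain ⟨t, ht, h1⟩ := h.close hr hD haa
  rcases dir_cases c r V with ⟨z, hz, rfl⟩ | rfl | hV
  · rw [cnt_some φ hr a hz, cnt_some φ hr a' hz]
    rw [← nO_C_mul z r ht (φ.F a')]
    symm
    apply nO_congr z hr
    rw [gn_center hz, gn_center hz]; exact h1
  · rw [cnt_none, cnt_none, ← nB_C_mul c r ht (φ.F a')]
    congr 1
    symm
    exact nB_congr c hr h1
  · rw [cnt_eq_zero_of_not_mem φ a hV, cnt_eq_zero_of_not_mem φ a' hV]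

/-- the minimal number of preimages in a direction -/
noncomputable def sV (φ : RMap K) (c : K) (r : ℝ) (V : Option (Set K)) : ℕ :=
  sInf (Set.range (fun a => cnt φ c r a V))

lemma sV_le (φ : RMap K) (c : K) (r : ℝ) (V : Option (Set K)) (a : OnePoint K) :
    sV φ c r V ≤ cnt φ c r a V := Nat.sInf_le ⟨a, rfl⟩

lemma exists_cnt_eq_sV (φ : RMap K) (c : K) (r : ℝ) (V : Option (Set K)) :
    ∃ a, cnt φ c r a V = sV φ c r V :=
  Nat.sInf_mem (s := Set.range (fun a => cnt φ c r a V)) ⟨_, ⟨∞, rfl⟩⟩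

/-- (KP2) -/
lemma Im.min_eq (h : Im φ c r b ρ) (hr : 0 < r) (hD : 1 ≤ φ.deg) {a a' : OnePoint K}
    (haa : lab b ρ a ≠ lab b ρ a') (V : Option (Set K)) :
    min (cnt φ c r a V) (cnt φ c r a' V) = sV φ c r V := by
  apply le_antisymm
  · by_contra hcon
    push Not at hcon
    rw [lt_min_iff] at hcon
    obtain ⟨a₀, ha₀⟩ := exists_cnt_eq_sV φ c r V
    rw [← ha₀] at hcon
    rcases dir_cases c r V with ⟨z, hz, rfl⟩ | rfl | hV
    · rw [cnt_some φ hr a hz, cnt_some φ hr a₀ hz, cnt_some φ hr a' hz] at hcon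
      have h1 := lt_nO z hr (F_ne_zero φ hD a) hcon.1
      have h2 := lt_nO z hr (F_ne_zero φ hD a') hcon.2
      rw [gn_center hz] at h1 h2
      have h3 := h.strict_all hr hD (c' := z) _ haa h1 h2 a₀
      have h4 := gn_nO z hr (φ.F a₀)
      rw [gn_center hz] at h4
      exact absurd h4 (ne_of_lt h3)
    · rw [cnt_none, cnt_none, cnt_none] at hcon
      have hle := nB_le_natDegree c r (φ.F a₀)
      have hle' := natDegree_F_le φ a₀
      have h1 := gt_nB c hr (F_ne_zero φ hD a) (i := nB c r (φ.F a₀)) (by omega)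
      have h2 := gt_nB c hr (F_ne_zero φ hD a') (i := nB c r (φ.F a₀)) (by omega)
      have h3 := h.strict_all hr hD (c' := c) _ haa h1 h2 a₀
      exact absurd (gn_nB c hr (φ.F a₀)) (ne_of_lt h3)
    · rw [cnt_eq_zero_of_not_mem φ a hV] at hcon
      omega
  · exact le_min (sV_le _ _ _ _ _) (sV_le _ _ _ _ _)

lemma exists_kill (φ : RMap K) (c : K) (j : ℕ) : ∃ a : OnePoint K, co c j (φ.F a) = 0 := by
  by_cases h : co c j φ.Q = 0
  · exact ⟨∞, h⟩
  · refine ⟨((co c j φ.P / co c j φ.Q : K) : OnePoint K), ?_⟩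
    rw [F_coe, co_sub, co_C_mul]; field_simp; simp

/-- (KP3) -/
lemma exists_sV_lt (hr : 0 < r) (hD : 1 ≤ φ.deg) {V : Option (Set K)} (hV : ∃ z, lab c r z = V) :
    ∃ a, sV φ c r V < cnt φ c r a V := by
  rcases dir_cases c r V with ⟨z, hz, rfl⟩ | rfl | hV'
  · obtain ⟨a, ha⟩ := exists_kill φ z (sV φ c r (Option.some (Metric.ball z r)))
    refine ⟨a, lt_of_le_of_ne (sV_le _ _ _ _ _) ?_⟩
    intro heq
    rw [cnt_some φ hr a hz] at heq
    have h1 := gn_nO z hr (φ.F a)
    rw [← heq, ha] at h1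
    simp at h1
    exact absurd h1 (ne_of_lt (gn_pos z hr (F_ne_zero φ hD a)))
  · obtain ⟨a₀, ha₀⟩ := exists_cnt_eq_sV φ c r none
    obtain ⟨a, ha⟩ := exists_kill φ c (nB c r (φ.F a₀))
    refine ⟨a, lt_of_le_of_ne (sV_le _ _ _ _ _) ?_⟩
    intro heq
    rw [← ha₀, cnt_none, cnt_none] at heq
    have hle := nB_le_natDegree c r (φ.F a₀)
    have hle' := natDegree_F_le φ a₀
    have hle1 := nB_le_natDegree c r (φ.F a)
    have hle1' := natDegree_F_le φ a
    have h2 : nB c r (φ.F a₀) = nB c r (φ.F a) := by omega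
    have h1 := gn_nB c hr (φ.F a)
    rw [← h2, ha] at h1
    simp at h1
    exact absurd h1 (ne_of_lt (gn_pos c hr (F_ne_zero φ hD a)))
  · obtain ⟨z, hz⟩ := hV
    exact absurd hz (hV' z)

end key

end BerkFix
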