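import Pool.Agent.Lib.MP_edb0ca_an.Lip

set_option linter.unusedSectionVars false
set_option linter.unusedVariables false

open Polynomial OnePoint Topology Filter

namespace BerkFix

variable {K : Type*} [NormedField K] [IsUltrametricDist K] [IsAlgClosed K]

/-- continuity criterion for real functions -/
lemma continuous_P1' (u : P1 K → ℝ) (h1 : Continuous (fun y : A1 K => u y))
    (h2 : ∀ ε > 0, ∃ L : ℝ, ∀ y : A1 K, L < y X → |u y - u ∞| < ε) : Continuous u := by
  rw [OnePoint.continuous_iff]
  refine ⟨?_, h1⟩
  rw [Metric.tendsto_nhds]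
  intro ε hε
  obtain ⟨L, hL⟩ := h2 ε hε
  rw [Filter.Eventually, Filter.mem_coclosedCompact_iff]
  refine (isCompact_cball (0 : K) L).of_isClosed_subset isClosed_closure (closure_minimal ?_
    (isClosed_le (continuous_eval_A1 _) continuous_const))
  intro y hy
  simp only [Set.mem_compl_iff, Set.mem_ofPred_eq] at hy
  rw [Set.mem_ofPred_eq, A1.lin_zero]
  by_contra hcon
  push Not at hcon
  apply hy
  rw [Real.dist_eq]
  exact hL y hcon

/-- the chordal kernel between a point of the Berkovich line and a classical point -/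
noncomputable def chP : P1 K → OnePoint K → ℝ
  | ∞ => fun a => cc ∞ a
  | (y : A1 K) => fun a => ch y a

@[simp] lemma chP_infty (a : OnePoint K) : chP (∞ : P1 K) a = cc ∞ a := rfl
@[simp] lemma chP_coe (y : A1 K) (a : OnePoint K) : chP (y : P1 K) a = ch y a := rfl

lemma cc_le_one (a b : OnePoint K) : cc a b ≤ 1 := by
  have hone : ∀ a : K, 1 / max 1 ‖a‖ ≤ 1 := by
    intro a
    rw [div_le_one (Ma_pos a)]; exact le_max_left _ _
  induction a using OnePoint.rec with
  | infty =>
    induction b using OnePoint.rec with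
    | infty => simp
    | coe b => exact hone b
  | coe a =>
    induction b using OnePoint.rec with
    | infty => exact hone a
    | coe b =>
      have hA := Ma_pos a
      have hB := Ma_pos b
      rw [cc_cc, div_le_one (by positivity)]
      refine (norm_sub_le_max' a b).trans (max_le ?_ ?_)
      · calc ‖a‖ ≤ max 1 ‖a‖ * 1 := by rw [mul_one]; exact le_max_right _ _
          _ ≤ _ := by gcongr; exact le_max_left _ _
      · calc ‖b‖ ≤ 1 * max 1 ‖b‖ := by rw [one_mul]; exact le_max_right _ _
          _ ≤ _ := by gcongr; exact le_max_left _ _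

lemma chP_nonneg (x : P1 K) (a : OnePoint K) : 0 ≤ chP x a := by
  induction x using OnePoint.rec with
  | infty => exact cc_nonneg _ _
  | coe y => exact ch_nonneg _ _

lemma chP_le_one (x : P1 K) (a : OnePoint K) : chP x a ≤ 1 := by
  induction x using OnePoint.rec with
  | infty => exact cc_le_one _ _
  | coe y => exact ch_le_one _ _

lemma chP_cl (z a : OnePoint K) : chP (cl z) a = cc z a := by
  induction z using OnePoint.rec with
  | infty => rfl
  | coe z =>
    rw [cl_coe, chP_coe]
    have h2 : (evalPt z : A1 K) X = ‖z‖ := by rw [evalPt_apply, eval_X]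
    induction a using OnePoint.rec with
    | infty => rw [ch_infty, cc_ci, h2]
    | coe a => rw [ch_coe, cc_cc, h2, evalPt_apply]; simp

lemma cc_le_max' (z a b : OnePoint K) : cc a b ≤ max (cc z a) (cc z b) := by
  by_cases hz : z = ∞
  · subst hz
    induction a using OnePoint.rec with
    | infty => exact le_max_right _ _
    | coe a =>
      induction b using OnePoint.rec with
      | infty => rw [cc_comm]; exact le_max_left _ _
      | coe b =>
        rw [cc_cc, cc_ic, cc_ic]
        have hA := Ma_pos a
        have hB := Ma_pos b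
        have h1 : max (1 / max 1 ‖a‖) (1 / max 1 ‖b‖) = max (max 1 ‖b‖) (max 1 ‖a‖) / (max 1 ‖a‖ * max 1 ‖b‖) := by
          rw [← max_div_div_right (by positivity)]
          congr 1
          · field_simp
          · field_simp
        rw [h1]
        gcongr
        refine (norm_sub_le_max' a b).trans (max_le ?_ ?_)
        · exact (le_max_right _ _).trans (le_max_right _ _)
        · exact (le_max_right _ _).trans (le_max_left _ _)
  · induction z using OnePoint.rec with
    | infty => exact absurd rfl hz
    | coe z =>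
      have := cc_le_max (evalPt z) a b
      rw [← chP_coe, ← chP_coe] at this
      have e : ((evalPt z : A1 K) : P1 K) = cl (z : OnePoint K) := rfl
      rwa [e, chP_cl, chP_cl] at this

lemma cc_le_chP (x : P1 K) (a b : OnePoint K) : cc a b ≤ max (chP x a) (chP x b) := by
  induction x using OnePoint.rec with
  | infty => exact cc_le_max' ∞ a b
  | coe y => exact cc_le_max y a b

lemma chP_le_max (x : P1 K) (a b : OnePoint K) : chP x a ≤ max (chP x b) (cc b a) := by
  induction x using OnePoint.rec with
  | infty =>
    rw [chP_infty, chP_infty]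
    have := cc_le_max' b ∞ a
    rwa [cc_comm b ∞] at this
  | coe y => exact ch_le_max y a b

lemma continuous_chP (a : OnePoint K) : Continuous (fun x : P1 K => chP x a) := by
  induction a using OnePoint.rec with
  | infty =>
    apply continuous_P1'
    · simp only [chP_coe, ch_infty]
      apply Continuous.div continuous_const (continuous_const.max (continuous_eval_A1 _))
      intro y; exact (Mx_pos y).ne'
    · intro ε hε
      refine ⟨max 1 (1 / ε), fun y hy => ?_⟩
      have h1 : 1 < y X := lt_of_le_of_lt (le_max_left _ _) hy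
      have h2 : 1 / ε < y X := lt_of_le_of_lt (le_max_right _ _) hy
      have h3 : (0 : ℝ) < y X := by linarith
      simp only [chP_coe, ch_infty, chP_infty, cc_ii, sub_zero]
      rw [max_eq_right h1.le, abs_of_pos (by positivity), div_lt_iff₀ h3]
      rw [div_lt_iff₀ hε] at h2
      linarith
  | coe a =>
    apply continuous_P1
    · simp only [chP_coe, ch_coe]
      apply Continuous.div (continuous_eval_A1 _) ((continuous_const.max (continuous_eval_A1 _)).mul continuous_const)
      intro y
      exact (mul_pos (Mx_pos y) (Ma_pos a)).ne'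
    · refine ⟨max 1 ‖a‖, fun y hy => ?_⟩
      have h1 : 1 < y X := lt_of_le_of_lt (le_max_left _ _) hy
      have h2 : ‖a‖ < y X := lt_of_le_of_lt (le_max_right _ _) hy
      have h3 : (0 : ℝ) < y X := by linarith
      simp only [chP_coe, chP_infty, ch_coe, cc_ic]
      rw [y.lin_of_large h2, max_eq_right h1.le]
      field_simp

/-- the product formula for polynomials -/
lemma poly_eq_prod_ch (x : A1 K) (f : K[X]) {N : ℕ} (hN : f.natDegree ≤ N) :
    x f = gn 0 1 f * max 1 (x X) ^ N *
      ((f.roots.map (fun z => ((z : K) : OnePoint K)) + Multiset.replicate (N - f.natDegree) ∞).map (ch x)).prod := by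
  have hM := Mx_pos x
  rw [Multiset.map_add, Multiset.prod_add, Multiset.map_map, Multiset.map_replicate, Multiset.prod_replicate,
    ch_infty, x.eq_prod]
  have h1 : ∀ s : Multiset K, (s.map (fun z => x (X - C z))).prod =
      (s.map (fun z => max ‖z - 0‖ 1)).prod * max 1 (x X) ^ s.card * (s.map (ch x ∘ fun z => ((z : K) : OnePoint K))).prod := by
    intro s
    induction s using Multiset.induction_on with
    | empty => simp
    | cons a s ih =>
      rw [Multiset.map_cons, Multiset.prod_cons, ih, Multiset.map_cons, Multiset.prod_cons, Multiset.card_cons,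
        Multiset.map_cons, Multiset.prod_cons]
      simp only [Function.comp, ch_coe, sub_zero]
      have hA := Ma_pos a
      have e : max ‖a‖ 1 = max 1 ‖a‖ := max_comm _ _
      rw [e, pow_succ]
      field_simp
  rw [h1, IsAlgClosed.card_roots_eq_natDegree, gn]
  have h2 : max 1 (x X) ^ N = max 1 (x X) ^ f.natDegree * max 1 (x X) ^ (N - f.natDegree) := by
    rw [← pow_add]; congr 1; omega
  rw [h2, one_div, inv_pow]
  field_simp

/-- the critical divisor -/
noncomputable def crit (φ : RMap K) : Multiset (OnePoint K) :=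
  φ.wr.roots.map (fun z => ((z : K) : OnePoint K)) + Multiset.replicate (2 * φ.deg - 2 - φ.wr.natDegree) ∞

lemma mem_crit (φ : RMap K) {α : OnePoint K} (h : α ∈ crit φ) :
    (α = ∞ ∧ φ.wr.coeff (2 * φ.deg - 2) = 0) ∨ ∃ a : K, α = a ∧ φ.wr.eval a = 0 := by
  unfold crit at h
  rw [Multiset.mem_add] at h
  rcases h with h | h
  · right
    obtain ⟨a, ha, rfl⟩ := Multiset.mem_map.1 h
    exact ⟨a, rfl, by have := isRoot_of_mem_roots ha; exact this⟩
  · left
    obtain ⟨h1, h2⟩ := Multiset.mem_replicate.1 h
    exact ⟨h2, coeff_eq_zero_of_natDegree_lt (by omega)⟩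

/-- the spherical derivative as a product -/
lemma sph_eq_prod (φ : RMap K) (hD : 1 ≤ φ.deg) (x : P1 K) :
    φ.sph x = gn 0 1 φ.wr * ((crit φ).map (chP x)).prod * Real.exp (-2 * hh φ x) := by
  induction x using OnePoint.rec with
  | infty =>
    have hm := max_coeff_pos φ
    have e1 : Real.exp (-2 * hh φ ∞) = 1 / max ‖φ.P.coeff φ.deg‖ ‖φ.Q.coeff φ.deg‖ ^ 2 := by
      rw [hh_infty, neg_mul, Real.exp_neg, ← Nat.cast_ofNat, ← Real.log_pow, Real.exp_log (by positivity), one_div]
    rw [e1]
    change ‖φ.wr.coeff (2 * φ.deg - 2)‖ / max ‖φ.P.coeff φ.deg‖ ‖φ.Q.coeff φ.deg‖ ^ 2 = _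
    rw [mul_one_div]
    congr 1
    unfold crit
    rw [Multiset.map_add, Multiset.prod_add, Multiset.map_replicate, Multiset.prod_replicate, Multiset.map_map]
    have hle := natDegree_wr_le φ
    by_cases h : φ.wr.natDegree = 2 * φ.deg - 2
    · rw [h, Nat.sub_self, pow_zero, mul_one, ← h, coeff_natDegree, gn]
      have h1 : ∀ s : Multiset K, (s.map (fun z => max ‖z - 0‖ 1)).prod *
          (s.map (chP (∞ : P1 K) ∘ fun z => ((z : K) : OnePoint K))).prod = 1 := by
        intro s
        induction s using Multiset.induction_on with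
        | empty => simp
        | cons a s ih =>
          rw [Multiset.map_cons, Multiset.prod_cons, Multiset.map_cons, Multiset.prod_cons]
          have hA := Ma_pos a
          have e : max ‖a - 0‖ 1 = max 1 ‖a‖ := by rw [sub_zero]; exact max_comm _ _
          have e2 : (chP (∞ : P1 K) ∘ fun z => ((z : K) : OnePoint K)) a = 1 / max 1 ‖a‖ := rfl
          rw [e, e2]
          calc _ = (max 1 ‖a‖ * (1 / max 1 ‖a‖)) * ((s.map (fun z => max ‖z - 0‖ 1)).prod *
            (s.map (chP (∞ : P1 K) ∘ fun z => ((z : K) : OnePoint K))).prod) := by ring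
            _ = 1 := by rw [ih]; field_simp
      rw [mul_assoc, h1, mul_one]
    · have h2 : 2 * φ.deg - 2 - φ.wr.natDegree ≠ 0 := by omega
      have h3 : chP (∞ : P1 K) ∞ = 0 := rfl
      rw [h3, zero_pow h2, coeff_eq_zero_of_natDegree_lt (by omega)]
      simp
  | coe y =>
    have hm := max_PQ_pos φ y
    have hM := Mx_pos y
    have e1 : Real.exp (-2 * hh φ (y : P1 K)) = (max 1 (y X) ^ φ.deg) ^ 2 / max (y φ.P) (y φ.Q) ^ 2 := by
      rw [hh_coe, ← Real.log_pow, ← Real.log_div hm.ne' (by positivity), neg_mul, Real.exp_neg, ← Nat.cast_ofNat,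
        ← Real.log_pow, Real.exp_log (by positivity), div_pow, inv_div]
    rw [e1, sph_coe]
    have h1 := poly_eq_prod_ch y φ.wr (natDegree_wr_le φ)
    rw [h1]
    unfold crit
    have e2 : (max 1 (y X) ^ φ.deg) ^ 2 = max 1 (y X) ^ (2 * φ.deg - 2) * max 1 (y X) ^ 2 := by
      rw [← pow_mul, ← pow_add]; congr 1; omega
    rw [e2]
    have e3 : chP (y : P1 K) = ch y := rfl
    rw [e3]
    ring

lemma continuous_sph (φ : RMap K) (hD : 1 ≤ φ.deg) : Continuous φ.sph := by
  have h1 : φ.sph = fun x => gn 0 1 φ.wr * ((crit φ).map (chP x)).prod * Real.exp (-2 * hh φ x) := by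
    funext x; exact sph_eq_prod φ hD x
  rw [h1]
  apply Continuous.mul
  · apply Continuous.mul continuous_const
    apply continuous_multiset_prod
    intro a _
    exact continuous_chP a
  · exact Real.continuous_exp.comp (continuous_const.mul (continuous_hh φ))

lemma sph_nonneg (φ : RMap K) (x : P1 K) : 0 ≤ φ.sph x := by
  induction x using OnePoint.rec with
  | infty =>
    change 0 ≤ ‖φ.wr.coeff (2 * φ.deg - 2)‖ / max ‖φ.P.coeff φ.deg‖ ‖φ.Q.coeff φ.deg‖ ^ 2
    positivity
  | coe y =>
    rw [sph_coe]
    have := y.nonneg φ.wr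
    positivity

lemma exists_sph_bound (φ : RMap K) (hD : 1 ≤ φ.deg) : ∃ S : ℝ, 1 ≤ S ∧ ∀ x, φ.sph x ≤ S := by
  obtain ⟨C, hC⟩ := IsCompact.exists_bound_of_continuousOn (isCompact_univ (X := P1 K)) (continuous_sph φ hD).continuousOn
  refine ⟨max C 1, le_max_right _ _, fun x => ?_⟩
  have := hC x (Set.mem_univ x)
  rw [Real.norm_eq_abs] at this
  exact ((le_abs_self _).trans this).trans (le_max_left _ _)

end BerkFix
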