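import Pool.Agent.Lib.MP_edb0ca_an.Dich

set_option linter.unusedSectionVars false
set_option linter.unusedVariables false

open Polynomial OnePoint Topology Filter

namespace BerkFix

variable {K : Type*} [NormedField K] [IsUltrametricDist K] [IsAlgClosed K]

/-- lower bound of the kernel at a point `ζ(c,r)` -/
lemma chP_zt_lower (c : K) {r : ℝ} (hr : 0 < r) : ∃ δ > 0, ∀ z, δ ≤ chP (zt c r hr : P1 K) z := by
  have := Mx_pos (zt c r hr)
  refine ⟨r / max 1 (zt c r hr X) ^ 2, by positivity, fun z => ?_⟩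
  exact ch_ge_of_diam _ hr (fun a => by rw [zt_lin]; exact le_max_right _ _) z

lemma chP_map_pos (φ : RMap K) (hD : 1 ≤ φ.deg) {x : P1 K} (hx : Hyp x) (b : OnePoint K) : 0 < chP (φ.map x) b := by
  obtain ⟨y, rfl⟩ := exists_coe_of_hyp hx
  have hQ := (hx.pos (Q_ne_zero φ hD)).ne'
  rw [map_of_ne φ y hQ, chP_coe]
  have h1 := F_eq_ch' φ y hQ b
  have h2 := hx.pos (F_ne_zero φ hD b)
  have h3 := ch_nonneg (push φ y hQ) b
  rcases h3.lt_or_eq with h4 | h4
  · exact h4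
  · exfalso
    rw [← h4, zero_mul] at h1
    linarith

/-- logarithms of the values of the pencil -/
lemma log_F (φ : RMap K) (hD : 1 ≤ φ.deg) (x : A1 K) (hx : Hyp (x : P1 K)) (b : OnePoint K) :
    Real.log (x (φ.F b)) = Real.log (chP (φ.map (x : P1 K)) b) + hh φ (x : P1 K) + φ.deg * Real.log (max 1 (x X)) +
      Real.log (Mc b) := by
  have hQ := (hx.pos (Q_ne_zero φ hD)).ne'
  have h0 := chP_map_pos φ hD hx b
  have hm := max_PQ_pos φ x
  have hb : 0 < Mc b := lt_of_lt_of_le one_pos (one_le_Mc b)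
  rw [F_eq_ch' φ x hQ b, hh_coe]
  rw [map_of_ne φ x hQ, chP_coe] at h0 ⊢
  rw [Real.log_mul h0.ne' (by positivity), Real.log_mul hm.ne' hb.ne']
  ring

/-- the tail of `-log` of the kernel at a classical point -/
noncomputable def tl (φ : RMap K) (α : OnePoint K) (A : ℝ) : ℝ :=
  ∑ x ∈ spt φ, (wgt φ x : ℝ) * max 0 (-Real.log (chP x α) - A)

lemma tl_mono (φ : RMap K) (α : OnePoint K) {A A' : ℝ} (h : A ≤ A') : tl φ α A' ≤ tl φ α A := by
  apply Finset.sum_le_sum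
  intro x _
  apply mul_le_mul_of_nonneg_left _ (by positivity)
  exact max_le_max le_rfl (by linarith)

lemma spt_props (R : RMap K) (hR : 1 ≤ R.deg) {n : ℕ} {x : P1 K} (hx : x ∈ spt (iter R n)) :
    Hyp x ∧ R.map^[n] x = x ∧ (∃ δ > 0, ∀ z, δ ≤ chP x z) := by
  have hD := deg_iter_pos R hR n
  rw [mem_spt hD] at hx
  have h1 := fixed_of_wgt hD hx
  rw [map_iter] at h1
  obtain ⟨c, r, hr, rfl, _⟩ := exists_of_wgt_ne hD hx
  exact ⟨hyp_zt c hr, h1, chP_zt_lower c hr⟩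

lemma tl_nonpos (R : RMap K) (hR : 1 ≤ R.deg) {α : OnePoint K} {ε : ℝ} (hε : 0 < ε)
    (h : ∀ m ≥ 1, ∀ x : P1 K, Hyp x → R.map^[m] x = x → (∃ δ > 0, ∀ z, δ ≤ chP x z) → ε ≤ chP x α) {n : ℕ} (hn : 1 ≤ n) :
    tl (iter R n) α (-Real.log ε) ≤ 0 := by
  apply Finset.sum_nonpos
  intro x hx
  obtain ⟨h1, h2, h3⟩ := spt_props R hR hx
  have h4 := h n hn x h1 h2 h3
  have h5 := Real.log_le_log hε h4
  rw [max_eq_left (by linarith), mul_zero]

section aux

variable (R : RMap K) (hR : 2 ≤ R.deg) {L : ℝ} (hL : 1 ≤ L)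
  (hLip : ∀ (x : P1 K), Hyp x → ∀ z : OnePoint K, chP (R.map x) (cmap R z) ≤ L * chP x z)

include hR hL hLip

/-- a periodic point is not too close to a slowly returning point -/
lemma chP_spt_lower {α : OnePoint K} {c₀ : ℝ} (hc₀ : 0 < c₀) {n : ℕ}
    (hret : c₀ / L ^ n ≤ cc ((cmap R)^[n] α) α) {x : P1 K} (hx : Hyp x) (hfix : R.map^[n] x = x) :
    c₀ / L ^ n / L ^ n ≤ chP x α := by
  have hL0 : 0 < L := by linarith
  by_contra hcon
  push Not at hcon
  have h1 := lip_iter R (by omega) hL hLip n hx α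
  rw [hfix] at h1
  have h2 : L ^ n * chP x α < c₀ / L ^ n := by
    rw [lt_div_iff₀ (by positivity)] at hcon
    linarith
  have h3 : chP x α < c₀ / L ^ n := by
    refine lt_of_lt_of_le hcon ?_
    apply div_le_self (by positivity)
    exact one_le_pow₀ hL
  have h4 := cc_le_chP x ((cmap R)^[n] α) α
  have h5 := max_lt (lt_of_le_of_lt h1 h2) h3
  linarith

/-- image of a point close to a slowly returning point -/
lemma chP_image_lower {α : OnePoint K} {c₀ : ℝ} (hc₀ : 0 < c₀) {n : ℕ}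
    (hret : c₀ / L ^ n ≤ cc ((cmap R)^[n] α) α) {x : P1 K} (hx : Hyp x) (hnear : chP x α < c₀ / L ^ n / L ^ n) :
    c₀ / L ^ n ≤ chP (R.map^[n] x) α := by
  have hL0 : 0 < L := by linarith
  by_contra hcon
  push Not at hcon
  have h1 := lip_iter R (by omega) hL hLip n hx α
  have h2 : L ^ n * chP x α < c₀ / L ^ n := by
    rw [lt_div_iff₀ (by positivity)] at hnear
    linarith
  have h4 := cc_le_chP (R.map^[n] x) ((cmap R)^[n] α) α
  have h5 := max_lt (lt_of_le_of_lt h1 h2) hcon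
  linarith

lemma exists_J {ϱ η : ℝ} (hη : 0 < η) : ∃ J : ℕ, ϱ * Real.exp (-(J : ℝ)) < η := by
  have h1 : Tendsto (fun J : ℕ => ϱ * Real.exp (-(J : ℝ))) atTop (𝓝 (ϱ * 0)) := by
    apply Tendsto.const_mul
    exact Real.tendsto_exp_neg_atTop_nhds_zero.comp tendsto_natCast_atTop_atTop
  rw [mul_zero] at h1
  exact (h1.eventually (gt_mem_nhds hη)).exists

theorem tail_fin_aux (a : K) {c₀ : ℝ} (hc₀ : 0 < c₀) {n : ℕ}
    (hret : c₀ / L ^ n ≤ cc ((cmap R)^[n] (a : OnePoint K)) (a : OnePoint K)) {ϱ : ℝ} (hϱ : 0 < ϱ) (hϱ1 : ϱ * Real.exp 1 ≤ 1) :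
    ∃ (ϱ' : ℝ) (hϱ' : 0 < ϱ'), ϱ' ≤ ϱ ∧ tl (iter R n) (a : OnePoint K) (2 * Real.log (max 1 ‖a‖) - Real.log ϱ) ≤
      -Real.log (c₀ / L ^ n) - Real.log (cc (∞ : OnePoint K) ((a + 1 : K) : OnePoint K)) +
      2 * (hh (iter R n) (zt a (ϱ * Real.exp 1) (by positivity) : P1 K) - hh (iter R n) (zt a ϱ' hϱ' : P1 K)) := by
  classical
  have hL0 : 0 < L := by linarith
  have hMa := Ma_pos a
  have hMa1 : 1 ≤ max 1 ‖a‖ := le_max_left _ _
  set φ := iter R n with hφ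
  have hD : 1 ≤ φ.deg := deg_iter_pos R (by omega) n
  set A := 2 * Real.log (max 1 ‖a‖) - Real.log ϱ with hA
  have hexp1 : (1 : ℝ) ≤ Real.exp 1 := by rw [← Real.exp_zero]; exact Real.exp_le_exp.2 (by norm_num)
  have hϱle : ϱ ≤ 1 := by nlinarith
  have hϱlt : ϱ < 1 := by
    have : (1 : ℝ) < Real.exp 1 := by rw [← Real.exp_zero]; exact Real.exp_lt_exp.2 (by norm_num)
    nlinarith
  have hexpA : Real.exp (-A) = ϱ / max 1 ‖a‖ ^ 2 := by
    rw [hA, neg_sub, Real.exp_sub, Real.exp_log hϱ, ← Nat.cast_ofNat, ← Real.log_pow, Real.exp_log (by positivity)]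
  obtain ⟨J, hJ⟩ := exists_J (η := c₀ / L ^ n / L ^ n) (ϱ := ϱ) R hR hL hLip (by positivity)
  have hϱJ : 0 < ϱ * Real.exp (-(J : ℝ)) := by positivity
  refine ⟨ϱ * Real.exp (-(J : ℝ)), hϱJ, ?_, ?_⟩
  · calc ϱ * Real.exp (-(J : ℝ)) ≤ ϱ * Real.exp 0 := by
          gcongr
          simp
      _ = ϱ := by rw [Real.exp_zero, mul_one]
  -- layers
  set t : P1 K → ℝ := fun x => -Real.log (chP x (a : OnePoint K)) - A with ht
  have hspt : ∀ x ∈ spt φ, Hyp x ∧ R.map^[n] x = x ∧ (∃ δ > 0, ∀ z, δ ≤ chP x z) := fun x hx => spt_props R (by omega) hx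
  have hpos : ∀ x ∈ spt φ, 0 < chP x (a : OnePoint K) := by
    intro x hx
    obtain ⟨_, _, δ, hδ, h⟩ := hspt x hx
    exact lt_of_lt_of_le hδ (h _)
  have htJ : ∀ x ∈ spt φ, t x ≤ J + 1 := by
    intro x hx
    obtain ⟨h1, h2, _⟩ := hspt x hx
    have h3 := chP_spt_lower R hR hL hLip hc₀ hret h1 h2
    have h4 : Real.exp (-A - J) ≤ chP x (a : OnePoint K) := by
      refine le_trans ?_ (hJ.le.trans h3)
      rw [sub_eq_add_neg, Real.exp_add, hexpA]
      gcongr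
      exact div_le_self hϱ.le (one_le_pow₀ hMa1)
    have h5 := Real.log_le_log (Real.exp_pos _) h4
    rw [Real.log_exp] at h5
    simp only [ht]
    linarith
  have hlay := layer_cake (spt φ) (wgt φ) t J htJ
  have hin : ∀ j : ℕ, (∑ x ∈ (spt φ).filter (fun x => (j : ℝ) < t x), wgt φ x) ≤ tauO φ a (ϱ * Real.exp (-(j : ℝ))) := by
    intro j
    apply wgt_count_inside φ hD _ a (by positivity)
    intro x hx
    obtain ⟨hx1, hx2⟩ := Finset.mem_filter.1 hx
    obtain ⟨h1, h2, _⟩ := hspt x hx1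
    have hp := hpos x hx1
    obtain ⟨y, rfl⟩ := exists_coe_of_hyp h1
    rw [mem_BO_coe]
    rw [chP_coe] at hp
    have h3 : ch y (a : OnePoint K) < Real.exp (-A) * Real.exp (-(j : ℝ)) := by
      simp only [ht, chP_coe] at hx2
      rw [← Real.exp_add, ← Real.log_lt_iff_lt_exp hp]
      linarith
    have hje : Real.exp (-(j : ℝ)) ≤ 1 := by rw [← Real.exp_zero]; exact Real.exp_le_exp.2 (by simp)
    have h4 : ch y (a : OnePoint K) < 1 / max 1 ‖a‖ := by
      refine lt_of_lt_of_le h3 ?_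
      rw [hexpA]
      calc ϱ / max 1 ‖a‖ ^ 2 * Real.exp (-(j : ℝ)) ≤ 1 / max 1 ‖a‖ ^ 1 * 1 := by
            gcongr
            norm_num
        _ = _ := by rw [pow_one, mul_one]
    have h5 := Mx_le_of_near y a h4
    have hMy := Mx_pos y
    have h6 : y (X - C a) = ch y (a : OnePoint K) * (max 1 (y X) * max 1 ‖a‖) := by
      rw [ch_coe]; field_simp
    rw [h6]
    calc ch y (a : OnePoint K) * (max 1 (y X) * max 1 ‖a‖) ≤ ch y (a : OnePoint K) * (max 1 ‖a‖ * max 1 ‖a‖) := by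
          gcongr
      _ < (Real.exp (-A) * Real.exp (-(j : ℝ))) * (max 1 ‖a‖ * max 1 ‖a‖) := by
          gcongr
      _ = ϱ * Real.exp (-(j : ℝ)) := by rw [hexpA]; field_simp
  -- the good far point
  set ζ := zt a (ϱ * Real.exp (-(J : ℝ))) hϱJ with hζ
  have hζH : Hyp (ζ : P1 K) := hyp_zt a hϱJ
  have hζ0H : Hyp (zt a (ϱ * Real.exp 1) (by positivity) : P1 K) := hyp_zt a (by positivity)
  obtain ⟨b, hb1, hb2⟩ : ∃ b : OnePoint K, (∀ z : K, b = z → 1 ≤ ‖z - a‖) ∧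
      cc (∞ : OnePoint K) ((a + 1 : K) : OnePoint K) ≤ chP (φ.map (ζ : P1 K)) b := by
    rcases le_max_iff.1 (cc_le_chP (φ.map (ζ : P1 K)) ∞ ((a + 1 : K) : OnePoint K)) with h | h
    · exact ⟨∞, by intro z hz; exact absurd hz (OnePoint.infty_ne_coe z), h⟩
    · refine ⟨((a + 1 : K) : OnePoint K), ?_, h⟩
      intro z hz
      rw [OnePoint.coe_eq_coe] at hz
      rw [← hz]; simp
  have hκ : 0 < cc (∞ : OnePoint K) ((a + 1 : K) : OnePoint K) := cc_pos (OnePoint.infty_ne_coe _)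
  have hnear : chP (ζ : P1 K) (a : OnePoint K) < c₀ / L ^ n / L ^ n := by
    refine lt_of_le_of_lt ?_ hJ
    rw [chP_coe, ch_coe, hζ, zt_lin, sub_self, norm_zero, max_eq_right hϱJ.le]
    apply div_le_self hϱJ.le
    have := one_le_Mx (zt a (ϱ * Real.exp (-(J : ℝ))) hϱJ)
    nlinarith
  have himg := chP_image_lower R hR hL hLip hc₀ hret hζH hnear
  rw [← map_iter] at himg
  -- sum over the layers
  have htau : ∀ j : ℕ, (tauO φ a (ϱ * Real.exp (-(j : ℝ))) : ℝ) ≤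
      (nO a (ϱ * Real.exp (-(j : ℝ))) (φ.F (a : OnePoint K)) : ℝ) + (nO a (ϱ * Real.exp (-(j : ℝ))) (φ.F b) : ℝ) := by
    intro j
    have hj1 : ϱ * Real.exp (-(j : ℝ)) ≤ 1 := by
      have hje : Real.exp (-(j : ℝ)) ≤ 1 := by rw [← Real.exp_zero]; exact Real.exp_le_exp.2 (by simp)
      calc ϱ * Real.exp (-(j : ℝ)) ≤ 1 * 1 := by gcongr
        _ = 1 := by norm_num
    have h1 := tauO_le_max φ hD a (r := ϱ * Real.exp (-(j : ℝ))) (by positivity) (a := a) (by simp; positivity)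
      (a' := b) (fun z hz => hj1.trans (hb1 z hz))
    have h2 : max (nO a (ϱ * Real.exp (-(j : ℝ))) (φ.F (a : OnePoint K))) (nO a (ϱ * Real.exp (-(j : ℝ))) (φ.F b)) ≤
        nO a (ϱ * Real.exp (-(j : ℝ))) (φ.F (a : OnePoint K)) + nO a (ϱ * Real.exp (-(j : ℝ))) (φ.F b) :=
      max_le (Nat.le_add_right _ _) (Nat.le_add_left _ _)
    exact_mod_cast h1.trans h2
  have hsum1 := sum_slope_up a hϱ (F_ne_zero φ hD (a : OnePoint K)) J
  have hsum2 := sum_slope_up a hϱ (F_ne_zero φ hD b) J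
  have hMz : ∀ (s : ℝ) (hs : 0 < s), s ≤ 1 → max 1 (zt a s hs X) = max 1 ‖a‖ := by
    intro s hs hs1
    rw [zt_X]
    apply le_antisymm
    · exact max_le (le_max_left _ _) (max_le (le_max_right _ _) (hs1.trans (le_max_left _ _)))
    · exact max_le (le_max_left _ _) ((le_max_left _ _).trans (le_max_right _ _))
  have hJ1 : ϱ * Real.exp (-(J : ℝ)) ≤ 1 := by
    have hje : Real.exp (-(J : ℝ)) ≤ 1 := by rw [← Real.exp_zero]; exact Real.exp_le_exp.2 (by simp)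
    calc ϱ * Real.exp (-(J : ℝ)) ≤ 1 * 1 := by gcongr
      _ = 1 := by norm_num
  have hbr : ∀ b' : OnePoint K, Real.log (gn a (ϱ * Real.exp 1) (φ.F b')) - Real.log (gn a (ϱ * Real.exp (-(J : ℝ))) (φ.F b')) ≤
      - Real.log (chP (φ.map (ζ : P1 K)) b') + (hh φ (zt a (ϱ * Real.exp 1) (by positivity) : P1 K) - hh φ (ζ : P1 K)) := by
    intro b'
    have e1 := log_F φ hD (zt a (ϱ * Real.exp 1) (by positivity)) hζ0H b'
    have e2 := log_F φ hD ζ hζH b'
    rw [zt_apply, hMz _ _ hϱ1] at e1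
    rw [zt_apply, hMz _ _ hJ1] at e2
    rw [e1, e2]
    have h0 := chP_map_pos φ hD hζ0H b'
    have h1 : Real.log (chP (φ.map (zt a (ϱ * Real.exp 1) (by positivity) : P1 K)) b') ≤ 0 :=
      Real.log_nonpos h0.le (chP_le_one _ _)
    linarith
  have hb3 := hbr (a : OnePoint K)
  have hb4 := hbr b
  have hl1 := Real.log_le_log (by positivity : 0 < c₀ / L ^ n) himg
  have hl2 := Real.log_le_log hκ hb2
  calc tl φ (a : OnePoint K) A ≤ ∑ j ∈ Finset.range (J + 1), ((∑ x ∈ (spt φ).filter (fun x => (j : ℝ) < t x), wgt φ x : ℕ) : ℝ) := hlay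
    _ ≤ ∑ j ∈ Finset.range (J + 1), ((nO a (ϱ * Real.exp (-(j : ℝ))) (φ.F (a : OnePoint K)) : ℝ) +
          (nO a (ϱ * Real.exp (-(j : ℝ))) (φ.F b) : ℝ)) := by
        apply Finset.sum_le_sum
        intro j _
        refine le_trans ?_ (htau j)
        exact_mod_cast hin j
    _ ≤ _ := by
        rw [Finset.sum_add_distrib]
        linarith

theorem tail_inf_aux {c₀ : ℝ} (hc₀ : 0 < c₀) {n : ℕ}
    (hret : c₀ / L ^ n ≤ cc ((cmap R)^[n] ∞) ∞) {ϱ : ℝ} (hϱ0 : 0 < ϱ) (hϱ : Real.exp 1 < ϱ) :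
    ∃ (ϱ' : ℝ) (hϱ' : 0 < ϱ'), ϱ ≤ ϱ' ∧ tl (iter R n) (∞ : OnePoint K) (Real.log ϱ) ≤
      -Real.log (c₀ / L ^ n) - Real.log (cc ((0 : K) : OnePoint K) ((1 : K) : OnePoint K)) +
      2 * (hh (iter R n) (zt (0 : K) (ϱ * Real.exp (-1)) (by positivity) : P1 K) - hh (iter R n) (zt (0 : K) ϱ' hϱ' : P1 K)) := by
  classical
  have hL0 : 0 < L := by linarith
  set φ := iter R n with hφ
  have hD : 1 ≤ φ.deg := deg_iter_pos R (by omega) n
  set A := Real.log ϱ with hA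
  have hexp1 : (1 : ℝ) < Real.exp 1 := by rw [← Real.exp_zero]; exact Real.exp_lt_exp.2 (by norm_num)
  have hϱ1 : 1 < ϱ := by linarith
  have hϱe : 1 < ϱ * Real.exp (-1) := by
    rw [Real.exp_neg, ← div_eq_mul_inv, one_lt_div (Real.exp_pos _)]; exact hϱ
  have hexpA : Real.exp (-A) = 1 / ϱ := by
    rw [hA, Real.exp_neg, Real.exp_log hϱ0, one_div]
  obtain ⟨J, hJ⟩ := exists_J (η := c₀ / L ^ n / L ^ n) (ϱ := 1 / ϱ) R hR hL hLip (by positivity)
  have hej : ∀ j : ℕ, (1 : ℝ) ≤ Real.exp (j : ℝ) := by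
    intro j; rw [← Real.exp_zero]; exact Real.exp_le_exp.2 (by positivity)
  have hϱj : ∀ j : ℕ, ϱ ≤ ϱ * Real.exp (j : ℝ) := fun j => le_mul_of_one_le_right hϱ0.le (hej j)
  have hϱJ : 0 < ϱ * Real.exp (J : ℝ) := by positivity
  refine ⟨ϱ * Real.exp (J : ℝ), hϱJ, hϱj J, ?_⟩
  -- layers
  set t : P1 K → ℝ := fun x => -Real.log (chP x ∞) - A with ht
  have hspt : ∀ x ∈ spt φ, Hyp x ∧ R.map^[n] x = x ∧ (∃ δ > 0, ∀ z, δ ≤ chP x z) := fun x hx => spt_props R (by omega) hx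
  have hpos : ∀ x ∈ spt φ, 0 < chP x ∞ := by
    intro x hx
    obtain ⟨_, _, δ, hδ, h⟩ := hspt x hx
    exact lt_of_lt_of_le hδ (h _)
  have htJ : ∀ x ∈ spt φ, t x ≤ J + 1 := by
    intro x hx
    obtain ⟨h1, h2, _⟩ := hspt x hx
    have h3 := chP_spt_lower R hR hL hLip hc₀ hret h1 h2
    have h4 : Real.exp (-A - J) ≤ chP x ∞ := by
      refine le_trans ?_ (hJ.le.trans h3)
      rw [sub_eq_add_neg, Real.exp_add, hexpA]
    have h5 := Real.log_le_log (Real.exp_pos _) h4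
    rw [Real.log_exp] at h5
    simp only [ht]
    linarith
  have hlay := layer_cake (spt φ) (wgt φ) t J htJ
  have hin : ∀ j : ℕ, (∑ x ∈ (spt φ).filter (fun x => (j : ℝ) < t x), wgt φ x) + tauO φ 0 (ϱ * Real.exp (j : ℝ)) ≤ φ.deg - 1 := by
    intro j
    have hcount := wgt_count_total φ hD ((spt φ).filter (fun x => (j : ℝ) < t x)) {((0 : K), ϱ * Real.exp (j : ℝ))}
      (by intro p hp; rw [Finset.mem_singleton] at hp; subst hp; positivity)
      (by intro p hp q hq hne; rw [Finset.mem_singleton] at hp hq; exact absurd (hp.trans hq.symm) hne) ?_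
    · rw [Finset.sum_singleton] at hcount; exact hcount
    · intro x hx p hp
      rw [Finset.mem_singleton] at hp
      subst hp
      obtain ⟨hx1, hx2⟩ := Finset.mem_filter.1 hx
      obtain ⟨h1, h2, _⟩ := hspt x hx1
      have hp := hpos x hx1
      obtain ⟨y, rfl⟩ := exists_coe_of_hyp h1
      rw [mem_BO_coe, not_lt, A1.lin_zero]
      have hMy := Mx_pos y
      simp only [ht, chP_coe, ch_infty, hA, one_div, Real.log_inv, neg_neg] at hx2
      have h3 : ϱ * Real.exp (j : ℝ) < max 1 (y X) := by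
        rw [← Real.log_lt_log_iff (by positivity) hMy, Real.log_mul hϱ0.ne' (Real.exp_pos _).ne', Real.log_exp]
        linarith
      rcases max_choice 1 (y X) with h4 | h4
      · rw [h4] at h3
        have := hϱj j
        linarith
      · rw [h4] at h3; exact h3.le
  -- the good point
  set ζ := zt (0 : K) (ϱ * Real.exp (J : ℝ)) hϱJ with hζ
  have hζH : Hyp (ζ : P1 K) := hyp_zt 0 hϱJ
  have hζ0H : Hyp (zt (0 : K) (ϱ * Real.exp (-1)) (by positivity) : P1 K) := hyp_zt 0 (by positivity)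
  obtain ⟨b, hb1, hb2⟩ : ∃ b : K, ‖b - 0‖ ≤ 1 ∧
      cc ((0 : K) : OnePoint K) ((1 : K) : OnePoint K) ≤ chP (φ.map (ζ : P1 K)) (b : OnePoint K) := by
    rcases le_max_iff.1 (cc_le_chP (φ.map (ζ : P1 K)) ((0 : K) : OnePoint K) ((1 : K) : OnePoint K)) with h | h
    · exact ⟨0, by simp, h⟩
    · exact ⟨1, by simp, h⟩
  have hκ : 0 < cc ((0 : K) : OnePoint K) ((1 : K) : OnePoint K) := by
    apply cc_pos
    intro h
    rw [OnePoint.coe_eq_coe] at h
    exact zero_ne_one h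
  have hnear : chP (ζ : P1 K) ∞ < c₀ / L ^ n / L ^ n := by
    refine lt_of_le_of_lt ?_ hJ
    rw [chP_coe, ch_infty, hζ, zt_X, norm_zero, max_eq_right hϱJ.le, max_eq_right (hϱ1.le.trans (hϱj J)), Real.exp_neg]
    rw [one_div, one_div, mul_inv]
  have himg := chP_image_lower R hR hL hLip hc₀ hret hζH hnear
  rw [← map_iter] at himg
  -- sum over the layers
  have htau : ∀ j : ℕ, ((∑ x ∈ (spt φ).filter (fun x => (j : ℝ) < t x), wgt φ x : ℕ) : ℝ) ≤
      ((φ.deg : ℝ) - (nO 0 (ϱ * Real.exp (j : ℝ)) (φ.F ∞) : ℝ)) + ((φ.deg : ℝ) - (nO 0 (ϱ * Real.exp (j : ℝ)) (φ.F (b : OnePoint K)) : ℝ)) := by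
    intro j
    have h1 := min_le_tauO φ hD (0 : K) (r := ϱ * Real.exp (j : ℝ)) (by positivity) (a := b)
      (lt_of_le_of_lt hb1 (hϱ1.trans_le (hϱj j))) (a' := ∞) (fun z hz => absurd hz (OnePoint.infty_ne_coe z))
    have h2 := hin j
    have n1 : nO 0 (ϱ * Real.exp (j : ℝ)) (φ.F ∞) ≤ φ.deg :=
      (nO_le_nB _ _ _).trans ((nB_le_natDegree _ _ _).trans (natDegree_F_le φ _))
    have n2 : nO 0 (ϱ * Real.exp (j : ℝ)) (φ.F (b : OnePoint K)) ≤ φ.deg :=
      (nO_le_nB _ _ _).trans ((nB_le_natDegree _ _ _).trans (natDegree_F_le φ _))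
    have h3 : (∑ x ∈ (spt φ).filter (fun x => (j : ℝ) < t x), wgt φ x) ≤
        (φ.deg - nO 0 (ϱ * Real.exp (j : ℝ)) (φ.F ∞)) + (φ.deg - nO 0 (ϱ * Real.exp (j : ℝ)) (φ.F (b : OnePoint K))) := by
      rcases min_choice (nO 0 (ϱ * Real.exp (j : ℝ)) (φ.F (b : OnePoint K))) (nO 0 (ϱ * Real.exp (j : ℝ)) (φ.F ∞)) with h4 | h4
      · rw [h4] at h1; omega
      · rw [h4] at h1; omega
    rw [← Nat.cast_sub n1, ← Nat.cast_sub n2]
    exact_mod_cast h3
  have hsum1 := sum_slope_down (0 : K) hϱ0 (F_ne_zero φ hD ∞) J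
  have hsum2 := sum_slope_down (0 : K) hϱ0 (F_ne_zero φ hD (b : OnePoint K)) J
  have hbr : ∀ b' : OnePoint K, ((J : ℝ) + 1) * φ.deg -
      (Real.log (gn 0 (ϱ * Real.exp (J : ℝ)) (φ.F b')) - Real.log (gn 0 (ϱ * Real.exp (-1)) (φ.F b'))) ≤
      - Real.log (chP (φ.map (ζ : P1 K)) b') + (hh φ (zt (0 : K) (ϱ * Real.exp (-1)) (by positivity) : P1 K) - hh φ (ζ : P1 K)) := by
    intro b'
    have e1 := log_F φ hD (zt (0 : K) (ϱ * Real.exp (-1)) (by positivity)) hζ0H b'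
    have e2 := log_F φ hD ζ hζH b'
    rw [zt_apply, zt_X, norm_zero, max_eq_right (by positivity : (0 : ℝ) ≤ ϱ * Real.exp (-1)), max_eq_right hϱe.le,
      Real.log_mul hϱ0.ne' (Real.exp_pos _).ne', Real.log_exp] at e1
    rw [hζ, zt_apply, ← hζ, zt_X, norm_zero, max_eq_right hϱJ.le, max_eq_right (hϱ1.le.trans (hϱj J)),
      Real.log_mul hϱ0.ne' (Real.exp_pos _).ne', Real.log_exp] at e2
    rw [e1, e2]
    have h0 := chP_map_pos φ hD hζ0H b'
    have h1 : Real.log (chP (φ.map (zt (0 : K) (ϱ * Real.exp (-1)) (by positivity) : P1 K)) b') ≤ 0 :=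
      Real.log_nonpos h0.le (chP_le_one _ _)
    linarith
  have hb3 := hbr ∞
  have hb4 := hbr (b : OnePoint K)
  have hl1 := Real.log_le_log (by positivity : 0 < c₀ / L ^ n) himg
  have hl2 := Real.log_le_log hκ hb2
  calc tl φ ∞ A ≤ ∑ j ∈ Finset.range (J + 1), ((∑ x ∈ (spt φ).filter (fun x => (j : ℝ) < t x), wgt φ x : ℕ) : ℝ) := hlay
    _ ≤ ∑ j ∈ Finset.range (J + 1), (((φ.deg : ℝ) - (nO 0 (ϱ * Real.exp (j : ℝ)) (φ.F ∞) : ℝ)) +
          ((φ.deg : ℝ) - (nO 0 (ϱ * Real.exp (j : ℝ)) (φ.F (b : OnePoint K)) : ℝ))) := by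
        apply Finset.sum_le_sum
        intro j _
        exact htau j
    _ ≤ _ := by
        rw [Finset.sum_add_distrib, Finset.sum_sub_distrib, Finset.sum_sub_distrib]
        simp only [Finset.sum_const, Finset.card_range, nsmul_eq_mul]
        push_cast
        linarith

end aux

/-- points `ζ(a,ϱ)`, extended to `ϱ ≤ 0` -/
noncomputable def ztt (a : K) (ϱ : ℝ) : A1 K := if h : 0 < ϱ then zt a ϱ h else evalPt a

lemma gn_eval (a : K) (f : K[X]) : gn a 0 f = ‖f.eval a‖ := by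
  have h1 := (evalPt a : A1 K).eq_prod f
  rw [evalPt_apply] at h1
  rw [h1, gn]
  congr 2
  apply Multiset.map_congr rfl
  intro z _
  rw [evalPt_apply]
  simp only [eval_sub, eval_X, eval_C]
  rw [max_eq_left (norm_nonneg _), norm_sub_rev]

lemma continuous_gn (a : K) (f : K[X]) : Continuous (fun ϱ : ℝ => gn a ϱ f) := by
  unfold gn
  apply Continuous.mul continuous_const
  apply continuous_multiset_prod
  intro z _
  exact continuous_const.max continuous_id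

lemma tendsto_ztt (a : K) : Tendsto (fun ϱ => ztt a ϱ) (𝓝[>] 0) (𝓝 (evalPt a)) := by
  rw [isInducing_A1.tendsto_nhds_iff, tendsto_pi_nhds]
  intro f
  have h1 : Tendsto (fun ϱ : ℝ => gn a ϱ f) (𝓝[>] 0) (𝓝 (gn a 0 f)) :=
    ((continuous_gn a f).tendsto 0).mono_left nhdsWithin_le_nhds
  rw [gn_eval] at h1
  have h2 : (evalPt a : A1 K) f = ‖f.eval a‖ := evalPt_apply _ _
  change Tendsto (fun ϱ : ℝ => ztt a ϱ f) (𝓝[>] 0) (𝓝 ((evalPt a : A1 K) f))
  rw [h2]
  apply h1.congr'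
  filter_upwards [self_mem_nhdsWithin] with ϱ hϱ
  have hϱ' : 0 < ϱ := hϱ
  unfold ztt
  rw [dif_pos hϱ', zt_apply]

lemma near_classical (u : P1 K → ℝ) (hu : Continuous u) (a : K) {η : ℝ} (hη : 0 < η) :
    ∃ ϱ₀ > 0, ∀ (ϱ : ℝ) (hϱ : 0 < ϱ), ϱ < ϱ₀ → |u (zt a ϱ hϱ : P1 K) - u (cl (a : OnePoint K))| < η := by
  have h1 : Tendsto (fun ϱ => u ((ztt a ϱ : A1 K) : P1 K)) (𝓝[>] 0) (𝓝 (u (cl (a : OnePoint K)))) := by
    have h2 : Continuous (fun y : A1 K => u (y : P1 K)) := hu.comp OnePoint.continuous_coe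
    exact (h2.tendsto (evalPt a)).comp (tendsto_ztt a)
  have h3 := (Metric.tendsto_nhds.1 h1) η hη
  rw [eventually_nhdsWithin_iff, Metric.eventually_nhds_iff] at h3
  obtain ⟨ϱ₀, hϱ₀, h4⟩ := h3
  refine ⟨ϱ₀, hϱ₀, fun ϱ hϱ hlt => ?_⟩
  have h5 := h4 (y := ϱ) (by rw [Real.dist_eq, sub_zero, abs_of_pos hϱ]; exact hlt) hϱ
  rw [Real.dist_eq] at h5
  unfold ztt at h5
  rw [dif_pos hϱ] at h5
  exact h5

lemma hh_near_infty (φ : RMap K) : ∃ L : ℝ, ∀ y : A1 K, L < y X → hh φ (y : P1 K) = hh φ ∞ := by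
  obtain ⟨L, hL⟩ := maxlead (natDegree_P_le φ) (natDegree_Q_le φ) (exists_coeff_ne φ) one_pos one_pos
  refine ⟨max L 1, fun y hy => ?_⟩
  have h1 := hL y (lt_of_le_of_lt (le_max_left _ _) hy)
  simp only [one_mul] at h1
  have h2 : 1 < y X := lt_of_le_of_lt (le_max_right _ _) hy
  rw [hh_coe, hh_infty, h1, max_eq_right h2.le, Real.log_mul (max_coeff_pos φ).ne' (by positivity), Real.log_pow]
  ring

/-- the tails at critical points are small, uniformly in the iterate -/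
theorem tail_small (R : RMap K) (hR : 2 ≤ R.deg) {α : OnePoint K} (hα : α ∈ crit R) {ε : ℝ} (hε : 0 < ε) :
    ∃ A : ℝ, ∀ᶠ n in atTop, tl (iter R n) α A ≤ ε * (R.deg : ℝ) ^ n := by
  obtain ⟨L, hL, hLip⟩ := exists_lipP R (by omega)
  have hd : (2 : ℝ) ≤ R.deg := by exact_mod_cast hR
  have hd0 : (0 : ℝ) < R.deg := by linarith
  have hL0 : 0 < L := by linarith
  rcases crit_dichotomy R hR hα hL hLip with ⟨δ, hδ, h⟩ | ⟨c₀, hc₀, h⟩
  · refine ⟨-Real.log δ, ?_⟩
    filter_upwards [eventually_ge_atTop 1] with n hn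
    exact (tl_nonpos R (by omega) hδ h hn).trans (by positivity)
  · obtain ⟨C, hC0, hC⟩ := hh_cauchy R hR
    obtain ⟨m, hm⟩ : ∃ m : ℕ, 2 * C / (R.deg : ℝ) ^ m ≤ ε / 8 := by
      have h1 : Tendsto (fun m : ℕ => 2 * C / (R.deg : ℝ) ^ m) atTop (𝓝 0) :=
        (tendsto_pow_atTop_atTop_of_one_lt (by linarith)).const_div_atTop _
      exact ((h1.eventually (gt_mem_nhds (by positivity : 0 < ε / 8))).exists).imp (fun m h => h.le)
    have hDm : (0 : ℝ) < (R.deg : ℝ) ^ m := by positivity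
    -- the comparison of hh for n ≥ m
    have hcomp : ∀ n ≥ m, ∀ x y : P1 K, Hyp x → Hyp y → hh (iter R m) x - hh (iter R m) y ≤ (R.deg : ℝ) ^ m * (ε / 8) →
        hh (iter R n) x - hh (iter R n) y ≤ (R.deg : ℝ) ^ n * (ε / 4) := by
      intro n hn x y hx hy hxy
      have h1 := (abs_le.1 (hC m n hn x hx)).2
      have h2 := (abs_le.1 (hC m n hn y hy)).1
      have h3 : hh (iter R m) x / (R.deg : ℝ) ^ m - hh (iter R m) y / (R.deg : ℝ) ^ m ≤ ε / 8 := by
        rw [← sub_div, div_le_iff₀ hDm]; linarith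
      have h4 : hh (iter R n) x / (R.deg : ℝ) ^ n - hh (iter R n) y / (R.deg : ℝ) ^ n ≤ ε / 4 := by
        have : 2 * C / (R.deg : ℝ) ^ m = C / (R.deg : ℝ) ^ m + C / (R.deg : ℝ) ^ m := by ring
        linarith
      rw [← sub_div, div_le_iff₀ (by positivity)] at h4
      linarith
    -- the subexponential term
    have hsub : ∀ κ : ℝ, ∀ᶠ n : ℕ in atTop, -Real.log (c₀ / L ^ n) - κ ≤ ε / 2 * (R.deg : ℝ) ^ n := by
      intro κ
      have h1 : Tendsto (fun n : ℕ => (n : ℝ) ^ 1 / (R.deg : ℝ) ^ n) atTop (𝓝 0) :=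
        tendsto_pow_const_div_const_pow_of_one_lt 1 (by linarith)
      have h2 : Tendsto (fun n : ℕ => (-Real.log c₀ - κ) / (R.deg : ℝ) ^ n) atTop (𝓝 0) :=
        (tendsto_pow_atTop_atTop_of_one_lt (by linarith)).const_div_atTop _
      have h3 : Tendsto (fun n : ℕ => (-Real.log c₀ - κ) / (R.deg : ℝ) ^ n + Real.log L * ((n : ℝ) ^ 1 / (R.deg : ℝ) ^ n))
          atTop (𝓝 (0 + Real.log L * 0)) := h2.add (h1.const_mul _)
      rw [mul_zero, add_zero] at h3
      filter_upwards [h3.eventually (gt_mem_nhds (by positivity : 0 < ε / 2))] with n hn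
      rw [Real.log_div hc₀.ne' (by positivity), Real.log_pow]
      have hDn : (0 : ℝ) < (R.deg : ℝ) ^ n := by positivity
      rw [pow_one, mul_div_assoc', ← add_div, div_lt_iff₀ hDn] at hn
      linarith
    induction α using OnePoint.rec with
    | infty =>
      obtain ⟨M, hM⟩ := hh_near_infty (iter R m)
      set ϱ := Real.exp 1 * (max 2 (M + 1)) with hϱ
      have hm2 : (2 : ℝ) ≤ max 2 (M + 1) := le_max_left _ _
      have hϱ0 : 0 < ϱ := by positivity
      have hϱe : Real.exp 1 < ϱ := by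
        rw [hϱ]
        have := Real.exp_pos 1
        nlinarith
      have hϱM : M < ϱ * Real.exp (-1) := by
        rw [hϱ, mul_comm (Real.exp 1), mul_assoc, ← Real.exp_add]
        simp only [add_neg_cancel, Real.exp_zero, mul_one]
        have := le_max_right 2 (M + 1)
        linarith
      refine ⟨Real.log ϱ, ?_⟩
      filter_upwards [hsub (Real.log (cc ((0 : K) : OnePoint K) ((1 : K) : OnePoint K))), eventually_ge_atTop (max m 1)] with n hn1 hn2
      obtain ⟨ϱ', hϱ', hle, htl⟩ := tail_inf_aux R hR hL hLip hc₀ (h n ((le_max_right _ _).trans hn2)) hϱ0 hϱe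
      have h1 := hcomp n ((le_max_left _ _).trans hn2) (zt (0 : K) (ϱ * Real.exp (-1)) (by positivity) : P1 K)
        (zt (0 : K) ϱ' hϱ' : P1 K) (hyp_zt 0 _) (hyp_zt 0 _) (by
          rw [hM (zt (0 : K) (ϱ * Real.exp (-1)) (by positivity)) (by rw [zt_X, norm_zero]; exact lt_of_lt_of_le hϱM (le_max_right _ _)),
            hM (zt (0 : K) ϱ' hϱ') (by
              rw [zt_X, norm_zero]
              refine lt_of_lt_of_le hϱM (le_trans ?_ (le_max_right _ _))
              refine le_trans ?_ hle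
              have : Real.exp (-1) ≤ 1 := by rw [← Real.exp_zero]; exact Real.exp_le_exp.2 (by norm_num)
              nlinarith), sub_self]
          positivity)
      linarith
    | coe a =>
      obtain ⟨ϱ₀, hϱ₀, hnear⟩ := near_classical (hh (iter R m)) (continuous_hh _) a
        (η := (R.deg : ℝ) ^ m * (ε / 16)) (by positivity)
      set ϱ := min (1 / Real.exp 1) (ϱ₀ / (2 * Real.exp 1)) with hϱ
      have he := Real.exp_pos 1
      have he1 : (1 : ℝ) ≤ Real.exp 1 := by rw [← Real.exp_zero]; exact Real.exp_le_exp.2 (by norm_num)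
      have hϱpos : 0 < ϱ := by rw [hϱ]; positivity
      have hϱ1 : ϱ * Real.exp 1 ≤ 1 := by
        have : ϱ ≤ 1 / Real.exp 1 := min_le_left _ _
        rw [le_div_iff₀ he] at this
        exact this
      have hϱ2 : ϱ * Real.exp 1 < ϱ₀ := by
        have : ϱ ≤ ϱ₀ / (2 * Real.exp 1) := min_le_right _ _
        rw [le_div_iff₀ (by positivity)] at this
        nlinarith [mul_pos hϱpos he]
      refine ⟨2 * Real.log (max 1 ‖a‖) - Real.log ϱ, ?_⟩
      filter_upwards [hsub (Real.log (cc (∞ : OnePoint K) ((a + 1 : K) : OnePoint K))), eventually_ge_atTop (max m 1)] with n hn1 hn2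
      obtain ⟨ϱ', hϱ', hle, htl⟩ := tail_fin_aux R hR hL hLip a hc₀ (h n ((le_max_right _ _).trans hn2)) hϱpos hϱ1
      have h1 := hcomp n ((le_max_left _ _).trans hn2) (zt a (ϱ * Real.exp 1) (by positivity) : P1 K)
        (zt a ϱ' hϱ' : P1 K) (hyp_zt a _) (hyp_zt a _) (by
          have g1 := (abs_lt.1 (hnear (ϱ * Real.exp 1) (by positivity) hϱ2)).2
          have g2 := (abs_lt.1 (hnear ϱ' hϱ' (by
            refine lt_of_le_of_lt ?_ hϱ2
            nlinarith))).1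
          linarith)
      linarith

end BerkFix
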