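import Pool.Agent.Lib.MP_edb0ca_an.Comp

set_option linter.unusedSectionVars false
set_option linter.unusedVariables false

open Polynomial OnePoint Topology Filter

namespace BerkFix

variable {K : Type*} [NormedField K]

lemma continuous_eval_A1 (f : K[X]) : Continuous (fun x : A1 K => x f) :=
  (continuous_apply f).comp continuous_induced_dom

lemma isInducing_A1 : IsInducing (fun x : A1 K => (x : K[X] → ℝ)) := ⟨rfl⟩

lemma isClosedEmbedding_A1 : IsClosedEmbedding (fun x : A1 K => (x : K[X] → ℝ)) := by
  refine ⟨⟨isInducing_A1, ?_⟩, ?_⟩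
  · intro x y h
    exact A1.ext (fun f => congrFun h f)
  · have : Set.range (fun x : A1 K => (x : K[X] → ℝ)) =
        {g : K[X] → ℝ | (∀ f, 0 ≤ g f)} ∩ {g : K[X] → ℝ | (∀ a, g (C a) = ‖a‖)} ∩
        {g : K[X] → ℝ | ∀ f h, g (f * h) = g f * g h} ∩
        {g : K[X] → ℝ | ∀ f h, g (f + h) ≤ max (g f) (g h)} := by
      ext g
      simp only [Set.mem_range, Set.mem_inter_iff, Set.mem_ofPred_eq]
      constructor
      · rintro ⟨x, rfl⟩
        exact ⟨⟨⟨x.nonneg', x.map_C'⟩, x.map_mul'⟩, x.map_add_le'⟩
      · rintro ⟨⟨⟨h1, h2⟩, h3⟩, h4⟩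
        exact ⟨⟨g, h1, h2, h3, h4⟩, rfl⟩
    rw [this]
    refine IsClosed.inter (IsClosed.inter (IsClosed.inter ?_ ?_) ?_) ?_
    · simp only [Set.ofPred_forall]
      exact isClosed_iInter (fun f => isClosed_le continuous_const (continuous_apply f))
    · simp only [Set.ofPred_forall]
      exact isClosed_iInter (fun a => isClosed_eq (continuous_apply _) continuous_const)
    · simp only [Set.ofPred_forall]
      exact isClosed_iInter (fun f => isClosed_iInter (fun h => isClosed_eq (continuous_apply (f * h))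
        ((continuous_apply f).mul (continuous_apply h))))
    · simp only [Set.ofPred_forall]
      exact isClosed_iInter (fun f => isClosed_iInter (fun h => isClosed_le (continuous_apply (f + h))
        ((continuous_apply f).max (continuous_apply h))))

instance : T2Space (A1 K) := isClosedEmbedding_A1.isEmbedding.t2Space

section closed

variable [IsAlgClosed K]

lemma A1.eq_prod (x : A1 K) (f : K[X]) :
    x f = ‖f.leadingCoeff‖ * (f.roots.map (fun z => x (X - C z))).prod := by
  have h1 : f = C f.leadingCoeff * (f.roots.map (fun z => X - C z)).prod :=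
    (C_leadingCoeff_mul_prod_multiset_X_sub_C (IsAlgClosed.card_roots_eq_natDegree)).symm
  conv_lhs => rw [h1, x.map_mul, x.map_C]
  congr 1
  induction f.roots using Multiset.induction_on with
  | empty => simp
  | cons a s ih => rw [Multiset.map_cons, Multiset.prod_cons, x.map_mul, ih, Multiset.map_cons, Multiset.prod_cons]

lemma A1.ext_lin {x y : A1 K} (h : ∀ a : K, x (X - C a) = y (X - C a)) : x = y := by
  apply A1.ext
  intro f
  rw [x.eq_prod, y.eq_prod]
  congr 2
  apply Multiset.map_congr rfl
  intro z _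
  exact h z

end closed

lemma A1.norm_sub_le (x : A1 K) (a b : K) : ‖a - b‖ ≤ max (x (X - C a)) (x (X - C b)) := by
  have e : C (a - b) = (X - C b) - (X - C a) := by rw [C_sub]; ring
  rw [← x.map_C, e, max_comm]
  exact x.sub_le _ _

lemma A1.lin_le (x : A1 K) (a b : K) : x (X - C a) ≤ max (x (X - C b)) ‖a - b‖ := by
  have e : X - C a = (X - C b) - C (a - b) := by rw [C_sub]; ring
  rw [e]
  refine (x.sub_le _ _).trans ?_
  rw [x.map_C]

lemma A1.lin_eq_of_lt (x : A1 K) {a b : K} (h : x (X - C b) < ‖a - b‖) : x (X - C a) = ‖a - b‖ := by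
  apply le_antisymm
  · exact (x.lin_le a b).trans (max_le h.le le_rfl)
  · have := x.norm_sub_le a b
    rcases le_max_iff.1 this with h1 | h1
    · exact h1
    · exact absurd h (not_lt.2 h1)

lemma A1.lin_zero (x : A1 K) : x (X - C 0) = x X := by simp

lemma A1.lin_le' (x : A1 K) (a : K) : x (X - C a) ≤ max (x X) ‖a‖ := by
  have := x.lin_le a 0
  simpa using this

lemma A1.X_le (x : A1 K) (a : K) : x X ≤ max (x (X - C a)) ‖a‖ := by
  have := x.lin_le 0 a
  simpa using this

section zt

variable [IsUltrametricDist K] [IsAlgClosed K]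

/-- the point `ζ(c,r)` -/
noncomputable def zt (c : K) (r : ℝ) (hr : 0 < r) : A1 K where
  toFun f := gn c r f
  nonneg' f := gn_nonneg c hr.le f
  map_C' a := gn_C c r a
  map_mul' f g := gn_mul c r f g
  map_add_le' f g := gn_add_le c hr f g

@[simp] lemma zt_apply (c : K) (r : ℝ) (hr : 0 < r) (f : K[X]) : zt c r hr f = gn c r f := rfl

lemma zt_lin (c : K) (r : ℝ) (hr : 0 < r) (a : K) : zt c r hr (X - C a) = max ‖a - c‖ r := gn_X_sub_C c r a

lemma zt_X (c : K) (r : ℝ) (hr : 0 < r) : zt c r hr X = max ‖c‖ r := by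
  have := zt_lin c r hr 0
  simpa using this

lemma zt_eq_iff {c c' : K} {r r' : ℝ} {hr : 0 < r} {hr' : 0 < r'} :
    zt c r hr = zt c' r' hr' ↔ r = r' ∧ ‖c - c'‖ ≤ r := by
  constructor
  · intro h
    have k1 : max ‖c - c‖ r = max ‖c - c'‖ r' := by rw [← zt_lin c r hr, ← zt_lin c' r' hr', h]
    have k2 : max ‖c' - c‖ r = max ‖c' - c'‖ r' := by rw [← zt_lin c r hr, ← zt_lin c' r' hr', h]
    rw [sub_self, norm_zero, max_eq_right hr.le] at k1
    rw [sub_self, norm_zero, max_eq_right hr'.le] at k2
    have e1 : r' ≤ r := by rw [k1]; exact le_max_right _ _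
    have e2 : r ≤ r' := by rw [← k2]; exact le_max_right _ _
    exact ⟨le_antisymm e2 e1, by rw [k1]; exact le_max_left _ _⟩
  · rintro ⟨rfl, h⟩
    apply A1.ext
    intro f
    exact gn_center h f

/-- a point of the closed ball is bounded by the Gauss norm -/
lemma A1.le_gn (x : A1 K) {c : K} {r : ℝ} (h : x (X - C c) ≤ r) (f : K[X]) : x f ≤ gn c r f := by
  rw [x.eq_prod]
  unfold gn
  gcongr
  induction f.roots using Multiset.induction_on with
  | empty => simp
  | cons a s ih =>
    rw [Multiset.map_cons, Multiset.prod_cons, Multiset.map_cons, Multiset.prod_cons]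
    have h1 : x (X - C a) ≤ max ‖a - c‖ r := by
      refine (x.lin_le a c).trans ?_
      rw [max_comm]
      exact max_le_max le_rfl h
    have h2 : 0 ≤ (s.map (fun z => x (X - C z))).prod := by
      apply Multiset.prod_nonneg
      intro y hy
      obtain ⟨z, _, rfl⟩ := Multiset.mem_map.1 hy
      exact x.nonneg _
    exact mul_le_mul h1 ih h2 (le_trans (norm_nonneg _) (le_max_left _ _))

lemma isCompact_cball (c : K) (r : ℝ) : IsCompact {x : A1 K | x (X - C c) ≤ r} := by
  have h1 : {x : A1 K | x (X - C c) ≤ r} =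
      (fun x : A1 K => (x : K[X] → ℝ)) ⁻¹' ({g | g (X - C c) ≤ r} ∩ Set.univ.pi (fun f => Set.Icc 0 (gn c r f))) := by
    ext x
    simp only [Set.mem_ofPred_eq, Set.mem_preimage, Set.mem_inter_iff, Set.mem_pi, Set.mem_univ,
      true_implies, Set.mem_Icc]
    constructor
    · intro h
      exact ⟨h, fun f => ⟨x.nonneg f, x.le_gn h f⟩⟩
    · intro h; exact h.1
  rw [h1]
  apply isClosedEmbedding_A1.isCompact_preimage
  apply IsCompact.inter_left
  · exact isCompact_univ_pi (fun f => isCompact_Icc)
  · exact isClosed_le (continuous_apply _) continuous_const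

instance : WeaklyLocallyCompactSpace (A1 K) := by
  constructor
  intro x
  refine ⟨{y | y (X - C 0) ≤ x (X - C 0) + 1}, isCompact_cball 0 _, ?_⟩
  have : {y : A1 K | y (X - C 0) < x (X - C 0) + 1} ∈ 𝓝 x := by
    apply (isOpen_lt (continuous_eval_A1 _) continuous_const).mem_nhds
    simp
  filter_upwards [this] with y hy
  exact le_of_lt hy

instance : T2Space (P1 K) := inferInstance

/-- criterion of continuity on the projective line -/
lemma continuous_P1 {Z : Type*} [TopologicalSpace Z] (u : P1 K → Z) (h1 : Continuous (fun y : A1 K => u y))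
    (h2 : ∃ L : ℝ, ∀ y : A1 K, L < y X → u y = u ∞) : Continuous u := by
  rw [OnePoint.continuous_iff]
  refine ⟨?_, h1⟩
  obtain ⟨L, hL⟩ := h2
  apply tendsto_const_nhds.congr'
  rw [Filter.EventuallyEq, Filter.Eventually, Filter.mem_coclosedCompact_iff]
  refine (isCompact_cball (0 : K) L).of_isClosed_subset isClosed_closure (closure_minimal ?_
    (isClosed_le (continuous_eval_A1 _) continuous_const))
  intro y hy
  simp only [Set.mem_compl_iff, Set.mem_ofPred_eq] at hy
  rw [Set.mem_ofPred_eq, A1.lin_zero]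
  by_contra hcon
  push Not at hcon
  exact hy (hL y hcon).symm

end zt

end BerkFix
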