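import Pool.Agent.Lib.MP_edb0ca_an.Local

set_option linter.unusedSectionVars false
set_option linter.unusedVariables false

open Polynomial OnePoint

namespace BerkFix

variable {K : Type*} [NormedField K] [IsUltrametricDist K] [IsAlgClosed K]

lemma lab_center {c c' : K} {r : ℝ} (h : ‖c - c'‖ ≤ r) : lab c r = lab c' r := by
  funext z
  induction z using OnePoint.rec with
  | infty => rfl
  | coe z =>
    by_cases hz : ‖z - c‖ ≤ r
    · have : ‖z - c'‖ ≤ r := by
        have e : z - c' = (z - c) + (c - c') := by ring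
        rw [e]; exact (IsUltrametricDist.norm_add_le_max _ _).trans (max_le hz h)
      rw [lab_coe_in hz, lab_coe_in this]
    · have : ¬ ‖z - c'‖ ≤ r := by
        intro h'
        apply hz
        have e : z - c = (z - c') - (c - c') := by ring
        rw [e]; exact (norm_sub_le_max' _ _).trans (max_le h' h)
      rw [lab_coe_out (not_le.1 hz), lab_coe_out (not_le.1 this)]

lemma cnt_center (φ : RMap K) {c c' : K} {r : ℝ} (h : ‖c - c'‖ ≤ r) : cnt φ c r = cnt φ c' r := by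
  unfold cnt; rw [lab_center h]

lemma sV_center (φ : RMap K) {c c' : K} {r : ℝ} (h : ‖c - c'‖ ≤ r) : sV φ c r = sV φ c' r := by
  unfold sV; rw [cnt_center φ h]

lemma MV_center (φ : RMap K) {c c' : K} {r : ℝ} (h : ‖c - c'‖ ≤ r) : MV φ c r = MV φ c' r := by
  unfold MV; rw [cnt_center φ h]

lemma mu_center (φ : RMap K) {c c' : K} {r : ℝ} (h : ‖c - c'‖ ≤ r) : mu φ c r = mu φ c' r := by
  unfold mu base; rw [lab_center h, sV_center φ h]

lemma Fx_center (φ : RMap K) {c c' : K} {r : ℝ} (h : ‖c - c'‖ ≤ r) : Fx φ c r ↔ Fx φ c' r :=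
  ⟨fun h1 => Im.center h1 h h, fun h1 => Im.center h1 (by rwa [norm_sub_rev]) (by rwa [norm_sub_rev])⟩

lemma om_center (φ : RMap K) {c c' : K} {r : ℝ} (h : ‖c - c'‖ ≤ r) : om φ c r = om φ c' r := by
  unfold om
  by_cases h1 : Fx φ c r
  · rw [if_pos h1, if_pos ((Fx_center φ h).1 h1), mu_center φ h]
  · rw [if_neg h1, if_neg (fun h2 => h1 ((Fx_center φ h).2 h2))]

lemma tauO_center (φ : RMap K) (hD : 1 ≤ φ.deg) {c c' : K} {r : ℝ} (hr : 0 < r) (h : ‖c - c'‖ < r) :
    tauO φ c r = tauO φ c' r := by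
  obtain ⟨b, ρ, hI⟩ := exists_Im φ hD c hr
  have hg : 0 < gn c r φ.Q := gn_pos c hr (Q_ne_zero φ hD)
  have hball : Metric.ball c r = Metric.ball c' r := (ball_eq_iff hr).2 h
  unfold tauO tau
  rw [hball, sV_center φ h.le, MV_center φ h.le, cnt_center φ h.le, gn_center h.le, gn_center h.le]
  -- now compare the two conditions
  have e1 : gn c' r (φ.F c) = max ‖c - b‖ ρ * gn c' r φ.Q := by
    rw [← gn_center h.le, ← gn_center h.le, hI.gn_F, wt_coe]
  have e2 : gn c' r (φ.F c') = max ‖c' - b‖ ρ * gn c' r φ.Q := by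
    rw [← gn_center h.le, ← gn_center h.le, hI.gn_F, wt_coe]
  have hg' : 0 < gn c' r φ.Q := by rw [← gn_center h.le]; exact hg
  rw [e1, e2]
  have s1 : ∀ x : ℝ, r * gn c' r φ.Q ≤ x * gn c' r φ.Q ↔ r ≤ x := fun x => mul_le_mul_iff_left₀ hg'
  have s2 : ∀ x : ℝ, x * gn c' r φ.Q ≤ r * gn c' r φ.Q ↔ x ≤ r := fun x => mul_le_mul_iff_left₀ hg'
  simp only [s1, s2]
  have k1 : r ≤ max ‖c - b‖ ρ → lab b ρ (c' : OnePoint K) = lab b ρ (c : OnePoint K) ∧ max ‖c' - b‖ ρ = max ‖c - b‖ ρ :=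
    fun hh => lab_eq_of_close hI.1 (lt_of_lt_of_le (by rwa [norm_sub_rev]) hh)
  have k2 : r ≤ max ‖c' - b‖ ρ → lab b ρ (c : OnePoint K) = lab b ρ (c' : OnePoint K) ∧ max ‖c - b‖ ρ = max ‖c' - b‖ ρ :=
    fun hh => lab_eq_of_close hI.1 (lt_of_lt_of_le h hh)
  have kc : ∀ {x y : OnePoint K}, lab b ρ x = lab b ρ y → cnt φ c' r x (Option.some (Metric.ball c' r)) =
      cnt φ c' r y (Option.some (Metric.ball c' r)) := by
    intro x y hxy
    rw [← cnt_center φ h.le]
    exact hI.cnt_congr hr hD hxy _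
  have iff1 : (cnt φ c' r (c : OnePoint K) (Option.some (Metric.ball c' r)) = sV φ c' r (Option.some (Metric.ball c' r)) ∧ r ≤ max ‖c - b‖ ρ) ↔
      (cnt φ c' r (c' : OnePoint K) (Option.some (Metric.ball c' r)) = sV φ c' r (Option.some (Metric.ball c' r)) ∧ r ≤ max ‖c' - b‖ ρ) := by
    constructor
    · rintro ⟨h1, h2⟩
      obtain ⟨h3, h4⟩ := k1 h2
      exact ⟨by rw [kc h3, h1], by rw [h4]; exact h2⟩
    · rintro ⟨h1, h2⟩
      obtain ⟨h3, h4⟩ := k2 h2
      exact ⟨by rw [kc h3, h1], by rw [h4]; exact h2⟩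
  have iff2 : max ‖c - b‖ ρ ≤ r ↔ max ‖c' - b‖ ρ ≤ r := by
    constructor
    · intro h1
      by_contra h2
      push Not at h2
      have := (k2 h2.le).2
      rw [this] at h1
      exact absurd h2 (not_lt.2 h1)
    · intro h1
      by_contra h2
      push Not at h2
      have := (k1 h2.le).2
      rw [this] at h1
      exact absurd h2 (not_lt.2 h1)
  simp only [iff1, iff2]

/-! ### growth of Gauss norms -/

lemma growth_lo (c : K) {r₁ r₂ : ℝ} (h1 : 0 < r₁) (h2 : 0 < r₂) (f : K[X]) :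
    (r₂ / r₁) ^ (nB c r₁ f) * gn c r₁ f ≤ gn c r₂ f := by
  rw [← gn_nB c h1 f]
  refine le_trans (le_of_eq ?_) (le_gn c h2 (nB c r₁ f) f)
  rw [div_pow]; field_simp

lemma growth_hi (c : K) {r₁ r₂ : ℝ} (h1 : 0 < r₁) (h2 : 0 < r₂) (f : K[X]) :
    gn c r₂ f ≤ (r₂ / r₁) ^ (nO c r₂ f) * gn c r₁ f := by
  rw [← gn_nO c h2 f]
  refine le_trans (le_of_eq ?_) (mul_le_mul_of_nonneg_left (le_gn c h1 (nO c r₂ f) f) (by positivity))
  rw [div_pow]; field_simp

lemma nB_le_nO (c : K) {r₁ r₂ : ℝ} (h : r₁ < r₂) (f : K[X]) : nB c r₁ f ≤ nO c r₂ f := by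
  classical
  unfold nO nB
  exact countP_mono' _ _ _ (fun z hz => lt_of_le_of_lt hz h)

/-- (EI) edge inequality -/
lemma edge_ineq (φ : RMap K) (hD : 1 ≤ φ.deg) (c : K) {r₁ r₂ : ℝ} (h1 : 0 < r₁) (h12 : r₁ < r₂) :
    φ.deg - 1 ≤ tauC φ c r₁ + tauO φ c r₂ := by
  have h2 : 0 < r₂ := h1.trans h12
  have hself : ‖c - c‖ ≤ r₂ := by simpa using h2.le
  have hc1 : ∀ a, cnt φ c r₁ a none = φ.deg - nB c r₁ (φ.F a) := fun a => cnt_none φ c a
  have hc2 : ∀ a, cnt φ c r₂ a (Option.some (Metric.ball c r₂)) = nO c r₂ (φ.F a) :=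
    fun a => cnt_some φ h2 a hself
  have hge : ∀ a, φ.deg ≤ cnt φ c r₁ a none + cnt φ c r₂ a (Option.some (Metric.ball c r₂)) := by
    intro a
    rw [hc1, hc2]
    have := nB_le_nO c h12 (φ.F a)
    omega
  have ht1 : sV φ c r₁ none ≤ tauC φ c r₁ := sV_le_tau φ hD c h1 ⟨∞, rfl⟩
  have ht2 : sV φ c r₂ (Option.some (Metric.ball c r₂)) ≤ tauO φ c r₂ :=
    sV_le_tau φ hD c h2 ⟨c, mem_dir_self c h2⟩
  obtain ⟨a₁, ha₁⟩ := exists_cnt_eq_sV φ c r₁ none
  obtain ⟨a₂, ha₂⟩ := exists_cnt_eq_sV φ c r₂ (Option.some (Metric.ball c r₂))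
  by_cases hcond1 : (cnt φ c r₁ c none = sV φ c r₁ none ∧ r₁ * gn c r₁ φ.Q ≤ gn c r₁ (φ.F c)) ∨
    (cnt φ c r₁ ∞ none = sV φ c r₁ none ∧ gn c r₁ (φ.F c) ≤ r₁ * gn c r₁ φ.Q)
  · by_cases hcond2 : (cnt φ c r₂ c (Option.some (Metric.ball c r₂)) = sV φ c r₂ (Option.some (Metric.ball c r₂)) ∧
        r₂ * gn c r₂ φ.Q ≤ gn c r₂ (φ.F c)) ∨
      (cnt φ c r₂ ∞ (Option.some (Metric.ball c r₂)) = sV φ c r₂ (Option.some (Metric.ball c r₂)) ∧
        gn c r₂ (φ.F c) ≤ r₂ * gn c r₂ φ.Q)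
    · have hG1 : 0 < gn c r₁ φ.Q := gn_pos c h1 (Q_ne_zero φ hD)
      have hG2 : 0 < gn c r₂ φ.Q := gn_pos c h2 (Q_ne_zero φ hD)
      have hq : 1 < r₂ / r₁ := by rw [one_lt_div h1]; exact h12
      rcases hcond1 with ⟨u1, v1⟩ | ⟨u1, v1⟩
      · rcases hcond2 with ⟨u2, v2⟩ | ⟨u2, v2⟩
        · have := hge c
          omega
        · -- type I
          have g1 := growth_lo c h1 h2 (φ.F c)
          have g2 := growth_hi c h1 h2 φ.Q
          set k := nB c r₁ (φ.F c) with hk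
          set l := nO c r₂ φ.Q with hl
          have e1 : cnt φ c r₁ c none = φ.deg - k := hc1 c
          have e2 : cnt φ c r₂ ∞ (Option.some (Metric.ball c r₂)) = l := hc2 ∞
          have hle : (r₂ / r₁) ^ k ≤ (r₂ / r₁) ^ (l + 1) := by
            have : (r₂ / r₁) ^ k * (r₁ * gn c r₁ φ.Q) ≤ (r₂ / r₁) ^ (l + 1) * (r₁ * gn c r₁ φ.Q) := by
              calc (r₂ / r₁) ^ k * (r₁ * gn c r₁ φ.Q) ≤ (r₂ / r₁) ^ k * gn c r₁ (φ.F c) := by gcongr
                _ ≤ gn c r₂ (φ.F c) := g1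
                _ ≤ r₂ * gn c r₂ φ.Q := v2
                _ ≤ r₂ * ((r₂ / r₁) ^ l * gn c r₁ φ.Q) := by gcongr
                _ = (r₂ / r₁) ^ (l + 1) * (r₁ * gn c r₁ φ.Q) := by rw [pow_succ]; field_simp
            exact le_of_mul_le_mul_right this (by positivity)
          have hkl : k ≤ l + 1 := (pow_le_pow_iff_right₀ hq).1 hle
          have hkD : k ≤ φ.deg := (nB_le_natDegree _ _ _).trans (natDegree_F_le _ _)
          omega
      · rcases hcond2 with ⟨u2, v2⟩ | ⟨u2, v2⟩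
        · -- type II
          have g1 := growth_lo c h1 h2 φ.Q
          have g2 := growth_hi c h1 h2 (φ.F c)
          set k := nB c r₁ φ.Q with hk
          set l := nO c r₂ (φ.F c) with hl
          have e1 : cnt φ c r₁ ∞ none = φ.deg - k := hc1 ∞
          have e2 : cnt φ c r₂ c (Option.some (Metric.ball c r₂)) = l := hc2 c
          have hle : (r₂ / r₁) ^ (k + 1) ≤ (r₂ / r₁) ^ l := by
            have : (r₂ / r₁) ^ (k + 1) * (r₁ * gn c r₁ φ.Q) ≤ (r₂ / r₁) ^ l * (r₁ * gn c r₁ φ.Q) := by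
              calc (r₂ / r₁) ^ (k + 1) * (r₁ * gn c r₁ φ.Q) = r₂ * ((r₂ / r₁) ^ k * gn c r₁ φ.Q) := by
                    rw [pow_succ]; field_simp
                _ ≤ r₂ * gn c r₂ φ.Q := by gcongr
                _ ≤ gn c r₂ (φ.F c) := v2
                _ ≤ (r₂ / r₁) ^ l * gn c r₁ (φ.F c) := g2
                _ ≤ (r₂ / r₁) ^ l * (r₁ * gn c r₁ φ.Q) := by gcongr
            exact le_of_mul_le_mul_right this (by positivity)
          have hkl : k + 1 ≤ l := (pow_le_pow_iff_right₀ hq).1 hle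
          have hkD : k ≤ φ.deg := (nB_le_natDegree _ _ _).trans (natDegree_F_le φ ∞)
          omega
        · have := hge ∞
          omega
    · have hb : tauO φ c r₂ = MV φ c r₂ (Option.some (Metric.ball c r₂)) - 1 := by
        unfold tauO tau; rw [if_neg hcond2]
      have := hge a₁
      have := le_MV φ c r₂ (Option.some (Metric.ball c r₂)) a₁
      omega
  · have hb : tauC φ c r₁ = MV φ c r₁ none - 1 := by
      unfold tauC tau; rw [if_neg hcond1]
    have := hge a₂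
    have := le_MV φ c r₁ none a₂
    omega

/-- (B1) -/
lemma min_le_tauO (φ : RMap K) (hD : 1 ≤ φ.deg) (c : K) {r : ℝ} (hr : 0 < r) {a : K} (ha : ‖a - c‖ < r)
    {a' : OnePoint K} (ha' : ∀ z : K, a' = z → r ≤ ‖z - c‖) :
    min (nO c r (φ.F a)) (nO c r (φ.F a')) ≤ tauO φ c r + 1 := by
  have hself : ‖c - c‖ ≤ r := by simpa using hr.le
  rw [← cnt_some φ hr a hself, ← cnt_some φ hr a' hself]
  set V := Option.some (Metric.ball c r) with hV
  have hVr : ∃ z, lab c r z = V := ⟨c, mem_dir_self c hr⟩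
  have hs : sV φ c r V ≤ tauO φ c r := sV_le_tau φ hD c hr hVr
  by_cases h1 : cnt φ c r a V = sV φ c r V
  · have := min_le_left (cnt φ c r a V) (cnt φ c r a' V); omega
  by_cases h2 : cnt φ c r a' V = sV φ c r V
  · have := min_le_right (cnt φ c r a V) (cnt φ c r a' V); omega
  have h1' := cnt_two φ hD c hr hVr a h1
  have h2' := cnt_two φ hD c hr hVr a' h2
  have hlt := sV_lt_MV φ hD c hr hVr
  obtain ⟨b, ρ, hI⟩ := exists_Im φ hD c hr
  have hg : 0 < gn c r φ.Q := gn_pos c hr (Q_ne_zero φ hD)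
  have htau : tauO φ c r = MV φ c r V - 1 := by
    unfold tauO tau
    rw [if_neg]
    rintro (⟨u, v⟩ | ⟨u, v⟩)
    · rw [hI.gn_F, wt_coe, mul_le_mul_iff_left₀ hg] at v
      have h3 := (lab_eq_of_close (a' := a) hI.1 (lt_of_lt_of_le ha v)).1
      apply h1
      rw [hI.cnt_congr hr hD h3]; exact u
    · rw [hI.gn_F, wt_coe, mul_le_mul_iff_left₀ hg] at v
      have h3 : lab b ρ (a : OnePoint K) = lab b ρ a' := by
        by_contra hne
        have := hI.min_eq hr hD hne V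
        rw [h1', h2', min_self] at this
        omega
      have h4 : lab b ρ (a : OnePoint K) ≠ none := by
        intro h0
        apply h1
        rw [hI.cnt_congr hr hD (a' := ∞) (by rw [h0]; rfl)]; exact u
      induction a' using OnePoint.rec with
      | infty => exact h4 h3
      | coe z =>
        have hz : ‖a - b‖ ≤ ρ := by
          by_contra hcon
          exact h4 (lab_coe_out (not_le.1 hcon))
        have h5 : ‖z - a‖ < ρ := (lab_eq_iff_of_in hI.1 hz).1 h3.symm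
        have h6 := ha' z rfl
        have h7 : ρ ≤ r := (le_max_right _ _).trans v
        have e : z - c = (z - a) + (a - c) := by ring
        rw [e] at h6
        exact absurd h6 (not_le.2 (lt_of_le_of_lt (IsUltrametricDist.norm_add_le_max _ _)
          (max_lt (lt_of_lt_of_le h5 h7) ha)))
  omega

/-- (B2) -/
lemma tauO_le_max (φ : RMap K) (hD : 1 ≤ φ.deg) (c : K) {r : ℝ} (hr : 0 < r) {a : K} (ha : ‖a - c‖ < r)
    {a' : OnePoint K} (ha' : ∀ z : K, a' = z → r ≤ ‖z - c‖) :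
    tauO φ c r ≤ max (nO c r (φ.F a)) (nO c r (φ.F a')) := by
  have hself : ‖c - c‖ ≤ r := by simpa using hr.le
  rw [← cnt_some φ hr a hself, ← cnt_some φ hr a' hself]
  set V := Option.some (Metric.ball c r) with hV
  have hVr : ∃ z, lab c r z = V := ⟨c, mem_dir_self c hr⟩
  have hlt := sV_lt_MV φ hD c hr hVr
  have htM : tauO φ c r ≤ MV φ c r V := by
    unfold tauO tau
    split_ifs
    · exact hlt.le
    · exact Nat.sub_le _ _
  by_cases h1 : cnt φ c r a V = sV φ c r V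
  swap
  · have h1' := cnt_two φ hD c hr hVr a h1
    exact htM.trans (h1'.ge.trans (le_max_left _ _))
  by_cases h2 : cnt φ c r a' V = sV φ c r V
  swap
  · have h2' := cnt_two φ hD c hr hVr a' h2
    exact htM.trans (h2'.ge.trans (le_max_right _ _))
  obtain ⟨b, ρ, hI⟩ := exists_Im φ hD c hr
  have hg : 0 < gn c r φ.Q := gn_pos c hr (Q_ne_zero φ hD)
  have htau : tauO φ c r = sV φ c r V := by
    unfold tauO tau
    rw [if_pos]
    rw [hI.gn_F, wt_coe, mul_le_mul_iff_left₀ hg, mul_le_mul_iff_left₀ hg]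
    rcases le_or_gt r (max ‖c - b‖ ρ) with hσ | hσ
    · left
      refine ⟨?_, hσ⟩
      have h3 := (lab_eq_of_close (a' := a) hI.1 (lt_of_lt_of_le ha hσ)).1
      rw [← hI.cnt_congr hr hD h3]; exact h1
    · right
      refine ⟨?_, hσ.le⟩
      induction a' using OnePoint.rec with
      | infty => exact h2
      | coe z =>
        have h6 := ha' z rfl
        have h7 : ρ < ‖z - b‖ := by
          have e : z - b = (z - c) - (b - c) := by ring
          have h8 : ‖b - c‖ < ‖z - c‖ := by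
            rw [norm_sub_rev]; exact lt_of_lt_of_le (lt_of_le_of_lt (le_max_left _ _) hσ) h6
          rw [e, norm_sub_eq_left h8]
          exact lt_of_lt_of_le (lt_of_le_of_lt (le_max_right _ _) hσ) h6
        rw [← hI.cnt_congr hr hD (a := z) (a' := ∞) (by rw [lab_coe_out h7]; rfl)]; exact h2
  rw [htau, ← h1]
  exact le_max_left _ _

end BerkFix
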