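import Pool.Agent.Lib.MP_edb0ca_an.LocDeg

set_option linter.unusedSectionVars false
set_option linter.unusedVariables false

open Polynomial OnePoint Topology Filter

namespace BerkFix

variable {K : Type*} [NormedField K] [IsUltrametricDist K] [IsAlgClosed K]

/-- if the diameter is attained, the point is of the form `ζ(c,r)` -/
lemma eq_zt_of_attained (y : A1 K) (c : K) (hr : 0 < y (X - C c)) (h : ∀ a : K, y (X - C c) ≤ y (X - C a)) :
    y = zt c (y (X - C c)) hr := by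
  apply A1.ext_lin
  intro a
  rw [zt_lin]
  apply le_antisymm
  · rw [max_comm]; exact y.lin_le a c
  · apply max_le _ (h a)
    have := y.norm_sub_le a c
    exact this.trans (max_le le_rfl (h a))

lemma fixPoly_ne_zero (φ : RMap K) (hD : 2 ≤ φ.deg) : φ.P - X * φ.Q ≠ 0 := by
  intro h
  have hP : φ.P = X * φ.Q := sub_eq_zero.1 h
  have h1 := φ.cop
  rw [hP] at h1
  have h2 : IsUnit φ.Q := by
    have := IsCoprime.of_mul_left_right h1
    rwa [isCoprime_self] at this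
  have h3 := natDegree_eq_zero_of_isUnit h2
  have h4 : φ.P.natDegree ≤ 1 := by
    rw [hP]
    refine natDegree_mul_le.trans ?_
    rw [natDegree_X, h3]
  unfold RMap.deg at hD
  rw [h3] at hD
  omega

/-- card of the part of the fibre in an open ball -/
lemma card_filter_ball (φ : RMap K) (a : OnePoint K) (c : K) (r : ℝ) (p : OnePoint K → Prop) [DecidablePred p]
    (hp : ¬ p ∞) (h : ∀ w : K, p w ↔ ‖w - c‖ < r) : ((φ.fib a).filter p).card = nO c r (φ.F a) := by
  classical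
  unfold RMap.fib
  rw [Multiset.filter_add, Multiset.card_add, Multiset.filter_map, Multiset.card_map, nO,
    Multiset.countP_eq_card_filter]
  have e2 : Multiset.filter p (Multiset.replicate (φ.deg - (φ.F a).natDegree) (∞ : OnePoint K)) = 0 := by
    rw [Multiset.filter_eq_nil]
    intro z hz
    rw [Multiset.eq_of_mem_replicate hz]
    exact hp
  rw [e2, Multiset.card_zero, add_zero]
  congr 1
  apply Multiset.filter_congr
  intro w _
  exact h w

theorem exists_zt_of_fixed [CompleteSpace K] (φ : RMap K) (hD : 2 ≤ φ.deg) {x : P1 K} (hx : Hyp x) (hfix : φ.map x = x)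
    (hloc : 2 ≤ localDegree φ x) : ∃ (c : K) (r : ℝ) (hr : 0 < r), x = (zt c r hr : P1 K) := by
  classical
  have hD1 : 1 ≤ φ.deg := by omega
  induction x using OnePoint.rec with
  | infty => exact absurd hx not_hyp_infty
  | coe y =>
  by_contra hcon
  push Not at hcon
  have hypos : ∀ a : K, 0 < y (X - C a) := fun a => hx.pos (X_sub_C_ne_zero a)
  have hnot : ∀ c : K, ∃ a : K, y (X - C a) < y (X - C c) := by
    intro c
    by_contra hc
    push Not at hc
    exact hcon c _ (hypos c) (by rw [OnePoint.coe_eq_coe]; exact eq_zt_of_attained y c (hypos c) hc)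
  obtain ⟨δ', hδ', hδ'le⟩ := (hyp_iff_diam y).1 hx
  set δ := ⨅ c : K, y (X - C c) with hδ
  have hbdd : BddBelow (Set.range (fun c : K => y (X - C c))) := ⟨δ', by rintro _ ⟨c, rfl⟩; exact hδ'le c⟩
  have hδpos : 0 < δ := lt_of_lt_of_le hδ' (le_ciInf hδ'le)
  have hδlt : ∀ c : K, δ < y (X - C c) := by
    intro c
    obtain ⟨a, ha⟩ := hnot c
    exact lt_of_le_of_lt (ciInf_le hbdd a) ha
  have hδex : ∀ t, δ < t → ∃ c : K, y (X - C c) < t := fun t ht => exists_lt_of_ciInf_lt ht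
  -- the two polynomials
  set g := (φ.P - X * φ.Q) * φ.Q with hg
  have hg0 : g ≠ 0 := mul_ne_zero (fixPoly_ne_zero φ hD) (Q_ne_zero φ hD1)
  obtain ⟨r₀, hr₀δ, hr₀⟩ : ∃ r₀, δ < r₀ ∧ ∀ α ∈ g.roots, r₀ ≤ y (X - C α) := by
    by_cases hne : g.roots.toFinset.Nonempty
    · obtain ⟨α₀, hα₀, hmin⟩ := Finset.exists_min_image g.roots.toFinset (fun α => y (X - C α)) hne
      exact ⟨y (X - C α₀), hδlt α₀, fun α hα => hmin α (Multiset.mem_toFinset.2 hα)⟩
    · refine ⟨δ + 1, by linarith, fun α hα => ?_⟩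
      rw [Finset.not_nonempty_iff_eq_empty] at hne
      have := Multiset.mem_toFinset.2 hα
      rw [hne] at this
      simp at this
  have hr₀pos : 0 < r₀ := hδpos.trans hr₀δ
  -- the smaller radius
  set r₂ := Real.sqrt (r₀ * δ) with hr₂
  have hr₂sq : r₂ ^ 2 = r₀ * δ := Real.sq_sqrt (by positivity)
  have hr₂pos : 0 < r₂ := Real.sqrt_pos.2 (by positivity)
  have hδr₂ : δ < r₂ := by
    rw [hr₂]; apply Real.lt_sqrt_of_sq_lt; nlinarith
  have hr₂r₀ : r₂ < r₀ := by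
    rw [hr₂]; rw [Real.sqrt_lt' hr₀pos]; nlinarith
  obtain ⟨c₂, hc₂⟩ := hδex r₂ hδr₂
  -- no root of g in the ball of radius r₀
  have hnoroot : ∀ α ∈ g.roots, r₀ ≤ ‖α - c₂‖ := by
    intro α hα
    by_contra hlt
    push Not at hlt
    have h1 := hr₀ α hα
    have h2 : y (X - C α) < r₀ := lt_of_le_of_lt (y.lin_le α c₂) (max_lt (hc₂.trans hr₂r₀) hlt)
    linarith
  have hQroots : ∀ α ∈ φ.Q.roots, r₀ ≤ ‖α - c₂‖ := by
    intro α hα
    apply hnoroot
    rw [hg, roots_mul hg0]; exact Multiset.mem_add.2 (Or.inr hα)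
  have hfroots : ∀ α ∈ (φ.P - X * φ.Q).roots, r₀ ≤ ‖α - c₂‖ := by
    intro α hα
    apply hnoroot
    rw [hg, roots_mul hg0]; exact Multiset.mem_add.2 (Or.inl hα)
  -- use the local degree
  set U : Set (P1 K) := (fun y : A1 K => (y : P1 K)) '' {y : A1 K | y (X - C c₂) < r₂} with hU
  have hmemU : (y : P1 K) ∈ U := ⟨y, hc₂, rfl⟩
  have hex : ∃ a : OnePoint K, 2 ≤ ((φ.fib a).filter (fun z => cl z ∈ U)).card := by
    by_contra hno
    push Not at hno
    have : localDegree φ (y : P1 K) ≤ 1 := by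
      apply Nat.sInf_le
      refine ⟨U, isOpen_ob c₂ r₂, hmemU, fun a => ?_⟩
      exact Nat.lt_succ_iff.1 (hno a)
    omega
  obtain ⟨a₂, ha₂⟩ := hex
  have hUmem : ∀ w : K, cl (w : OnePoint K) ∈ U ↔ ‖w - c₂‖ < r₂ := by
    intro w
    constructor
    · rintro ⟨z, hz, hz'⟩
      rw [cl_coe, OnePoint.coe_eq_coe] at hz'
      rw [hz', Set.mem_ofPred_eq, evalPt_apply] at hz
      simpa using hz
    · intro hw
      exact ⟨evalPt w, by rw [Set.mem_ofPred_eq, evalPt_apply]; simpa using hw, rfl⟩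
  have hUinf : ¬ cl (∞ : OnePoint K) ∈ U := by
    rintro ⟨z, _, hz⟩
    simp at hz
  rw [card_filter_ball φ a₂ c₂ r₂ _ hUinf hUmem] at ha₂
  have hnQ : nO c₂ r₀ φ.Q = 0 := by
    unfold nO
    rw [Multiset.countP_eq_zero]
    intro α hα
    exact not_lt.2 (hQroots α hα)
  have hnf : nO c₂ r₀ (φ.P - X * φ.Q) = 0 := by
    unfold nO
    rw [Multiset.countP_eq_zero]
    intro α hα
    exact not_lt.2 (hfroots α hα)
  have hnOmono : ∀ f : K[X], nO c₂ r₂ f ≤ nO c₂ r₀ f := fun f =>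
    (nO_le_nB _ _ _).trans (nB_le_nO c₂ hr₂r₀ f)
  induction a₂ using OnePoint.rec with
  | infty =>
    have := hnOmono φ.Q
    rw [F_infty] at ha₂
    omega
  | coe a₂ =>
  -- estimates
  have hyQ : 0 < y φ.Q := hx.pos (Q_ne_zero φ hD1)
  have hpush : push φ y hyQ.ne' = y := by
    rw [map_of_ne φ y hyQ.ne', OnePoint.coe_eq_coe] at hfix
    exact hfix
  have hyF : y (φ.F a₂) = y (X - C a₂) * y φ.Q := by
    have h1 := push_lin φ y hyQ.ne' a₂
    rw [hpush] at h1
    rw [h1]; field_simp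
  have hgnQ : gn c₂ r₀ φ.Q = y φ.Q := by
    rw [y.eq_prod, gn]
    congr 2
    apply Multiset.map_congr rfl
    intro α hα
    have h1 := hQroots α hα
    rw [max_eq_left h1, y.lin_eq_of_lt (b := c₂)]
    exact lt_of_lt_of_le (hc₂.trans hr₂r₀) h1
  set ya := y (X - C a₂) with hya
  have hyaδ : δ < ya := hδlt a₂
  have hyapos : 0 < ya := hδpos.trans hyaδ
  have h1 : (r₀ / r₂) ^ 2 * (ya * y φ.Q) ≤ gn c₂ r₀ (φ.F a₂) := by
    calc (r₀ / r₂) ^ 2 * (ya * y φ.Q) ≤ (r₀ / r₂) ^ (nB c₂ r₂ (φ.F a₂)) * gn c₂ r₂ (φ.F a₂) := by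
          apply mul_le_mul
          · exact pow_le_pow_right₀ ((one_le_div hr₂pos).2 hr₂r₀.le) (ha₂.trans (nO_le_nB _ _ _))
          · rw [← hyF]; exact y.le_gn hc₂.le _
          · positivity
          · positivity
      _ ≤ gn c₂ r₀ (φ.F a₂) := growth_lo c₂ hr₂pos hr₀pos _
  have h2 : (r₀ / r₂) ^ 2 = r₀ / δ := by
    rw [div_pow, hr₂sq]; field_simp
  rw [h2] at h1
  have h3 : gn c₂ r₀ ((X - C a₂) * φ.Q) < gn c₂ r₀ (φ.F a₂) := by
    refine lt_of_lt_of_le ?_ h1
    rw [gn_mul, gn_X_sub_C, hgnQ, ← mul_assoc]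
    apply mul_lt_mul_of_pos_right _ hyQ
    have h4 : ‖a₂ - c₂‖ ≤ max ya r₂ := (y.norm_sub_le a₂ c₂).trans (max_le_max le_rfl hc₂.le)
    have h5 : r₀ < r₀ / δ * ya := by
      rw [div_mul_eq_mul_div, lt_div_iff₀ hδpos]
      exact mul_lt_mul_of_pos_left hyaδ hr₀pos
    have h6 : ya < r₀ / δ * ya := by
      rw [div_mul_eq_mul_div, lt_div_iff₀ hδpos, mul_comm]
      exact mul_lt_mul_of_pos_right hr₀δ hyapos
    exact max_lt (lt_of_le_of_lt h4 (max_lt h6 (hr₂r₀.trans h5))) h5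
  have h7 : nO c₂ r₀ (φ.P - X * φ.Q) = nO c₂ r₀ (φ.F a₂) := by
    apply nO_congr c₂ hr₀pos
    have : φ.F a₂ - (φ.P - X * φ.Q) = (X - C a₂) * φ.Q := by
      simp only [F_coe]; ring
    rw [this]; exact h3
  have h8 := hnOmono (φ.F a₂)
  omega

end BerkFix
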