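import Pool.Agent.Lib.MP_edb0ca_an.Equi

set_option linter.unusedSectionVars false
set_option linter.unusedVariables false

open Polynomial OnePoint Topology Filter MeasureTheory

namespace BerkFix

section

variable {K : Type*} [NormedField K] [IsUltrametricDist K] [IsAlgClosed K]

variable {R : RMap K} {ρ : Measure (P1 K)}

lemma integral_kap_diff_upper [IsProbabilityMeasure ρ] (c : K) {r r' : ℝ} (hr' : 0 < r') (h : r' < r) :
    gU ρ c r - gU ρ c r' + (Real.log (Mz c r) - Real.log (Mz c r')) ≤ Real.log (r / r') * ρ.real (BO c r) := by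
  have hr : 0 < r := hr'.trans h
  have i1 := integrable_of_continuous (ρ := ρ) (continuous_kz c hr)
  have i2 := integrable_of_continuous (ρ := ρ) (continuous_kz c hr')
  have e1 : gU ρ c r - gU ρ c r' + (Real.log (Mz c r) - Real.log (Mz c r')) =
      ∫ x, (kz c r x - kz c r' x + (Real.log (Mz c r) - Real.log (Mz c r'))) ∂ρ := by
    have i12 : Integrable (fun x => kz c r x - kz c r' x) ρ := i1.sub i2
    rw [integral_add i12 (integrable_const _), integral_sub i1 i2, integral_const, probReal_univ, one_smul]
    rfl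
  rw [e1, mul_comm, ← smul_eq_mul, ← integral_indicator_const _ (measurableSet_BO c r)]
  apply integral_mono
  · exact (i1.sub i2).add (integrable_const _)
  · exact (integrable_const _).indicator (measurableSet_BO c r)
  · intro x
    simp only
    have e2 : kz c r x - kz c r' x + (Real.log (Mz c r) - Real.log (Mz c r')) = kap c r x - kap c r' x := by
      unfold kz; ring
    rw [e2]
    induction x using OnePoint.rec with
    | infty =>
      rw [Set.indicator_of_notMem infty_notMem_BO]; simp
    | coe y =>
      by_cases hy : (y : P1 K) ∈ BO c r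
      · rw [Set.indicator_of_mem hy]
        rw [mem_BO_coe] at hy
        rw [kap_coe, kap_coe, max_eq_right hy.le, Real.log_div hr.ne' hr'.ne']
        have : Real.log r' ≤ Real.log (max (y (X - C c)) r') := Real.log_le_log hr' (le_max_right _ _)
        linarith
      · rw [Set.indicator_of_notMem hy, kap_coe, kap_coe]
        rw [mem_BO_coe, not_lt] at hy
        rw [max_eq_left hy, max_eq_left (h.le.trans hy)]
        linarith

/-- the potentials of two equilibrium measures have the same differences -/
lemma gP_unique [CompleteSpace K] (hR : 2 ≤ R.deg) {ρ₁ ρ₂ : Measure (P1 K)} (h₁ : IsEquilibrium R ρ₁) (h₂ : IsEquilibrium R ρ₂)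
    {x y : P1 K} (hx : IsZt x) (hy : IsZt y) : gP ρ₁ x - gP ρ₁ y = gP ρ₂ x - gP ρ₂ y := by
  have := h₁.prob
  have := h₂.prob
  have h01 := no_atoms (by omega) h₁
  have h02 := no_atoms (by omega) h₂
  have hd : (0 : ℝ) < R.deg := by exact_mod_cast (by omega : 0 < R.deg)
  have key : ∀ ε > 0, |(gP ρ₁ x - gP ρ₁ y) - (gP ρ₂ x - gP ρ₂ y)| ≤ ε := by
    intro ε hε
    have a1 := gP_iter_small hR h01 hx (ε := ε / 4) (by positivity)
    have a2 := gP_iter_small hR h01 hy (ε := ε / 4) (by positivity)
    have a3 := gP_iter_small hR h02 hx (ε := ε / 4) (by positivity)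
    have a4 := gP_iter_small hR h02 hy (ε := ε / 4) (by positivity)
    obtain ⟨n, b1, b2, b3, b4⟩ := (a1.and (a2.and (a3.and a4))).exists
    have c1 := gP_iter (by omega) h₁ n hx hy
    have c2 := gP_iter (by omega) h₂ n hx hy
    have hDn : (0 : ℝ) < (R.deg : ℝ) ^ n := by positivity
    have e1 : (R.deg : ℝ) ^ n * ((gP ρ₁ x - gP ρ₁ y) - (gP ρ₂ x - gP ρ₂ y)) =
        (gP ρ₁ (R.map^[n] x) - gP ρ₁ (R.map^[n] y)) - (gP ρ₂ (R.map^[n] x) - gP ρ₂ (R.map^[n] y)) := by
      rw [mul_sub, c1, c2]; ring
    have e2 : |(R.deg : ℝ) ^ n * ((gP ρ₁ x - gP ρ₁ y) - (gP ρ₂ x - gP ρ₂ y))| ≤ ε * (R.deg : ℝ) ^ n := by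
      rw [e1, abs_le]
      have d1 := abs_le.1 b1
      have d2 := abs_le.1 b2
      have d3 := abs_le.1 b3
      have d4 := abs_le.1 b4
      constructor <;> linarith
    rw [abs_mul, abs_of_pos hDn, mul_comm] at e2
    exact le_of_mul_le_mul_right e2 hDn
  have h0 : |(gP ρ₁ x - gP ρ₁ y) - (gP ρ₂ x - gP ρ₂ y)| ≤ 0 := le_of_forall_pos_le_add (fun ε hε => by
    rw [zero_add]; exact key ε hε)
  have := abs_eq_zero.1 (le_antisymm h0 (abs_nonneg _))
  linarith

lemma BO_le [CompleteSpace K] (hR : 2 ≤ R.deg) {ρ₁ ρ₂ : Measure (P1 K)} (h₁ : IsEquilibrium R ρ₁) (h₂ : IsEquilibrium R ρ₂)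
    (c : K) {r : ℝ} (hr : 0 < r) : ρ₁.real (BO c r) ≤ ρ₂.real (BO c r) := by
  have := h₁.prob
  have := h₂.prob
  apply le_of_forall_pos_le_add
  intro ε hε
  obtain ⟨r', hr', hlt, h⟩ := exists_inner_ball (ρ := ρ₁) c hr hε
  have h1 := integral_kap_diff (ρ := ρ₁) c hr' hlt
  have h2 := integral_kap_diff_upper (ρ := ρ₂) c hr' hlt
  have h3 := gP_unique hR h₁ h₂ (isZt_zt c hr) (isZt_zt c hr')
  rw [gP_zt, gP_zt, gP_zt, gP_zt] at h3
  rw [h3] at h1
  have hlog : 0 < Real.log (r / r') := Real.log_pos (by rw [one_lt_div hr']; exact hlt)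
  have h4 := le_of_mul_le_mul_left (h1.trans h2) hlog
  linarith

lemma BO_eq [CompleteSpace K] (hR : 2 ≤ R.deg) {ρ₁ ρ₂ : Measure (P1 K)} (h₁ : IsEquilibrium R ρ₁) (h₂ : IsEquilibrium R ρ₂)
    (c : K) (r : ℝ) : ρ₁ (BO c r) = ρ₂ (BO c r) := by
  have := h₁.prob
  have := h₂.prob
  by_cases hr : 0 < r
  · have := le_antisymm (BO_le hR h₁ h₂ c hr) (BO_le hR h₂ h₁ c hr)
    rw [measureReal_def, measureReal_def] at this
    exact (ENNReal.toReal_eq_toReal_iff' (measure_ne_top _ _) (measure_ne_top _ _)).1 this
  · have : (BO c r : Set (P1 K)) = ∅ := by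
      ext x
      simp only [Set.mem_empty_iff_false, iff_false]
      intro hx
      induction x using OnePoint.rec with
      | infty => exact infty_notMem_BO hx
      | coe y =>
        rw [mem_BO_coe] at hx
        have := y.nonneg (X - C c)
        linarith
    rw [this, measure_empty, measure_empty]

/-- the collection of open balls -/
def balls (K : Type*) [NormedField K] [IsUltrametricDist K] [IsAlgClosed K] : Set (Set (P1 K)) :=
  {s | ∃ (c : K) (r : ℝ), s = BO c r}

lemma isPiSystem_balls : IsPiSystem (balls K) := by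
  rintro s ⟨c, r, rfl⟩ t ⟨c', r', rfl⟩ hne
  -- nested
  obtain ⟨x, hx1, hx2⟩ := hne
  obtain ⟨y, rfl⟩ : ∃ y : A1 K, x = (y : P1 K) := by
    induction x using OnePoint.rec with
    | infty => exact absurd hx1 infty_notMem_BO
    | coe y => exact ⟨y, rfl⟩
  rw [mem_BO_coe] at hx1 hx2
  have hcc : ‖c - c'‖ < max r r' := lt_of_le_of_lt (y.norm_sub_le c c') (max_lt_max hx1 hx2)
  rcases le_total r r' with h | h
  · rw [max_eq_right h] at hcc
    refine ⟨c, r, ?_⟩
    ext x
    constructor
    · exact fun hx => hx.1
    · intro hx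
      refine ⟨hx, ?_⟩
      induction x using OnePoint.rec with
      | infty => exact absurd hx infty_notMem_BO
      | coe w =>
        rw [mem_BO_coe] at hx ⊢
        refine lt_of_le_of_lt (w.lin_le c' c) (max_lt (lt_of_lt_of_le hx h) ?_)
        rw [norm_sub_rev]; exact hcc
  · rw [max_eq_left h] at hcc
    refine ⟨c', r', ?_⟩
    ext x
    constructor
    · exact fun hx => hx.2
    · intro hx
      refine ⟨?_, hx⟩
      induction x using OnePoint.rec with
      | infty => exact absurd hx infty_notMem_BO
      | coe w =>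
        rw [mem_BO_coe] at hx ⊢
        exact lt_of_le_of_lt (w.lin_le c c') (max_lt (lt_of_lt_of_le hx h) hcc)

/-- the σ-algebra generated by open balls -/
@[reducible] def mballs (K : Type*) [NormedField K] [IsUltrametricDist K] [IsAlgClosed K] : MeasurableSpace (P1 K) :=
  MeasurableSpace.generateFrom (balls K)

lemma mballs_le : mballs K ≤ (borel (P1 K)) := by
  apply MeasurableSpace.generateFrom_le
  rintro s ⟨c, r, rfl⟩
  exact measurableSet_BO c r

lemma mballs_BO (c : K) (r : ℝ) : MeasurableSet[mballs K] (BO c r) :=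
  MeasurableSpace.measurableSet_generateFrom ⟨c, r, rfl⟩

lemma mballs_infty : MeasurableSet[mballs K] ({∞} : Set (P1 K)) := by
  have h : ({∞} : Set (P1 K)) = (⋃ n : ℕ, BO (0 : K) n)ᶜ := by
    ext x
    simp only [Set.mem_singleton_iff, Set.mem_compl_iff, Set.mem_iUnion, not_exists]
    constructor
    · rintro rfl n; exact infty_notMem_BO
    · intro h
      induction x using OnePoint.rec with
      | infty => rfl
      | coe y =>
        exfalso
        obtain ⟨n, hn⟩ := exists_nat_gt (y X)
        apply h n
        rw [mem_BO_coe, A1.lin_zero]; exact hn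
  rw [h]
  exact (MeasurableSet.iUnion (fun n => mballs_BO _ _)).compl

/-- the distance to `c` -/
noncomputable def dd (c : K) : P1 K → ℝ
  | ∞ => 0
  | (y : A1 K) => y (X - C c)

lemma measurable_dd (c : K) : Measurable[mballs K] (dd c) := by
  let _ : MeasurableSpace (P1 K) := mballs K
  apply measurable_of_Iio
  intro t
  by_cases ht : 0 < t
  · have h : dd c ⁻¹' Set.Iio t = BO c t ∪ {∞} := by
      ext x
      induction x using OnePoint.rec with
      | infty => simp [dd, ht]
      | coe y =>
        simp only [Set.mem_preimage, Set.mem_Iio, Set.mem_union, mem_BO_coe, Set.mem_singleton_iff, OnePoint.coe_ne_infty, or_false]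
        rfl
    rw [h]
    exact (mballs_BO c t).union mballs_infty
  · have h : dd c ⁻¹' Set.Iio t = ∅ := by
      ext x
      simp only [Set.mem_preimage, Set.mem_Iio, Set.mem_empty_iff_false, iff_false, not_lt]
      induction x using OnePoint.rec with
      | infty => exact not_lt.1 ht
      | coe y => exact (not_lt.1 ht).trans (y.nonneg _)
    rw [h]
    exact @MeasurableSet.empty _ (mballs K)

lemma measurable_kap_balls (c : K) (r : ℝ) : Measurable[mballs K] (kap c r) := by
  classical
  have h : kap c r = fun x => if x = ∞ then 0 else Real.log (max (dd c x) r) - Real.log (max 1 (dd 0 x)) := by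
    funext x
    induction x using OnePoint.rec with
    | infty => simp
    | coe y =>
      rw [if_neg (OnePoint.coe_ne_infty y), kap_coe]
      have e1 : dd c (y : P1 K) = y (X - C c) := rfl
      have e2 : dd 0 (y : P1 K) = y X := by
        have : dd 0 (y : P1 K) = y (X - C 0) := rfl
        rw [this, A1.lin_zero]
      rw [e1, e2]
  rw [h]
  let _ : MeasurableSpace (P1 K) := mballs K
  apply Measurable.ite
  · exact mballs_infty
  · exact measurable_const
  · apply Measurable.sub
    · exact Real.measurable_log.comp ((measurable_dd c).max measurable_const)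
    · exact Real.measurable_log.comp (measurable_const.max (measurable_dd 0))

/-- the algebra of continuous functions measurable for the σ-algebra generated by balls -/
noncomputable def algB (K : Type*) [NormedField K] [IsUltrametricDist K] [IsAlgClosed K] : Subalgebra ℝ C(P1 K, ℝ) where
  carrier := {u | Measurable[mballs K] (u : P1 K → ℝ)}
  mul_mem' := by
    intro u v hu hv
    let _ : MeasurableSpace (P1 K) := mballs K
    exact Measurable.mul hu hv
  add_mem' := by
    intro u v hu hv
    let _ : MeasurableSpace (P1 K) := mballs K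
    exact Measurable.add hu hv
  algebraMap_mem' := by
    intro t
    let _ : MeasurableSpace (P1 K) := mballs K
    exact measurable_const

lemma measurable_balls_of_continuous (u : C(P1 K, ℝ)) : Measurable[mballs K] (u : P1 K → ℝ) := by
  have h1 : (algB K).topologicalClosure = ⊤ := by
    apply ContinuousMap.subalgebra_topologicalClosure_eq_top_of_separatesPoints
    intro x y hxy
    have h2 : ¬ ∀ (c : K) (r : ℝ), 0 < r → kap c r x = kap c r y := fun h => hxy (kap_sep h)
    push Not at h2
    obtain ⟨c, r, hr, hne⟩ := h2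
    refine ⟨kap c r, ⟨⟨kap c r, continuous_kap c hr⟩, measurable_kap_balls c r, rfl⟩, hne⟩
  have h2 : u ∈ (algB K).topologicalClosure := by rw [h1]; trivial
  have h3 : u ∈ closure ((algB K : Subalgebra ℝ C(P1 K, ℝ)) : Set C(P1 K, ℝ)) := by
    rw [← Subalgebra.topologicalClosure_coe]; exact h2
  obtain ⟨v, hv1, hv2⟩ := mem_closure_iff_seq_limit.1 h3
  apply @measurable_of_tendsto_metrizable _ _ (mballs K) _ _ _ _ (fun n => (v n : P1 K → ℝ)) _ (fun n => hv1 n)
  rw [tendsto_pi_nhds]
  intro x
  exact ((continuous_eval_const x).tendsto u).comp hv2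

/-- uniqueness of the equilibrium measure -/
theorem equilibrium_unique [CompleteSpace K] (hR : 2 ≤ R.deg) {ρ₁ ρ₂ : Measure (P1 K)} (h₁ : IsEquilibrium R ρ₁)
    (h₂ : IsEquilibrium R ρ₂) : ρ₁ = ρ₂ := by
  have := h₁.prob
  have := h₂.prob
  have := h₁.regular
  have := h₂.regular
  have hm : mballs K ≤ (borel (P1 K)) := mballs_le
  have htrim : ρ₁.trim hm = ρ₂.trim hm := by
    apply @ext_of_generate_finite _ (mballs K) _ _ (balls K) rfl isPiSystem_balls
    · rintro s ⟨c, r, rfl⟩
      rw [trim_measurableSet_eq hm (mballs_BO c r), trim_measurableSet_eq hm (mballs_BO c r)]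
      exact BO_eq hR h₁ h₂ c r
    · rw [trim_measurableSet_eq hm MeasurableSet.univ, trim_measurableSet_eq hm MeasurableSet.univ, measure_univ, measure_univ]
  apply Measure.ext_of_integral_eq_on_compactlySupported
  intro f
  have hf : Measurable[mballs K] (f : P1 K → ℝ) := measurable_balls_of_continuous ⟨f, f.continuous⟩
  rw [integral_trim hm hf.stronglyMeasurable, integral_trim hm hf.stronglyMeasurable, htrim]

end

end BerkFix
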