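import Pool.Agent.Lib.MP_edb0ca_an.TypeIV

set_option linter.unusedSectionVars false
set_option linter.unusedVariables false

open Polynomial OnePoint Topology Filter

namespace BerkFix

variable {K : Type*} [NormedField K] [IsUltrametricDist K] [IsAlgClosed K]

/-- being of the form `ζ(c,r)` -/
def IsZt (x : P1 K) : Prop := ∃ (p : K × ℝ) (hr : 0 < p.2), x = (zt p.1 p.2 hr : P1 K)

open Classical in
/-- a centre and radius -/
noncomputable def prm (x : P1 K) : K × ℝ := if h : IsZt x then h.choose else (0, 0)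

lemma prm_spec {x : P1 K} (h : IsZt x) : ∃ hr : 0 < (prm x).2, x = (zt (prm x).1 (prm x).2 hr : P1 K) := by
  unfold prm
  rw [dif_pos h]
  exact h.choose_spec

open Classical in
/-- weight of a point -/
noncomputable def wgt (φ : RMap K) (x : P1 K) : ℕ := if IsZt x then om φ (prm x).1 (prm x).2 else 0

lemma wgt_zt (φ : RMap K) (c : K) {r : ℝ} (hr : 0 < r) : wgt φ (zt c r hr : P1 K) = om φ c r := by
  have h : IsZt (zt c r hr : P1 K) := ⟨(c, r), hr, rfl⟩
  obtain ⟨hr', h1⟩ := prm_spec h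
  unfold wgt
  rw [if_pos h]
  rw [OnePoint.coe_eq_coe, zt_eq_iff] at h1
  rw [← h1.1]
  exact (om_center φ h1.2).symm

lemma Fx_iff_map (φ : RMap K) (hD : 1 ≤ φ.deg) (c : K) {r : ℝ} (hr : 0 < r) :
    Fx φ c r ↔ φ.map (zt c r hr : P1 K) = (zt c r hr : P1 K) := by
  constructor
  · intro h
    exact Im.map_zt hD h
  · intro h
    obtain ⟨b, ρ, hI⟩ := exists_Im φ hD c hr
    rw [hI.map_zt hD, OnePoint.coe_eq_coe, zt_eq_iff] at h
    obtain ⟨h1, h2⟩ := h
    subst h1
    exact Im.center hI (by simpa using hr.le) h2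

/-- the Berkovich open ball -/
def BO (c : K) (r : ℝ) : Set (P1 K) := (fun y : A1 K => (y : P1 K)) '' {y : A1 K | y (X - C c) < r}

lemma mem_BO_coe {c : K} {r : ℝ} {y : A1 K} : (y : P1 K) ∈ BO c r ↔ y (X - C c) < r := by
  constructor
  · rintro ⟨z, hz, hz'⟩
    rw [OnePoint.coe_eq_coe] at hz'
    rw [← hz']; exact hz
  · intro h; exact ⟨y, h, rfl⟩

lemma infty_notMem_BO {c : K} {r : ℝ} : (∞ : P1 K) ∉ BO c r := by
  rintro ⟨z, _, hz⟩
  simp at hz

lemma wgt_sum_aux (φ : RMap K) (T : Finset (P1 K)) : ∃ S : Finset (K × ℝ),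
    ∑ x ∈ T, wgt φ x = ∑ p ∈ S, om φ p.1 p.2 ∧ ∀ p ∈ S, ∃ hr : 0 < p.2, (zt p.1 p.2 hr : P1 K) ∈ T ∧
      prm (zt p.1 p.2 hr : P1 K) = p := by
  classical
  refine ⟨(T.filter (fun x => IsZt x)).image prm, ?_, ?_⟩
  · rw [Finset.sum_image, Finset.sum_filter]
    · apply Finset.sum_congr rfl
      intro x _
      unfold wgt
      rfl
    · intro x hx y hy hxy
      have hx' := (Finset.mem_filter.1 hx).2
      have hy' := (Finset.mem_filter.1 hy).2
      obtain ⟨h1, h2⟩ := prm_spec hx'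
      obtain ⟨h3, h4⟩ := prm_spec hy'
      rw [h2, h4, OnePoint.coe_eq_coe, zt_eq_iff, hxy]
      exact ⟨rfl, by simpa using h3.le⟩
  · intro p hp
    obtain ⟨x, hx, rfl⟩ := Finset.mem_image.1 hp
    have hx' := Finset.mem_filter.1 hx
    obtain ⟨h1, h2⟩ := prm_spec hx'.2
    exact ⟨h1, by rw [← h2]; exact hx'.1, by rw [← h2]⟩

/-- Counting theorem for points of the Berkovich line -/
theorem wgt_count_total (φ : RMap K) (hD : 1 ≤ φ.deg) (T : Finset (P1 K)) (B : Finset (K × ℝ))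
    (hB : ∀ p ∈ B, 0 < p.2) (hBB : ∀ p ∈ B, ∀ q ∈ B, p ≠ q → p.2 ≤ ‖p.1 - q.1‖)
    (hTB : ∀ x ∈ T, ∀ p ∈ B, x ∉ BO p.1 p.2) :
    ∑ x ∈ T, wgt φ x + ∑ p ∈ B, tauO φ p.1 p.2 ≤ φ.deg - 1 := by
  obtain ⟨S, hS1, hS2⟩ := wgt_sum_aux φ T
  rw [hS1]
  apply count_total φ hD S B
  refine ⟨?_, hB, ?_, hBB, ?_⟩
  · intro p hp; exact (hS2 p hp).choose
  · intro p hp q hq hne hpq
    obtain ⟨hp1, hp2, hp3⟩ := hS2 p hp
    obtain ⟨hq1, hq2, hq3⟩ := hS2 q hq
    by_contra hcon
    push Not at hcon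
    apply hne
    rw [← hp3, ← hq3]
    congr 2
    exact zt_eq_iff.2 ⟨hpq, hcon⟩
  · intro p hp q hq hpq
    obtain ⟨hp1, hp2, hp3⟩ := hS2 p hp
    by_contra hcon
    push Not at hcon
    apply hTB _ hp2 q hq
    rw [mem_BO_coe, zt_lin]
    exact max_lt (by rwa [norm_sub_rev]) hcon

theorem wgt_count_inside (φ : RMap K) (hD : 1 ≤ φ.deg) (T : Finset (P1 K)) (c : K) {r : ℝ} (hr : 0 < r)
    (hT : ∀ x ∈ T, x ∈ BO c r) : ∑ x ∈ T, wgt φ x ≤ tauO φ c r := by
  classical
  obtain ⟨S, hS1, hS2⟩ := wgt_sum_aux φ T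
  rw [hS1]
  have h : wtF φ S ∅ ≤ tauO φ c r := by
    apply count_inside φ hD _ S ∅ c r rfl hr
    · refine ⟨?_, by simp, ?_, by simp, by simp⟩
      · intro p hp; exact (hS2 p hp).choose
      · intro p hp q hq hne hpq
        obtain ⟨hp1, hp2, hp3⟩ := hS2 p hp
        obtain ⟨hq1, hq2, hq3⟩ := hS2 q hq
        by_contra hcon
        push Not at hcon
        apply hne
        rw [← hp3, ← hq3]
        congr 2
        exact zt_eq_iff.2 ⟨hpq, hcon⟩
    · refine ⟨?_, ?_, by simp, by simp⟩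
      · intro p hp
        obtain ⟨hp1, hp2, hp3⟩ := hS2 p hp
        have := hT _ hp2
        rw [mem_BO_coe, zt_lin] at this
        rw [norm_sub_rev]
        exact lt_of_le_of_lt (le_max_left _ _) this
      · intro p hp
        obtain ⟨hp1, hp2, hp3⟩ := hS2 p hp
        have := hT _ hp2
        rw [mem_BO_coe, zt_lin] at this
        exact lt_of_le_of_lt (le_max_right _ _) this
  simpa [wtF] using h

lemma wgt_support_finite (φ : RMap K) (hD : 1 ≤ φ.deg) : (Function.support (wgt φ)).Finite := by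
  by_contra hinf
  obtain ⟨T, hT1, hT2⟩ := Set.Infinite.exists_subset_card_eq hinf φ.deg
  have h1 := wgt_count_total φ hD T ∅ (by simp) (by simp) (by simp)
  rw [Finset.sum_empty, add_zero] at h1
  have h2 : T.card ≤ ∑ x ∈ T, wgt φ x := by
    rw [Finset.card_eq_sum_ones]
    apply Finset.sum_le_sum
    intro x hx
    have := hT1 hx
    rw [Function.mem_support] at this
    omega
  omega

open Classical in
/-- the finite support of the weight -/
noncomputable def spt (φ : RMap K) : Finset (P1 K) :=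
  if h : (Function.support (wgt φ)).Finite then h.toFinset else ∅

lemma mem_spt {φ : RMap K} (hD : 1 ≤ φ.deg) {x : P1 K} : x ∈ spt φ ↔ wgt φ x ≠ 0 := by
  unfold spt
  rw [dif_pos (wgt_support_finite φ hD), Set.Finite.mem_toFinset, Function.mem_support]

lemma exists_of_wgt_ne {φ : RMap K} (hD : 1 ≤ φ.deg) {x : P1 K} (h : wgt φ x ≠ 0) :
    ∃ (c : K) (r : ℝ) (hr : 0 < r), x = (zt c r hr : P1 K) ∧ Fx φ c r ∧ 2 ≤ mu φ c r ∧ wgt φ x = mu φ c r - 1 := by
  have h1 : IsZt x := by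
    by_contra h0
    unfold wgt at h
    rw [if_neg h0] at h
    exact h rfl
  obtain ⟨hr, h2⟩ := prm_spec h1
  refine ⟨_, _, hr, h2, ?_⟩
  have h3 : wgt φ x = om φ (prm x).1 (prm x).2 := by
    unfold wgt; rw [if_pos h1]
  rw [h3] at h ⊢
  unfold om at h ⊢
  by_cases h4 : Fx φ (prm x).1 (prm x).2
  · rw [if_pos h4] at h ⊢
    exact ⟨h4, by omega, rfl⟩
  · rw [if_neg h4] at h; exact absurd rfl h

/-- total weight -/
noncomputable def Wt (φ : RMap K) : ℕ := ∑ x ∈ spt φ, wgt φ x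

lemma Wt_le (φ : RMap K) (hD : 1 ≤ φ.deg) : Wt φ ≤ φ.deg - 1 := by
  have h1 := wgt_count_total φ hD (spt φ) ∅ (by simp) (by simp) (by simp)
  rwa [Finset.sum_empty, add_zero] at h1

/-- the quantity of the problem is bounded by twice the total weight -/
theorem tsum_le_Wt [CompleteSpace K] (R : RMap K) (hR : 2 ≤ R.deg) (n : ℕ) (hn : 1 ≤ n) :
    ∑' x : RFixH R n, (localDegree (iter R n) (x : P1 K) : ENNReal) ≤ 2 * (Wt (iter R n) : ENNReal) := by
  classical
  have hD : 2 ≤ (iter R n).deg := by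
    rw [deg_iter]
    calc 2 ≤ R.deg := hR
      _ ≤ R.deg ^ n := Nat.le_self_pow (by omega) _
  have hD1 : 1 ≤ (iter R n).deg := by omega
  rw [tsum_subtype (RFixH R n) (fun x => (localDegree (iter R n) x : ENNReal))]
  have hle : ∀ x : P1 K, (RFixH R n).indicator (fun x => (localDegree (iter R n) x : ENNReal)) x ≤
      2 * (wgt (iter R n) x : ENNReal) := by
    intro x
    by_cases hx : x ∈ RFixH R n
    · rw [Set.indicator_of_mem hx]
      obtain ⟨h1, h2, h3⟩ := hx
      have hfix : (iter R n).map x = x := by rw [map_iter]; exact h2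
      obtain ⟨c, r, hr, rfl⟩ := exists_zt_of_fixed (iter R n) hD h1 hfix h3
      rw [wgt_zt]
      have h4 := localDegree_zt_le (iter R n) hD1 c hr
      have h5 : om (iter R n) c r = mu (iter R n) c r - 1 := by
        unfold om
        rw [if_pos ((Fx_iff_map (iter R n) hD1 c hr).2 hfix)]
      rw [h5]
      have h6 : localDegree (iter R n) (zt c r hr : P1 K) ≤ 2 * (mu (iter R n) c r - 1) := by omega
      calc (localDegree (iter R n) (zt c r hr : P1 K) : ENNReal) ≤ ((2 * (mu (iter R n) c r - 1) : ℕ) : ENNReal) := by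
            exact_mod_cast h6
        _ = _ := by push_cast; rfl
    · rw [Set.indicator_of_notMem hx]; exact zero_le
  calc ∑' x : P1 K, (RFixH R n).indicator (fun x => (localDegree (iter R n) x : ENNReal)) x
      ≤ ∑' x : P1 K, 2 * (wgt (iter R n) x : ENNReal) := ENNReal.tsum_le_tsum hle
    _ = ∑ x ∈ spt (iter R n), 2 * (wgt (iter R n) x : ENNReal) := by
        apply tsum_eq_sum
        intro x hx
        rw [mem_spt hD1, not_not] at hx
        rw [hx]; simp
    _ = 2 * (Wt (iter R n) : ENNReal) := by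
        rw [Wt, ← Finset.mul_sum]; push_cast; rfl

/-- invariance of the weights -/
theorem wgt_map (R : RMap K) (hR : 1 ≤ R.deg) (n : ℕ) {x : P1 K} (hx : wgt (iter R n) x ≠ 0) :
    wgt (iter R n) (R.map x) = wgt (iter R n) x := by
  have hD : 1 ≤ (iter R n).deg := deg_iter_pos R hR n
  obtain ⟨c, r, hr, rfl, hF, hmu, hw⟩ := exists_of_wgt_ne hD hx
  obtain ⟨b, ρ, hI⟩ := exists_Im R hR c hr
  have hρ := hI.1
  rw [hI.map_zt hR, wgt_zt, hw]
  -- the image is fixed
  have hfix : Fx (iter R n) b ρ := by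
    rw [Fx_iff_map (iter R n) hD b hρ, ← hI.map_zt hR (hr := hr), map_iter, ← Function.iterate_succ_apply,
      Function.iterate_succ_apply', ← map_iter, (Fx_iff_map (iter R n) hD c hr).1 hF]
  have h1 : mu (iter R (n + 1)) c r = mu R c r * mu (iter R n) c r := by
    rw [iter]; exact mu_comp hD hR hr hF
  have h2 : mu (iter R (n + 1)) c r = mu (iter R n) b ρ * mu R c r := by
    rw [iter_succ' R hR]; exact mu_comp hR hD hr hI
  have h3 : mu (iter R n) b ρ = mu (iter R n) c r := by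
    have h4 := mu_pos R hR c hr
    have h5 : mu R c r * mu (iter R n) b ρ = mu R c r * mu (iter R n) c r := by
      rw [← h1, h2, mul_comm]
    exact Nat.eq_of_mul_eq_mul_left h4 h5
  unfold om
  rw [if_pos hfix, h3]

lemma fixed_of_wgt {φ : RMap K} (hD : 1 ≤ φ.deg) {x : P1 K} (h : wgt φ x ≠ 0) : φ.map x = x := by
  obtain ⟨c, r, hr, rfl, hF, _, _⟩ := exists_of_wgt_ne hD h
  exact (Fx_iff_map φ hD c hr).1 hF

/-- sums of a function against the weights are invariant -/
theorem sum_wgt_comp (R : RMap K) (hR : 1 ≤ R.deg) {n : ℕ} (hn : 1 ≤ n) (u : P1 K → ℝ) :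
    ∑ x ∈ spt (iter R n), (wgt (iter R n) x : ℝ) * u (R.map x) = ∑ x ∈ spt (iter R n), (wgt (iter R n) x : ℝ) * u x := by
  classical
  have hD : 1 ≤ (iter R n).deg := deg_iter_pos R hR n
  have hmaps : ∀ x ∈ spt (iter R n), R.map x ∈ spt (iter R n) := by
    intro x hx
    rw [mem_spt hD] at hx ⊢
    rw [wgt_map R hR n hx]; exact hx
  have hper : ∀ x ∈ spt (iter R n), R.map^[n] x = x := by
    intro x hx
    rw [mem_spt hD] at hx
    rw [← map_iter]; exact fixed_of_wgt hD hx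
  have hinj : Set.InjOn R.map (spt (iter R n)) := by
    intro x hx y hy hxy
    have h1 := hper x hx
    have h2 := hper y hy
    obtain ⟨m, rfl⟩ : ∃ m, n = m + 1 := ⟨n - 1, by omega⟩
    rw [Function.iterate_succ_apply] at h1 h2
    rw [← h1, ← h2, hxy]
  have himg : (spt (iter R n)).image R.map = spt (iter R n) := by
    apply Finset.eq_of_subset_of_card_le
    · intro y hy
      obtain ⟨x, hx, rfl⟩ := Finset.mem_image.1 hy
      exact hmaps x hx
    · rw [Finset.card_image_of_injOn hinj]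
  conv_rhs => rw [← himg, Finset.sum_image hinj]
  apply Finset.sum_congr rfl
  intro x hx
  rw [wgt_map R hR n ((mem_spt hD).1 hx)]

end BerkFix
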